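import Pool.Agent.P.MP_7a6434d8_pr.QL.BM.ExcLim

/-!
Finite-dimensional convergence of the uniform Dyck path to the law with density `excDens`.
-/

namespace Pool.Agent.QL.BM.Exc

open Filter Topology Real Finset MeasureTheory
open scoped unitInterval ENNReal BoundedContinuousFunction

theorem ht_even {l : List Bool} {i : ℕ} (h : i ≤ l.length) : Even (ht l i + i) := by
  induction i with
  | zero => simp
  | succ i ih =>
    rw [ht_succ (by omega)]
    have := ih (by omega)
    push_cast
    rw [show ht l i + sg l[i] + ((i : ℤ) + 1) = ht l i + i + (sg l[i] + 1) by ring]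
    refine this.add ?_
    cases l[i] <;> simp [sg]

theorem mem_Dy {n : ℕ} {l : List Bool} :
    l ∈ Dy n ↔ l.length = 2 * n ∧ (∀ j ≤ 2 * n, 0 ≤ ht l j) ∧ ht l (2 * n) = 0 := by
  simp [Dy, Pos, mem_Ws]

/-- the lattice point with the parity of `i` below `y` -/
noncomputable def lat (i : ℕ) (y : ℝ) : ℤ := i + 2 * ⌊(y - i) / 2⌋

theorem lat_even (i : ℕ) (y : ℝ) : Even (lat i y + i) := by
  rw [lat, show (i : ℤ) + 2 * ⌊(y - i) / 2⌋ + i = 2 * (⌊(y - i) / 2⌋ + i) by ring]
  exact even_two_mul _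

theorem lat_le (i : ℕ) (y : ℝ) : (lat i y : ℝ) ≤ y := by
  have := Int.floor_le ((y - i) / 2)
  rw [lat]; push_cast; linarith

theorem lt_lat (i : ℕ) (y : ℝ) : y < lat i y + 2 := by
  have := Int.lt_floor_add_one ((y - i) / 2)
  rw [lat]; push_cast; linarith

theorem lat_eq_iff {i : ℕ} {z : ℤ} (h : Even (z + i)) (y : ℝ) :
    z = lat i y ↔ (z : ℝ) ≤ y ∧ y < z + 2 := by
  constructor
  · rintro rfl; exact ⟨lat_le i y, lt_lat i y⟩
  · rintro ⟨h1, h2⟩
    have h3 := lat_le i y
    have h4 := lt_lat i y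
    have h5 : (z : ℝ) < lat i y + 2 := by linarith
    have h6 : (lat i y : ℝ) < z + 2 := by linarith
    have h5' : z < lat i y + 2 := by exact_mod_cast h5
    have h6' : lat i y < z + 2 := by exact_mod_cast h6
    obtain ⟨a, ha⟩ := h
    obtain ⟨b, hb⟩ := lat_even i y
    omega

theorem measurable_lat (i : ℕ) : Measurable (lat i) := by
  unfold lat
  exact measurable_const.add (measurable_const.mul (Int.measurable_floor.comp (by fun_prop)))

theorem tendsto_lat (ti : ℕ → ℕ) (x : ℝ) :
    Tendsto (fun n : ℕ => (lat (ti n) (x * √(2 * (n : ℝ))) : ℝ) / √(2 * (n : ℝ))) atTop (𝓝 x) := by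
  have hs := tendsto_sq
  have h1 : Tendsto (fun n : ℕ => x - 2 / √(2 * (n : ℝ))) atTop (𝓝 x) := by
    simpa using tendsto_const_nhds (x := x).sub (tendsto_const_nhds (x := (2 : ℝ)).div_atTop hs)
  refine tendsto_of_tendsto_of_tendsto_of_le_of_le' h1 tendsto_const_nhds ?_ ?_
  · filter_upwards [hs.eventually_gt_atTop 0] with n hn
    rw [le_div_iff₀ hn, sub_mul, div_mul_cancel₀ _ hn.ne']
    linarith [lt_lat (ti n) (x * √(2 * (n : ℝ)))]
  · filter_upwards [hs.eventually_gt_atTop 0] with n hn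
    rw [div_le_iff₀ hn]
    exact lat_le _ _

theorem vol_cell {k : ℕ} {s : ℝ} (hs : 0 < s) (ti : Fin k → ℕ) (z : Fin k → ℤ)
    (h : ∀ j, Even (z j + ti j)) :
    volume {x : Fin k → ℝ | ∀ j, z j = lat (ti j) (x j * s)} = ENNReal.ofReal ((2 / s) ^ k) := by
  have e : {x : Fin k → ℝ | ∀ j, z j = lat (ti j) (x j * s)} =
      Set.pi Set.univ (fun j => Set.Ico ((z j : ℝ) / s) ((z j + 2) / s)) := by
    ext x
    simp only [Set.mem_ofPred_eq, Set.mem_pi, Set.mem_univ, true_imp_iff, Set.mem_Ico]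
    refine forall_congr' fun j => ?_
    rw [lat_eq_iff (h j), div_le_iff₀ hs, lt_div_iff₀ hs]
  rw [e, Real.volume_pi_Ico]
  have : ∀ j, ((z j : ℝ) + 2) / s - z j / s = 2 / s := fun j => by ring
  simp only [this, prod_const, card_univ, Fintype.card_fin]
  rw [ENNReal.ofReal_pow (by positivity)]

/-- a sum over Dyck paths as an integral of a step function -/
theorem lint_step {n k : ℕ} {s : ℝ} (hs : 0 < s) (ti : Fin k → ℕ) (hti : ∀ j, ti j ≤ 2 * n)
    (G : (Fin k → ℤ) → ℝ) (hG : ∀ z, 0 ≤ G z) :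
    ∫⁻ x : Fin k → ℝ, ENNReal.ofReal ((s / 2) ^ k *
      ((cnt n ti (fun j => lat (ti j) (x j * s)) : ℝ) / (Dy n).card) *
        G (fun j => lat (ti j) (x j * s))) =
      ENNReal.ofReal ((∑ l ∈ Dy n, G (fun j => ht l (ti j))) / (Dy n).card) := by
  classical
  have hm : ∀ z : Fin k → ℤ, MeasurableSet {x : Fin k → ℝ | ∀ j, z j = lat (ti j) (x j * s)} := by
    intro z
    rw [Set.ofPred_forall]
    refine MeasurableSet.iInter fun j => ?_
    have h0 : Measurable (fun x : Fin k → ℝ => x j * s) := by fun_prop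
    have h1 : Measurable (fun x : Fin k → ℝ => lat (ti j) (x j * s)) :=
      (measurable_lat _).comp h0
    exact measurableSet_eq_fun measurable_const h1
  have e : ∀ x : Fin k → ℝ, ENNReal.ofReal ((s / 2) ^ k *
      ((cnt n ti (fun j => lat (ti j) (x j * s)) : ℝ) / (Dy n).card) *
        G (fun j => lat (ti j) (x j * s))) =
      ∑ l ∈ Dy n, Set.indicator {x : Fin k → ℝ | ∀ j, ht l (ti j) = lat (ti j) (x j * s)}
        (fun _ => ENNReal.ofReal ((s / 2) ^ k / (Dy n).card * G (fun j => ht l (ti j)))) x := by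
    intro x
    have e2 : (s / 2) ^ k * ((cnt n ti (fun j => lat (ti j) (x j * s)) : ℝ) / (Dy n).card) *
        G (fun j => lat (ti j) (x j * s)) =
        ∑ l ∈ Dy n, if ∀ j, ht l (ti j) = lat (ti j) (x j * s) then
          (s / 2) ^ k / (Dy n).card * G (fun j => ht l (ti j)) else 0 := by
      rw [← sum_filter, sum_congr rfl (g := fun _ => (s / 2) ^ k / (Dy n).card *
        G (fun j => lat (ti j) (x j * s))), sum_const, cnt, nsmul_eq_mul]
      · ring
      · intro l hl
        rw [funext (mem_filter.1 hl).2]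
    rw [e2, ENNReal.ofReal_sum_of_nonneg]
    · refine sum_congr rfl fun l _ => ?_
      simp only [Set.indicator, Set.mem_ofPred_eq]
      split_ifs <;> simp
    · intro l _
      have := hG (fun j => ht l (ti j))
      split_ifs
      · positivity
      · exact le_rfl
  simp only [e]
  rw [lintegral_finsetSum _ (fun l _ => measurable_const.indicator (hm _)), sum_div,
    ENNReal.ofReal_sum_of_nonneg (fun l _ => div_nonneg (hG _) (Nat.cast_nonneg _))]
  refine sum_congr rfl fun l hl => ?_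
  have := hG (fun j => ht l (ti j))
  rw [lintegral_indicator_const (hm _), vol_cell hs ti _
    (fun j => ht_even (by rw [(mem_Dy.1 hl).1]; exact hti j)),
    ← ENNReal.ofReal_mul (by positivity)]
  congr 1
  have h1 : (s / 2) ^ k * (2 / s) ^ k = 1 := by
    rw [← mul_pow, div_mul_div_cancel₀ two_ne_zero, div_self hs.ne', one_pow]
  linear_combination (G (fun j => ht l (ti j)) / (Dy n).card) * h1

theorem measurable_excDens (k : ℕ) (t : Fin (k + 1) → I) : Measurable (excDens k t) := by
  unfold excDens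
  refine Measurable.ite ?_ ?_ measurable_const
  · rw [Set.ofPred_forall]
    exact MeasurableSet.iInter fun j => measurableSet_lt measurable_const (measurable_pi_apply j)
  · refine Measurable.ennreal_ofReal (Continuous.measurable ?_)
    unfold qHit pKill bmDens
    fun_prop

theorem fdd_lower {k : ℕ} {t : Fin (k + 1) → I} (hmono : StrictMono t)
    (h01 : ∀ i, 0 < t i ∧ t i < 1) {ti : ℕ → Fin (k + 1) → ℕ}
    (hti : ∀ j, Tendsto (fun n : ℕ => (ti n j : ℝ) / (2 * n)) atTop (𝓝 (t j)))
    (F : (Fin (k + 1) → ℝ) → ℝ) (hF : Continuous F) (hF0 : ∀ x, 0 ≤ F x) :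
    ∫⁻ x, ENNReal.ofReal (F x) ∂(volume.withDensity (excDens k t)) ≤
      liminf (fun n : ℕ => ENNReal.ofReal ((∑ l ∈ Dy n,
        F (fun j => (ht l (ti n j) : ℝ) / √(2 * (n : ℝ)))) / (Dy n).card)) atTop := by
  set f : ℕ → (Fin (k + 1) → ℝ) → ℝ≥0∞ := fun n x =>
    ENNReal.ofReal ((√(2 * (n : ℝ)) / 2) ^ (k + 1) *
      ((cnt n (ti n) (fun j => lat (ti n j) (x j * √(2 * (n : ℝ)))) : ℝ) / (Dy n).card) *
        F (fun j => (lat (ti n j) (x j * √(2 * (n : ℝ))) : ℝ) / √(2 * (n : ℝ)))) with hf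
  have hfm : ∀ n, Measurable (f n) := by
    intro n
    have h1 : Measurable (fun (x : Fin (k + 1) → ℝ) j => lat (ti n j) (x j * √(2 * (n : ℝ)))) :=
      measurable_pi_lambda _ fun j =>
        (measurable_lat _).comp ((measurable_pi_apply j).mul_const _)
    exact (measurable_of_countable (fun z : Fin (k + 1) → ℤ =>
      ENNReal.ofReal ((√(2 * (n : ℝ)) / 2) ^ (k + 1) * ((cnt n (ti n) z : ℝ) / (Dy n).card) *
        F (fun j => (z j : ℝ) / √(2 * (n : ℝ)))))).comp h1
  have h1 : ∀ x, excDens k t x * ENNReal.ofReal (F x) ≤ liminf (fun n => f n x) atTop := by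
    intro x
    by_cases hx : ∀ i, 0 < x i
    · have h2 := lim_cnt hmono h01 hti (z := fun n j => lat (ti n j) (x j * √(2 * (n : ℝ)))) hx
        (fun j => tendsto_lat (fun n => ti n j) (x j)) (fun n j => lat_even _ _)
      have h3 : Tendsto (fun n : ℕ =>
          F (fun j => (lat (ti n j) (x j * √(2 * (n : ℝ))) : ℝ) / √(2 * (n : ℝ)))) atTop
          (𝓝 (F x)) :=
        (hF.tendsto x).comp (tendsto_pi_nhds.2 fun j => tendsto_lat (fun n => ti n j) (x j))
      have h4 := (ENNReal.tendsto_ofReal (h2.mul h3)).liminf_eq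
      simp only [hf]
      rw [h4, excDens, if_pos hx, ENNReal.ofReal_mul' (hF0 x)]
    · rw [excDens, if_neg hx, zero_mul]; exact bot_le
  rw [lintegral_withDensity_eq_lintegral_mul _ (measurable_excDens k t)
    hF.measurable.ennreal_ofReal]
  refine (lintegral_mono h1).trans ((lintegral_liminf_le hfm).trans (le_of_eq ?_))
  refine liminf_congr ?_
  filter_upwards [ev_times hmono h01 hti, tendsto_sq.eventually_gt_atTop 0] with n hn hs
  exact lint_step hs (ti n) hn.2 (fun z => F (fun j => (z j : ℝ) / √(2 * (n : ℝ))))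
    (fun z => hF0 _)

/-- finite-dimensional convergence of the rescaled uniform Dyck path -/
theorem fdd {k : ℕ} {t : Fin (k + 1) → I} (hmono : StrictMono t)
    (h01 : ∀ i, 0 < t i ∧ t i < 1) {μ : Measure (Fin (k + 1) → ℝ)} [IsProbabilityMeasure μ]
    (hμ : μ = volume.withDensity (excDens k t)) {ti : ℕ → Fin (k + 1) → ℕ}
    (hti : ∀ j, Tendsto (fun n : ℕ => (ti n j : ℝ) / (2 * n)) atTop (𝓝 (t j)))
    (F : (Fin (k + 1) → ℝ) →ᵇ ℝ) :
    Tendsto (fun n : ℕ => (∑ l ∈ Dy n, F (fun j => (ht l (ti n j) : ℝ) / √(2 * (n : ℝ)))) /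
      (Dy n).card) atTop (𝓝 (∫ x, F x ∂μ)) := by
  have low : ∀ G : (Fin (k + 1) → ℝ) →ᵇ ℝ, (∀ x, 0 ≤ G x) → ∀ c < ∫ x, G x ∂μ,
      ∀ᶠ n : ℕ in atTop, c < (∑ l ∈ Dy n, G (fun j => (ht l (ti n j) : ℝ) / √(2 * (n : ℝ)))) /
        (Dy n).card := by
    intro G hG c hc
    have h := fdd_lower hmono h01 hti G G.continuous hG
    rw [← hμ, ← ofReal_integral_eq_lintegral_ofReal (G.integrable μ) (Eventually.of_forall hG)] at h
    rcases lt_or_ge c 0 with h0 | h0
    · exact Eventually.of_forall fun n => h0.trans_le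
        (div_nonneg (sum_nonneg fun l _ => hG _) (Nat.cast_nonneg _))
    · have h1 : ENNReal.ofReal c < ENNReal.ofReal (∫ x, G x ∂μ) :=
        (ENNReal.ofReal_lt_ofReal_iff_of_nonneg h0).2 hc
      filter_upwards [eventually_lt_of_lt_liminf (h1.trans_le h)] with n hn
      exact (ENNReal.ofReal_lt_ofReal_iff_of_nonneg h0).1 hn
  have hc : ∀ n, (0 : ℝ) < (Dy n).card := fun n => by exact_mod_cast card_Dy_pos n
  have hb : ∀ x, -‖F‖ ≤ F x ∧ F x ≤ ‖F‖ := fun x => abs_le.1 (F.norm_coe_le_norm x)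
  refine tendsto_order.2 ⟨fun c hc' => ?_, fun c hc' => ?_⟩
  · have h := low (F + BoundedContinuousFunction.const _ ‖F‖)
      (fun x => by simp; linarith [(hb x).1]) (c + ‖F‖) (by
        simp only [BoundedContinuousFunction.add_apply, BoundedContinuousFunction.const_apply]
        rw [integral_add (F.integrable μ) (integrable_const _)]
        simpa using hc')
    filter_upwards [h] with n hn
    simp only [BoundedContinuousFunction.add_apply, BoundedContinuousFunction.const_apply,
      sum_add_distrib, sum_const, nsmul_eq_mul] at hn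
    rw [add_div, mul_div_cancel_left₀ _ (hc n).ne'] at hn
    linarith
  · have h := low (BoundedContinuousFunction.const _ ‖F‖ - F)
      (fun x => by simp; linarith [(hb x).2]) (‖F‖ - c) (by
        simp only [BoundedContinuousFunction.sub_apply, BoundedContinuousFunction.const_apply]
        rw [integral_sub (integrable_const _) (F.integrable μ)]
        simpa using hc')
    filter_upwards [h] with n hn
    simp only [BoundedContinuousFunction.sub_apply, BoundedContinuousFunction.const_apply,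
      sum_sub_distrib, sum_const, nsmul_eq_mul] at hn
    rw [sub_div, mul_div_cancel_left₀ _ (hc n).ne'] at hn
    linarith

end Pool.Agent.QL.BM.Exc
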