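import Pool.Agent.P.MP_7a6434d8_pr.QL.BM.Stmts
import Pool.Agent.P.MP_7a6434d8_pr.QL.BM.ExcFdd

/-! Block EXC: finite-dimensional convergence of the contour to the normalised excursion. -/

open MeasureTheory ProbabilityTheory Set Filter Topology
open scoped ENNReal unitInterval BoundedContinuousFunction

namespace Pool.Agent.QL.BM

theorem exc_integral_unif {X : Type} [Fintype X] [MeasurableSpace X] [DiscreteMeasurableSpace X]
    (G : X → ℝ) : ∫ x, G x ∂(uniformOn univ : Measure X) = (∑ x, G x) / Fintype.card X := by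
  rw [integral_fintype Integrable.of_finite, Finset.sum_div]
  refine Finset.sum_congr rfl fun x _ => ?_
  rw [measureReal_def, uniformOn_univ, Measure.count_singleton]
  simp [div_eq_inv_mul]

theorem exc_sum_TT {n : ℕ} (hn : 1 ≤ n) (G : List Bool → ℝ) :
    ∑ x : TT n, G x.2.1.1 = 2 * 3 ^ (2 * n) * ∑ l ∈ Exc.Dy n, G l := by
  have h1 : ∑ x : TT n, G x.2.1.1 =
      ∑ x : Bool × DyW n × (Fin (2 * n) → Fin 3), G x.2.1.1 := rfl
  have h2 : ∑ w : DyW n, G w.1 = ∑ l ∈ Exc.Dy n, G l := by
    rw [Finset.sum_coe_sort ((Exc.Dy n).filter fun _ => 1 ≤ n) G,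
      Finset.filter_true_of_mem fun _ _ => hn]
  rw [h1, Fintype.sum_prod_type]
  simp only [Fintype.sum_prod_type, Finset.sum_const, Finset.card_univ, Fintype.card_pi,
    Fintype.card_fin, Finset.prod_const, Fintype.card_bool, nsmul_eq_mul]
  rw [← Finset.mul_sum, h2]
  push_cast
  ring

theorem exc_integral_lamT {n : ℕ} (hn : 1 ≤ n) (G : List Bool → ℝ) :
    ∫ x, G x.2.1.1 ∂lamT n = (∑ l ∈ Exc.Dy n, G l) / (Exc.Dy n).card := by
  have h := exc_sum_TT hn fun _ => 1
  simp only [Finset.sum_const, Finset.card_univ, nsmul_eq_mul, mul_one] at h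
  rw [lamT, exc_integral_unif, exc_sum_TT hn, h, mul_div_mul_left _ _ (by positivity)]

theorem exc_tendsto_stepAt (s : I) :
    Tendsto (fun n : ℕ => (stepAt n s : ℝ) / (2 * n)) atTop (𝓝 s) := by
  have h := (tendsto_nat_floor_mul_div_atTop s.2.1).comp
    (tendsto_natCast_atTop_atTop.const_mul_atTop (two_pos (α := ℝ)))
  refine h.congr fun n => ?_
  simp only [Function.comp_apply, stepAt, mul_comm]

theorem exc : ExcStmt := by
  intro S hS k t hmono h01 F
  have := hS.prob
  have hm : Measurable fun (y : Snake) i => y.1 (t i) :=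
    measurable_pi_lambda _ fun i => Snake.measurable_e (t i)
  have : IsProbabilityMeasure (S.map fun y i => y.1 (t i)) :=
    Measure.isProbabilityMeasure_map hm.aemeasurable
  have h := Exc.fdd hmono h01 (hS.exc k t hmono h01) (ti := fun n j => stepAt n (t j))
    (fun j => exc_tendsto_stepAt (t j)) F
  rw [integral_map hm.aemeasurable F.continuous.aestronglyMeasurable] at h
  refine h.congr' ?_
  filter_upwards [eventually_ge_atTop 1] with n hn
  simp only [div_eq_inv_mul _ (√(2 * (n : ℝ)))]
  exact (exc_integral_lamT hn fun l =>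
    F fun j => (√(2 * n))⁻¹ * Exc.ht l (stepAt n (t j))).symm

end Pool.Agent.QL.BM
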