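import Pool.Agent.P.MP_7a6434d8_pr.QL.BM.CvsC
import Pool.Agent.P.MP_7a6434d8_pr.ZLink0
import Pool.Agent.P.MP_7a6434d8_pr.LinkC

/-! The Cori-Vauquelin-Schaeffer bijection for discs of perimeter two and for pointed rooted
quadrangulations. -/

namespace Pool.Agent.QL.BM

open Pool.Agent.P.MP_7a6434d8_pr Mp Finset LTree

theorem LTree.lab_step (T : LTree) (i : ℕ) (hi : i < 2 * sz T) :
    |lab T (i + 1) - lab T i| ≤ 1 := by
  induction T generalizing i with
  | leaf => exact absurd hi (Nat.not_lt_zero _)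
  | node d a b iha ihb =>
    have e : sz (node d a b) = sz a + sz b + 1 := rfl
    have hd : (d : ℕ) < 3 := d.2
    rcases idx_cases (sz a) i with rfl | ⟨j, hj, rfl⟩ | ⟨j, rfl⟩
    · rw [lab_fst _ _ _ (Nat.zero_le _), lab_zero, lab_zero, abs_le]
      omega
    · rcases hj.lt_or_eq with h | rfl
      · have := iha j h
        rw [lab_fst _ _ _ hj, lab_fst _ _ _ (show j + 1 ≤ _ from h)]
        rw [abs_le] at this ⊢
        omega
      · rw [lab_fst _ _ _ hj, lab_end, show 2 * sz a + 1 + 1 = 2 * sz a + 2 + 0 from rfl, lab_snd,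
          lab_zero, abs_le]
        omega
    · rw [add_assoc _ j, lab_snd, lab_snd]
      exact ihb j (by omega)

/-- a map with a right inverse between finite sets, the source being not larger -/
theorem cvs_count {α β : Type} (S : Finset α) (U : Finset β) (f : α → β) (P : α → Prop)
    (h : ∀ y ∈ U, ∃ x ∈ S, f x = y ∧ P x) (hc : S.card ≤ U.card) :
    Set.BijOn f S U ∧ ∀ x ∈ S, P x := by
  classical
  choose! g g1 g2 g3 using fun y : U => h y.1 y.2
  have gi : Function.Injective g := fun y y' e => Subtype.ext (by rw [← g2 y, e, g2 y'])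
  have e : univ.image g = S := eq_of_subset_of_card_le
    (fun x hx => by obtain ⟨y, -, rfl⟩ := mem_image.1 hx; exact g1 y)
    (by rwa [card_image_of_injective _ gi, card_univ, Fintype.card_coe])
  have k : ∀ x ∈ S, ∃ y, g y = x := fun x hx => by
    obtain ⟨y, -, h⟩ := mem_image.1 (e ▸ hx)
    exact ⟨y, h⟩
  refine ⟨⟨fun x hx => ?_, fun x hx x' hx' hh => ?_, fun y hy => ⟨g ⟨y, hy⟩, g1 _, g2 _⟩⟩,
    fun x hx => ?_⟩
  · obtain ⟨y, rfl⟩ := k x hx
    rw [g2]; exact y.2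
  · obtain ⟨y, rfl⟩ := k x hx
    obtain ⟨y', rfl⟩ := k x' hx'
    rw [g2, g2] at hh
    rw [Subtype.ext hh]
  · obtain ⟨y, rfl⟩ := k x hx
    exact g3 y

theorem cvs_bij (n : ℕ) : ∃ dec : Bool × LTree → PD,
    Set.BijOn dec {x | sz x.2 = n} {y | ok y.1 ∧ per y.1 = 1 ∧ size y.1 = n} ∧
      ∀ x, sz x.2 = n → ∃ c, IsCvs n x.2 (dec x).1 (dec x).2 c := by
  obtain ⟨dec, h⟩ := cvs_onto (2 * n + 2)
  obtain ⟨S, S1, S2⟩ := LTree.count n
  have m1 : ∀ x : Bool × LTree, x ∈ (univ : Finset Bool) ×ˢ S ↔ sz x.2 = n := fun x => by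
    rw [mem_product, S1]; exact and_iff_right (mem_univ _)
  have m2 : ∀ y : PD, y ∈ (countaT 1 n).sigma (fun t => (univ : Finset (V t))) ↔
      ok y.1 ∧ per y.1 = 1 ∧ size y.1 = n := fun y => by
    rw [mem_sigma, counta_mem]; exact and_iff_left (mem_univ _)
  obtain ⟨k1, k2⟩ := cvs_count (univ ×ˢ S) ((countaT 1 n).sigma fun t => (univ : Finset (V t))) dec
    (fun x => ∃ c, IsCvs n x.2 (dec x).1 (dec x).2 c) (fun y hy => by
      obtain ⟨a1, a2, a3⟩ := (m2 y).1 hy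
      obtain ⟨x, c, b1, b2, b3⟩ := h y.1 y.2 a1 a2 (by rw [edges_eq _ a1]; omega)
      refine ⟨x, (m1 x).2 (b2.trans a3), b1, ?_⟩
      rw [b1, ← a3]
      exact ⟨c, b3⟩) (by
      rw [card_product, card_univ, Fintype.card_bool, card_sigma]
      have e : ∑ t ∈ countaT 1 n, (univ : Finset (V t)).card = (countaT 1 n).card * (n + 2) := by
        rw [sum_const_nat]
        intro t ht
        obtain ⟨a1, a2, a3⟩ := (counta_mem _ _ _).1 ht
        rw [card_univ, card_V t a1, a2, a3]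
      have h1 := M1.cnt_pointed 1 n le_rfl
      rw [pow_one, countR, PowerSeries.coeff_mk, counta_cnt_true] at h1
      have h2 : (countaT 1 n).card * (n + 2) = 2 * (3 ^ n * catalan n) := by
        have h3 : Nat.centralBinom 1 = 2 := rfl
        rw [h3] at h1
        have h4 : (((countaT 1 n).card * (n + 2) : ℕ) : ℝ) = (2 * (3 ^ n * catalan n) : ℕ) := by
          push_cast at h1 ⊢
          linarith
        exact_mod_cast h4
      omega)
  refine ⟨dec, ?_, fun x hx => k2 x ((m1 x).2 hx)⟩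
  have e1 : {x : Bool × LTree | sz x.2 = n} = ↑((univ : Finset Bool) ×ˢ S) :=
    Set.ext fun x => (m1 x).symm
  have e2 : {y : PD | ok y.1 ∧ per y.1 = 1 ∧ size y.1 = n}
      = ↑((countaT 1 n).sigma fun t => (univ : Finset (V t))) := Set.ext fun y => (m2 y).symm
  rwa [e1, e2]

/-- the output of the bijection for a quadrangulation -/
structure IsCvsQ {n : ℕ} (T : LTree) (q : Quad n) (v : q.Vertex) (c : ℕ → q.Vertex) : Prop where
  contour : IsContour n (fun i => (ht T i : ℤ)) c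
  ne : ∀ i, i ≤ 2 * n → c i ≠ v
  onto : ∀ z, z ≠ v → ∃ i, i ≤ 2 * n ∧ c i = z
  dist : ∃ μ : ℤ, (∀ i, i ≤ 2 * n → (q.graph.dist v (c i) : ℤ) = lab T i - μ + 1) ∧
    (∀ i, i ≤ 2 * n → μ ≤ lab T i) ∧ ∃ i, i ≤ 2 * n ∧ lab T i = μ
  arc : ∀ (i j : ℕ) (m : ℤ), i ≤ j → j ≤ 2 * n → (∀ k, i ≤ k → k ≤ j → m ≤ lab T k) →
    (q.graph.dist (c i) (c j) : ℤ) ≤ lab T i + lab T j - 2 * m + 2
  arc' : ∀ (i j : ℕ) (m : ℤ), i ≤ j → j ≤ 2 * n →
    (∀ k, k ≤ 2 * n → k ≤ i ∨ j ≤ k → m ≤ lab T k) →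
    (q.graph.dist (c i) (c j) : ℤ) ≤ lab T i + lab T j - 2 * m + 2

theorem cvs_face_adj {r : Mp} (hr : ok r) (hp : per r = 2) (x y : V r) :
    adj (face r) x y ↔ adj r x y := by
  have h := adj_bv r hr 3 (by omega)
  rw [show 3 + 1 = 2 * per r by omega, bv_end r hr] at h
  refine ⟨fun a => ?_, Or.inl⟩
  rcases a with a | ⟨rfl, rfl⟩ | ⟨rfl, rfl⟩
  exacts [a, adj_symm r _ _ h, h]

theorem cvs_rep {n : ℕ} (c : RootedQuad n) : ∃ j : (Quot.out c).Vertex ≃ V (face (linkcEnc c)),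
    ∀ x y, (Quot.out c).graph.dist x y = dW (face (linkcEnc c)) (j x) (j y) := by
  have h := linkc_rep (Quot.out c)
  rw [Quot.out_eq] at h
  obtain ⟨-, j, -, -, -, -, h1, -⟩ := rep_iso _ _ h
  refine ⟨j, fun x y => ?_⟩
  have e := M1.dW_equiv (t := face (linkcEnc c)) (s := linkcEnc c) ⟨h.1, h.2.1.ge⟩ h.1
    (Equiv.refl _) (cvs_face_adj h.1 h.2.1) (j x) (j y)
  refine Eq.trans ?_ e.symm
  exact eq_of_forall_ge_iff fun k => (h1 k x y).trans (M1.within_iff h.1)

theorem cvs_quad {n : ℕ} (hn : 1 ≤ n) :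
    ∃ dec : Bool × LTree → Σ c : RootedQuad n, (Quot.out c).Vertex,
      Set.BijOn dec {x | sz x.2 = n} Set.univ ∧
      ∀ x, sz x.2 = n → ∃ c, IsCvsQ x.2 (Quot.out (dec x).1) (dec x).2 c := by
  obtain ⟨dec, h1, h2⟩ := cvs_bij n
  choose j hj using cvs_rep (n := n)
  let E : (Σ c : RootedQuad n, (Quot.out c).Vertex) → PD := fun z =>
    ⟨face (linkcEnc z.1), j z.1 z.2⟩
  have Ei : Function.Injective E := by
    rintro ⟨c, v⟩ ⟨c', v'⟩ h
    obtain rfl : c = c' := linkc_inj (Mp.face.inj (congrArg Sigma.fst h))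
    obtain rfl : v = v' := (j c).injective (eq_of_heq (Sigma.mk.inj h).2)
    rfl
  have Em : ∀ z, E z ∈ {y : PD | ok y.1 ∧ per y.1 = 1 ∧ size y.1 = n} := fun z => by
    obtain ⟨a1, a2, a3⟩ := linkc_spec z.1
    refine ⟨⟨a1, a2.ge⟩, ?_, ?_⟩
    · show per (linkcEnc z.1) - 1 = 1
      omega
    · show size (linkcEnc z.1) + 1 = n
      omega
  have Es : ∀ y ∈ {y : PD | ok y.1 ∧ per y.1 = 1 ∧ size y.1 = n}, ∃ z, E z = y := by
    rintro ⟨t, v⟩ ⟨a1, a2, a3⟩
    cases t with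
    | pt => exact absurd a2 (by simp [per])
    | bridge a b =>
      have b1 : per a + per b + 1 = 1 := a2
      have b2 : size a + size b = n := a3
      rw [eq_pt_of_per_zero a a1.1 (by omega), eq_pt_of_per_zero b a1.2 (by omega)] at b2
      exact absurd b2 (by simp only [size]; omega)
    | face r =>
      have b1 : per r - 1 = 1 := a2
      obtain ⟨q, hq⟩ := rep_build n r a1.1 (by omega) a3
      obtain rfl : linkcEnc (Quot.mk _ q) = r :=
        linkc_uniq (linkc_rep q) hq ⟨1, fun _ => rfl, fun _ => rfl, rfl⟩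
      exact ⟨⟨Quot.mk _ q, (j _).symm v⟩, congrArg (Sigma.mk _) ((j _).apply_symm_apply v)⟩
  haveI : Nonempty (Σ c : RootedQuad n, (Quot.out c).Vertex) := by
    have : ∀ k, ∃ T, sz T = k := fun k => by
      induction k with
      | zero => exact ⟨leaf, rfl⟩
      | succ k ih => obtain ⟨T, rfl⟩ := ih; exact ⟨node 0 T leaf, rfl⟩
    obtain ⟨T, hT⟩ := this n
    obtain ⟨z, -⟩ := Es _ (h1.mapsTo (x := (true, T)) hT)
    exact ⟨z⟩
  have k : ∀ x, sz x.2 = n → E (Function.invFun E (dec x)) = dec x := fun x hx =>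
    Function.invFun_eq (Es _ (h1.mapsTo hx))
  refine ⟨fun x => Function.invFun E (dec x), ⟨fun _ _ => trivial, fun x hx x' hx' h => ?_,
    fun z _ => ?_⟩, fun x hx => ?_⟩
  · exact h1.injOn hx hx' (by rw [← k x hx, ← k x' hx']; exact congrArg E h)
  · obtain ⟨x, hx, h⟩ := h1.surjOn (Em z)
    exact ⟨x, hx, by beta_reduce; rw [h]; exact Function.leftInverse_invFun Ei z⟩
  · have H := h2 x hx
    rw [← k x hx] at H
    beta_reduce
    generalize Function.invFun E (dec x) = z at H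
    obtain ⟨a, v⟩ := z
    obtain ⟨c, H⟩ := H
    have d : ∀ x y, (Quot.out a).graph.dist ((j a).symm x) ((j a).symm y)
        = dW (face (linkcEnc a)) x y := fun x y => by
      rw [hj, Equiv.apply_symm_apply, Equiv.apply_symm_apply]
    obtain ⟨μ, m1, m2⟩ := H.dist
    refine ⟨fun i => (j a).symm (c i), ⟨H.contour.zero, H.contour.last, H.contour.step,
      H.contour.nonneg, fun i k a1 a2 => (j a).symm.injective.eq_iff.trans
        (H.contour.eq_iff i k a1 a2)⟩, fun i hi h => H.ne i hi ((j a).symm_apply_eq.1 h),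
      fun z hz => ?_, ⟨μ, fun i hi => ?_, m2⟩, fun i k m a1 a2 a3 => ?_,
      fun i k m a1 a2 a3 => ?_⟩
    · obtain ⟨i, hi, h⟩ := H.onto (j a z) fun h => hz ((j a).injective h)
      exact ⟨i, hi, (j a).symm_apply_eq.2 h⟩
    · rw [← m1 i hi, ← d]
      exact congrArg (fun w => (((Quot.out a).graph.dist w ((j a).symm (c i)) : ℕ) : ℤ))
        ((j a).symm_apply_apply v).symm
    · rw [d]; exact H.arc i k m a1 a2 a3
    · rw [d]; exact H.arc' i k m a1 a2 a3

end Pool.Agent.QL.BM
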