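import Pool.Agent.P.MP_7a6434d8_pr.QL.BM.TDefs
import Pool.Agent.P.MP_7a6434d8_pr.QL.BM.CvsD

/-! Labelled trees are Dyck words with increments at the up-steps. -/

namespace Pool.Agent.QL.BM

open Finset LTree

/-- heights as integers -/
def LTree.hz (T : LTree) (i : ℕ) : ℤ := ht T i

theorem hz_zero (T : LTree) : hz T 0 = 0 := by rw [hz, ht_zero]; rfl

theorem hz_fst (d : Fin 3) (a b : LTree) {i : ℕ} (h : i ≤ 2 * sz a) :
    hz (node d a b) (i + 1) = hz a i + 1 := by
  rw [hz, ht_fst _ _ _ h, hz]; push_cast; rfl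

theorem hz_snd (d : Fin 3) (a b : LTree) (i : ℕ) :
    hz (node d a b) (2 * sz a + 2 + i) = hz b i := by rw [hz, ht_snd, hz]

theorem hz_nonneg (T : LTree) (i : ℕ) : 0 ≤ hz T i := Int.natCast_nonneg _

theorem hz_end (T : LTree) : hz T (2 * sz T) = 0 := by rw [hz, ht_end]; rfl

theorem hz_step (T : LTree) {i : ℕ} (hi : i < 2 * sz T) :
    hz T (i + 1) = hz T i + 1 ∨ hz T (i + 1) = hz T i - 1 := by
  have := ht_step T i hi
  unfold hz
  omega

theorem opn_congr' {C C' : ℕ → ℤ} {i : ℕ} (h : ∀ j ≤ i, C j = C' j) (k : ℕ) :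
    Opn C i k ↔ Opn C' i k :=
  and_congr_right fun hk => forall_congr' fun j => forall_congr' fun _ => forall_congr' fun hj => by
    rw [h k hk.le, h j hj]

open Classical in
/-- the label is the sum of the increments over the open steps -/
theorem lab_eq_sum (T : LTree) (i : ℕ) (hi : i ≤ 2 * sz T) :
    lab T i = ∑ k ∈ range i, if Opn (hz T) i k then lab T (k + 1) - lab T k else 0 := by
  induction T generalizing i with
  | leaf =>
    obtain rfl : i = 0 := Nat.le_zero.1 hi
    rfl
  | node d a b iha ihb =>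
    have e : sz (node d a b) = sz a + sz b + 1 := rfl
    rcases idx_cases (sz a) i with rfl | ⟨j, hj, rfl⟩ | ⟨j, rfl⟩
    · rw [lab_zero, sum_range_zero]
    · rw [sum_range_succ', if_pos, lab_fst _ _ _ hj, lab_fst _ _ _ (Nat.zero_le _), lab_zero,
        lab_zero, iha j hj, add_zero, sub_zero, add_comm]
      · congr 1
        refine sum_congr rfl fun k hk => ?_
        have hk' := mem_range.1 hk
        rw [lab_fst _ _ _ (show k + 1 ≤ _ by omega), lab_fst _ _ _ (show k ≤ _ by omega),
          add_sub_add_left_eq_sub]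
        refine if_congr ⟨fun h => ⟨by omega, fun m h1 h2 => ?_⟩, fun h => ⟨hk', fun m h1 h2 => ?_⟩⟩
          rfl rfl
        · obtain ⟨m, rfl⟩ : ∃ m', m = m' + 1 := ⟨m - 1, by omega⟩
          have := h.2 m (by omega) (by omega)
          rw [hz_fst _ _ _ (show k ≤ _ by omega), hz_fst _ _ _ (show m ≤ _ by omega)]
          omega
        · have := h.2 (m + 1) (by omega) (by omega)
          rw [hz_fst _ _ _ (show k ≤ _ by omega), hz_fst _ _ _ (show m ≤ _ by omega)] at this
          omega
      · refine ⟨by omega, fun m h1 h2 => ?_⟩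
        obtain ⟨m, rfl⟩ : ∃ m', m = m' + 1 := ⟨m - 1, by omega⟩
        have := hz_nonneg a m
        rw [hz_zero, hz_fst _ _ _ (show m ≤ _ by omega)]
        omega
    · rw [sum_range_add, sum_eq_zero, zero_add, lab_snd, ihb j (by omega)]
      · refine sum_congr rfl fun k hk => ?_
        have hk' := mem_range.1 hk
        rw [add_assoc _ k, lab_snd, lab_snd]
        refine if_congr ⟨fun h => ⟨by omega, fun m h1 h2 => ?_⟩, fun h => ⟨hk', fun m h1 h2 => ?_⟩⟩
          rfl rfl
        · obtain ⟨m, rfl⟩ : ∃ m', m = 2 * sz a + 2 + m' := ⟨m - (2 * sz a + 2), by omega⟩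
          rw [hz_snd, hz_snd]
          exact h.2 m (by omega) (by omega)
        · have := h.2 (2 * sz a + 2 + m) (by omega) (by omega)
          rwa [hz_snd, hz_snd] at this
      · intro k hk
        refine if_neg fun h => ?_
        have := h.2 (2 * sz a + 2 + 0) (mem_range.1 hk) (by omega)
        rw [hz_snd, hz_zero] at this
        exact absurd (hz_nonneg _ k) (not_le.2 this)

/-- `T` has the heights `C` and the increments `d` at the up-steps -/
def Codes (T : LTree) (C : ℕ → ℤ) (d : ℕ → ℤ) : Prop :=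
  (∀ i ≤ 2 * sz T, hz T i = C i) ∧
    ∀ k < 2 * sz T, C k < C (k + 1) → lab T (k + 1) - lab T k = d k

theorem codes_exists (n : ℕ) : ∀ (C : ℕ → ℤ) (d : ℕ → Fin 3), C 0 = 0 → C (2 * n) = 0 →
    (∀ i < 2 * n, C (i + 1) = C i + 1 ∨ C (i + 1) = C i - 1) → (∀ i ≤ 2 * n, 0 ≤ C i) →
    ∃ T, sz T = n ∧ Codes T C fun k => ((d k : ℕ) : ℤ) - 1 := by
  induction n using Nat.strong_induction_on with
  | _ n ih =>
    intro C d h0 h1 hs hp
    rcases Nat.eq_zero_or_pos n with rfl | hn
    · refine ⟨leaf, rfl, fun i hi => ?_, fun k hk => absurd hk (Nat.not_lt_zero _)⟩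
      obtain rfl : i = 0 := Nat.le_zero.1 hi
      rw [hz_zero, h0]
    have par : ∀ i ≤ 2 * n, (C i - i) % 2 = 0 := fun i hi => by
      induction i with
      | zero => rw [h0]; rfl
      | succ i ihi =>
        have := ihi (by omega)
        have := hs i (by omega)
        push_cast
        omega
    have hex : ∃ j, 0 < j ∧ C j = 0 := ⟨2 * n, by omega, h1⟩
    classical
    have j1 := Nat.find_spec hex
    have j2 : Nat.find hex ≤ 2 * n := Nat.find_min' hex ⟨by omega, h1⟩
    have j3 : ∀ i, 0 < i → i < Nat.find hex → 1 ≤ C i := fun i a1 a2 => by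
      have := Nat.find_min hex a2
      have := hp i (by omega)
      omega
    obtain ⟨m, hm⟩ : ∃ m, Nat.find hex = 2 * m + 2 := by
      have := par _ j2
      exact ⟨Nat.find hex / 2 - 1, by omega⟩
    rw [hm] at j1 j2 j3
    have c1 : C 1 = 1 := by
      have := hs 0 (by omega)
      have := j3 1 (by omega) (by omega)
      rw [zero_add] at *
      omega
    have c2 : C (2 * m + 1) = 1 := by
      have a1 := hs (2 * m + 1) (by omega)
      have := j3 (2 * m + 1) (by omega) (by omega)
      rw [show C (2 * m + 1 + 1) = 0 from j1.2] at a1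
      omega
    obtain ⟨a, rfl, a1, a2⟩ := ih m (by omega) (fun i => C (i + 1) - 1) (fun k => d (k + 1))
      (by rw [zero_add, c1]; rfl) (by rw [c2]; rfl)
      (fun i hi => by have := hs (i + 1) (by omega); omega)
      (fun i hi => by have := j3 (i + 1) (by omega) (by omega); omega)
    obtain ⟨b, hb, b1, b2⟩ := ih (n - sz a - 1) (by omega) (fun i => C (2 * sz a + 2 + i))
      (fun k => d (2 * sz a + 2 + k)) j1.2
      (by rw [show 2 * sz a + 2 + 2 * (n - sz a - 1) = 2 * n by omega, h1])
      (fun i hi => hs (2 * sz a + 2 + i) (by omega)) (fun i hi => hp _ (by omega))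
    have e : sz (node (d 0) a b) = sz a + sz b + 1 := rfl
    refine ⟨node (d 0) a b, by omega, fun i hi => ?_, fun k hk hu => ?_⟩
    · rcases idx_cases (sz a) i with rfl | ⟨j, hj, rfl⟩ | ⟨j, rfl⟩
      · rw [hz_zero, h0]
      · rw [hz_fst _ _ _ hj, a1 j hj, sub_add_cancel]
      · rw [hz_snd, b1 j (by omega)]
    · rcases idx_cases (sz a) k with rfl | ⟨j, hj, rfl⟩ | ⟨j, rfl⟩
      · rw [lab_fst _ _ _ (Nat.zero_le _), lab_zero, lab_zero, add_zero, sub_zero]
      · rcases hj.lt_or_eq with h | rfl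
        · rw [lab_fst _ _ _ hj, lab_fst _ _ _ (show j + 1 ≤ _ from h), add_sub_add_left_eq_sub]
          exact a2 j h (sub_lt_sub_right hu 1)
        · rw [c2, show C (2 * sz a + 1 + 1) = 0 from j1.2] at hu
          omega
      · rw [add_assoc _ j, lab_snd, lab_snd]
        exact b2 j (by omega) hu

theorem codes_unique {T T' : LTree} {C d : ℕ → ℤ} (hs : sz T = sz T') (h : Codes T C d)
    (h' : Codes T' C d) : T = T' := by
  induction T generalizing T' C d with
  | leaf =>
    cases T' with
    | leaf => rfl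
    | node _ _ _ => exact absurd hs (by simp [sz])
  | node x a b iha ihb =>
    cases T' with
    | leaf => exact absurd hs (by simp [sz])
    | node x' a' b' =>
      have e : sz (node x a b) = sz a + sz b + 1 := rfl
      have e' : sz (node x' a' b') = sz a' + sz b' + 1 := rfl
      have key : ∀ {x x' : Fin 3} {a b a' b' : LTree}, sz (node x a b) = sz (node x' a' b') →
          Codes (node x a b) C d → Codes (node x' a' b') C d → ¬ sz a < sz a' := by
        intro x x' a b a' b' hs h h' hl
        have e : sz (node x a b) = sz a + sz b + 1 := rfl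
        have e1 := h.1 (2 * sz a + 2 + 0) (by omega)
        have e2 := h'.1 (2 * sz a + 1 + 1) (by omega)
        have e3 := hz_nonneg a' (2 * sz a + 1)
        rw [hz_snd, hz_zero] at e1
        rw [hz_fst _ _ _ (by omega), show C (2 * sz a + 1 + 1) = 0 from e1.symm] at e2
        omega
      have ha : sz a = sz a' :=
        le_antisymm (not_lt.1 (key hs.symm h' h)) (not_lt.1 (key hs h h'))
      have fst : ∀ {x : Fin 3} {a b : LTree}, Codes (node x a b) C d →
          d 0 = ((x : ℕ) : ℤ) - 1 ∧ Codes a (fun i => C (i + 1) - 1) (fun k => d (k + 1)) ∧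
            Codes b (fun i => C (2 * sz a + 2 + i)) fun k => d (2 * sz a + 2 + k) := by
        intro x a b h
        have e : sz (node x a b) = sz a + sz b + 1 := rfl
        refine ⟨?_, ⟨fun i hi => ?_, fun k hk hu => ?_⟩, fun i hi => ?_, fun k hk hu => ?_⟩
        · rw [← h.2 0 (by omega), lab_fst _ _ _ (Nat.zero_le _), lab_zero, lab_zero, add_zero,
            sub_zero]
          rw [← h.1 0 (by omega), ← h.1 (0 + 1) (by omega), hz_fst _ _ _ (Nat.zero_le _), hz_zero,
            hz_zero]
          omega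
        · beta_reduce
          rw [← h.1 (i + 1) (by omega), hz_fst _ _ _ hi, add_sub_cancel_right]
        · beta_reduce
          rw [← h.2 (k + 1) (by omega) (sub_lt_sub_iff_right 1 |>.1 hu), lab_fst _ _ _ hk.le,
            lab_fst _ _ _ (show k + 1 ≤ _ from hk), add_sub_add_left_eq_sub]
        · beta_reduce
          rw [← h.1 _ (by omega), hz_snd]
        · beta_reduce
          rw [← h.2 _ (by omega) hu, add_assoc _ k, lab_snd, lab_snd]
      obtain ⟨p1, p2, p3⟩ := fst h
      obtain ⟨q1, q2, q3⟩ := fst h'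
      rw [← ha] at q3
      rw [iha ha p2 q2, ihb (by omega) p3 q3, show x = x' from Fin.ext (by omega)]

theorem dy_spec {n : ℕ} {w : List Bool} (hw : w ∈ Exc.Dy n) :
    w.length = 2 * n ∧ Exc.ht w (2 * n) = 0 ∧ (∀ i ≤ 2 * n, 0 ≤ Exc.ht w i) ∧
      ∀ i < 2 * n, Exc.ht w (i + 1) = Exc.ht w i + 1 ∨ Exc.ht w (i + 1) = Exc.ht w i - 1 := by
  obtain ⟨h1, h2, h3⟩ := mem_filter.1 hw
  have h4 := Exc.mem_Ws.1 h1
  refine ⟨h4, h3, h2, fun i hi => ?_⟩
  rw [Exc.ht_succ (by omega)]
  cases w[i] <;> simp [Exc.sg, sub_eq_add_neg]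

theorem dy_ext {w w' : List Bool} (hl : w.length = w'.length)
    (h : ∀ i ≤ w.length, Exc.ht w i = Exc.ht w' i) : w = w' := by
  refine List.ext_getElem hl fun i h1 h2 => ?_
  have e := h (i + 1) h1
  rw [Exc.ht_succ h1, Exc.ht_succ h2, h i h1.le, add_right_inj] at e
  revert e
  cases w[i] <;> cases w'[i] <;> simp [Exc.sg]

theorem dy_of_tree (T : LTree) :
    ∃ w ∈ Exc.Dy (sz T), ∀ i ≤ 2 * sz T, hz T i = Exc.ht w i := by
  let w : List Bool := List.ofFn fun k : Fin (2 * sz T) => decide (hz T k < hz T (k + 1))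
  have hl : w.length = 2 * sz T := List.length_ofFn
  have key : ∀ i ≤ 2 * sz T, hz T i = Exc.ht w i := fun i hi => by
    induction i with
    | zero => rw [hz_zero, Exc.ht_zero]
    | succ i ih =>
      rw [Exc.ht_succ (by omega), ← ih (by omega)]
      have e : w[i]'(by omega) = decide (hz T i < hz T (i + 1)) := List.getElem_ofFn _
      rw [e]
      rcases hz_step T (show i < _ from hi) with h | h
      · rw [decide_eq_true (by omega), h]; rfl
      · rw [decide_eq_false (by omega), h]; rfl
  refine ⟨w, mem_filter.2 ⟨Exc.mem_Ws.2 hl, fun j hj => ?_, ?_⟩, key⟩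
  · rw [← key j hj]; exact hz_nonneg _ _
  · rw [← key _ le_rfl, hz_end]

theorem down_prod (T : LTree) :
    ∏ k : Fin (2 * sz T), (if hz T k < hz T (k + 1) then 1 else 3) = 3 ^ sz T := by
  have key : ∀ i ≤ 2 * sz T, ∃ m : ℕ, (2 * m : ℤ) + hz T i = i ∧
      ∏ k ∈ range i, (if hz T k < hz T (k + 1) then 1 else 3) = 3 ^ m := fun i hi => by
    induction i with
    | zero => exact ⟨0, by rw [hz_zero]; rfl, rfl⟩
    | succ i ih =>
      obtain ⟨m, m1, m2⟩ := ih (by omega)
      rcases hz_step T (show i < _ from hi) with h | h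
      · exact ⟨m, by push_cast; omega, by rw [prod_range_succ, m2, if_pos (by omega), mul_one]⟩
      · exact ⟨m + 1, by push_cast; omega, by rw [prod_range_succ, m2, if_neg (by omega), pow_succ]⟩
  obtain ⟨m, m1, m2⟩ := key _ le_rfl
  rw [hz_end] at m1
  obtain rfl : m = sz T := by push_cast at m1; omega
  rw [← m2]
  exact Fin.prod_univ_eq_prod_range (fun k => if hz T k < hz T (k + 1) then 1 else 3) _

/-- the tree of a code -/
theorem tree_map (n : ℕ) : ∃ f : DyW n × (Fin (2 * n) → Fin 3) → LTree,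
    (∀ x, sz (f x) = n ∧ ∀ i ≤ 2 * n, hz (f x) i = Exc.ht x.1.1 i ∧
      lab (f x) i = lbl (Exc.ht x.1.1) x.2 i) ∧
    ∀ T, sz T = n → 1 ≤ n → ∀ [DecidablePred fun x => f x = T],
      (univ.filter fun x => f x = T).card = 3 ^ n := by
  classical
  let ex : (Fin (2 * n) → Fin 3) → ℕ → Fin 3 := fun d k => if h : k < 2 * n then d ⟨k, h⟩ else 0
  have hex : ∀ d (k : Fin (2 * n)), ex d k = d k := fun d k => dif_pos k.2
  choose f f1 f2 using fun x : DyW n × (Fin (2 * n) → Fin 3) =>
    codes_exists n (Exc.ht x.1.1) (ex x.2) (Exc.ht_zero _) (dy_spec (mem_filter.1 x.1.2).1).2.1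
      (dy_spec (mem_filter.1 x.1.2).1).2.2.2 (dy_spec (mem_filter.1 x.1.2).1).2.2.1
  refine ⟨f, fun x => ⟨f1 x, fun i hi => ⟨(f2 x).1 i (by rw [f1]; exact hi), ?_⟩⟩,
    fun T hT hn _ => ?_⟩
  · have e := Fin.sum_univ_eq_sum_range
      (fun k => if Opn (Exc.ht x.1.1) i k then ((ex x.2 k : ℕ) : ℤ) - 1 else 0) (2 * n)
    simp only [hex] at e
    rw [lbl, e, lab_eq_sum _ i (by rw [f1]; exact hi),
      ← sum_subset (range_subset_range.2 hi) fun k _ hk => if_neg fun h => hk (mem_range.2 h.1)]
    refine sum_congr rfl fun k hk => ?_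
    have hk' := mem_range.1 hk
    rw [opn_congr' fun j hj => (f2 x).1 j (by rw [f1]; omega)]
    split_ifs with h
    · exact (f2 x).2 k (by rw [f1]; omega) (h.2 _ k.lt_succ_self hk')
    · rfl
  · subst hT
    obtain ⟨w, hw, hw'⟩ := dy_of_tree T
    let A : Fin (2 * sz T) → Finset (Fin 3) := fun k => univ.filter fun y =>
      hz T k < hz T (k + 1) → lab T (k + 1) - lab T k = ((y : ℕ) : ℤ) - 1
    have e : (univ.filter fun x => f x = T) =
        {(⟨w, mem_filter.2 ⟨hw, hn⟩⟩ : DyW (sz T))} ×ˢ Fintype.piFinset A := by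
      ext x
      simp only [mem_filter, mem_univ, true_and, mem_product, mem_singleton, Fintype.mem_piFinset,
        A]
      constructor
      · intro h
        have h2 := f2 x
        rw [h] at h2
        have hl := (dy_spec (mem_filter.1 x.1.2).1).1
        refine ⟨Subtype.ext (dy_ext (hl.trans (dy_spec hw).1.symm) fun i hi => ?_), fun k hu => ?_⟩
        · rw [← h2.1 i (by omega), hw' i (by omega)]
        · rw [← hex x.2 k]
          refine h2.2 k k.2 ?_
          rwa [← h2.1 k k.2.le, ← h2.1 (k + 1) k.2]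
      · rintro ⟨h1, h2⟩
        refine codes_unique (f1 x) (f2 x) ⟨fun i hi => by rw [h1]; exact hw' i hi, fun k hk hu => ?_⟩
        rw [h1, ← hw' k hk.le, ← hw' (k + 1) hk] at hu
        exact (h2 ⟨k, hk⟩ hu).trans (by rw [← hex x.2 ⟨k, hk⟩])
    rw [e, card_product, card_singleton, one_mul, Fintype.card_piFinset, ← down_prod T]
    refine prod_congr rfl fun k _ => ?_
    split_ifs with h
    · have hb := abs_le.1 (lab_step T k k.2)
      refine card_eq_one.2 ⟨⟨(lab T (k + 1) - lab T k + 1).toNat, by omega⟩, ?_⟩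
      ext y
      simp only [A, mem_filter, mem_univ, true_and, mem_singleton, h, true_imp_iff, Fin.ext_iff]
      omega
    · rw [show A k = univ from filter_true_of_mem fun y _ hu => absurd hu h]
      rfl

end Pool.Agent.QL.BM
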