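import Pool.Agent.P.MP_7a6434d8_pr.QL.BM.Stmts
import Pool.Agent.P.MP_7a6434d8_pr.QL.BM.ExpTree
import Pool.Agent.P.MP_7a6434d8_pr.XCount

/-! Block CVS: uniform law of the map and of the marked vertex. -/

open MeasureTheory ProbabilityTheory Set Function
open scoped ENNReal

namespace Pool.Agent.QL.BM

open Pool.Agent.P.MP_7a6434d8_pr LTree

/-- a map with equal fibres preserves the uniform law -/
theorem exp_unif_map {X Y : Type} [Fintype X] [Fintype Y] [MeasurableSpace X]
    [DiscreteMeasurableSpace X] [MeasurableSpace Y] [DiscreteMeasurableSpace Y] (g : X → Y)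
    {K : ℕ} (hK : K ≠ 0) (h : ∀ F : Y → ℝ≥0∞, ∑ x, F (g x) = K • ∑ y, F y) :
    (uniformOn univ : Measure X).map g = uniformOn univ := by
  classical
  have cnt : ∀ {Z : Type} [Fintype Z] [MeasurableSpace Z] [DiscreteMeasurableSpace Z] (A : Set Z),
      Measure.count A = ∑ z, A.indicator 1 z := fun A => by
    rw [← lintegral_indicator_one (DiscreteMeasurableSpace.forall_measurableSet A),
      lintegral_count, tsum_fintype]
  ext A hA
  rw [Measure.map_apply Measurable.of_discrete hA, uniformOn_univ, uniformOn_univ, cnt, cnt]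
  have h1 : (Fintype.card X : ℝ≥0∞) = K * Fintype.card Y := by
    simpa using h fun _ => 1
  have h2 : ∑ x, (g ⁻¹' A).indicator (1 : X → ℝ≥0∞) x =
      K * ∑ y, A.indicator (1 : Y → ℝ≥0∞) y := by
    rw [← nsmul_eq_mul, ← h]
    rfl
  rw [h1, h2, ENNReal.mul_div_mul_left _ _ (Nat.cast_ne_zero.2 hK) (ENNReal.natCast_ne_top _)]

theorem exp_integral {X : Type} [Fintype X] [MeasurableSpace X] [DiscreteMeasurableSpace X]
    (f : X → ℝ) : ∫ x, f x ∂uniformOn univ = (Fintype.card X : ℝ)⁻¹ * ∑ x, f x := by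
  rw [integral_fintype Integrable.of_finite, Finset.mul_sum]
  refine Finset.sum_congr rfl fun x _ => ?_
  simp [Measure.real, uniformOn_univ]

theorem exp_contour {V : Type} {n : ℕ} {C C' : ℕ → ℤ} {c : ℕ → V} (h : IsContour n C c)
    (e : ∀ i ≤ 2 * n, C i = C' i) : IsContour n C' c where
  zero := by rw [← e 0 (Nat.zero_le _), h.zero]
  last := by rw [← e _ le_rfl, h.last]
  step i hi := by rw [← e i hi.le, ← e (i + 1) hi]; exact h.step i hi
  nonneg i hi := by rw [← e i hi]; exact h.nonneg i hi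
  eq_iff i j a1 a2 := by
    rw [h.eq_iff i j a1 a2, ← e i (a1.trans a2), ← e j a2]
    exact and_congr_right fun _ => forall_congr' fun k => forall_congr' fun _ =>
      forall_congr' fun hk => by rw [e k (hk.trans a2)]

theorem exp_coded {n : ℕ} {T : LTree} {q : Quad n} {v : q.Vertex} {c : ℕ → q.Vertex}
    (h : IsCvsQ T q v c) {C l : ℕ → ℤ} (e : ∀ i ≤ 2 * n, hz T i = C i ∧ lab T i = l i) :
    IsCoded n C l c q.graph.dist v where
  contour := exp_contour h.contour fun i hi => (e i hi).1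
  self _ := SimpleGraph.dist_self
  symm _ _ := SimpleGraph.dist_comm
  tri _ _ _ := (graph_connected q).dist_triangle
  arc1 i j m a1 a2 a3 := by
    rw [← (e i (a1.trans a2)).2, ← (e j a2).2]
    exact h.arc i j m a1 a2 fun k b1 b2 => by rw [(e k (b2.trans a2)).2]; exact a3 k b1 b2
  arc2 i j m a1 a2 a3 := by
    rw [← (e i (a1.trans a2)).2, ← (e j a2).2]
    exact h.arc' i j m a1 a2 fun k b1 b2 => by rw [(e k b1).2]; exact a3 k b1 b2
  star := by
    obtain ⟨μ, m1, m2, k, hk, rfl⟩ := h.dist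
    refine ⟨k, hk, fun i hi => ?_⟩
    rw [← (e i hi).2, ← (e k hk).2]
    exact ⟨m2 i hi, m1 i hi⟩

theorem exp_one (n : ℕ) : ∃ (q : TT n → Quad n) (c : ∀ t, ℕ → (q t).Vertex)
    (v : ∀ t, (q t).Vertex), 1 ≤ n → (lamT n).map (fun t => rooted (q t)) = uniformOn univ ∧
      (∀ t, Nat.card (q t).Vertex = n + 2 ∧ IsCoded n t.C t.l (c t) (q t).graph.dist (v t)) ∧
      ∀ F : ℕ → ℝ, ((n : ℝ) + 2) * ∫ t, ∑ x, F ((q t).graph.dist (v t) x) ∂lamT n =
        ∫ t, ∑ u, ∑ x, F ((q t).graph.dist u x) ∂lamT n := by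
  classical
  rcases Nat.eq_zero_or_pos n with rfl | hn
  · have h : IsEmpty (TT 0) := ⟨fun t => absurd (Finset.mem_filter.1 t.2.1.2).2 (by omega)⟩
    exact ⟨h.elim, h.elim, h.elim, fun h => absurd h (by omega)⟩
  obtain ⟨dec, hb, hc⟩ := cvs_quad hn
  obtain ⟨f, f1, f2⟩ := tree_map n
  have i0 : Finite (RootedQuad n) := Quot.finite _
  have i1 : Fintype (RootedQuad n) := Fintype.ofFinite _
  have i2 : DiscreteMeasurableSpace (RootedQuad n) := ⟨fun _ => trivial⟩
  let Φ : TT n → Σ c : RootedQuad n, (Quot.out c).Vertex := fun t => dec (t.1, f t.2)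
  have hs : ∀ {M : Type} [AddCommMonoid M] (g : (Σ c : RootedQuad n, (Quot.out c).Vertex) → M),
      ∑ t, g (Φ t) = 3 ^ n • ∑ c, ∑ v, g ⟨c, v⟩ := fun g => by
    rw [Finset.sum_sigma', Finset.smul_sum, ← Finset.sum_fiberwise_of_maps_to (g := Φ)
      (t := Finset.univ.sigma fun _ => Finset.univ) fun _ _ => by simp]
    refine Finset.sum_congr rfl fun z _ => ?_
    obtain ⟨x, hx, rfl⟩ := hb.surjOn (mem_univ z)
    rw [Finset.sum_congr rfl fun t ht => congrArg g (Finset.mem_filter.1 ht).2, Finset.sum_const,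
      ← f2 x.2 hx hn]
    congr 1
    have key : ∀ t : TT n, Φ t = dec x → (t.1, f t.2) = x := fun t h =>
      hb.injOn (show (t.1, f t.2) ∈ {x : Bool × LTree | x.2.sz = n} from (f1 t.2).1) hx h
    refine Finset.card_bij (fun t _ => t.2) (fun t ht => ?_) (fun a ha b hb h => ?_) fun y hy => ?_
    · exact Finset.mem_filter.2 ⟨Finset.mem_univ _,
        congrArg Prod.snd (key t (Finset.mem_filter.1 ht).2)⟩
    · exact Prod.ext ((congrArg Prod.fst (key a (Finset.mem_filter.1 ha).2)).trans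
        (congrArg Prod.fst (key b (Finset.mem_filter.1 hb).2)).symm) h
    · exact ⟨(x.1, y), Finset.mem_filter.2 ⟨Finset.mem_univ _,
        congrArg dec (Prod.ext rfl (Finset.mem_filter.1 hy).2)⟩, rfl⟩
  have hf : ∀ {M : Type} [AddCommMonoid M] (g : RootedQuad n → M),
      ∑ t, g (Φ t).1 = 3 ^ n • (n + 2) • ∑ c, g c := fun g => by
    rw [hs fun z => g z.1, Finset.smul_sum (r := n + 2)]
    simp only [Finset.sum_const, Finset.card_univ, cpl_card]
  choose c hc using fun t : TT n => hc (t.1, f t.2) (f1 t.2).1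
  refine ⟨fun t => Quot.out (Φ t).1, c, fun t => (Φ t).2, fun _ => ⟨?_, fun t => ⟨?_, ?_⟩,
    fun F => ?_⟩⟩
  · refine exp_unif_map _ (K := 3 ^ n * (n + 2)) (by positivity) fun F => ?_
    rw [mul_smul, ← hf F]
    exact Finset.sum_congr rfl fun t _ => congrArg F (Quot.out_eq _)
  · rw [Nat.card_eq_fintype_card, cpl_card]
  · exact exp_coded (hc t) (f1 t.2).2
  · rw [lamT, exp_integral, exp_integral, hs fun z => ∑ x, F ((Quot.out z.1).graph.dist z.2 x),
      hf fun a => ∑ u, ∑ x, F ((Quot.out a).graph.dist u x), nsmul_eq_mul, nsmul_eq_mul,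
      nsmul_eq_mul]
    push_cast
    ring

theorem cvs : CvsStmt := by
  choose q c v h using exp_one
  exact ⟨q, c, v, h⟩

end Pool.Agent.QL.BM
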