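import Mathlib

/-! The finite-dimensional densities of the normalised Brownian excursion. -/

open Real
open scoped ENNReal unitInterval

namespace Pool.Agent.QL

/-- The Brownian transition density `p_t(x)`. -/
noncomputable def bmDens (t x : ℝ) : ℝ := (√(2 * π * t))⁻¹ * exp (-x ^ 2 / (2 * t))

/-- The transition density `p*_t(x,y)` of Brownian motion killed at `0`. -/
noncomputable def pKill (t x y : ℝ) : ℝ := bmDens t (x - y) - bmDens t (x + y)

/-- `q_t(x) = x (2π t³)^{-1/2} exp(-x²/2t)`. -/
noncomputable def qHit (t x : ℝ) : ℝ := x / t * bmDens t x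

/-- Density of `(e(t 0), …, e(t k))` for the normalised excursion `e`, `0 < t 0 < ⋯ < t k < 1`. -/
noncomputable def excDens (k : ℕ) (t : Fin (k + 1) → I) (x : Fin (k + 1) → ℝ) : ℝ≥0∞ :=
  if ∀ i, 0 < x i then ENNReal.ofReal (2 * √(2 * π) * qHit (t 0) (x 0) *
    (∏ i : Fin k, pKill (t i.succ - t i.castSucc) (x i.castSucc) (x i.succ)) *
    qHit (1 - t (Fin.last k)) (x (Fin.last k))) else 0

end Pool.Agent.QL
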