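import Pool.Agent.P.MP_7a6434d8_pr.QL.BM.GoodCore
import Pool.Agent.P.MP_7a6434d8_pr.QL.BM.ExcDens

/-! Under the excursion law the minima over two disjoint intervals are a.s. distinct. -/

open MeasureTheory Set Filter Topology Real
open scoped ENNReal unitInterval

namespace Pool.Agent.QL

theorem bmDens_nonneg (t x : ℝ) : 0 ≤ bmDens t x := by unfold bmDens; positivity

theorem bmDens_neg (t x : ℝ) : bmDens t (-x) = bmDens t x := by simp [bmDens]

theorem good_bm_shift {g₀ g z δ K : ℝ} (h0 : 0 < g₀) (hg : g₀ ≤ g) (hK : 0 ≤ K) (hz : z ≤ K)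
    (hδ : δ ∈ Icc (0 : ℝ) 1) : exp (-((2 * K + 1) / (2 * g₀))) * bmDens g z ≤ bmDens g (z + δ) := by
  unfold bmDens
  rw [mul_left_comm, ← exp_add]
  refine mul_le_mul_of_nonneg_left (exp_le_exp.2 ?_) (by positivity)
  have hg0 : 0 < g := h0.trans_le hg
  have h1 : (2 * K + 1) / (2 * g) ≤ (2 * K + 1) / (2 * g₀) := by gcongr
  have h2 : (2 * z * δ + δ ^ 2) / (2 * g) ≤ (2 * K + 1) / (2 * g) := by
    refine div_le_div_of_nonneg_right ?_ (by positivity)
    nlinarith [hδ.1, hδ.2, mul_nonneg hδ.1 (sub_nonneg.2 hz), mul_nonneg hK (sub_nonneg.2 hδ.2)]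
  have h3 : -(z + δ) ^ 2 / (2 * g) = -z ^ 2 / (2 * g) - (2 * z * δ + δ ^ 2) / (2 * g) := by ring
  linarith

theorem pKill_eq {t : ℝ} (ht : 0 < t) (x y : ℝ) :
    pKill t x y = bmDens t (x - y) * (1 - exp (-(2 * x * y / t))) := by
  unfold pKill bmDens
  rw [mul_sub, mul_one, mul_assoc _ (exp _) (exp _), ← exp_add]
  congr 3
  field_simp
  ring

theorem pKill_nonneg {t x y : ℝ} (ht : 0 < t) (hx : 0 ≤ x) (hy : 0 ≤ y) : 0 ≤ pKill t x y := by
  rw [pKill_eq ht]
  refine mul_nonneg (bmDens_nonneg _ _) (sub_nonneg.2 (exp_le_one_iff.2 (neg_nonpos.2 ?_)))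
  positivity

theorem good_pKill_both {t x y δ : ℝ} (ht : 0 < t) (hx : 0 ≤ x) (hy : 0 ≤ y) (hδ : 0 ≤ δ) :
    pKill t x y ≤ pKill t (x + δ) (y + δ) := by
  rw [pKill_eq ht, pKill_eq ht, add_sub_add_right_eq_sub]
  refine mul_le_mul_of_nonneg_left (sub_le_sub_left (exp_le_exp.2 (neg_le_neg ?_)) _)
    (bmDens_nonneg _ _)
  gcongr <;> linarith

theorem good_pKill_right {g₀ t x y δ K : ℝ} (h0 : 0 < g₀) (hg : g₀ ≤ t) (hK : 0 ≤ K) (hx : 0 ≤ x)
    (hy : 0 ≤ y) (hyK : y ≤ K) (hδ : δ ∈ Icc (0 : ℝ) 1) :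
    exp (-((2 * K + 1) / (2 * g₀))) * pKill t x y ≤ pKill t x (y + δ) := by
  have ht : 0 < t := h0.trans_le hg
  have h1 := good_bm_shift (z := y - x) h0 hg hK (by linarith) hδ
  rw [pKill_eq ht, pKill_eq ht, ← bmDens_neg t (x - y), ← bmDens_neg t (x - (y + δ)), ← mul_assoc,
    show -(x - y) = y - x by ring, show -(x - (y + δ)) = y - x + δ by ring]
  refine mul_le_mul h1 (sub_le_sub_left (exp_le_exp.2 (neg_le_neg ?_)) _)
    (sub_nonneg.2 (exp_le_one_iff.2 (neg_nonpos.2 (by positivity)))) (bmDens_nonneg _ _)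
  have := hδ.1
  gcongr
  linarith

theorem qHit_nonneg {t x : ℝ} (ht : 0 < t) (hx : 0 ≤ x) : 0 ≤ qHit t x :=
  mul_nonneg (by positivity) (bmDens_nonneg _ _)

theorem good_qHit {g₀ t x δ K : ℝ} (h0 : 0 < g₀) (hg : g₀ ≤ t) (hK : 0 ≤ K) (hx : 0 ≤ x)
    (hxK : x ≤ K) (hδ : δ ∈ Icc (0 : ℝ) 1) :
    exp (-((2 * K + 1) / (2 * g₀))) * qHit t x ≤ qHit t (x + δ) := by
  have ht : 0 < t := h0.trans_le hg
  unfold qHit
  rw [mul_left_comm]
  have := hδ.1
  refine mul_le_mul ?_ (good_bm_shift h0 hg hK hxK hδ)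
    (mul_nonneg (exp_pos _).le (bmDens_nonneg _ _)) (by positivity)
  gcongr
  linarith

theorem measurable_excDens (k : ℕ) (t : Fin (k + 1) → I) : Measurable (excDens k t) := by
  unfold excDens qHit pKill bmDens
  refine Measurable.ite ?_ (Measurable.ennreal_ofReal (Continuous.measurable (by fun_prop)))
    measurable_const
  rw [ofPred_forall]
  exact MeasurableSet.iInter fun i => measurableSet_lt measurable_const (measurable_pi_apply i)

theorem good_excDens_shift {a b c d : I} (ha : 0 < a) (hab : a ≤ b) (hbc : b < c) (hcd : c ≤ d)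
    (hd : d < 1) (K : ℕ) : ∃ κ : ℝ≥0∞, κ ≠ 0 ∧ ∀ k (t : Fin (k + 1) → I), StrictMono t →
      (∀ i, t i ∈ Icc a b ∪ Icc c d) → ∀ x : Fin (k + 1) → ℝ, (∀ i, x i ≤ K) →
      ∀ δ ∈ Icc (0 : ℝ) 1, κ * excDens k t x ≤
        excDens k t (x + δ • fun i => if c ≤ t i then (1 : ℝ) else 0) := by
  obtain ⟨g, hg0, hga, hgc, hgd⟩ : ∃ g : ℝ, 0 < g ∧ g ≤ a ∧ g ≤ c - b ∧ g ≤ 1 - d := by
    have h1 : (0 : ℝ) < a := ha
    have h2 : (b : ℝ) < c := hbc
    have h3 : (d : ℝ) < 1 := hd
    exact ⟨min a (min (c - b) (1 - d)), lt_min h1 (lt_min (by linarith) (by linarith)),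
      min_le_left _ _, (min_le_right _ _).trans (min_le_left _ _),
      (min_le_right _ _).trans (min_le_right _ _)⟩
  have hK : (0 : ℝ) ≤ K := Nat.cast_nonneg K
  set A : ℝ := (2 * K + 1) / (2 * g) with hA
  have hA0 : 0 ≤ A := by positivity
  refine ⟨ENNReal.ofReal (exp (-A) * exp (-A) * exp (-A)), by simpa using by positivity, ?_⟩
  intro k t htm htI x hxK δ hδ
  set v : Fin (k + 1) → ℝ := fun i => if c ≤ t i then (1 : ℝ) else 0 with hv
  have hv01 : ∀ i, v i ∈ Icc (0 : ℝ) 1 := fun i => by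
    simp only [hv]
    split_ifs <;> simp
  have hδv : ∀ i, δ * v i ∈ Icc (0 : ℝ) 1 := fun i =>
    ⟨mul_nonneg hδ.1 (hv01 i).1, mul_le_one₀ hδ.2 (hv01 i).1 (hv01 i).2⟩
  unfold excDens
  by_cases hx : ∀ i, 0 < x i
  swap
  · simp [hx]
  have hx' : ∀ i, 0 < (x + δ • v) i := fun i => by
    have := (hδv i).1
    have := hx i
    simp only [Pi.add_apply, Pi.smul_apply, smul_eq_mul]
    linarith
  rw [if_pos hx, if_pos hx', ← ENNReal.ofReal_mul (by positivity)]
  refine ENNReal.ofReal_le_ofReal ?_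
  have hlo : ∀ i, (a : ℝ) ≤ t i := fun i => by
    rcases htI i with h | h
    · exact h.1
    · exact (hab.trans hbc.le).trans h.1
  have hhi : ∀ i, (t i : ℝ) ≤ d := fun i => by
    rcases htI i with h | h
    · exact h.2.trans (hbc.le.trans hcd)
    · exact h.2
  have hgap : ∀ i : Fin k, (0 : ℝ) < t i.succ - t i.castSucc := fun i =>
    sub_pos.2 (htm (Fin.castSucc_lt_succ))
  have h1 := good_qHit hg0 (hga.trans (hlo 0)) hK (hx 0).le (hxK 0) (hδv 0)
  have h3 := good_qHit (t := 1 - t (Fin.last k)) hg0 (by linarith [hhi (Fin.last k)]) hK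
    (hx (Fin.last k)).le (hxK _) (hδv (Fin.last k))
  have hf : ∀ i : Fin k, exp (-(A * (v i.succ - v i.castSucc))) *
      pKill (t i.succ - t i.castSucc) (x i.castSucc) (x i.succ) ≤
      pKill (t i.succ - t i.castSucc) (x i.castSucc + δ * v i.castSucc)
        (x i.succ + δ * v i.succ) := by
    intro i
    by_cases h : c ≤ t i.castSucc
    · have h' : c ≤ t i.succ := h.trans (htm (Fin.castSucc_lt_succ)).le
      simp only [hv, if_pos h, if_pos h', sub_self, mul_zero, neg_zero, exp_zero, one_mul, mul_one]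
      exact good_pKill_both (hgap i) (hx _).le (hx _).le hδ.1
    · by_cases h' : c ≤ t i.succ
      · simp only [hv, if_neg h, if_pos h', sub_zero, mul_zero, add_zero, mul_one]
        refine good_pKill_right hg0 ?_ hK (hx _).le (hx _).le (hxK _) hδ
        have h4 : (t i.castSucc : ℝ) ≤ b := by
          rcases htI i.castSucc with h5 | h5
          · exact h5.2
          · exact absurd h5.1 h
        have h5 : (c : ℝ) ≤ t i.succ := h'
        linarith
      · simp [hv, if_neg h, if_neg h']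
  have h2 : exp (-A) * ∏ i : Fin k, pKill (t i.succ - t i.castSucc) (x i.castSucc) (x i.succ) ≤
      ∏ i : Fin k, pKill (t i.succ - t i.castSucc) (x i.castSucc + δ * v i.castSucc)
        (x i.succ + δ * v i.succ) := by
    have hp : ∀ i : Fin k, 0 ≤ pKill (t i.succ - t i.castSucc) (x i.castSucc) (x i.succ) :=
      fun i => pKill_nonneg (hgap i) (hx _).le (hx _).le
    refine le_trans ?_ (Finset.prod_le_prod (fun i _ => mul_nonneg (exp_pos _).le (hp i))
      fun i _ => hf i)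
    rw [Finset.prod_mul_distrib, ← exp_sum]
    refine mul_le_mul_of_nonneg_right (exp_le_exp.2 ?_) (Finset.prod_nonneg fun i _ => hp i)
    rw [Finset.sum_neg_distrib, ← Finset.mul_sum, Finset.sum_sub_distrib]
    have e1 := Fin.sum_univ_succ v
    have e2 := Fin.sum_univ_castSucc v
    have := (hv01 0).1
    have := (hv01 (Fin.last k)).2
    nlinarith
  have q1 := qHit_nonneg (hg0.trans_le (hga.trans (hlo 0))) (hx 0).le
  have q3 := qHit_nonneg (t := 1 - t (Fin.last k)) (by linarith [hhi (Fin.last k)])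
    (hx (Fin.last k)).le
  have q2 : 0 ≤ ∏ i : Fin k, pKill (t i.succ - t i.castSucc) (x i.castSucc) (x i.succ) :=
    Finset.prod_nonneg fun i _ => pKill_nonneg (hgap i) (hx _).le (hx _).le
  simp only [Pi.add_apply, Pi.smul_apply, smul_eq_mul]
  calc _ = 2 * √(2 * π) * (exp (-A) * qHit (t 0) (x 0)) *
        (exp (-A) * ∏ i : Fin k, pKill (t i.succ - t i.castSucc) (x i.castSucc) (x i.succ)) *
        (exp (-A) * qHit (1 - t (Fin.last k)) (x (Fin.last k))) := by ring
    _ ≤ _ := by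
      refine mul_le_mul (mul_le_mul (mul_le_mul_of_nonneg_left h1 (by positivity)) h2
        (by positivity) ?_) h3 (by positivity) ?_
      · exact mul_nonneg (by positivity) (le_trans (by positivity) h1)
      · exact mul_nonneg (mul_nonneg (by positivity) (le_trans (by positivity) h1))
          (le_trans (by positivity) h2)

/-- Minima of the excursion over two fixed disjoint intervals inside `(0,1)` are a.s. distinct. -/
theorem good_fixed {Y : Type} [MeasurableSpace Y] (S : Measure Y) [IsFiniteMeasure S]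
    (e : Y → I → ℝ) (hc : ∀ y, Continuous (e y)) (hm : ∀ t, Measurable fun y => e y t)
    (hfdd : ∀ k (t : Fin (k + 1) → I), StrictMono t → (∀ i, 0 < t i ∧ t i < 1) →
      S.map (fun y i => e y (t i)) = volume.withDensity (excDens k t))
    {a b c d : I} (ha : 0 < a) (hab : a ≤ b) (hbc : b < c) (hcd : c ≤ d) (hd : d < 1) :
    ∀ᵐ y ∂S, mn (e y) (Icc a b) ≠ mn (e y) (Icc c d) := by
  refine good_core S e hc hm excDens measurable_excDens hab hbc hcd (fun k t ht hI => ?_)
    (good_excDens_shift ha hab hbc hcd hd)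
  refine hfdd k t ht fun i => ?_
  rcases hI i with h | h
  · exact ⟨ha.trans_le h.1, (h.2.trans (hbc.le.trans hcd)).trans_lt hd⟩
  · exact ⟨ha.trans_le ((hab.trans hbc.le).trans h.1), h.2.trans_lt hd⟩

/-- The minimum of the excursion over a fixed interval inside `(0,1)` has no atom. -/
theorem good_const {Y : Type} [MeasurableSpace Y] (S : Measure Y) [IsFiniteMeasure S]
    (e : Y → I → ℝ) (hc : ∀ y, Continuous (e y)) (hm : ∀ t, Measurable fun y => e y t)
    (hfdd : ∀ k (t : Fin (k + 1) → I), StrictMono t → (∀ i, 0 < t i ∧ t i < 1) →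
      S.map (fun y i => e y (t i)) = volume.withDensity (excDens k t))
    {c d : I} (hc0 : 0 < c) (hcd : c ≤ d) (hd : d < 1) (r : ℝ) :
    ∀ᵐ y ∂S, mn (e y) (Icc c d) ≠ r := by
  classical
  obtain ⟨a, ha, hac⟩ := exists_between hc0
  obtain ⟨G, hGm, hGc, hG, hGd⟩ := good_grid hcd
  have key : ∀ K : ℕ, S {y | (∀ t, e y t ≤ K) ∧ mn (e y) (Icc c d) = r} = 0 := by
    intro K
    obtain ⟨κ, hκ0, hκ⟩ := good_excDens_shift ha le_rfl hac hcd hd K
    have hN : ∀ N : ℕ, (N : ℝ≥0∞) * (κ * S {y | (∀ t, e y t ≤ K) ∧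
        mn (e y) (Icc c d) = r}) ≤ S univ := by
      intro N
      obtain ⟨ε, hε, hNε⟩ : ∃ ε : ℝ, 0 < ε ∧ 3 * N * ε ≤ 1 := by
        refine ⟨1 / (3 * N + 1), by positivity, ?_⟩
        rw [mul_one_div, div_le_one (by positivity)]
        linarith
      set E : ℕ → Set Y := fun n => {y | (∀ t, e y t ≤ K) ∧
        |(G n).inf' ⟨c, hGc n⟩ (e y) - r| ≤ ε} with hE
      have hEn : ∀ n, (N : ℝ≥0∞) * (κ * S (E n)) ≤ S univ := by
        intro n
        obtain ⟨k, hk⟩ : ∃ k, (G n).card = k + 1 :=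
          Nat.exists_eq_succ_of_ne_zero (Finset.card_ne_zero.2 ⟨c, hGc n⟩)
        set t : Fin (k + 1) → I := fun i => (G n).orderEmbOfFin hk i with ht
        have htm : StrictMono t := ((G n).orderEmbOfFin hk).strictMono
        have htF : ∀ i, t i ∈ G n := fun i => Finset.orderEmbOfFin_mem _ hk i
        have hts : ∀ s ∈ G n, ∃ i, t i = s := by
          intro s hs
          have : s ∈ range ((G n).orderEmbOfFin hk) := by
            rw [Finset.range_orderEmbOfFin]
            exact Finset.mem_coe.2 hs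
          exact this
        set φ : (Fin (k + 1) → ℝ) → ℝ := fun x => Finset.inf' _ Finset.univ_nonempty x - r with hφ
        have hφm : Measurable φ :=
          ((Continuous.finset_inf'_apply Finset.univ_nonempty fun i _ => continuous_apply i).sub
            continuous_const).measurable
        have hv : ∀ x (δ : ℝ),
            φ (x + δ • fun i => if c ≤ t i then (1 : ℝ) else 0) = φ x + δ := by
          intro x δ
          simp only [hφ]
          rw [good_inf_shift _ _ x _ δ 1 fun i _ => if_pos (hG n _ (htF i)).1]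
          ring
        have hB : MeasurableSet {x : Fin (k + 1) → ℝ | ∀ i, x i ≤ K} := by
          rw [ofPred_forall]
          exact MeasurableSet.iInter fun i =>
            measurableSet_le (measurable_pi_apply i) measurable_const
        have h1 := good_shift (measurable_excDens k t) _ hφm hv hB κ
          (hκ k t htm fun i => Or.inr (hG n _ (htF i))) hε N hNε
        have hX : Measurable fun y i => e y (t i) := measurable_pi_lambda _ fun i => hm _
        rw [← hfdd k t htm fun i =>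
            ⟨hc0.trans_le (hG n _ (htF i)).1, (hG n _ (htF i)).2.trans_lt hd⟩,
          Measure.map_apply hX MeasurableSet.univ, preimage_univ,
          Measure.map_apply hX (hB.inter (measurableSet_le hφm.abs measurable_const))] at h1
        refine le_trans (mul_le_mul_right (mul_le_mul_right (measure_mono ?_) _) _) h1
        intro y hy
        refine ⟨fun i => hy.1 _, ?_⟩
        have himg : Finset.inf' _ Finset.univ_nonempty (fun i => e y (t i)) =
            (G n).inf' ⟨c, hGc n⟩ (e y) := by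
          apply le_antisymm
          · refine Finset.le_inf' _ _ fun s hs => ?_
            obtain ⟨i, rfl⟩ := hts s hs
            exact Finset.inf'_le (fun i => e y (t i)) (Finset.mem_univ i)
          · exact Finset.le_inf' _ _ fun i _ => Finset.inf'_le _ (htF i)
        have := hy.2
        simp only [hφ, mem_ofPred_eq]
        rwa [himg]
      have hsub : {y | (∀ t, e y t ≤ K) ∧ mn (e y) (Icc c d) = r} ⊆ ⋃ m, ⋂ n ≥ m, E n := by
        intro y hy
        obtain ⟨n2, u, hu, hu'⟩ := hGd _ (hc y) ε hε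
        refine mem_iUnion.2 ⟨n2, mem_iInter₂.2 fun n hn => ⟨hy.1, ?_⟩⟩
        have h2 := Finset.inf'_le (e y) (hGm hn hu)
        have h4 : mn (e y) (Icc c d) ≤ (G n).inf' ⟨c, hGc n⟩ (e y) :=
          Finset.le_inf' _ _ fun r hr => good_mn_le (hc y) (hG n r hr)
        have h5 := hy.2
        rw [abs_le]
        constructor <;> linarith
      have hmono : Monotone fun m => ⋂ n ≥ m, E n := fun m m' h =>
        biInter_subset_biInter_left fun n hn => le_trans h hn
      refine le_trans (by gcongr) (?_ : (N : ℝ≥0∞) * (κ * S (⋃ m, ⋂ n ≥ m, E n)) ≤ _)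
      rw [hmono.measure_iUnion, ENNReal.mul_iSup, ENNReal.mul_iSup]
      refine iSup_le fun m => le_trans ?_ (hEn m)
      gcongr
      exact biInter_subset_of_mem (le_refl m)
    by_contra h0
    obtain ⟨N, hN'⟩ := ENNReal.exists_nat_mul_gt (mul_ne_zero hκ0 h0) (measure_ne_top S univ)
    exact absurd (hN N) (not_le.2 hN')
  rw [ae_iff]
  refine measure_mono_null (fun y hy => ?_) (measure_iUnion_null key)
  obtain ⟨M, hM⟩ := (isCompact_range (hc y)).bddAbove
  obtain ⟨K, hK⟩ := exists_nat_ge M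
  exact mem_iUnion.2 ⟨K, fun t => (hM (mem_range_self t)).trans hK, not_not.1 hy⟩

theorem good_rat {x y : I} (h : x < y) : ∃ z : I, x < z ∧ z < y ∧ (z : ℝ) ∈ range ((↑) : ℚ → ℝ) := by
  obtain ⟨q, h1, h2⟩ := exists_rat_btwn (show (x : ℝ) < y from h)
  exact ⟨⟨q, x.2.1.trans h1.le, h2.le.trans y.2.2⟩, h1, h2, q, rfl⟩

theorem good_mn_eq {f : I → ℝ} {A : Set I} {s : I} (hs : s ∈ A) (h : ∀ r ∈ A, f s ≤ f r) :
    mn f A = f s :=
  IsLeast.csInf_eq ⟨mem_image_of_mem f hs, by rintro _ ⟨r, hr, rfl⟩; exact h r hr⟩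

/-- Pathwise form: a.s. `e` does not vanish at an interior local minimum, and two interior local
minima over disjoint neighbourhoods have distinct values. -/
theorem good_path {Y : Type} [MeasurableSpace Y] (S : Measure Y) [IsFiniteMeasure S]
    (e : Y → I → ℝ) (hc : ∀ y, Continuous (e y)) (hm : ∀ t, Measurable fun y => e y t)
    (hfdd : ∀ k (t : Fin (k + 1) → I), StrictMono t → (∀ i, 0 < t i ∧ t i < 1) →
      S.map (fun y i => e y (t i)) = volume.withDensity (excDens k t)) :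
    ∀ᵐ y ∂S, (∀ a s b : I, a < s → s < b → (∀ r ∈ Icc a b, e y s ≤ e y r) → e y s ≠ 0) ∧
      ∀ a s u d : I, a < s → s < u → u < d → (∀ r ∈ Icc a d, e y s ≤ e y r) → e y s ≠ e y u := by
  have hQ : {z : I | (z : ℝ) ∈ range ((↑) : ℚ → ℝ)}.Countable :=
    (countable_range _).preimage Subtype.val_injective
  have h1 : ∀ᵐ y ∂S, ∀ c ∈ {z : I | (z : ℝ) ∈ range ((↑) : ℚ → ℝ)},
      ∀ d ∈ {z : I | (z : ℝ) ∈ range ((↑) : ℚ → ℝ)}, 0 < c → c ≤ d → d < 1 →
        mn (e y) (Icc c d) ≠ 0 := by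
    refine (ae_ball_iff hQ).2 fun c _ => (ae_ball_iff hQ).2 fun d _ => ?_
    by_cases h : 0 < c ∧ c ≤ d ∧ d < 1
    · exact (good_const S e hc hm hfdd h.1 h.2.1 h.2.2 0).mono fun y hy _ _ _ => hy
    · exact Eventually.of_forall fun y a1 a2 a3 => absurd ⟨a1, a2, a3⟩ h
  have h2 : ∀ᵐ y ∂S, ∀ a ∈ {z : I | (z : ℝ) ∈ range ((↑) : ℚ → ℝ)},
      ∀ b ∈ {z : I | (z : ℝ) ∈ range ((↑) : ℚ → ℝ)},
      ∀ c ∈ {z : I | (z : ℝ) ∈ range ((↑) : ℚ → ℝ)},
      ∀ d ∈ {z : I | (z : ℝ) ∈ range ((↑) : ℚ → ℝ)}, 0 < a → a ≤ b → b < c → c ≤ d → d < 1 →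
        mn (e y) (Icc a b) ≠ mn (e y) (Icc c d) := by
    refine (ae_ball_iff hQ).2 fun a _ => (ae_ball_iff hQ).2 fun b _ =>
      (ae_ball_iff hQ).2 fun c _ => (ae_ball_iff hQ).2 fun d _ => ?_
    by_cases h : 0 < a ∧ a ≤ b ∧ b < c ∧ c ≤ d ∧ d < 1
    · exact (good_fixed S e hc hm hfdd h.1 h.2.1 h.2.2.1 h.2.2.2.1 h.2.2.2.2).mono
        fun y hy _ _ _ _ _ => hy
    · exact Eventually.of_forall fun y a1 a2 a3 a4 a5 => absurd ⟨a1, a2, a3, a4, a5⟩ h
  filter_upwards [h1, h2] with y hy1 hy2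
  refine ⟨fun a s b has hsb hmin => ?_, fun a s u d has hsu hud hmin heq => ?_⟩
  · obtain ⟨c, hac, hcs, hcq⟩ := good_rat has
    obtain ⟨d, hsd, hdb, hdq⟩ := good_rat hsb
    rw [← good_mn_eq (A := Icc c d) ⟨hcs.le, hsd.le⟩ fun r hr =>
      hmin r ⟨hac.le.trans hr.1, hr.2.trans hdb.le⟩]
    exact hy1 c hcq d hdq (unitInterval.nonneg'.trans_lt hac) (hcs.trans hsd).le
      (hdb.trans_le unitInterval.le_one')
  · obtain ⟨a', h1, h2, hq1⟩ := good_rat has
    obtain ⟨b', h3, h4, hq2⟩ := good_rat hsu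
    obtain ⟨c', h5, h6, hq3⟩ := good_rat h4
    obtain ⟨d', h7, h8, hq4⟩ := good_rat hud
    refine hy2 a' hq1 b' hq2 c' hq3 d' hq4 (unitInterval.nonneg'.trans_lt h1) (h2.trans h3).le h5
      (h6.trans h7).le (h8.trans_le unitInterval.le_one') ?_
    rw [good_mn_eq (A := Icc a' b') ⟨h2.le, h3.le⟩ fun r hr =>
        hmin r ⟨h1.le.trans hr.1, hr.2.trans (h4.trans hud).le⟩,
      good_mn_eq (A := Icc c' d') ⟨h6.le, h7.le⟩ fun r hr => heq ▸
        hmin r ⟨(has.trans (h3.trans h5)).le.trans hr.1, hr.2.trans h8.le⟩, heq]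

end Pool.Agent.QL
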