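import Pool.Agent.P.MP_7a6434d8_pr.QL.BM.LimMain

/-! Block LIM. -/

open MeasureTheory Set Filter Topology
open scoped ENNReal unitInterval

namespace Pool.Agent.QL

theorem lim {T : ℕ → Type} [∀ n, Finite (T n)] [∀ n, MeasurableSpace (T n)]
    [∀ n, DiscreteMeasurableSpace (T n)] (lam : ∀ n, Measure (T n))
    {Y : Type} [MeasurableSpace Y] (S : Measure Y)
    [IsProbabilityMeasure S] {e Z : Y → C(I, ℝ)} (he : ∀ s, Measurable fun y => e y s)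
    (hZ : ∀ s, Measurable fun y => Z y s) {V : ∀ n, T n → Type} [∀ n t, Fintype (V n t)]
    (C l : ∀ n, T n → ℕ → ℤ) (c : ∀ n t, ℕ → V n t) (d : ∀ n t, V n t → V n t → ℕ)
    (vs : ∀ n t, V n t) {a b : ℕ → ℝ} (ha : ∀ᶠ n in atTop, 0 < a n) (hb0 : ∀ n, 0 ≤ b n)
    (hb : ∀ᶠ n in atTop, 0 < b n) (hb' : Tendsto b atTop (𝓝 0))
    (hcode : ∀ᶠ n in atTop, ∀ t, Fintype.card (V n t) = n + 2 ∧
      IsCoded n (C n t) (l n t) (c n t) (d n t) (vs n t))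
    (hr : ∀ᶠ n : ℕ in atTop, ∀ F : ℕ → ℝ,
      ((n : ℝ) + 2) * ∫ t, ∑ v, F (d n t (vs n t) v) ∂lam n =
      ∫ t, ∑ u, ∑ v, F (d n t u v) ∂lam n)
    (hsnake : ∀ η > 0, ∀ᶠ n in atTop, ∃ Γ : Measure (T n × Y), Γ.fst = lam n ∧ Γ.snd = S ∧
      Γ {p | ¬ SnClose n (a n) (b n) (C n p.1) (l n p.1) (e p.2) (Z p.2) η} ≤ ENNReal.ofReal η)
    (hgood : ∀ᵐ y ∂S, Tri (e y))
    (hrr : ∫ y, KK (Z y) ∂S ≤ ∫ y, HH (Dst (e y) (Z y)) ∂S) :
    ∀ ε > 0, ∀ᶠ n in atTop, ∃ Θ : Measure (T n × Y), Θ.fst = lam n ∧ Θ.snd = S ∧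
      Θ {p | ¬ ∀ s u, |b n * d n p.1 (c n p.1 (cornerAt n (C n p.1) s))
        (c n p.1 (cornerAt n (C n p.1) u)) - Dst (e p.2) (Z p.2) s u| ≤ ε} ≤ ENNReal.ofReal ε := by
  intro ε hε
  obtain ⟨N, hN⟩ := eventually_atTop.1 (hsnake 1 one_pos)
  have hz : Tendsto (fun n => n + N) atTop atTop := tendsto_add_atTop_nat N
  have : ∀ n, IsProbabilityMeasure (lam (n + N)) := fun n => by
    obtain ⟨Θ, a1, a2, -⟩ := hN (n + N) (Nat.le_add_left _ _)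
    exact ⟨by rw [← a1, Measure.fst_univ, ← Measure.snd_univ, a2]; exact measure_univ⟩
  rw [← map_add_atTop_eq_nat N]
  exact lim_main (fun n => n + N) hz (T := fun n => T (n + N)) (fun n => lam (n + N)) S he hZ
    (V := fun n => V (n + N)) (fun n => C (n + N)) (fun n => l (n + N)) (fun n => c (n + N))
    (fun n => d (n + N)) (fun n => vs (n + N)) (a := fun n => a (n + N)) (b := fun n => b (n + N))
    (hz.eventually ha) (fun _ => hb0 _) (hz.eventually hb) (hb'.comp hz) (hz.eventually hcode)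
    (hz.eventually hr) (fun η hη => hz.eventually (hsnake η hη)) hgood hrr ε hε

end Pool.Agent.QL
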