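import Pool.Agent.P.MP_7a6434d8_pr.QL.BM.LimMeas
import Pool.Agent.P.MP_7a6434d8_pr.QL.W.DClock

/-! Re-rooting in the continuum, from the identification with the rooted sphere. -/

open MeasureTheory ProbabilityTheory Set Filter Topology
open scoped ENNReal NNReal unitInterval

namespace Pool.Agent.QL

open Pool.Agent.LGD Pool.Agent.P.MP_7a6434d8_pr

/-- Liouville Brownian motion starts from a `μ`-distributed point -/
theorem IsLBM.map_start {W : Measure Path} {μ : Measure ℂ} {L : Measure Path} (hW : IsWiener W)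
    [IsProbabilityMeasure μ] (h : IsLBM W μ L) : L.map (fun b => b.1 0) = μ := by
  obtain ⟨A, Λ, B, hC, rfl⟩ := h
  have h1 : ((μ.prod W).map fun p => B (tr p.1 p.2)) = (Pm W μ).map B := by
    rw [Pm, Measure.map_map hC.measB measurable_tr]
    rfl
  rw [h1, Measure.map_map (measurable_eval 0) hC.measB]
  refine (Measure.map_congr ?_).trans (Pm_zero hW μ)
  filter_upwards [hC.ae_mem hW μ (Measure.AbsolutelyContinuous.rfl.add_right' volume)] with w hw
  exact hC.start hw

theorem limrr_transfer {π : I → Sph} {m : Measure ℂ} {L : Measure Path} [IsProbabilityMeasure L]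
    (hL : L.map (fun b => b.1 0) = m) (hπ : (volume : Measure I).map π = m.map (↑))
    {φ : Sph → ℝ} (hφ : Measurable φ) :
    ∫ u, φ (π u) = ∫ b, φ (b.1 0 : ℂ) ∂L := by
  have hc : Measurable fun z : ℂ => (z : Sph) := OnePoint.continuous_coe.measurable
  have hm : Measurable fun b : Path => ((b.1 0 : ℂ) : Sph) := hc.comp (measurable_eval 0)
  have h1 : (volume : Measure I).map π = L.map fun b : Path => ((b.1 0 : ℂ) : Sph) := by
    rw [hπ, ← hL, Measure.map_map hc (measurable_eval 0)]
    rfl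
  have h2 : IsProbabilityMeasure (L.map fun b : Path => ((b.1 0 : ℂ) : Sph)) :=
    Measure.isProbabilityMeasure_map hm.aemeasurable
  have h3 : AEMeasurable π volume :=
    AEMeasurable.of_map_ne_zero (by rw [h1]; exact IsProbabilityMeasure.ne_zero _)
  rw [← integral_map h3 hφ.aestronglyMeasurable, h1,
    integral_map hm.aemeasurable hφ.aestronglyMeasurable]

theorem limrr_bdd {X : Type} [MeasurableSpace X] (m : Measure X) [IsFiniteMeasure m] {f : X → ℝ}
    (hf : Measurable f) (h : ∀ x, f x ∈ Icc (0 : ℝ) 1) : Integrable f m :=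
  .of_bound hf.aestronglyMeasurable 1 (Eventually.of_forall fun x => by
    rw [Real.norm_of_nonneg (h x).1]; exact (h x).2)

theorem rr {Ω Y : Type} [MeasurableSpace Ω] [MeasurableSpace Y] (P : Measure Ω)
    [IsProbabilityMeasure P] {d : Ω → Sph → Sph → ℝ} (hd : ∀ x y, Measurable fun ω => d ω x y)
    {μ : Ω → Measure ℂ} (L : Kernel Ω Path) [IsMarkovKernel L]
    (hω : ∀ᵐ ω ∂P, (Continuous fun p : Sph × Sph => d ω p.1 p.2) ∧
      (L ω).map (fun b => b.1 0) = μ ω)
    {e Z : Y → C(I, ℝ)} (he : ∀ s, Measurable fun y => e y s)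
    (hZ : ∀ s, Measurable fun y => Z y s) (S : Measure Y) (Γ : Measure ((Ω × Path) × Y))
    (h1 : Γ.fst = P ⊗ₘ L) (h2 : Γ.snd = S)
    (hID : ∀ᵐ p ∂Γ, ∃ π : I → Sph, (∀ s u, d p.1.1 (π s) (π u) = Dst (e p.2) (Z p.2) s u) ∧
      (volume : Measure I).map π = (μ p.1.1).map (↑) ∧
      ∃ s, (∀ u, Z p.2 s ≤ Z p.2 u) ∧ π s = (p.1.2.1 0 : ℂ)) :
    ∫ y, KK (Z y) ∂S ≤ ∫ y, HH (Dst (e y) (Z y)) ∂S := by
  classical
  obtain ⟨N, hN, hNm, hN0⟩ := exists_measurable_superset_of_null (ae_iff.1 hω)
  have hgood : ∀ ω, ω ∉ N → (Continuous fun p : Sph × Sph => d ω p.1 p.2) ∧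
      (L ω).map (fun b => b.1 0) = μ ω := fun ω h => by
    by_contra hc
    exact h (hN hc)
  have hc : Measurable fun z : ℂ => (z : Sph) := OnePoint.continuous_coe.measurable
  have hm : Measurable fun b : Path => ((b.1 0 : ℂ) : Sph) := hc.comp (measurable_eval 0)
  set d' : Ω → Sph → Sph → ℝ := fun ω x y => if ω ∈ N then 0 else |d ω x y| with hd'
  have hd0 : ∀ ω x y, 0 ≤ d' ω x y := fun ω x y => by
    simp only [hd']
    split_ifs
    · exact le_rfl
    · exact abs_nonneg _
  have hF : Measurable (Function.uncurry fun (p : Sph × Sph) ω => Real.exp (-d' ω p.1 p.2)) := by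
    refine measurable_uncurry_of_continuous_of_measurable (fun ω => ?_) fun p => ?_
    · by_cases h : ω ∈ N
      · simp only [hd', if_pos h]
        exact continuous_const
      · simp only [hd', if_neg h]
        exact Real.continuous_exp.comp (hgood ω h).1.abs.neg
    · exact (Measurable.ite hNm measurable_const (hd p.1 p.2).abs).neg.exp
  set G : Ω × Sph → ℝ := fun q => ∫ b, Real.exp (-d' q.1 q.2 (b.1 0 : ℂ)) ∂L q.1 with hGdef
  have hG : Measurable G := by
    have h : Measurable fun r : (Ω × Sph) × Path =>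
        Real.exp (-d' r.1.1 r.1.2 (r.2.1 0 : ℂ)) :=
      hF.comp (f := fun r : (Ω × Sph) × Path => ((r.1.2, ((r.2.1 0 : ℂ) : Sph)), r.1.1))
        ((measurable_fst.snd.prodMk (hm.comp measurable_snd)).prodMk measurable_fst.fst)
    exact (h.stronglyMeasurable.integral_kernel_prod_right'
      (κ := L.comap Prod.fst measurable_fst)).measurable
  have hGm : ∀ q, G q ∈ Icc (0 : ℝ) 1 := fun q => exp_int_mem _ fun b => hd0 _ _ _
  have hG' : Measurable fun r : Ω × Path => G (r.1, (r.2.1 0 : ℂ)) :=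
    hG.comp (measurable_fst.prodMk (hm.comp measurable_snd))
  set H : Ω → ℝ := fun ω => ∫ b, G (ω, (b.1 0 : ℂ)) ∂L ω with hHdef
  have hH : Measurable H := (hG'.stronglyMeasurable.integral_kernel_prod_right' (κ := L)).measurable
  have hHm : ∀ ω, H ω ∈ Icc (0 : ℝ) 1 := fun ω => by
    refine ⟨integral_nonneg fun b => (hGm _).1, ?_⟩
    have := integral_mono_of_nonneg (μ := L ω) (f := fun b : Path => G (ω, (b.1 0 : ℂ)))
      (g := fun _ => (1 : ℝ)) (Eventually.of_forall fun b => (hGm _).1) (integrable_const _)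
      (Eventually.of_forall fun b => (hGm _).2)
    simpa using this
  have hΓ : IsProbabilityMeasure Γ := ⟨by
    rw [← Measure.fst_univ, h1]; exact measure_univ⟩
  have hN' : ∀ᵐ p ∂Γ, p.1.1 ∉ N := by
    have h3 : ∀ᵐ q ∂(P ⊗ₘ L), q.1 ∉ N :=
      Measure.ae_compProd_of_ae_fst L (p := fun ω => ω ∉ N) hNm.compl
        (measure_eq_zero_iff_ae_notMem.1 hN0)
    rw [← h1] at h3
    exact ae_of_ae_map measurable_fst.aemeasurable h3
  have key : ∀ᵐ p ∂Γ, KK (Z p.2) ≤ G (p.1.1, (p.1.2.1 0 : ℂ)) ∧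
      HH (Dst (e p.2) (Z p.2)) = H p.1.1 := by
    filter_upwards [hID, hN'] with p ⟨π, hπ1, hπ2, s, hs1, hs2⟩ hp
    have hZc := (Z p.2).continuous
    have hdd : ∀ s u, d' p.1.1 (π s) (π u) = Dst (e p.2) (Z p.2) s u := fun s u => by
      simp only [hd', if_neg hp, hπ1]
      exact abs_of_nonneg (Dst_nonneg hZc s u)
    have hGs : ∀ s, ∫ u, Real.exp (-Dst (e p.2) (Z p.2) s u) = G (p.1.1, π s) := fun s => by
      simp only [← hdd]
      exact limrr_transfer (hgood _ hp).2 hπ2 (φ := fun y => Real.exp (-d' p.1.1 (π s) y))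
        (hF.comp (f := fun y : Sph => ((π s, y), p.1.1))
          ((measurable_const.prodMk measurable_id).prodMk measurable_const))
    have hcD : Continuous fun q : I × I => Real.exp (-Dst (e p.2) (Z p.2) q.1 q.2) :=
      Real.continuous_exp.comp (continuous_Dst hZc).neg
    constructor
    · rw [← hs2, ← hGs s]
      refine integral_mono_of_nonneg (Eventually.of_forall fun u => (Real.exp_pos _).le)
        ((hcD.comp (continuous_const.prodMk continuous_id)).integrable_of_hasCompactSupport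
          (HasCompactSupport.of_compactSpace _)) (Eventually.of_forall fun u => ?_)
      exact Real.exp_le_exp.2 (neg_le_neg ((Dst_le_D0 hZc s u).trans (D0_min hs1 hZc u)))
    · rw [HH, Measure.volume_eq_prod, integral_prod _ (hcD.integrable_of_hasCompactSupport
        (HasCompactSupport.of_compactSpace _))]
      simp only [hGs]
      exact limrr_transfer (hgood _ hp).2 hπ2 (φ := fun x => G (p.1.1, x))
        (hG.comp (measurable_const.prodMk measurable_id))
  have e1 : ∫ y, KK (Z y) ∂S = ∫ p, KK (Z p.2) ∂Γ := by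
    rw [← h2, Measure.snd,
      integral_map measurable_snd.aemeasurable (measurable_KK hZ).aestronglyMeasurable]
  have e2 : ∫ y, HH (Dst (e y) (Z y)) ∂S = ∫ p, HH (Dst (e p.2) (Z p.2)) ∂Γ := by
    rw [← h2, Measure.snd,
      integral_map measurable_snd.aemeasurable (measurable_HH he hZ).aestronglyMeasurable]
  have e3 : ∫ p, G (p.1.1, (p.1.2.1 0 : ℂ)) ∂Γ = ∫ ω, H ω ∂P := by
    rw [← Measure.integral_compProd (limrr_bdd (P ⊗ₘ L) hG' fun _ => hGm _), ← h1, Measure.fst,
      integral_map measurable_fst.aemeasurable hG'.aestronglyMeasurable]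
  have e4 : ∫ p, H p.1.1 ∂Γ = ∫ ω, H ω ∂P := by
    have hH' : Measurable fun q : Ω × Path => H q.1 := hH.comp measurable_fst
    have h3 : ∫ q, H q.1 ∂(P ⊗ₘ L) = ∫ ω, H ω ∂P := by
      rw [Measure.integral_compProd (limrr_bdd (P ⊗ₘ L) hH' fun _ => hHm _)]
      simp
    rw [← h3, ← h1, Measure.fst,
      integral_map measurable_fst.aemeasurable hH'.aestronglyMeasurable]
  rw [e1, e2, integral_congr_ae (key.mono fun p hp => hp.2), e4, ← e3]
  exact integral_mono_of_nonneg (Eventually.of_forall fun p => (KK_mem (Z p.2).continuous).1)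
    (limrr_bdd Γ (hG'.comp measurable_fst) fun _ => hGm _) (key.mono fun p hp => hp.1)

end Pool.Agent.QL
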