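import Pool.Agent.P.MP_7a6434d8_pr.QL.BM.Stmts
import Pool.Agent.P.MP_7a6434d8_pr.QL.BM.Lim
import Pool.Agent.P.MP_7a6434d8_pr.QL.BM.LimRR
import Pool.Agent.P.MP_7a6434d8_pr.QL.BM.Good
import Pool.Agent.P.MP_7a6434d8_pr.QL.W.CBasic

/-! Convergence of quadrangulations to the Brownian map: assembly. -/

open MeasureTheory ProbabilityTheory Set Filter Topology Metric
open scoped ENNReal NNReal unitInterval BoundedContinuousFunction

namespace Pool.Agent.QL.BM

open Pool.Agent.LGD Pool.Agent.P.MP_7a6434d8_pr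

theorem fin_ghp (hC : CvsStmt) (hS : SnakeStmt) {Ω : Type} [MeasurableSpace Ω] (P : Measure Ω)
    [IsProbabilityMeasure P] {d : Ω → Sph → Sph → ℝ} (hd : ∀ x y, Measurable fun ω => d ω x y)
    {μ : Ω → Measure ℂ} (hs : ∀ᵐ ω ∂P, IsGeoMetric (d ω) ∧ IsProbabilityMeasure (μ ω))
    {W : Measure Path} (hW : IsWiener W) (L : Kernel Ω Path) [IsMarkovKernel L]
    (hL : ∀ᵐ ω ∂P, IsLBM W (μ ω) (L ω)) (Γ : Measure ((Ω × Path) × Snake)) (hΓ : Γ.fst = P ⊗ₘ L)
    (h : IsSnake Γ.snd) (hm : ∀ᵐ p ∂Γ, IsMapOf p.2 (d p.1.1) (μ p.1.1) (p.1.2.1 0)) :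
    ConvLaw (fun n => (uniformOn univ : Measure (RootedQuad n))) P fun _ c ω =>
      gh (mdist (Quot.out c)) (vmeas (Quot.out c)) (d ω) ((μ ω).map (↑)) fun _ => 0 := by
  obtain ⟨q, c, v, hq⟩ := hC
  have := h.prob
  have h1 : ∀ᵐ ω ∂P, (Continuous fun p : Sph × Sph => d ω p.1 p.2) ∧
      (L ω).map (fun b => b.1 0) = μ ω := by
    filter_upwards [hs, hL] with ω g1 g2
    have := g1.2
    exact ⟨g1.1.cont, g2.map_start hW⟩
  have h2 : ∀ᵐ ω ∂P, IsMet (d ω) ∧ IsProbabilityMeasure ((μ ω).map ((↑) : ℂ → Sph)) := by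
    filter_upwards [hs] with ω g1
    have := g1.2
    exact ⟨g1.1.isMet, Measure.isProbabilityMeasure_map
      (OnePoint.continuous_coe.measurable.aemeasurable)⟩
  have hrr := rr P hd L h1 (e := fun y : Snake => y.1) (Z := fun y : Snake => y.2)
    Snake.measurable_e Snake.measurable_Z Γ.snd Γ hΓ rfl
    (hm.mono fun p hp => by obtain ⟨π, -, g⟩ := hp; exact ⟨π, g⟩)
  have key := lim lamT Γ.snd (e := fun y : Snake => y.1) (Z := fun y : Snake => y.2)
    Snake.measurable_e Snake.measurable_Z (V := fun n t => (q n t).Vertex) (fun _ t => t.C)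
    (fun _ t => t.l) c (fun n t => (q n t).graph.dist) v (a := fun n => (√(2 * n))⁻¹) (b := cn)
    ((eventually_gt_atTop 0).mono fun n hn => by positivity) cn_nonneg
    ((eventually_gt_atTop 0).mono fun n hn => by unfold cn; positivity) cn_tendsto
    ((eventually_ge_atTop 1).mono fun n hn t =>
      ⟨Nat.card_eq_fintype_card.symm.trans ((hq n hn).2.1 t).1, ((hq n hn).2.1 t).2⟩)
    ((eventually_ge_atTop 1).mono fun n hn => (hq n hn).2.2) (hS _ h)
    ((good_path Γ.snd (fun y : Snake => y.1) (fun y => y.1.continuous) Snake.measurable_e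
      h.exc).mono fun y hy => hy.2) hrr
  exact cpl_contour P L Γ.snd Γ hΓ rfl h2 (D := fun y : Snake => Dst y.1 y.2)
    (hm.mono fun p hp => by obtain ⟨π, g1, g2, g3, -⟩ := hp; exact ⟨π, g1, g2, g3⟩) lamT q
    ((eventually_ge_atTop 1).mono fun n hn => (hq n hn).1) (fun _ t => t.C) c
    ((eventually_ge_atTop 1).mono fun n hn t => ((hq n hn).2.1 t).2.contour) key

theorem target2 (hT : Target) (hC : CvsStmt) (hS : SnakeStmt) : Target2 := by
  intro c₀ hc D hD θ Θ hθ Ω _ P₀ P _ _ h1 h2 h hh μ₀ hμ f hf d hd μ hs W hW L _ hL Γ hΓ hsn hm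
  exact hT c₀ hc D hD θ Θ hθ Ω P₀ P h1 h2 h hh μ₀ hμ f hf d hd μ hs
    (fin_ghp hC hS P hd (hs.mono fun ω g => ⟨g.1, g.2.1⟩) hW L hL Γ hΓ hsn hm) W hW L hL

end Pool.Agent.QL.BM
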