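import Mathlib

/-!
Counting of nearest-neighbour paths: words, heights, the reflection principle, the ballot
formula and the product formula for Dyck paths with prescribed heights at finitely many times.
-/

namespace Pool.Agent.QL.BM.Exc

open Finset

/-- value of a step -/
def sg (b : Bool) : ℤ := if b then 1 else -1

/-- height after `i` steps -/
def ht (l : List Bool) (i : ℕ) : ℤ := ((l.take i).map sg).sum

/-- the words of length `m` -/
def Ws : ℕ → Finset (List Bool)
  | 0 => {[]}
  | m + 1 => (Ws m).image (fun l => l ++ [true]) ∪ (Ws m).image (fun l => l ++ [false])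

/-- nonnegative paths with `m` steps from `0` to `y` -/
def Pos (m : ℕ) (y : ℤ) : Finset (List Bool) :=
  (Ws m).filter (fun l => (∀ j ≤ m, 0 ≤ ht l j) ∧ ht l m = y)

/-- Dyck paths with `2 n` steps -/
def Dy (n : ℕ) : Finset (List Bool) := Pos (2 * n) 0

/-- number of paths with `m` steps and displacement `z` -/
def Bn : ℕ → ℤ → ℕ
  | 0, z => if z = 0 then 1 else 0
  | m + 1, z => Bn m (z - 1) + Bn m (z + 1)

/-- number of nonnegative paths with `r` steps from `x` to `y` -/
def Nn : ℕ → ℤ → ℤ → ℕ
  | 0, x, y => if x = y ∧ 0 ≤ y then 1 else 0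
  | r + 1, x, y => if 0 ≤ y then Nn r x (y - 1) + Nn r x (y + 1) else 0

theorem mem_Ws {m : ℕ} {l : List Bool} : l ∈ Ws m ↔ l.length = m := by
  induction m generalizing l with
  | zero => simp [Ws]
  | succ m ih =>
    simp only [Ws, mem_union, mem_image]
    constructor
    · rintro (⟨a, ha, rfl⟩ | ⟨a, ha, rfl⟩) <;> simp [ih.1 ha]
    · intro h
      rcases List.eq_nil_or_concat l with rfl | ⟨a, b, rfl⟩
      · simp at h
      · have ha : a.length = m := by simpa using h
        cases b
        · exact Or.inr ⟨a, ih.2 ha, by simp⟩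
        · exact Or.inl ⟨a, ih.2 ha, by simp⟩

theorem sum_Ws_succ {M : Type*} [AddCommMonoid M] (m : ℕ) (F : List Bool → M) :
    ∑ l ∈ Ws (m + 1), F l = ∑ l ∈ Ws m, (F (l ++ [true]) + F (l ++ [false])) := by
  have hinj : ∀ b : Bool, Set.InjOn (fun l : List Bool => l ++ [b]) (Ws m) := by
    intro b x _ y _ h
    exact List.append_cancel_right h
  rw [Ws, sum_union, sum_image (hinj true), sum_image (hinj false), sum_add_distrib]
  rw [disjoint_left]
  intro l h1 h2
  obtain ⟨a, ha, rfl⟩ := mem_image.1 h1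
  obtain ⟨b, hb, h⟩ := mem_image.1 h2
  have := List.append_inj_right' h (by simp)
  simp at this

theorem card_Ws (m : ℕ) : (Ws m).card = 2 ^ m := by
  induction m with
  | zero => simp [Ws]
  | succ m ih =>
    rw [card_eq_sum_ones, sum_Ws_succ]
    simp [ih, pow_succ]

@[simp] theorem ht_zero (l : List Bool) : ht l 0 = 0 := by simp [ht]

theorem ht_append_le {l : List Bool} {i : ℕ} (h : i ≤ l.length) (l' : List Bool) :
    ht (l ++ l') i = ht l i := by
  simp [ht, List.take_append_of_le_length h]

theorem ht_concat (l : List Bool) (b : Bool) :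
    ht (l ++ [b]) (l.length + 1) = ht l l.length + sg b := by
  have : (l ++ [b]).take (l.length + 1) = l ++ [b] := List.take_of_length_le (by simp)
  simp [ht, this]

theorem ht_take {l : List Bool} {i j : ℕ} (h : j ≤ i) : ht (l.take i) j = ht l j := by
  simp [ht, List.take_take, min_eq_left h]

theorem ht_succ {l : List Bool} {i : ℕ} (h : i < l.length) : ht l (i + 1) = ht l i + sg l[i] := by
  unfold ht
  rw [List.take_succ_eq_append_getElem h, List.map_append, List.sum_append]
  simp

theorem abs_sg (b : Bool) : |sg b| = 1 := by cases b <;> simp [sg]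

theorem Bn_neg (m : ℕ) (z : ℤ) : Bn m (-z) = Bn m z := by
  induction m generalizing z with
  | zero => simp [Bn]
  | succ m ih =>
    simp only [Bn]
    rw [show -z - 1 = -(z + 1) by ring, show -z + 1 = -(z - 1) by ring, ih, ih, add_comm]

theorem Bn_eq_zero {m : ℕ} {z : ℤ} (h : z < -m) : Bn m z = 0 := by
  induction m generalizing z with
  | zero => simp only [Bn]; rw [if_neg]; omega
  | succ m ih =>
    simp only [Bn]
    rw [ih (by push_cast at h; omega), ih (by push_cast at h; omega)]

theorem Bn_choose (m a : ℕ) : Bn m (2 * a - m) = m.choose a := by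
  induction m generalizing a with
  | zero =>
    cases a with
    | zero => simp [Bn]
    | succ a => simp only [Bn]; rw [if_neg (by push_cast; omega)]; simp
  | succ m ih =>
    simp only [Bn]
    cases a with
    | zero =>
      rw [Bn_eq_zero (by push_cast; omega)]
      have := ih 0
      rw [show (2 * ((0 : ℕ) : ℤ) - ((m + 1 : ℕ) : ℤ) + 1) = 2 * ((0 : ℕ) : ℤ) - m by
        push_cast; ring, this]
      simp
    | succ a =>
      rw [show (2 * ((a + 1 : ℕ) : ℤ) - ((m + 1 : ℕ) : ℤ) - 1) = 2 * ((a : ℕ) : ℤ) - m by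
        push_cast; ring,
        show (2 * ((a + 1 : ℕ) : ℤ) - ((m + 1 : ℕ) : ℤ) + 1) = 2 * ((a + 1 : ℕ) : ℤ) - m by
        push_cast; ring, ih, ih, Nat.choose_succ_succ]

theorem Bn_odd {m : ℕ} {z : ℤ} (h : ¬ Even (z + m)) : Bn m z = 0 := by
  induction m generalizing z with
  | zero =>
    simp only [Bn]; rw [if_neg]; rintro rfl; simp at h
  | succ m ih =>
    simp only [Bn]
    rw [ih, ih]
    · intro h'; apply h; push_cast
      rwa [show z + ((m : ℤ) + 1) = z + 1 + m by ring]
    · intro h'; apply h; push_cast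
      rw [show z + ((m : ℤ) + 1) = z - 1 + m + 2 by ring]
      exact h'.add even_two

/-- reflection principle -/
theorem Nn_eq (r : ℕ) {x y : ℤ} (hx : 0 ≤ x) (hy : -1 ≤ y) :
    (Nn r x y : ℤ) = Bn r (y - x) - Bn r (x + y + 2) := by
  induction r generalizing y with
  | zero =>
    simp only [Nn, Bn]
    have h2 : ¬ (x + y + 2 = 0) := by omega
    by_cases h : x = y
    · subst h; simp [hx, h2]
    · have : ¬ (y - x = 0) := by omega
      simp [h, this, h2]
  | succ r ih =>
    simp only [Nn, Bn]
    by_cases h : 0 ≤ y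
    · rw [if_pos h]; push_cast
      rw [ih (by omega), ih (by omega)]
      rw [show y - 1 - x = y - x - 1 by ring, show y + 1 - x = y - x + 1 by ring,
        show x + (y - 1) + 2 = x + y + 2 - 1 by ring, show x + (y + 1) + 2 = x + y + 2 + 1 by ring]
      ring
    · rw [if_neg h]
      obtain rfl : y = -1 := by omega
      rw [show -1 - x - 1 = -(x + -1 + 2 + 1) by ring, show -1 - x + 1 = -(x + -1 + 2 - 1) by ring,
        Bn_neg, Bn_neg]
      push_cast; ring

theorem Nn_symm (r : ℕ) {x y : ℤ} (hx : 0 ≤ x) (hy : 0 ≤ y) : Nn r x y = Nn r y x := by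
  have h1 := Nn_eq r hx (show -1 ≤ y by omega)
  have h2 := Nn_eq r hy (show -1 ≤ x by omega)
  rw [show x - y = -(y - x) by ring, Bn_neg, show y + x + 2 = x + y + 2 by ring] at h2
  exact_mod_cast h1.trans h2.symm

theorem Nn_neg (r : ℕ) (x : ℤ) {y : ℤ} (hy : y < 0) : Nn r x y = 0 := by
  cases r with
  | zero => simp only [Nn]; rw [if_neg]; omega
  | succ r => simp only [Nn]; rw [if_neg]; omega

/-- ballot formula -/
theorem ballot (m : ℕ) {y : ℤ} (hy : 0 ≤ y) :
    ((m : ℤ) + 1) * Nn m 0 y = (y + 1) * Bn (m + 1) (y + 1) := by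
  rw [Nn_eq m le_rfl (by omega)]
  by_cases he : Even (y + m)
  · obtain ⟨a', ha'⟩ := he
    obtain ⟨a, rfl⟩ : ∃ a : ℕ, a' = a := ⟨a'.toNat, by omega⟩
    have e1 : y - 0 = 2 * (a : ℤ) - m := by omega
    have e2 : 0 + y + 2 = 2 * ((a + 1 : ℕ) : ℤ) - m := by push_cast; omega
    have e3 : y + 1 = 2 * ((a + 1 : ℕ) : ℤ) - ((m + 1 : ℕ) : ℤ) := by push_cast; omega
    have h3 : Bn (m + 1) (y + 1) = (m + 1).choose (a + 1) := by rw [e3, Bn_choose]
    rw [e1, e2, Bn_choose, Bn_choose, h3]
    have k1 : (m + 1) * m.choose a = (m + 1).choose (a + 1) * (a + 1) :=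
      Nat.add_one_mul_choose_eq m a
    have k2 : m.choose (a + 1) * (m + 1) = (m + 1).choose (a + 1) * (m + 1 - (a + 1)) :=
      Nat.choose_mul_succ_eq m (a + 1)
    by_cases hle : a ≤ m
    · have k1' : ((m : ℤ) + 1) * m.choose a = (m + 1).choose (a + 1) * ((a : ℤ) + 1) := by
        exact_mod_cast k1
      have k2' : (m.choose (a + 1) : ℤ) * (m + 1) = (m + 1).choose (a + 1) * ((m : ℤ) - a) := by
        have : ((m + 1 - (a + 1) : ℕ) : ℤ) = (m : ℤ) - a := by omega
        rw [← this]; exact_mod_cast k2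
      have : y + 1 = (a : ℤ) + 1 - ((m : ℤ) - a) := by omega
      rw [this]; linear_combination k1' - k2'
    · rw [Nat.choose_eq_zero_of_lt (by omega), Nat.choose_eq_zero_of_lt (by omega),
        Nat.choose_eq_zero_of_lt (by omega)]
      simp
  · rw [Bn_odd (by simpa using he), Bn_odd, Bn_odd]
    · simp
    · intro h; apply he; push_cast at h
      rw [show y + 1 + ((m : ℤ) + 1) = y + m + 2 by ring] at h
      exact (Int.even_add.1 h).2 even_two
    · intro h; apply he
      rw [show 0 + y + 2 + (m : ℤ) = y + m + 2 by ring] at h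
      exact (Int.even_add.1 h).2 even_two

open Classical in
/-- Markov property at time `i` -/
theorem markov {R : Type*} [CommSemiring R] (g : List Bool → R) (i r : ℕ) (y : ℤ) :
    ∑ l ∈ Pos (i + r) y, g (l.take i) =
      ∑ l ∈ (Ws i).filter (fun l => ∀ j ≤ i, 0 ≤ ht l j), g l * (Nn r (ht l i) y : R) := by
  induction r generalizing y with
  | zero =>
    simp only [Pos, add_zero, Nn, sum_filter]
    refine sum_congr rfl fun l hl => ?_
    have hlen := mem_Ws.1 hl
    by_cases h : ∀ j ≤ i, 0 ≤ ht l j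
    · by_cases h2 : ht l i = y
      · have : 0 ≤ y := h2 ▸ h i le_rfl
        rw [if_pos ⟨h, h2⟩, if_pos h, if_pos ⟨h2, this⟩, List.take_of_length_le hlen.le]; simp
      · rw [if_neg (fun hh => h2 hh.2), if_pos h, if_neg (fun hh => h2 hh.1)]; simp
    · rw [if_neg (fun hh => h hh.1), if_neg h]
  | succ r ih =>
    have key : ∑ l ∈ Pos (i + (r + 1)) y, g (l.take i) =
        if 0 ≤ y then ∑ l ∈ Pos (i + r) (y - 1), g (l.take i) +
          ∑ l ∈ Pos (i + r) (y + 1), g (l.take i) else 0 := by
      simp only [Pos, sum_filter]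
      rw [← add_assoc, sum_Ws_succ]
      have step : ∀ l ∈ Ws (i + r), ∀ b : Bool,
          ((∀ j ≤ i + r + 1, 0 ≤ ht (l ++ [b]) j) ∧ ht (l ++ [b]) (i + r + 1) = y) ↔
            (0 ≤ y ∧ (∀ j ≤ i + r, 0 ≤ ht l j) ∧ ht l (i + r) = y - sg b) := by
        intro l hl b
        have hlen := mem_Ws.1 hl
        have hc := ht_concat l b
        rw [hlen] at hc
        constructor
        · rintro ⟨h1, h2⟩
          refine ⟨h2 ▸ h1 _ le_rfl, fun j hj => ?_, by omega⟩
          have := h1 j (by omega)
          rwa [ht_append_le (by omega)] at this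
        · rintro ⟨h0, h1, h2⟩
          refine ⟨fun j hj => ?_, by omega⟩
          rcases Nat.lt_or_ge j (i + r + 1) with h | h
          · rw [ht_append_le (by omega)]; exact h1 j (by omega)
          · obtain rfl : j = i + r + 1 := by omega
            omega
      have tk : ∀ l ∈ Ws (i + r), ∀ b : Bool, (l ++ [b]).take i = l.take i := by
        intro l hl b
        exact List.take_append_of_le_length (by rw [mem_Ws.1 hl]; omega)
      split_ifs with hy
      · rw [← sum_add_distrib]
        refine sum_congr rfl fun l hl => ?_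
        simp only [step l hl, tk l hl, hy, true_and, sg]
        simp
      · refine sum_eq_zero fun l hl => ?_
        simp only [step l hl, hy, false_and, if_false, add_zero]
    rw [key]
    simp only [Nn]
    split_ifs with hy
    · rw [ih, ih, ← sum_add_distrib]
      refine sum_congr rfl fun l _ => ?_
      push_cast; ring
    · simp

theorem card_Pos (m : ℕ) (y : ℤ) : (Pos m y).card = Nn m 0 y := by
  have := markov (R := ℕ) (fun _ => 1) 0 m y
  simpa [Ws, sum_filter] using this

theorem card_Dy (n : ℕ) : (Dy n).card = Nn (2 * n) 0 0 := card_Pos _ _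

/-- the number of nonnegative paths with prescribed heights at the times `ti j`, `j < k` -/
def cK (ti : ℕ → ℕ) (z : ℕ → ℤ) (k m : ℕ) (y : ℤ) : ℕ :=
  ((Pos m y).filter (fun l => ∀ j < k, ht l (ti j) = z j)).card

theorem cK_succ (ti : ℕ → ℕ) (z : ℕ → ℤ) (k m : ℕ) (y : ℤ) (hm : ti k ≤ m)
    (hti : ∀ j < k, ti j ≤ ti k) :
    cK ti z (k + 1) m y = cK ti z k (ti k) (z k) * Nn (m - ti k) (z k) y := by
  classical
  have h := markov (R := ℕ) (fun l => if ∀ j < k + 1, ht l (ti j) = z j then 1 else 0)
    (ti k) (m - ti k) y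
  rw [Nat.add_sub_cancel' hm] at h
  have hle : ∀ j < k + 1, ti j ≤ ti k := by
    intro j hj
    rcases Nat.lt_or_ge j k with h' | h'
    · exact hti j h'
    · obtain rfl : j = k := by omega
      exact le_rfl
  have e1 : cK ti z (k + 1) m y =
      ∑ l ∈ Pos m y, if ∀ j < k + 1, ht (l.take (ti k)) (ti j) = z j then 1 else 0 := by
    rw [cK, card_filter]
    refine sum_congr rfl fun l _ => ?_
    congr 1
    refine propext (forall₂_congr fun j hj => ?_)
    rw [ht_take (hle j hj)]
  rw [e1, h, cK, Pos, filter_filter, card_filter, sum_mul, sum_filter]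
  refine sum_congr rfl fun l _ => ?_
  by_cases h1 : ∀ j ≤ ti k, 0 ≤ ht l j
  · by_cases h2 : ∀ j < k + 1, ht l (ti j) = z j
    · have h3 := h2 k (by omega)
      rw [if_pos h1, if_pos h2, if_pos ⟨⟨h1, h3⟩, fun j hj => h2 j (by omega)⟩, h3]
      simp
    · rw [if_pos h1, if_neg h2, if_neg]
      · simp
      · rintro ⟨⟨-, h3⟩, h4⟩
        apply h2
        intro j hj
        rcases Nat.lt_or_ge j k with h' | h'
        · exact h4 j h'
        · obtain rfl : j = k := by omega
          exact h3
  · rw [if_neg h1, if_neg (fun hh => h1 hh.1.1)]; simp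

/-- product formula -/
theorem cK_prod (ti : ℕ → ℕ) (z : ℕ → ℤ) (k m : ℕ) (y : ℤ) (hm : ti k ≤ m)
    (hti : ∀ j < k, ti j ≤ ti (j + 1)) :
    cK ti z (k + 1) m y = Nn (ti 0) 0 (z 0) *
      (∏ j ∈ range k, Nn (ti (j + 1) - ti j) (z j) (z (j + 1))) * Nn (m - ti k) (z k) y := by
  have mono : ∀ a b, a ≤ b → b ≤ k → ti a ≤ ti b := by
    intro a b hab hb
    induction b, hab using Nat.le_induction with
    | base => exact le_rfl
    | succ b hab ih => exact (ih (by omega)).trans (hti b (by omega))
  induction k generalizing m y with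
  | zero =>
    rw [cK_succ ti z 0 m y hm (by simp)]
    simp [cK, card_Pos]
  | succ k ih =>
    rw [cK_succ ti z (k + 1) m y hm (fun j hj => mono j _ hj.le le_rfl),
      ih _ _ (hti k (by omega)) (fun j hj => hti j (by omega))
        (fun a b hab hb => mono a b hab (by omega)), prod_range_succ]
    ring

end Pool.Agent.QL.BM.Exc
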