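import Pool.Agent.P.MP_7a6434d8_pr.QL.BM.ModA
import Pool.Agent.P.MP_7a6434d8_pr.QL.BM.ExcCnt

/-! Uniform Dyck words are Hoelder: cycle lemma and chaining for the exchangeable bridge. -/

namespace Pool.Agent.QL.BM.Md

open Finset Real Exc

/-- partial sums of the periodic walk going up at the times in `S` -/
def br {N : ℕ} (S : Finset (ZMod N)) (i : ℕ) : ℤ :=
  ∑ k ∈ range i, if (k : ZMod N) ∈ S then 1 else -1

/-- the Hoelder property on `[0, 2 n]` -/
def Hol (K : ℝ) (n : ℕ) (C : ℕ → ℤ) : Prop :=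
  ∀ i j : ℕ, i ≤ j → j ≤ 2 * n → |(C j : ℝ) - C i| ≤ K * (((j : ℝ) - i) * n) ^ (1 / 4 : ℝ)

theorem br_add {N : ℕ} (S : Finset (ZMod N)) (a m : ℕ) :
    br S (a + m) - br S a = ∑ k ∈ range m, if ((a + k : ℕ) : ZMod N) ∈ S then 1 else -1 := by
  simp [br, sum_range_add]

theorem br_int {N : ℕ} (a : ℕ) {m : ℕ} (hm : m ≤ N) : ∃ J : Finset (ZMod N), #J = m ∧
    ∀ S : Finset (ZMod N), br S (a + m) - br S a = 2 * #(J ∩ S) - #J := by
  have hinj : Set.InjOn (fun k : ℕ => ((a + k : ℕ) : ZMod N)) (range m : Finset ℕ) := by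
    intro x hx y hy h
    have h1 : x < N := (mem_range.1 hx).trans_le hm
    have h2 : y < N := (mem_range.1 hy).trans_le hm
    exact Nat.ModEq.eq_of_lt_of_lt
      (Nat.ModEq.add_left_cancel' a ((ZMod.natCast_eq_natCast_iff _ _ _).1 h)) h1 h2
  refine ⟨(range m).image fun k : ℕ => ((a + k : ℕ) : ZMod N), by
    rw [card_image_of_injOn hinj, card_range], fun S => ?_⟩
  rw [br_add, ← sum_image (f := fun x : ZMod N => if x ∈ S then (1 : ℤ) else -1) hinj]
  generalize ((range m).image fun k : ℕ => ((a + k : ℕ) : ZMod N)) = J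
  have : ∀ x : ZMod N, (if x ∈ S then (1 : ℤ) else -1) = 2 * (if x ∈ S then 1 else 0) - 1 :=
    fun x => by split_ifs <;> norm_num
  simp only [this]
  rw [sum_sub_distrib, ← mul_sum, sum_boole, filter_mem_eq_inter]
  simp

theorem ht_eq_sum (w : List Bool) : ∀ i ≤ w.length,
    ht w i = ∑ k ∈ range i, sg (w.getD k false) := by
  intro i
  induction i with
  | zero => simp
  | succ i ih =>
    intro hi
    rw [ht_succ (by omega), ih (by omega), sum_range_succ, List.getD_eq_getElem _ _ (by omega)]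

/-- the word `w` followed by a down-step, rotated by `r` -/
def rot (n : ℕ) (w : List Bool) (r : ℕ) : Finset (ZMod (2 * n + 1)) :=
  univ.filter fun x => w.getD (x - r).val false = true

theorem mem_rot {n : ℕ} (w : List Bool) (r : ℕ) {k : ℕ} (hk : k < 2 * n + 1) :
    ((r + k : ℕ) : ZMod (2 * n + 1)) ∈ rot n w r ↔ w.getD k false = true := by
  simp [rot, ZMod.val_natCast, Nat.mod_eq_of_lt hk]

theorem br_rot {n : ℕ} (w : List Bool) (r : ℕ) {i : ℕ} (hi : i ≤ 2 * n + 1) :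
    br (rot n w r) (r + i) - br (rot n w r) r = ∑ k ∈ range i, sg (w.getD k false) := by
  rw [br_add]
  refine sum_congr rfl fun k hk => ?_
  simp only [mem_rot w r ((mem_range.1 hk).trans_le hi), sg]

theorem mem_Dy {n : ℕ} {w : List Bool} :
    w ∈ Dy n ↔ w.length = 2 * n ∧ (∀ j ≤ 2 * n, 0 ≤ ht w j) ∧ ht w (2 * n) = 0 := by
  simp [Dy, Pos, mem_Ws]

theorem br_rot_ht {n : ℕ} {w : List Bool} (hw : w ∈ Dy n) (r : ℕ) {i : ℕ} (hi : i ≤ 2 * n) :
    br (rot n w r) (r + i) - br (rot n w r) r = ht w i := by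
  rw [br_rot w r (by omega), ht_eq_sum w i (by rw [(mem_Dy.1 hw).1]; exact hi)]

theorem br_rot_end {n : ℕ} {w : List Bool} (hw : w ∈ Dy n) (r : ℕ) :
    br (rot n w r) (r + (2 * n + 1)) - br (rot n w r) r = -1 := by
  obtain ⟨h1, -, h3⟩ := mem_Dy.1 hw
  rw [br_rot w r le_rfl, sum_range_succ, ← ht_eq_sum w _ h1.ge, h3,
    List.getD_eq_default _ _ h1.le]
  simp [sg]

theorem card_rot {n : ℕ} {w : List Bool} (hw : w ∈ Dy n) (r : ℕ) : #(rot n w r) = n := by
  obtain ⟨J, hJ, h⟩ := br_int (N := 2 * n + 1) r le_rfl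
  have h1 := h (rot n w r)
  have hu : J = univ := eq_univ_of_card _ (by rw [hJ, ZMod.card])
  rw [br_rot_end hw, hJ, hu, univ_inter] at h1
  omega

theorem rot_inj {n : ℕ} : Set.InjOn (fun p : List Bool × ℕ => rot n p.1 p.2)
    (Dy n ×ˢ range (2 * n + 1) : Finset (List Bool × ℕ)) := by
  have key : ∀ w ∈ Dy n, ∀ w' ∈ Dy n, ∀ r r', r' < 2 * n + 1 → rot n w r = rot n w' r' →
      ¬ r < r' := by
    intro w hw w' hw' r r' hr' h hlt
    have h1 := br_rot_ht hw r (i := r' - r) (by omega)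
    have h2 := br_rot_ht hw' r' (i := r + (2 * n + 1) - r') (by omega)
    have h3 := br_rot_end hw r
    have h4 := (mem_Dy.1 hw).2.1 (r' - r) (by omega)
    have h5 := (mem_Dy.1 hw').2.1 (r + (2 * n + 1) - r') (by omega)
    rw [show r + (r' - r) = r' by omega] at h1
    rw [show r' + (r + (2 * n + 1) - r') = r + (2 * n + 1) by omega, ← h] at h2
    omega
  rintro ⟨w, r⟩ hp ⟨w', r'⟩ hp' h
  obtain ⟨hw, hr⟩ := mem_product.1 (mem_coe.1 hp)
  obtain ⟨hw', hr'⟩ := mem_product.1 (mem_coe.1 hp')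
  have h1 := key w hw w' hw' r r' (mem_range.1 hr') h
  have h2 := key w' hw' w hw r' r (mem_range.1 hr) h.symm
  obtain rfl : r = r' := by omega
  have hl := (mem_Dy.1 hw).1
  have hl' := (mem_Dy.1 hw').1
  simp only at h hl hl'
  congr 1
  refine List.ext_getElem (hl.trans hl'.symm) fun k hk hk' => ?_
  have h3 := mem_rot (n := n) w r (k := k) (by omega)
  rw [h, mem_rot w' r (by omega), List.getD_eq_getElem _ _ hk, List.getD_eq_getElem _ _ hk'] at h3
  exact Bool.eq_iff_iff.2 h3.symm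

theorem card_Dy_mul (n : ℕ) : (2 * n + 1) * #(Dy n) = (2 * n + 1).choose n := by
  have h1 := ballot (2 * n) (y := 0) le_rfl
  have h2 := Bn_choose (2 * n + 1) (n + 1)
  rw [show (2 * (n + 1 : ℕ) - (2 * n + 1 : ℕ) : ℤ) = 0 + 1 by push_cast; ring,
    Nat.choose_symm_of_eq_add (show 2 * n + 1 = n + 1 + n by omega)] at h2
  rw [h2, ← card_Dy] at h1
  exact_mod_cast (by simpa using h1 : ((2 * n + 1 : ℕ) : ℤ) * #(Dy n) = (2 * n + 1).choose n)

open Classical in
theorem hold_count {η : ℝ} (hη : 0 < η) : ∃ K : ℝ, 0 < K ∧ ∀ n, 1 ≤ n →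
    (#((Dy n).filter fun w => ¬ Hol K n (ht w)) : ℝ) ≤ η * #(Dy n) := by
  obtain ⟨κ, hκ1, hκ⟩ : ∃ κ : ℝ, 1 ≤ κ ∧ 82944 / κ ^ 8 ≤ η := by
    refine ⟨max 1 (82944 / η), le_max_left _ _, ?_⟩
    have h1 : (1 : ℝ) ≤ max 1 (82944 / η) := le_max_left _ _
    rw [div_le_iff₀ (by positivity), mul_comm, ← div_le_iff₀ hη]
    exact (le_max_right _ _).trans (le_self_pow₀ h1 (by norm_num))
  set ρ : ℝ := 2 ^ (1 / 4 : ℝ) with hρ
  have hρ1 : 1 < ρ := one_lt_rpow (by norm_num) (by norm_num)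
  have hρ4 : ρ ^ 4 = 2 := by
    rw [hρ, ← rpow_natCast, ← rpow_mul (by norm_num)]
    norm_num
  have hρ0 : 0 < ρ - 1 := by linarith
  refine ⟨2 * κ * (ρ / (ρ - 1)), by positivity, fun n hn => ?_⟩
  have hn' : (1 : ℝ) ≤ n := by exact_mod_cast hn
  set ν : ℝ := (n : ℝ) ^ (1 / 4 : ℝ) with hν
  have hν0 : 0 < ν := by positivity
  have hν4 : ν ^ 4 = n := by
    rw [hν, ← rpow_natCast, ← rpow_mul (by positivity)]
    norm_num
  set m := Nat.log 2 (2 * n + 1) with hm
  have hmN : 2 ^ m ≤ 2 * n + 1 := Nat.pow_log_le_self 2 (by omega)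
  set P : Finset (ZMod (2 * n + 1)) → ℕ → ℕ → Prop := fun S a k =>
    κ * ν * ρ ^ a < |(br S ((k + 1) * 2 ^ a) : ℝ) - br S (k * 2 ^ a)| with hP
  have h1 := union_dyadic (powersetCard n (univ : Finset (ZMod (2 * n + 1)))) P (2 * (2 * n + 1)) m
    (A := 2304 / (κ ^ 8 * n ^ 2)) (Z := (2 * n + 1).choose n) (by positivity) (by
      intro a ha k _
      obtain ⟨J, hJ, h⟩ := br_int (N := 2 * n + 1) (k * 2 ^ a) (m := 2 ^ a)
        ((Nat.pow_le_pow_right (by norm_num) ha).trans hmN)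
      have h2 := chernoff (powersetCard n (univ : Finset (ZMod (2 * n + 1))))
        (fun S => 2 * (#(J ∩ S) : ℝ) - #J) (x := κ * ν * ρ ^ a) (v := #J)
        (B := 3 * (2 * n + 1).choose n) (by positivity) (by rw [hJ]; positivity) (by positivity)
        (hyper_mgf (ZMod.card _) J) 4
      have h3 : ∀ S, (br S ((k + 1) * 2 ^ a) : ℝ) - br S (k * 2 ^ a) = 2 * (#(J ∩ S) : ℝ) - #J := by
        intro S
        rw [add_mul, one_mul]
        exact_mod_cast h S
      simp only [hP, h3]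
      refine h2.trans (le_of_eq ?_)
      have h4 : (ρ ^ a) ^ 4 = 2 ^ a := by rw [← pow_mul, mul_comm, pow_mul, hρ4]
      have h5 : (4 : ℝ) ^ a = (2 ^ a) ^ 2 := by rw [← pow_mul, mul_comm, pow_mul]; norm_num
      rw [hJ, h5, ← hν4]
      push_cast
      rw [← h4]
      simp only [Nat.factorial]
      field_simp
      norm_num
      ring)
  have h6 : #(((Dy n).filter fun w => ¬ Hol (2 * κ * (ρ / (ρ - 1))) n (ht w)) ×ˢ
      range (2 * n + 1)) ≤ #((powersetCard n (univ : Finset (ZMod (2 * n + 1)))).filter fun S =>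
        ∃ a ≤ m, ∃ k, (k + 1) * 2 ^ a ≤ 2 * (2 * n + 1) ∧ P S a k) := by
    refine card_le_card_of_injOn (fun p => rot n p.1 p.2) ?_
      (rot_inj.mono (coe_subset.2 (product_subset_product_left (filter_subset _ _))))
    rintro ⟨w, r⟩ hp
    obtain ⟨hw, hr⟩ := mem_product.1 (mem_coe.1 hp)
    obtain ⟨hw, hbad⟩ := mem_filter.1 hw
    refine mem_coe.2 (mem_filter.2 ⟨mem_powersetCard.2 ⟨subset_univ _, card_rot hw r⟩, ?_⟩)
    by_contra hc
    refine hbad fun i j hij hj => ?_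
    rcases hij.eq_or_lt with rfl | hlt
    · simp
    have hr' := mem_range.1 hr
    have hm0 : Nat.log 2 (j - i) ≤ m := Nat.log_mono_right (by omega)
    have h7 := chain (Nat.log 2 (j - i)) (fun i => (br (rot n w r) i : ℝ)) (2 * (2 * n + 1))
      (fun a => κ * ν * ρ ^ a) (fun a => by positivity)
      (fun a ha k hk => not_lt.1 fun h => hc ⟨a, ha.trans hm0, k, hk, h⟩) (r + i) (r + j)
      (by omega) (by simp only at hr'; omega)
      (by rw [Nat.add_sub_add_left]; exact Nat.lt_pow_succ_log_self (by norm_num) _)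
    have h8 : (br (rot n w r) (r + j) : ℝ) - br (rot n w r) (r + i) = ht w j - ht w i := by
      rw [← br_rot_ht hw r hj, ← br_rot_ht hw r (hij.trans hj)]
      push_cast
      ring
    have h9 : ρ ^ Nat.log 2 (j - i) ≤ ((j : ℝ) - i) ^ (1 / 4 : ℝ) := by
      rw [hρ, ← rpow_natCast, ← rpow_mul (by norm_num), mul_comm, rpow_mul (by norm_num),
        rpow_natCast]
      refine rpow_le_rpow (by positivity) ?_ (by norm_num)
      rw [← Nat.cast_sub hij]
      exact_mod_cast Nat.pow_log_le_self 2 (by omega)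
    have h10 := geom_le hρ1 (Nat.log 2 (j - i))
    have h11 : (0 : ℝ) ≤ (j : ℝ) - i := sub_nonneg.2 (by exact_mod_cast hij)
    rw [h8, ← mul_sum] at h7
    rw [mul_rpow h11 (by positivity)]
    calc _ ≤ 2 * (κ * ν * (ρ / (ρ - 1) * ((j : ℝ) - i) ^ (1 / 4 : ℝ))) := by
          refine h7.trans ?_
          gcongr
          refine h10.trans ?_
          gcongr
      _ = _ := by ring
  rw [card_product, card_range] at h6
  have h12 : ((2 * n + 1 : ℕ) : ℝ) * #(Dy n) = (2 * n + 1).choose n := by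
    exact_mod_cast card_Dy_mul n
  have h13 : (2 : ℝ) ^ m ≤ 3 * n := by
    have : (2 : ℝ) ^ m ≤ 2 * n + 1 := by exact_mod_cast hmN
    linarith
  refine le_of_mul_le_mul_right ?_ (show (0 : ℝ) < (2 * n + 1 : ℕ) by positivity)
  calc _ ≤ _ := by exact_mod_cast h6
    _ ≤ _ := h1
    _ ≤ 2 * (2304 / (κ ^ 8 * n ^ 2)) * (6 * n) * (3 * n) * (2 * n + 1).choose n := by
        gcongr
        push_cast
        linarith
    _ = 82944 / κ ^ 8 * (2 * n + 1).choose n := by field_simp; ring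
    _ ≤ _ := by rw [mul_assoc, mul_comm (#(Dy n) : ℝ), h12]; gcongr

end Pool.Agent.QL.BM.Md
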