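import Pool.Agent.P.MP_7a6434d8_pr.QL.BM.Stmts
import Pool.Agent.P.MP_7a6434d8_pr.QL.BM.ModB

/-! Modulus of continuity of the contour and of the labels. -/

namespace Pool.Agent.QL.BM

namespace Md

open Finset Real Exc MeasureTheory ProbabilityTheory

theorem opn_card (C : ℕ → ℤ) {m : ℕ} (A : Finset (Fin m)) (u : ℕ) {H : ℝ} (hH : 0 ≤ H)
    (h : ∀ k ∈ A, Opn C u k ∧ (C u : ℝ) - C k ≤ H) : (#A : ℝ) ≤ H := by
  have h1 : #A ≤ #(Ico (C u - ⌊H⌋) (C u)) := by
    refine card_le_card_of_injOn (fun k => C k) (fun k hk => ?_) fun k hk k' hk' e => ?_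
    · obtain ⟨h2, h3⟩ := h k hk
      have h4 : C u - C k ≤ ⌊H⌋ := Int.le_floor.2 (by exact_mod_cast h3)
      exact mem_coe.2 (mem_Ico.2 ⟨by simp only; omega, h2.2 u h2.1 le_rfl⟩)
    · by_contra hne
      rcases lt_or_gt_of_ne hne with l | l
      · exact ((h k hk).1.2 k' l (h k' hk').1.1.le).ne e
      · exact ((h k' hk').1.2 k l (h k hk).1.1.le).ne' e
  rw [Int.card_Ico, sub_sub_cancel] at h1
  have h2 : ((⌊H⌋.toNat : ℤ) : ℝ) ≤ H := by
    rw [Int.toNat_of_nonneg (Int.floor_nonneg.2 hH)]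
    exact Int.floor_le H
  exact le_trans (by exact_mod_cast h1) h2

open Classical in
theorem lbl_mgf {K : ℝ} (hK : 0 < K) {n : ℕ} {C : ℕ → ℤ} (hC : Hol K n C) {i j : ℕ} (hij : i ≤ j)
    (hj : j ≤ 2 * n) (l : ℝ) :
    ∑ d : Fin (2 * n) → Fin 3, exp (l * ((lbl C d j : ℝ) - lbl C d i)) ≤
      3 ^ (2 * n) * exp (l ^ 2 * (2 * (K * (((j : ℝ) - i) * n) ^ (1 / 4 : ℝ))) / 2) := by
  set c : Fin (2 * n) → ℝ := fun k => (if Opn C j k then 1 else 0) - if Opn C i k then 1 else 0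
    with hc
  have h1 := three_mgf c l
  have h2 : ∀ d : Fin (2 * n) → Fin 3,
      (lbl C d j : ℝ) - lbl C d i = ∑ k, c k * (((d k : ℕ) : ℝ) - 1) := by
    intro d
    simp only [lbl, hc]
    push_cast
    rw [← sum_sub_distrib]
    exact sum_congr rfl fun k _ => by split_ifs <;> simp
  have hij' : (0 : ℝ) ≤ (j : ℝ) - i := sub_nonneg.2 (by exact_mod_cast hij)
  have hH : 0 ≤ K * (((j : ℝ) - i) * n) ^ (1 / 4 : ℝ) := by positivity
  have hm : ∀ u v : ℕ, i ≤ u → u ≤ v → v ≤ j →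
      |(C v : ℝ) - C u| ≤ K * (((j : ℝ) - i) * n) ^ (1 / 4 : ℝ) := by
    intro u v h1 h2 h3
    refine (hC u v h2 (h3.trans hj)).trans ?_
    have a1 : (i : ℝ) ≤ u := by exact_mod_cast h1
    have a2 : (u : ℝ) ≤ v := by exact_mod_cast h2
    have a3 : (v : ℝ) ≤ j := by exact_mod_cast h3
    have a4 : (0 : ℝ) ≤ (v : ℝ) - u := by linarith
    gcongr
  have h3 := opn_card C (univ.filter fun k : Fin (2 * n) => Opn C j k ∧ ¬ Opn C i k) j hH (by
    intro k hk
    obtain ⟨a, b⟩ := (mem_filter.1 hk).2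
    refine ⟨a, (le_abs_self _).trans (hm k j ?_ a.1.le le_rfl)⟩
    by_contra hlt
    exact b ⟨not_le.1 hlt, fun u h1 h2 => a.2 u h1 (h2.trans hij)⟩)
  have h4 := opn_card C (univ.filter fun k : Fin (2 * n) => Opn C i k ∧ ¬ Opn C j k) i hH (by
    intro k hk
    obtain ⟨a, b⟩ := (mem_filter.1 hk).2
    refine ⟨a, ?_⟩
    obtain ⟨u, h1, h2, h3⟩ : ∃ u, (k : ℕ) < u ∧ u ≤ j ∧ C u ≤ C k := by
      by_contra hn
      push Not at hn
      exact b ⟨a.1.trans_le hij, hn⟩
    have h5 : i ≤ u := by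
      by_contra hlt
      exact absurd (a.2 u h1 (not_le.1 hlt).le) (not_lt.2 h3)
    have h6 := (abs_le.1 (hm i u le_rfl h5 h2)).1
    have h7 : (C u : ℝ) ≤ C k := by exact_mod_cast h3
    linarith)
  have h5 : ∑ k, c k ^ 2 ≤ 2 * (K * (((j : ℝ) - i) * n) ^ (1 / 4 : ℝ)) := by
    rw [card_filter] at h3 h4
    push_cast at h3 h4
    rw [two_mul (K * _)]
    refine le_trans (le_of_eq ?_) (add_le_add h3 h4)
    rw [← sum_add_distrib]
    refine sum_congr rfl fun k _ => ?_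
    by_cases a : Opn C j k <;> by_cases b : Opn C i k <;> simp [hc, a, b]
  simp only [h2]
  rw [Fintype.card_fin] at h1
  refine h1.trans ?_
  gcongr

open Classical in
theorem lab_count : ∃ c : ℝ, 0 < c ∧ ∀ K : ℝ, 0 < K → ∃ A : ℝ, 0 < A ∧ ∀ τ : ℝ, 0 < τ →
    ∀ n, 1 ≤ n → ∀ C : ℕ → ℤ, Hol K n C →
    (#(univ.filter fun d : Fin (2 * n) → Fin 3 => ∃ i j : ℕ, i ≤ j ∧ j ≤ 2 * n ∧
      (j : ℝ) - i ≤ τ ^ 16 * n ∧ c * τ < cn n * |(lbl C d j : ℝ) - lbl C d i|) : ℝ) ≤
      A * τ ^ 16 * 3 ^ (2 * n) := by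
  set σ : ℝ := 2 ^ (1 / 16 : ℝ) with hσ
  have hσ1 : 1 < σ := one_lt_rpow (by norm_num) (by norm_num)
  have hσ16 : σ ^ 16 = 2 := by
    rw [hσ, ← rpow_natCast, ← rpow_mul (by norm_num)]
    norm_num
  have hσ0 : 0 < σ - 1 := by linarith
  refine ⟨4 * (σ / (σ - 1)), by positivity, fun K hK =>
    ⟨8 * (Nat.factorial 16) * (4 * K) ^ 16, by positivity, fun τ hτ n hn C hC => ?_⟩⟩
  have hn' : (1 : ℝ) ≤ n := by exact_mod_cast hn
  set ν : ℝ := (n : ℝ) ^ (1 / 16 : ℝ) with hν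
  have hν0 : 0 < ν := by positivity
  have hν16 : ν ^ 16 = n := by
    rw [hν, ← rpow_natCast, ← rpow_mul (by positivity)]
    norm_num
  have hcn : cn n ≤ 2 / ν ^ 4 := by
    have : (9 / 8 / n : ℝ) ≤ (2 / ν ^ 4) ^ 4 := by
      rw [div_pow, ← pow_mul, hν16]
      gcongr
      norm_num
    refine (rpow_le_rpow (by positivity) this (by norm_num)).trans (le_of_eq ?_)
    rw [one_div]
    exact pow_rpow_inv_natCast (by positivity) (by norm_num)
  rcases Nat.eq_zero_or_pos ⌊τ ^ 16 * n⌋₊ with h0 | h0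
  · rw [filter_eq_empty_iff.2, card_empty, Nat.cast_zero]
    · positivity
    rintro d - ⟨i, j, hij, -, h1, h2⟩
    rw [← Nat.cast_sub hij] at h1
    have h3 := Nat.le_floor h1
    obtain rfl : i = j := by omega
    simp only [sub_self, abs_zero, mul_zero] at h2
    exact absurd h2 (not_lt.2 (by positivity))
  set m := Nat.log 2 ⌊τ ^ 16 * n⌋₊ with hm
  have hmN : (2 : ℝ) ^ m ≤ τ ^ 16 * n := by
    refine le_trans ?_ (Nat.floor_le (by positivity))
    exact_mod_cast Nat.pow_log_le_self 2 h0.ne'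
  have hσm : σ ^ m ≤ τ * ν := by
    refine le_of_pow_le_pow_left₀ (n := 16) (by norm_num) (by positivity) ?_
    rwa [← pow_mul, mul_comm m, pow_mul, hσ16, mul_pow, hν16]
  set P : (Fin (2 * n) → Fin 3) → ℕ → ℕ → Prop := fun d a k =>
    ν ^ 3 * σ ^ a < |(lbl C d ((k + 1) * 2 ^ a) : ℝ) - lbl C d (k * 2 ^ a)| with hP
  have h1 := union_dyadic univ P (2 * n) m
    (A := 2 * (Nat.factorial 16) * (4 * K) ^ 16 / n ^ 2) (Z := 3 ^ (2 * n)) (by positivity) (by
      intro a _ k hk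
      have h4 : (σ ^ a) ^ 16 = 2 ^ a := by rw [← pow_mul, mul_comm, pow_mul, hσ16]
      have h3 : ((((k + 1) * 2 ^ a : ℕ) - (k * 2 ^ a : ℕ) : ℝ) * n) ^ (1 / 4 : ℝ) =
          (σ ^ a * ν) ^ 4 := by
        have : ((((k + 1) * 2 ^ a : ℕ) - (k * 2 ^ a : ℕ) : ℝ) * n) = ((σ ^ a * ν) ^ 4) ^ 4 := by
          rw [← pow_mul, mul_pow, h4, hν16]
          push_cast
          ring
        rw [this, one_div]
        exact pow_rpow_inv_natCast (by positivity) (by norm_num)
      have h2 := chernoff univ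
        (fun d => (lbl C d ((k + 1) * 2 ^ a) : ℝ) - lbl C d (k * 2 ^ a)) (x := ν ^ 3 * σ ^ a)
        (v := 2 * (K * (σ ^ a * ν) ^ 4)) (B := 3 ^ (2 * n)) (by positivity) (by positivity)
        (by positivity) (fun l => by
          rw [← h3]
          exact lbl_mgf hK hC (Nat.mul_le_mul_right _ (Nat.le_succ k)) hk l) 16
      refine h2.trans (le_of_eq ?_)
      have h5 : (4 : ℝ) ^ a = (2 ^ a) ^ 2 := by rw [← pow_mul, mul_comm, pow_mul]; norm_num
      rw [h5, ← h4, ← hν16]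
      generalize ((Nat.factorial 16 : ℕ) : ℝ) = F
      generalize σ ^ a = s at *
      have hs : s ≠ 0 := by
        rintro rfl
        have : (0 : ℝ) < 2 ^ a := by positivity
        simp [← h4] at this
      field_simp
      ring)
  refine le_trans ?_ (h1.trans ?_)
  · refine Nat.cast_le.2 (card_le_card fun d hd => mem_filter.2 ⟨mem_univ _, ?_⟩)
    obtain ⟨i, j, hij, hj, h2, h3⟩ := (mem_filter.1 hd).2
    by_contra hc
    rw [← Nat.cast_sub hij] at h2
    have h7 := chain m (fun i => (lbl C d i : ℝ)) (2 * n) (fun a => ν ^ 3 * σ ^ a)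
      (fun a => by positivity) (fun a ha k hk => not_lt.1 fun h => hc ⟨a, ha, k, hk, h⟩) i j hij hj
      ((Nat.le_floor h2).trans_lt (Nat.lt_pow_succ_log_self (by norm_num) _))
    rw [← mul_sum] at h7
    refine absurd h3 (not_lt.2 ?_)
    calc _ ≤ 2 / ν ^ 4 * (2 * (ν ^ 3 * (σ / (σ - 1) * (τ * ν)))) := by
          refine mul_le_mul hcn (h7.trans ?_) (abs_nonneg _) (by positivity)
          gcongr
          refine (geom_le hσ1 m).trans ?_
          gcongr
      _ = _ := by field_simp; ring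
  · calc _ ≤ 2 * (2 * (Nat.factorial 16) * (4 * K) ^ 16 / n ^ 2) * (2 * n : ℕ) * (τ ^ 16 * n) *
          3 ^ (2 * n) := by gcongr
      _ = _ := by
          generalize ((Nat.factorial 16 : ℕ) : ℝ) = F
          push_cast
          field_simp
          ring

theorem unif_le {X : Type} [Fintype X] [MeasurableSpace X] [MeasurableSingletonClass X]
    (p : X → Prop) [DecidablePred p] {ε : ℝ} (hε : 0 ≤ ε)
    (h : (#(univ.filter p) : ℝ) ≤ ε * Fintype.card X) :
    uniformOn Set.univ {x | p x} ≤ ENNReal.ofReal ε := by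
  have e : {x | p x} = (univ.filter p : Finset X) := by simp
  rw [uniformOn_univ, e, Measure.count_apply_finset]
  refine ENNReal.div_le_of_le_mul ?_
  rw [← ENNReal.ofReal_natCast, ← ENNReal.ofReal_natCast (Fintype.card X),
    ← ENNReal.ofReal_mul hε]
  exact ENNReal.ofReal_le_ofReal h

end Md

open Md Finset Exc Filter in
theorem mod_stmt : ModStmt := by
  classical
  intro ε hε
  obtain ⟨K, hK, hH⟩ := hold_count (half_pos hε)
  obtain ⟨c, hc, hL⟩ := lab_count
  obtain ⟨A, hA, hL⟩ := hL K hK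
  obtain ⟨τ, hτ, h1, h2, h3, h4⟩ : ∃ τ : ℝ, 0 < τ ∧ τ ≤ 1 ∧ K * τ ≤ ε ∧ c * τ ≤ ε ∧
      A * τ ≤ ε / 2 := by
    refine ⟨min 1 (ε / 2 / (K + c + A)), by positivity, min_le_left _ _, ?_⟩
    have a1 : min 1 (ε / 2 / (K + c + A)) * (K + c + A) ≤ ε / 2 :=
      (le_div_iff₀ (by positivity)).1 (min_le_right _ _)
    have a2 : 0 < min 1 (ε / 2 / (K + c + A)) := by positivity
    refine ⟨?_, ?_, ?_⟩ <;> nlinarith [mul_pos a2 hK, mul_pos a2 hc, mul_pos a2 hA]
  refine ⟨τ ^ 16 / 2, by positivity, eventually_atTop.2 ⟨1, fun n hn => ?_⟩⟩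
  refine unif_le _ hε.le ?_
  set Bad : List Bool → (Fin (2 * n) → Fin 3) → Prop := fun w d =>
    ∃ i ≤ 2 * n, ∃ j ≤ 2 * n, |(i : ℝ) - j| ≤ τ ^ 16 / 2 * (2 * n) ∧
      (ε * √(2 * n) < |(ht w i : ℝ) - ht w j| ∨
        ε < cn n * |(lbl (ht w) d i : ℝ) - lbl (ht w) d j|) with hBad
  have hw : ∀ w, (#(univ.filter (Bad w)) : ℝ) ≤
      ((if ¬ Hol K n (ht w) then 1 else 0) + ε / 2) * 3 ^ (2 * n) := by
    intro w
    split_ifs with h
    · have hcon : ∀ i j : ℕ, i ≤ j → j ≤ 2 * n → (j : ℝ) - i ≤ τ ^ 16 * n →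
          |(ht w j : ℝ) - ht w i| ≤ ε * √(2 * n) := by
        intro i j hij hj hd
        have a0 : (0 : ℝ) ≤ (j : ℝ) - i := sub_nonneg.2 (by exact_mod_cast hij)
        have a1 : ((j : ℝ) - i) * n ≤ (τ * √(2 * n)) ^ 4 := by
          have a2 : τ ^ 16 ≤ τ ^ 4 := pow_le_pow_of_le_one hτ.le h1 (by norm_num)
          have a3 : √(2 * n : ℝ) ^ 4 = 4 * n * n := by
            rw [show 4 = 2 * 2 from rfl, pow_mul, Real.sq_sqrt (by positivity)]
            ring
          rw [mul_pow, a3, ← mul_assoc]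
          refine mul_le_mul_of_nonneg_right (hd.trans ?_) (by positivity)
          have : (0 : ℝ) ≤ n := by positivity
          gcongr
          linarith
        have a4 : (((j : ℝ) - i) * n) ^ (1 / 4 : ℝ) ≤ τ * √(2 * n) := by
          refine (Real.rpow_le_rpow (by positivity) a1 (by norm_num)).trans (le_of_eq ?_)
          rw [one_div]
          exact Real.pow_rpow_inv_natCast (by positivity) (by norm_num)
        calc _ ≤ K * (τ * √(2 * n)) := (h i j hij hj).trans (by gcongr)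
          _ ≤ _ := by rw [← mul_assoc]; gcongr
      refine le_trans ?_ ((hL τ hτ n hn _ h).trans ?_)
      · refine Nat.cast_le.2 (card_le_card fun d hd => mem_filter.2 ⟨mem_univ _, ?_⟩)
        obtain ⟨i, hi, j, hj, a1, a2⟩ := (mem_filter.1 hd).2
        rw [abs_le] at a1
        rcases le_total i j with hij | hij
        · have a3 : (j : ℝ) - i ≤ τ ^ 16 * n := by linarith [a1.1]
          rw [abs_sub_comm, abs_sub_comm (lbl _ d i : ℝ)] at a2
          exact ⟨i, j, hij, hj, a3,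
            h3.trans_lt (a2.resolve_left (not_lt.2 (hcon i j hij hj a3)))⟩
        · have a3 : (i : ℝ) - j ≤ τ ^ 16 * n := by linarith [a1.2]
          exact ⟨j, i, hij, hi, a3,
            h3.trans_lt (a2.resolve_left (not_lt.2 (hcon j i hij hi a3)))⟩
      · have a2 : τ ^ 16 ≤ τ := pow_le_of_le_one hτ.le h1 (by norm_num)
        rw [zero_add]
        refine mul_le_mul_of_nonneg_right (le_trans ?_ h4) (by positivity)
        gcongr
    · have : (#(univ.filter (Bad w)) : ℝ) ≤ 3 ^ (2 * n) := by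
        have := card_le_univ (univ.filter (Bad w))
        simp only [Fintype.card_pi, Fintype.card_fin, prod_const, card_univ] at this
        exact_mod_cast this
      have h5 : (0 : ℝ) < 3 ^ (2 * n) := by positivity
      nlinarith
  have hD : ((Dy n).filter fun _ => 1 ≤ n) = Dy n := filter_true_of_mem fun _ _ => hn
  have hcard : (Fintype.card (TT n) : ℝ) = 2 * (#(Dy n) * 3 ^ (2 * n)) := by
    rw [← hD]
    change (Fintype.card (Bool × DyW n × (Fin (2 * n) → Fin 3)) : ℝ) = _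
    simp
  have hsum : ∑ w : DyW n, (#(univ.filter (Bad w.1)) : ℝ) ≤ ε * (#(Dy n) * 3 ^ (2 * n)) := by
    rw [sum_coe_sort ((Dy n).filter fun _ => 1 ≤ n) fun w => (#(univ.filter (Bad w)) : ℝ), hD]
    refine (sum_le_sum fun w _ => hw w).trans ?_
    rw [← sum_mul, sum_add_distrib, sum_boole, sum_const, nsmul_eq_mul, ← mul_assoc]
    refine mul_le_mul_of_nonneg_right ?_ (by positivity)
    linarith [hH n hn]
  rw [hcard, card_filter]
  change ((∑ x : Bool × DyW n × (Fin (2 * n) → Fin 3), if Bad x.2.1.1 x.2.2 then 1 else 0 : ℕ) : ℝ)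
    ≤ _
  simp only [card_filter] at hsum
  simp only [Fintype.sum_prod_type, Fintype.sum_bool]
  push_cast at hsum ⊢
  linarith

end Pool.Agent.QL.BM
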