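import Pool.Agent.P.MP_7a6434d8_pr.QL.BM.Lab

/-! Block SNAKE: contour and labels are coupled with the Brownian snake. -/

open MeasureTheory ProbabilityTheory Set Filter Topology Metric
open scoped ENNReal NNReal unitInterval BoundedContinuousFunction

namespace Pool.Agent.QL.BM

theorem snake_N : Tendsto (fun n : ℕ => 2 * n) atTop atTop :=
  tendsto_id.const_mul_atTop' two_pos

theorem snake_step (s : I) :
    Tendsto (fun n : ℕ => (stepAt n s : ℝ) / ((2 * n : ℕ) : ℝ)) atTop (𝓝 (s : ℝ)) := by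
  have h1 := (tendsto_nat_floor_mul_div_atTop (a := (s : ℝ)) s.2.1).comp
    (tendsto_natCast_atTop_atTop.comp snake_N)
  refine h1.congr fun n => ?_
  simp only [Function.comp, stepAt]
  push_cast
  rw [mul_comm (s : ℝ)]

theorem snake_prob : ∀ᶠ n in atTop, IsProbabilityMeasure (lamT n) :=
  (eventually_ge_atTop 1).mono fun _ hn => lab_prob hn

theorem snake_md (hM : ModStmt) (ε : ℝ) (hε : 0 < ε) : ∃ θ > 0, ∀ᶠ n in atTop,
    lamT n {x | ¬ ∀ i ≤ 2 * n, ∀ j ≤ 2 * n, |(i : ℝ) - j| ≤ θ * ((2 * n : ℕ) : ℝ) →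
      dist ((√(2 * n))⁻¹ * x.C i, cn n * x.l i) ((√(2 * n))⁻¹ * x.C j, cn n * x.l j) ≤ ε} ≤
      ENNReal.ofReal ε := by
  obtain ⟨θ, hθ, h⟩ := hM ε hε
  refine ⟨θ, hθ, ?_⟩
  filter_upwards [h, eventually_gt_atTop 0] with n h1 hn
  refine le_trans (measure_mono fun x hx => ?_) h1
  by_contra hc
  refine hx fun i hi j hj hij => ?_
  have h2 : ¬ (ε * √(2 * n) < |(x.C i : ℝ) - x.C j| ∨ ε < cn n * |(x.l i : ℝ) - x.l j|) :=
    fun h3 => hc ⟨i, hi, j, hj, by exact_mod_cast hij, h3⟩
  rw [not_or, not_lt, not_lt] at h2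
  have h4 : 0 < √(2 * (n : ℝ)) := Real.sqrt_pos.2 (by positivity)
  have h5 : 0 ≤ cn n := Real.rpow_nonneg (by positivity) _
  rw [Prod.dist_eq, max_le_iff, Real.dist_eq, Real.dist_eq, ← mul_sub, ← mul_sub, abs_mul, abs_mul,
    abs_of_pos (inv_pos.2 h4), abs_of_nonneg h5, inv_mul_le_iff₀' h4]
  exact h2

theorem snake_exc (hE : ExcStmt) (hM : ModStmt) {S : Measure Snake} (hS : IsSnake S) :
    LabCpl S := by
  have := hS.prob
  intro ε hε
  refine path_coupling S (fun y => y.1) Snake.measurable_e lamT snake_prob (fun n => 2 * n) snake_N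
    (fun n x i => (√(2 * n))⁻¹ * x.C i) (fun k s h1 h2 => ⟨fun n j => stepAt n (s j),
      .of_forall fun n j => stepAt_le n _, fun j => snake_step _, fun F => ?_⟩)
    (fun ε hε => ?_) hε
  · cases k with
    | zero =>
      have e : ∀ v : Fin 0 → ℝ, F v = F 0 := fun v => congrArg F (Subsingleton.elim _ _)
      simp only [e, integral_const, probReal_univ]
      refine tendsto_const_nhds.congr' (snake_prob.mono fun n hn => ?_)
      simp only [probReal_univ]
    | succ k => exact hE S hS k s h1 h2 F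
  · obtain ⟨θ, hθ, h⟩ := snake_md hM ε hε
    refine ⟨θ, hθ, h.mono fun n h1 => le_trans (measure_mono ?_) h1⟩
    exact fun x hx hx' => hx fun i hi j hj hij => (le_max_left _ _).trans (hx' i hi j hj hij)

theorem snake (hE : ExcStmt) (hM : ModStmt) : SnakeStmt := by
  intro S hS η hη
  have := hS.prob
  have h := path_coupling S (fun y => y.1.prodMk y.2)
    (fun s => (Snake.measurable_e s).prodMk (Snake.measurable_Z s)) lamT snake_prob
    (fun n => 2 * n) snake_N (fun n x i => ((√(2 * n))⁻¹ * x.C i, cn n * x.l i))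
    (fun k s _ _ => ⟨fun n j => stepAt n (s j), .of_forall fun n j => stepAt_le n _,
      fun j => snake_step _, lab_fdd hS (snake_exc hE hM hS) k s⟩) (snake_md hM) hη
  filter_upwards [h, eventually_gt_atTop 0] with n ⟨Θ, e1, e2, e3⟩ hn
  refine ⟨Θ, e1, e2, le_trans (measure_mono ?_) e3⟩
  intro p hp hp'
  refine hp fun i hi => ?_
  have hn' : (0 : ℝ) < 2 * n := by positivity
  have hi' : (i : ℝ) ≤ 2 * n := by exact_mod_cast hi
  have h6 : (gp n i : ℝ) = i / (2 * n) := by
    rw [gp, projIcc_of_mem _ ⟨by positivity, (div_le_one hn').2 hi'⟩]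
  have h7 := hp' i hi (gp n i) (by
    rw [h6]
    push_cast
    rw [mul_div_cancel₀ _ hn'.ne']
    simp)
  exact max_le_iff.1 h7

end Pool.Agent.QL.BM
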