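import Pool.Agent.P.MP_7a6434d8_pr.QL.C.Final
import Pool.Agent.P.MP_7a6434d8_pr.QL.BM.Final
import Pool.Agent.P.MP_7a6434d8_pr.QL.BM.Export
import Pool.Agent.P.MP_7a6434d8_pr.QL.BM.Exc
import Pool.Agent.P.MP_7a6434d8_pr.QL.BM.Mod
import Pool.Agent.P.MP_7a6434d8_pr.QL.BM.SnakeB

/-! The statement with the Brownian map defined by the Brownian snake. -/

namespace Pool.Agent.QL.BM

theorem target2_all : Target2 := target2 LC.target cvs (snake exc mod_stmt)

end Pool.Agent.QL.BM
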