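import Mathlib

/-! The contour parametrisation of the vertices of a plane tree. -/

open MeasureTheory Set
open scoped ENNReal unitInterval

namespace Pool.Agent.QL

/-- `C` is a Dyck path of length `2 n` and `c i = c j` exactly when the times `i` and `j` visit
the same vertex of the tree coded by `C` -/
structure IsContour {V : Type} (n : ℕ) (C : ℕ → ℤ) (c : ℕ → V) : Prop where
  zero : C 0 = 0
  last : C (2 * n) = 0
  step : ∀ i < 2 * n, C (i + 1) = C i + 1 ∨ C (i + 1) = C i - 1
  nonneg : ∀ i ≤ 2 * n, 0 ≤ C i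
  eq_iff : ∀ i j, i ≤ j → j ≤ 2 * n →
    (c i = c j ↔ C i = C j ∧ ∀ k, i ≤ k → k ≤ j → C i ≤ C k)

/-- the end of step `i` that is farther from the root -/
def far (n : ℕ) (C : ℕ → ℤ) (i : ℕ) : ℕ := if i < 2 * n ∧ C (i + 1) = C i + 1 then i + 1 else i

/-- the step containing time `s` -/
noncomputable def stepAt (n : ℕ) (s : I) : ℕ := ⌊2 * (n : ℝ) * s⌋₊

/-- the corner attached to time `s` -/
noncomputable def cornerAt (n : ℕ) (C : ℕ → ℤ) (s : I) : ℕ := far n C (stepAt n s)

theorem stepAt_le (n : ℕ) (s : I) : stepAt n s ≤ 2 * n := by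
  refine Nat.floor_le_of_le ?_
  push_cast
  exact mul_le_of_le_one_right (by positivity) s.2.2

theorem far_cases (n : ℕ) (C : ℕ → ℤ) (i : ℕ) : far n C i = i ∨ far n C i = i + 1 := by
  unfold far
  split_ifs <;> simp

theorem far_le {n : ℕ} (C : ℕ → ℤ) {i : ℕ} (hi : i ≤ 2 * n) : far n C i ≤ 2 * n := by
  unfold far
  split_ifs with h
  · exact h.1
  · exact hi

theorem cornerAt_le (n : ℕ) (C : ℕ → ℤ) (s : I) : cornerAt n C s ≤ 2 * n :=
  far_le C (stepAt_le n s)

theorem cornerAt_cases (n : ℕ) (C : ℕ → ℤ) (s : I) :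
    cornerAt n C s = ⌊2 * (n : ℝ) * s⌋₊ ∨ cornerAt n C s = ⌊2 * (n : ℝ) * s⌋₊ + 1 :=
  far_cases n C _

theorem cornerAt_near (n : ℕ) (C : ℕ → ℤ) (s : I) :
    |(cornerAt n C s : ℝ) - 2 * n * s| ≤ 1 := by
  have h0 : 0 ≤ 2 * (n : ℝ) * s := mul_nonneg (by positivity) s.2.1
  have h1 := Nat.floor_le h0
  have h2 := Nat.lt_floor_add_one (2 * (n : ℝ) * s)
  rcases cornerAt_cases n C s with h | h <;> rw [h, abs_le] <;> push_cast <;>
    constructor <;> linarith

theorem measurable_stepAt (n : ℕ) : Measurable (stepAt n) :=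
  Nat.measurable_floor.comp (measurable_subtype_coe.const_mul _)

theorem measurable_cornerAt (n : ℕ) (C : ℕ → ℤ) : Measurable (cornerAt n C) :=
  (measurable_of_countable (far n C)).comp (measurable_stepAt n)

theorem measurableSet_contour {V : Type} (n : ℕ) (C : ℕ → ℤ) (c : ℕ → V) (S : Set V) :
    MeasurableSet ((fun s => c (cornerAt n C s)) ⁻¹' S) :=
  measurable_cornerAt n C (MeasurableSet.of_discrete (s := c ⁻¹' S))

theorem volume_stepAt {n i : ℕ} (hi : i < 2 * n) :
    volume (stepAt n ⁻¹' {i}) = ((2 * n : ℕ) : ℝ≥0∞)⁻¹ := by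
  have hn : (0 : ℝ) < 2 * n := by
    have : 0 < 2 * n := by omega
    exact_mod_cast this
  have hi' : (i : ℝ) + 1 ≤ 2 * n := by exact_mod_cast hi
  have e : ((↑) : I → ℝ) '' (stepAt n ⁻¹' {i}) = Ico (i / (2 * n) : ℝ) ((i + 1) / (2 * n)) := by
    ext x
    simp only [mem_image, mem_preimage, mem_singleton_iff, mem_Ico, div_le_iff₀ hn,
      lt_div_iff₀ hn]
    constructor
    · rintro ⟨s, hs, rfl⟩
      rw [stepAt, Nat.floor_eq_iff (mul_nonneg hn.le s.2.1)] at hs
      constructor <;> linarith [hs.1, hs.2]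
    · rintro ⟨h1, h2⟩
      have x0 : 0 ≤ x := by
        have : (0 : ℝ) ≤ i := Nat.cast_nonneg i
        by_contra hx
        nlinarith [not_le.1 hx]
      have x1 : x ≤ 1 := by
        by_contra hx
        nlinarith [not_le.1 hx]
      refine ⟨⟨x, x0, x1⟩, ?_, rfl⟩
      rw [stepAt, Nat.floor_eq_iff (mul_nonneg hn.le x0)]
      constructor <;> linarith
  rw [unitInterval.volume_apply, e, Real.volume_Ico, ← sub_div, add_sub_cancel_left, one_div,
    ENNReal.ofReal_inv_of_pos hn]
  congr 1
  rw [← ENNReal.ofReal_natCast]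
  push_cast
  rfl

theorem ae_stepAt_lt {n : ℕ} (hn : 0 < n) : ∀ᵐ s : I, stepAt n s < 2 * n := by
  have h : ∀ᵐ s : I, s ≠ 1 := by
    rw [ae_iff]
    simp
  filter_upwards [h] with s hs
  have h1 : (s : ℝ) < 1 := lt_of_le_of_ne s.2.2 fun e => hs (Subtype.ext e)
  have h2 : (0 : ℝ) < 2 * n := by positivity
  rw [stepAt, Nat.floor_lt (mul_nonneg h2.le s.2.1)]
  push_cast
  nlinarith

theorem map_stepAt {n : ℕ} (hn : 0 < n) : (volume : Measure I).map (stepAt n) =
    ((2 * n : ℕ) : ℝ≥0∞)⁻¹ • ∑ i ∈ Finset.range (2 * n), Measure.dirac i := by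
  refine Measure.ext_of_singleton fun i => ?_
  rw [Measure.map_apply (measurable_stepAt n) (measurableSet_singleton i), Measure.smul_apply,
    Measure.finsetSum_apply, smul_eq_mul]
  simp only [Measure.dirac_apply, indicator, mem_singleton_iff, Pi.one_apply, Finset.sum_ite_eq',
    Finset.mem_range]
  split_ifs with h
  · rw [volume_stepAt h, mul_one]
  · rw [mul_zero]
    refine measure_eq_zero_iff_ae_notMem.2 ?_
    filter_upwards [ae_stepAt_lt hn] with s hs e
    exact h (by rwa [← show stepAt n s = i from e])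

namespace IsContour

variable {V : Type} {n : ℕ} {C : ℕ → ℤ} {c : ℕ → V}

theorem root (h : IsContour n C c) : c 0 = c (2 * n) :=
  (h.eq_iff 0 _ (Nat.zero_le _) le_rfl).2
    ⟨h.zero.trans h.last.symm, fun k _ hk => h.zero ▸ h.nonneg k hk⟩

theorem height (h : IsContour n C c) {i j : ℕ} (hi : i ≤ 2 * n) (hj : j ≤ 2 * n)
    (e : c i = c j) : C i = C j := by
  rcases le_total i j with hij | hij
  · exact ((h.eq_iff i j hij hj).1 e).1
  · exact ((h.eq_iff j i hij hi).1 e.symm).1.symm

theorem far_ne_root (h : IsContour n C c) {i : ℕ} (hi : i < 2 * n) : c (far n C i) ≠ c 0 := by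
  intro e
  have h1 := h.height (far_le C hi.le) (Nat.zero_le _) e
  have h2 := h.nonneg i hi.le
  have h3 := h.nonneg (i + 1) hi
  have h4 := h.step i hi
  rw [h.zero] at h1
  unfold far at h1
  split_ifs at h1 with h5 <;> omega

/-- the first visit of a vertex other than the root ends an up step -/
theorem first_up (h : IsContour n C c) {a : ℕ} (ha : a < 2 * n)
    (hmin : ∀ j ≤ a, c j ≠ c (a + 1)) : C (a + 1) = C a + 1 := by
  classical
  refine (h.step a ha).resolve_right fun hd => ?_
  set m := Nat.findGreatest (fun k => C k ≤ C (a + 1)) a with hm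
  have h1 : m ≤ a := Nat.findGreatest_le a
  have h2 : C m ≤ C (a + 1) := Nat.findGreatest_spec (P := fun k => C k ≤ C (a + 1))
    (Nat.zero_le a) (by rw [h.zero]; exact h.nonneg _ ha)
  have h3 : ∀ k, m < k → k ≤ a → C (a + 1) < C k := fun k k1 k2 =>
    not_le.1 (Nat.findGreatest_is_greatest k1 k2)
  have h4 : m ≠ a := fun e => by rw [e] at h2; omega
  have h5 := h3 (m + 1) (by omega) (by omega)
  have h6 := h.step m (by omega)
  refine hmin m h1 ((h.eq_iff m (a + 1) (by omega) ha).2 ⟨by omega, fun k k1 k2 => ?_⟩)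
  rcases eq_or_lt_of_le k1 with rfl | k1
  · exact le_rfl
  rcases eq_or_lt_of_le k2 with rfl | k2
  · exact h2
  · exact h2.trans (h3 k k1 (by omega)).le

/-- the last visit of a vertex other than the root starts a down step -/
theorem last_down (h : IsContour n C c) {b : ℕ} (hb : b < 2 * n)
    (hmax : ∀ j, b < j → j ≤ 2 * n → c b ≠ c j) : C (b + 1) = C b - 1 := by
  classical
  refine (h.step b hb).resolve_left fun hu => ?_
  have hex : ∃ k, b < k ∧ k ≤ 2 * n ∧ C k ≤ C b :=
    ⟨2 * n, hb, le_rfl, by rw [h.last]; exact h.nonneg _ hb.le⟩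
  obtain ⟨h1, h2, h3⟩ := Nat.find_spec hex
  set m := Nat.find hex with hm
  have h4 : ∀ k, b < k → k < m → C b < C k := fun k k1 k2 =>
    not_le.1 fun e => Nat.find_min hex k2 ⟨k1, by omega, e⟩
  have h5 : m ≠ b + 1 := fun e => by rw [e] at h3; omega
  have h6 := h4 (m - 1) (by omega) (by omega)
  have h7 := h.step (m - 1) (by omega)
  rw [show m - 1 + 1 = m by omega] at h7
  refine hmax m h1 h2 ((h.eq_iff b m h1.le h2).2 ⟨by omega, fun k k1 k2 => ?_⟩)
  rcases eq_or_lt_of_le k1 with rfl | k1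
  · exact le_rfl
  rcases eq_or_lt_of_le k2 with rfl | k2
  · omega
  · exact (h4 k k1 k2).le

open Classical in
/-- the vertices other than the root -/
noncomputable def _root_.Pool.Agent.QL.nonRoot (n : ℕ) (c : ℕ → V) : Finset V :=
  ((Finset.range (2 * n + 1)).image c).erase (c 0)

theorem _root_.Pool.Agent.QL.mem_nonRoot {v : V} :
    v ∈ nonRoot n c ↔ v ≠ c 0 ∧ ∃ i ≤ 2 * n, c i = v := by
  simp [nonRoot]

theorem far_mem (h : IsContour n C c) {i : ℕ} (hi : i < 2 * n) : c (far n C i) ∈ nonRoot n c :=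
  mem_nonRoot.2 ⟨h.far_ne_root hi, _, far_le C hi.le, rfl⟩

open Classical in
theorem card_fibre (h : IsContour n C c) {v : V} (hv : v ∈ nonRoot n c) :
    ((Finset.range (2 * n)).filter fun i => c (far n C i) = v).card = 2 := by
  obtain ⟨hne, i₀, hi₀, hc₀⟩ := mem_nonRoot.1 hv
  have hex : ∃ k, c k = v := ⟨i₀, hc₀⟩
  have a1 : c (Nat.find hex) = v := Nat.find_spec hex
  have a2 : Nat.find hex ≤ i₀ := Nat.find_min' hex hc₀
  have a3 : ∀ k < Nat.find hex, c k ≠ v := fun k hk => Nat.find_min hex hk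
  obtain ⟨a, ha⟩ : ∃ a, Nat.find hex = a + 1 :=
    Nat.exists_eq_succ_of_ne_zero fun e => hne (by rw [← a1, e])
  rw [ha] at a1 a2 a3
  set b := Nat.findGreatest (fun k => c k = v) (2 * n) with hb
  have b1 : c b = v := Nat.findGreatest_spec (P := fun k => c k = v) hi₀ hc₀
  have b2 : b ≤ 2 * n := Nat.findGreatest_le _
  have b3 : ∀ k, b < k → k ≤ 2 * n → c k ≠ v := fun k k1 k2 => Nat.findGreatest_is_greatest k1 k2
  have b4 : b < 2 * n := lt_of_le_of_ne b2 fun e => hne (by rw [← b1, e, h.root])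
  have ua := h.first_up (a := a) (by omega) fun j hj => a1 ▸ a3 j (by omega)
  have db := h.last_down b4 fun j j1 j2 e => b3 j j1 j2 (e ▸ b1)
  refine Finset.card_eq_two.2 ⟨a, b, fun e => by rw [e] at ua; omega, ?_⟩
  ext i
  simp only [Finset.mem_filter, Finset.mem_range, Finset.mem_insert, Finset.mem_singleton]
  constructor
  · rintro ⟨hi, e⟩
    unfold far at e
    split_ifs at e with h5
    · left
      have h6 : a ≤ i := by
        by_contra h7
        exact a3 (i + 1) (by omega) e
      by_contra h7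
      have h8 := (h.eq_iff (a + 1) (i + 1) (by omega) hi).1 (a1.trans e.symm)
      have h9 := h8.2 i (by omega) (by omega)
      omega
    · right
      have h6 : i ≤ b := by
        by_contra h7
        exact b3 i (by omega) hi.le e
      by_contra h7
      have h8 := (h.eq_iff i b h6 b2).1 (e.trans b1.symm)
      have h9 := h8.2 (i + 1) (by omega) (by omega)
      have := h.step i hi
      omega
  · rintro (rfl | rfl)
    · exact ⟨by omega, by rw [far, if_pos ⟨by omega, ua⟩, a1]⟩
    · exact ⟨b4, by rw [far, if_neg (by omega), b1]⟩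

theorem sum_far (h : IsContour n C c) {M : Type} [AddCommMonoid M] (F : V → M) :
    ∑ i ∈ Finset.range (2 * n), F (c (far n C i)) = 2 • ∑ v ∈ nonRoot n c, F v := by
  classical
  rw [← Finset.sum_fiberwise_of_maps_to (t := nonRoot n c) (g := fun i => c (far n C i))
    fun i hi => h.far_mem (Finset.mem_range.1 hi), Finset.smul_sum]
  refine Finset.sum_congr rfl fun v hv => ?_
  rw [Finset.sum_congr rfl (g := fun _ => F v) fun i hi => by rw [(Finset.mem_filter.1 hi).2],
    Finset.sum_const, h.card_fibre hv]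

theorem card_nonRoot (h : IsContour n C c) : (nonRoot n c).card = n := by
  have := h.sum_far fun _ => (1 : ℕ)
  simp only [Finset.sum_const, Finset.card_range, smul_eq_mul, mul_one] at this
  omega

/-- the contour parametrisation is uniform on the vertices other than the root -/
theorem lintegral (h : IsContour n C c) (hn : 0 < n) (F : V → ℝ≥0∞) :
    ∫⁻ s : I, F (c (cornerAt n C s)) = (n : ℝ≥0∞)⁻¹ * ∑ v ∈ nonRoot n c, F v := by
  have e := lintegral_map (μ := (volume : Measure I))
    (measurable_of_countable fun i => F (c (far n C i))) (measurable_stepAt n)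
  unfold cornerAt
  rw [← e, map_stepAt hn, lintegral_smul_measure, lintegral_finsetSum_measure]
  simp only [lintegral_dirac]
  rw [h.sum_far, smul_eq_mul, nsmul_eq_mul, ← mul_assoc]
  congr 1
  push_cast
  rw [ENNReal.mul_inv (by simp) (by simp), mul_right_comm, ENNReal.inv_mul_cancel (by simp)
    (by simp), one_mul]

theorem integral (h : IsContour n C c) (hn : 0 < n) (F : V → ℝ) :
    ∫ s : I, F (c (cornerAt n C s)) = (n : ℝ)⁻¹ * ∑ v ∈ nonRoot n c, F v := by
  have e := integral_map (μ := (volume : Measure I)) (measurable_stepAt n).aemeasurable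
    (measurable_of_countable fun i => F (c (far n C i))).aestronglyMeasurable
  unfold cornerAt
  rw [← e, map_stepAt hn, integral_smul_measure,
    integral_finsetSum_measure fun i _ => integrable_dirac (by simp)]
  simp only [integral_dirac]
  rw [h.sum_far, smul_eq_mul, nsmul_eq_mul, ← mul_assoc]
  congr 1
  have : (n : ℝ) ≠ 0 := by positivity
  simp only [ENNReal.toReal_inv, ENNReal.toReal_natCast]
  push_cast
  field_simp

open Classical in
theorem volume_fibre (h : IsContour n C c) (hn : 0 < n) (v : V) :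
    volume ((fun s => c (cornerAt n C s)) ⁻¹' {v}) =
      if v ∈ nonRoot n c then (n : ℝ≥0∞)⁻¹ else 0 := by
  rw [← lintegral_indicator_one (measurableSet_contour n C c _)]
  have := h.lintegral hn (({v} : Set V).indicator 1)
  refine Eq.trans (lintegral_congr fun s => rfl) (this.trans ?_)
  simp only [indicator, mem_singleton_iff, Pi.one_apply, Finset.sum_ite_eq']
  split_ifs <;> simp

theorem volume_fibre_le (h : IsContour n C c) (hn : 0 < n) (v : V) :
    volume ((fun s => c (cornerAt n C s)) ⁻¹' {v}) ≤ (n : ℝ≥0∞)⁻¹ := by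
  rw [h.volume_fibre hn]
  split_ifs <;> simp

end IsContour

end Pool.Agent.QL
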