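import Pool.Agent.P.MP_7a6434d8_pr.QL.W.GEmb
import Pool.Agent.P.MP_7a6434d8_pr.QL.W.GBase

/-! Parametrisations by the unit interval bound the GHP distance. -/

open MeasureTheory ProbabilityTheory Set Filter Topology Metric
open scoped ENNReal NNReal unitInterval

namespace Pool.Agent.QL

open Pool.Agent.LGD Pool.Agent.P.MP_7a6434d8_pr

/-- the vertices of `q` are parametrised by the unit interval, with mass at most `1/n` each, and
the scaled graph distance is within `ε` of `D` -/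
def Param {n : ℕ} (q : Quad n) (D : I → I → ℝ) (ε : ℝ) : Prop :=
  ∃ φ : I → q.Vertex, (∀ v, volume (φ ⁻¹' {v}) ≤ (n : ℝ≥0∞)⁻¹) ∧
    ∀ s u, |cn n * q.graph.dist (φ s) (φ u) - D s u| ≤ ε

variable {n : ℕ}

theorem Param.out {q : Quad n} {D : I → I → ℝ} {ε : ℝ} (h : Param q D ε) :
    Param (Quot.out (Quot.mk _ q : RootedQuad n)) D ε := by
  obtain ⟨e, h1, h2, -⟩ : Quad.Iso q (Quot.out (Quot.mk _ q : RootedQuad n)) :=
    (xcount_mk_eq _ _).1 (Quot.out_eq _).symm
  obtain ⟨φ, m, hd⟩ := h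
  set g := xrerootG q _ e h1 h2
  refine ⟨fun s => g (φ s), fun v => le_trans (measure_mono fun s hs => ?_) (m (g.symm v)),
    fun s u => by rw [xreroot_dist g]; exact hd s u⟩
  have : g (φ s) = v := hs
  simp [← this]

theorem cpl_card (q : Quad n) : Fintype.card q.Vertex = n + 2 := by
  have h1 : Nat.card q.Vertex + n = 2 * n + 2 := q.euler
  rw [Nat.card_eq_fintype_card] at h1
  omega

theorem cpl_mass_le {V : Type} {φ : I → V} {a : ℝ≥0∞} (h : ∀ v, volume (φ ⁻¹' {v}) ≤ a)
    (S : Finset V) : volume (φ ⁻¹' S) ≤ a * S.card := by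
  have e : φ ⁻¹' S = ⋃ v ∈ S, φ ⁻¹' {v} := by
    ext s
    simp
  rw [e]
  refine (measure_biUnion_finset_le S _).trans ?_
  rw [mul_comm, ← nsmul_eq_mul]
  exact Finset.sum_le_card_nsmul _ _ _ fun v _ => h v

theorem cpl_mass_ge (q : Quad n) {φ : I → q.Vertex}
    (h : ∀ v, volume (φ ⁻¹' {v}) ≤ (n : ℝ≥0∞)⁻¹) (S : Finset q.Vertex) :
    (n : ℝ≥0∞)⁻¹ * S.card ≤ volume (φ ⁻¹' S) + (n : ℝ≥0∞)⁻¹ * 2 := by
  classical
  have hn : (n : ℝ≥0∞) ≠ 0 := by exact_mod_cast (n_pos q).ne'
  have h1 : (1 : ℝ≥0∞) ≤ volume (φ ⁻¹' S) + (n : ℝ≥0∞)⁻¹ * (Sᶜ).card := by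
    rw [← measure_univ (μ := (volume : Measure I)), ← union_compl_self (φ ⁻¹' S)]
    refine (measure_union_le _ _).trans (add_le_add le_rfl ?_)
    rw [← preimage_compl, ← Finset.coe_compl]
    exact cpl_mass_le h _
  have h2 : (S.card : ℝ≥0∞) + (Sᶜ).card = n + 2 := by
    have := Finset.card_add_card_compl S
    rw [cpl_card] at this
    exact_mod_cast this
  have h3 : (n : ℝ≥0∞)⁻¹ * (Sᶜ).card ≠ ⊤ := ENNReal.mul_ne_top (by simpa using hn) (by simp)
  rw [← ENNReal.add_le_add_iff_right h3, ← mul_add, h2, mul_add,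
    ENNReal.inv_mul_cancel hn (by simp), add_right_comm]
  exact add_le_add h1 le_rfl

theorem cpl_dense (q : Quad n) {φ : I → q.Vertex}
    (h : ∀ v, volume (φ ⁻¹' {v}) ≤ (n : ℝ≥0∞)⁻¹) (v : q.Vertex) :
    ∃ s, q.graph.dist v (φ s) ≤ 2 := by
  classical
  by_contra hc
  push Not at hc
  obtain ⟨p, hp, hl⟩ := (graph_connected q).exists_path_of_dist v (φ 0)
  have h0 := hc 0
  set S : Finset q.Vertex := (Finset.range 3).image p.getVert with hS
  have hcard : S.card = 3 := by
    rw [hS, Finset.card_image_of_injOn, Finset.card_range]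
    intro i hi j hj e
    simp only [Finset.coe_range, mem_Iio] at hi hj
    exact hp.getVert_injOn (by simp only [mem_ofPred_eq]; omega)
      (by simp only [mem_ofPred_eq]; omega) e
  have hemp : φ ⁻¹' S = ∅ := by
    refine eq_empty_of_forall_notMem fun s hs => ?_
    obtain ⟨i, hi, e⟩ := Finset.mem_image.1 (show φ s ∈ S from hs)
    have h1 := SimpleGraph.dist_le (p.take i)
    rw [SimpleGraph.Walk.take_length, e] at h1
    have h2 := hc s
    have h3 := Finset.mem_range.1 hi
    omega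
  have h4 := cpl_mass_ge q h S
  have hn : (n : ℝ≥0∞) ≠ 0 := by exact_mod_cast (n_pos q).ne'
  rw [hemp, measure_empty, zero_add, hcard,
    ENNReal.mul_le_mul_iff_right (by simp) (by simpa using hn)] at h4
  norm_num at h4

open Classical in
theorem cpl_vmeas (q : Quad n) {A : Set (Pt n)} (hA : MeasurableSet A) :
    vmeas q A = (n : ℝ≥0∞)⁻¹ *
      (Finset.univ.filter fun v : q.Vertex => ((Quotient.out v, 0) : Pt n) ∈ A).card := by
  unfold vmeas
  rw [Measure.smul_apply, Measure.sum_fintype, Measure.finsetSum_apply, smul_eq_mul]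
  simp only [Measure.dirac_apply' _ hA, indicator, Pi.one_apply, Finset.sum_boole]

theorem gh_le_param (q : Quad n) {d : Sph → Sph → ℝ} (hd : IsMet d) {ν : Measure Sph}
    [IsProbabilityMeasure ν] {π : I → Sph} (hπ : Function.Surjective π)
    (hν : (volume : Measure I).map π = ν) {ε : ℝ} (h : Param q (fun s u => d (π s) (π u)) ε) :
    gh (mdist q) (vmeas q) d ν (fun _ => 0) ≤ ENNReal.ofReal (2 * (ε + 6 * cn n) + 2 / n) := by
  classical
  obtain ⟨φ, hm, hD⟩ := h
  choose sg hsg using cpl_dense q hm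
  have hc := gmd_cn (n := n)
  have hε : 0 ≤ ε := (abs_nonneg _).trans (hD 0 0)
  have hn : (0 : ℝ) < n := by exact_mod_cast n_pos q
  have hπm : AEMeasurable π volume := by
    by_contra hne
    rw [Measure.map_of_not_aemeasurable hne] at hν
    exact IsProbabilityMeasure.ne_zero ν hν.symm
  let R₁ : Pt n ⊕ I → Pt n := Sum.elim id fun s => (Quotient.out (φ s), 0)
  let τ : Pt n ⊕ I → I := Sum.elim (fun x => sg (q.tail x.1)) id
  have hR : ∀ z, (q.graph.dist (q.tail (R₁ z).1) (φ (τ z)) : ℝ) ≤ 2 := by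
    rintro (x | s)
    · exact_mod_cast hsg (q.tail x.1)
    · simp only [R₁, τ, Sum.elim_inr, id, tail_out, SimpleGraph.dist_self]
      norm_num
  set r := ε + 6 * cn n with hr
  have hr0 : 0 ≤ r := by positivity
  have hdis : ∀ z z', |mdist q (R₁ z) (R₁ z') - d (π (τ z)) (π (τ z'))| ≤ r := by
    intro z z'
    have h1 := abs_le.1 (mdist_tail q (R₁ z) (R₁ z'))
    have h2 := abs_le.1 (hD (τ z) (τ z'))
    have h3 := hR z
    have h4 := hR z'
    set x := q.tail (R₁ z).1
    set x' := q.tail (R₁ z').1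
    have h5 := gmd_tri q x (φ (τ z)) x'
    have h6 := gmd_tri q (φ (τ z)) (φ (τ z')) x'
    have h7 := gmd_tri q (φ (τ z)) x (φ (τ z'))
    have h8 := gmd_tri q x x' (φ (τ z'))
    have h9 := gmd_comm q x' (φ (τ z'))
    have h10 := gmd_comm q x (φ (τ z))
    have k1 := mul_le_mul_of_nonneg_left
      (show (q.graph.dist x x' : ℝ) ≤ q.graph.dist (φ (τ z)) (φ (τ z')) + 4 by linarith) hc
    have k2 := mul_le_mul_of_nonneg_left
      (show (q.graph.dist (φ (τ z)) (φ (τ z')) : ℝ) ≤ q.graph.dist x x' + 4 by linarith) hc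
    rw [abs_le]
    constructor <;> linarith [h1.1, h1.2, h2.1, h2.2]
  obtain ⟨W, iW, ι, ι', hι, hι', hgl⟩ := exists_glue (mdist q) d (mdist_self q) (mdist_comm q)
    (mdist_triangle q) (mdist_bdd q) hd.self hd.symm hd.triangle hd.bdd R₁ (fun z => π (τ z))
    (fun x => ⟨Sum.inl x, rfl⟩) (fun y => (hπ y).imp' Sum.inr fun _ h => h) hdis
  borelize W
  have hg1 : ∀ x : Pt n, dist (ι x) (ι' (π (sg (q.tail x.1)))) ≤ r := fun x => hgl (Sum.inl x)
  have hg2 : ∀ s, dist (ι (Quotient.out (φ s), 0)) (ι' (π s)) ≤ r := fun s => hgl (Sum.inr s)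
  have hcι : Continuous ι := by
    refine continuous_prod_of_discrete_left.2 fun b => ?_
    refine (LipschitzWith.of_dist_le' (K := cn n) fun s t => ?_).continuous
    rw [hι]
    exact mdist_same q b s t
  have hcι' : Continuous ι' := by
    refine continuous_iff_continuousAt.2 fun y => ?_
    rw [ContinuousAt, tendsto_iff_dist_tendsto_zero]
    simp only [dist_comm (ι' _) (ι' y), hι']
    have := (hd.cont_right y).tendsto y
    rwa [hd.self] at this
  have hH : hausdorffEDist (range ι) (range ι') ≤ ENNReal.ofReal r := by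
    refine hausdorffEDist_le_of_mem_edist ?_ ?_
    · rintro _ ⟨x, rfl⟩
      refine ⟨_, mem_range_self (π (sg (q.tail x.1))), ?_⟩
      rw [edist_dist]
      exact ENNReal.ofReal_le_ofReal (hg1 x)
    · rintro _ ⟨y, rfl⟩
      obtain ⟨s, rfl⟩ := hπ y
      refine ⟨_, mem_range_self (Quotient.out (φ s), 0), ?_⟩
      rw [edist_dist, dist_comm]
      exact ENNReal.ofReal_le_ofReal (hg2 s)
  have hνa : ∀ B, MeasurableSet B → ν.map ι' B = volume {s : I | ι' (π s) ∈ B} := fun B hB => by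
    rw [Measure.map_apply hcι'.measurable hB, ← hν,
      Measure.map_apply_of_aemeasurable hπm (hcι'.measurable hB)]
    rfl
  have hP : levyProkhorovEDist ((vmeas q).map ι) (ν.map ι') ≤ ENNReal.ofReal (r + 2 / n) := by
    refine levyProkhorovEDist_le_of_forall _ _ _ fun ρ B hρ hρ' hB => ?_
    have h2n : (0 : ℝ) < 2 / n := by positivity
    have hρ1 : r + 2 / n < ρ.toReal := by
      rwa [ENNReal.ofReal_lt_iff_lt_toReal (by positivity) hρ'.ne] at hρ
    have hρ2 : (n : ℝ≥0∞)⁻¹ * 2 ≤ ρ := by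
      refine le_trans (le_of_eq ?_) ((ENNReal.ofReal_le_ofReal (le_add_of_nonneg_left hr0)).trans
        hρ.le)
      rw [ENNReal.ofReal_div_of_pos hn, ENNReal.ofReal_natCast, ENNReal.ofReal_ofNat,
        div_eq_mul_inv, mul_comm]
    have hth : MeasurableSet (thickening ρ.toReal B) := isOpen_thickening.measurableSet
    rw [hνa _ hB, hνa _ hth, Measure.map_apply hcι.measurable hB,
      Measure.map_apply hcι.measurable hth, cpl_vmeas q (hcι.measurable hB),
      cpl_vmeas q (hcι.measurable hth)]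
    constructor
    · refine (cpl_mass_ge q hm _).trans (add_le_add (measure_mono fun s hs => ?_) hρ2)
      refine mem_thickening_iff.2 ⟨_, (Finset.mem_filter.1 hs).2, ?_⟩
      rw [dist_comm]
      linarith [hg2 s]
    · refine le_add_right (le_trans (measure_mono fun s hs => ?_) (cpl_mass_le hm _))
      refine Finset.mem_filter.2 ⟨Finset.mem_univ _, mem_thickening_iff.2 ⟨_, hs, ?_⟩⟩
      linarith [hg2 s]
  unfold gh
  refine le_trans (iInf_le_of_le W (iInf_le_of_le iW (iInf_le_of_le (borel W)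
    (iInf_le_of_le ⟨rfl⟩ (iInf_le_of_le ι (iInf_le_of_le ι' (iInf_le_of_le hι
    (iInf_le_of_le hι' (add_le_add (add_le_add hH hP) le_rfl))))))))) ?_
  rw [add_zero, ← ENNReal.ofReal_add hr0 (by positivity)]
  exact ENNReal.ofReal_le_ofReal (by linarith)

end Pool.Agent.QL
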