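import Pool.Agent.P.MP_7a6434d8_pr.QL.BM.CplAbs
import Pool.Agent.P.MP_7a6434d8_pr.QL.BM.CplDet
import Pool.Agent.P.MP_7a6434d8_pr.QL.BM.Contour

/-! Block CPL: from the convergence of the distance functions to GHP convergence in law. -/

open MeasureTheory ProbabilityTheory Set Filter Topology Metric
open scoped ENNReal NNReal unitInterval BoundedContinuousFunction

namespace Pool.Agent.QL

open Pool.Agent.LGD Pool.Agent.P.MP_7a6434d8_pr

/-- composition of couplings along `Y` -/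
theorem cpl_glue {Ω B Y T C : Type} [MeasurableSpace Ω] [MeasurableSpace B] [MeasurableSpace Y]
    [StandardBorelSpace Y] [Finite T] [MeasurableSpace T] [DiscreteMeasurableSpace T]
    [MeasurableSpace C] [DiscreteMeasurableSpace C]
    (P : Measure Ω) [IsProbabilityMeasure P] (L : Kernel Ω B) [IsMarkovKernel L]
    (Γ : Measure ((Ω × B) × Y)) (h1 : Γ.fst = P ⊗ₘ L) (Θ : Measure (T × Y))
    (h2 : Θ.snd = Γ.snd) {R : Ω → Y → Prop} (hR : ∀ᵐ p ∂Γ, R p.1.1 p.2) (c : T → C)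
    (Bad : Set (T × Y)) :
    ∃ Γ' : Measure (C × Ω), Γ'.fst = Θ.fst.map c ∧ Γ'.snd = P ∧ ∀ Bad' : Set (C × Ω),
      (∀ t ω y, R ω y → (t, y) ∉ Bad → (c t, ω) ∉ Bad') → Γ' Bad' ≤ Θ Bad := by
  classical
  have : IsProbabilityMeasure Γ := ⟨by rw [← Measure.fst_univ, h1]; exact measure_univ⟩
  have : IsProbabilityMeasure Θ := ⟨by rw [← Measure.snd_univ, h2]; exact measure_univ⟩
  obtain ⟨t₀, y₀⟩ := (nonempty_of_isProbabilityMeasure Θ).some
  have : Nonempty T := ⟨t₀⟩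
  have : Nonempty Y := ⟨y₀⟩
  have : Fintype T := Fintype.ofFinite T
  set E := toMeasurable Θ Bad
  have hE : MeasurableSet E := measurableSet_toMeasurable _ _
  set g : T × Y → T × Bool := fun p => (p.1, decide (p ∈ E)) with hg
  have hgm : Measurable g := by
    refine measurable_fst.prodMk (measurable_to_bool ?_)
    convert hE
    ext p
    simp
  set Q : Measure (Y × T × Bool) := Θ.map fun p => (p.2, g p) with hQ
  have hQm : Measurable fun p : T × Y => (p.2, g p) := measurable_snd.prodMk hgm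
  have q1 : Q.fst = Γ.snd := by
    rw [← h2, hQ, Measure.fst_map_prodMk hgm]
    rfl
  have q2 : Q.snd = Θ.map g := by rw [hQ, Measure.snd_map_prodMk measurable_snd]
  have q3 : ∀ᵐ p ∂Q, p.2.2 = false → (p.2.1, p.1) ∉ E := by
    rw [hQ, ae_map_iff hQm.aemeasurable]
    · exact .of_forall fun p hp => by simpa [hg] using hp
    · exact MeasurableSet.imp
        ((measurable_snd.comp measurable_snd) (measurableSet_singleton false))
        (((measurable_fst.comp measurable_snd).prodMk measurable_fst) hE.compl)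
  obtain ⟨κ, hκ, k1, k2⟩ := cpl_kernel P L Γ h1 Q q1 hR
    (R₂ := fun y x => x.2 = false → (x.1, y) ∉ E) q3
  have : IsProbabilityMeasure (Θ.map g) := Measure.isProbabilityMeasure_map hgm.aemeasurable
  let ψ : Option T → T × Bool → ℝ≥0∞ := fun j x =>
    if j = if x.2 = true then none else some x.1 then 1 else 0
  obtain ⟨Γ', g1, g2, g3⟩ := cpl_core (Θ.map g) (c := fun x => c x.1) .of_discrete measurable_id
    P κ (ψ := ψ) (fun _ => .of_discrete) (fun x => by simp [ψ]) none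
  refine ⟨Γ', ?_, g2, fun Bad' hB => (g3 Bad' univ _ (ae_iff.1 k2) ?_).trans ?_⟩
  · rw [g1, Measure.map_map .of_discrete hgm, Measure.fst,
      Measure.map_map .of_discrete measurable_fst]
    rfl
  · rintro j hj ⟨t, b⟩ - ω hω a1 a2
    obtain ⟨⟨t', b'⟩, hx, y, y1, y2⟩ := not_not.1 hω _ .of_discrete a2
    cases b <;> cases b' <;> simp only [ψ, id, mem_ofPred_eq, ne_eq, ite_eq_right_iff, one_ne_zero,
      imp_false, not_not, Bool.false_eq_true, if_false, if_true] at a1 hx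
    · obtain rfl : t = t' := Option.some_injective _ (a1.symm.trans hx)
      exact hB t ω y y1 fun h => y2 rfl (subset_toMeasurable _ _ h)
    · exact absurd hx hj
    · exact absurd a1 hj
    · exact absurd a1 hj
  · rw [k1, q2, compl_univ, measure_empty, add_zero, lintegral_map .of_discrete hgm,
      ← measure_toMeasurable Bad, ← lintegral_indicator_one hE]
    simp only [id, tsub_self, Finset.sum_const_zero, zero_add]
    refine lintegral_mono fun p => ?_
    by_cases hp : p ∈ E <;> simp [ψ, hg, hp]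

/-- the final step, from couplings with an abstract closeness relation -/
theorem cpl_convLaw {Ω : Type} [MeasurableSpace Ω] {P : Measure Ω} {d : Ω → Sph → Sph → ℝ}
    {ν : Ω → Measure Sph}
    (h : ∀ ε > 0, ∀ᶠ n in atTop, ∃ Γ : Measure (RootedQuad n × Ω), Γ.fst = uniformOn univ ∧
      Γ.snd = P ∧ Γ {p | ENNReal.ofReal (2 * (ε + 6 * cn n) + 2 / n) <
        gh (mdist (Quot.out p.1)) (vmeas (Quot.out p.1)) (d p.2) (ν p.2) fun _ => 0} ≤
          ENNReal.ofReal ε) :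
    ConvLaw (fun n => (uniformOn univ : Measure (RootedQuad n))) P fun _ c ω =>
      gh (mdist (Quot.out c)) (vmeas (Quot.out c)) (d ω) (ν ω) fun _ => 0 := by
  intro ε hε
  obtain ⟨e, e0, he⟩ : ∃ e : ℝ, 0 < e ∧ ENNReal.ofReal (4 * e) ≤ ε := by
    rcases eq_top_or_lt_top ε with rfl | h'
    · exact ⟨1, one_pos, le_top⟩
    · refine ⟨ε.toReal / 4, by have := ENNReal.toReal_pos hε.ne' h'.ne; positivity, ?_⟩
      rw [mul_div_cancel₀ _ (by norm_num), ENNReal.ofReal_toReal h'.ne]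
  have t1 : ∀ᶠ n in atTop, cn n ≤ e / 12 := cn_tendsto.eventually (ge_mem_nhds (by positivity))
  have t2 : ∀ᶠ n : ℕ in atTop, (2 : ℝ) / n ≤ e :=
    (tendsto_const_div_atTop_nhds_zero_nat (2 : ℝ)).eventually (ge_mem_nhds e0)
  filter_upwards [h e e0, t1, t2] with n ⟨Γ, g1, g2, g3⟩ h1 h2
  refine ⟨Γ, g1, g2, le_trans (measure_mono fun p hp => ?_)
    (g3.trans ((ENNReal.ofReal_le_ofReal (by linarith)).trans he))⟩
  exact lt_of_le_of_lt ((ENNReal.ofReal_le_ofReal (by linarith)).trans he) hp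

/-- the class of a map -/
def rooted {n : ℕ} (q : Quad n) : RootedQuad n := Quot.mk _ q

/-- Block CPL, input in coupling form. -/
theorem cpl {Ω B Y : Type} [MeasurableSpace Ω] [MeasurableSpace B] [MeasurableSpace Y]
    [StandardBorelSpace Y] (P : Measure Ω) [IsProbabilityMeasure P] (L : Kernel Ω B)
    [IsMarkovKernel L] (S : Measure Y) (Γ : Measure ((Ω × B) × Y)) (h1 : Γ.fst = P ⊗ₘ L)
    (h2 : Γ.snd = S) {d : Ω → Sph → Sph → ℝ} {ν : Ω → Measure Sph}
    (hd : ∀ᵐ ω ∂P, IsMet (d ω) ∧ IsProbabilityMeasure (ν ω)) {D : Y → I → I → ℝ}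
    (hID : ∀ᵐ p ∂Γ, ∃ π : I → Sph, Function.Surjective π ∧
      (∀ s u, d p.1.1 (π s) (π u) = D p.2 s u) ∧ (volume : Measure I).map π = ν p.1.1)
    {T : ℕ → Type} [∀ n, Finite (T n)] [∀ n, MeasurableSpace (T n)]
    [∀ n, DiscreteMeasurableSpace (T n)] (lam : ∀ n, Measure (T n)) (q : ∀ n, T n → Quad n)
    (hq : ∀ᶠ n in atTop, (lam n).map (fun t => rooted (q n t)) = uniformOn univ)
    (hlim : ∀ ε > 0, ∀ᶠ n in atTop, ∃ Θ : Measure (T n × Y), Θ.fst = lam n ∧ Θ.snd = S ∧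
      Θ {p | ¬ Param (q n p.1) (D p.2) ε} ≤ ENNReal.ofReal ε) :
    ConvLaw (fun n => (uniformOn univ : Measure (RootedQuad n))) P fun _ c ω =>
      gh (mdist (Quot.out c)) (vmeas (Quot.out c)) (d ω) (ν ω) fun _ => 0 := by
  have hd' : ∀ᵐ p ∂Γ, IsMet (d p.1.1) ∧ IsProbabilityMeasure (ν p.1.1) := by
    refine ae_of_ae_map (p := fun a : Ω × B => IsMet (d a.1) ∧ IsProbabilityMeasure (ν a.1))
      measurable_fst.aemeasurable ?_
    change ∀ᵐ a ∂Γ.fst, _
    rw [h1]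
    refine ae_of_ae_map (p := fun ω => IsMet (d ω) ∧ IsProbabilityMeasure (ν ω))
      measurable_fst.aemeasurable ?_
    change ∀ᵐ a ∂(P ⊗ₘ L).fst, _
    rwa [Measure.fst_compProd]
  refine cpl_convLaw fun ε hε => ?_
  filter_upwards [hq, hlim ε hε] with n a1 ⟨Θ, a2, a3, a4⟩
  obtain ⟨Γ', g1, g2, g3⟩ := cpl_glue P L Γ h1 Θ (a3.trans h2.symm)
    (R := fun ω y => (IsMet (d ω) ∧ IsProbabilityMeasure (ν ω)) ∧ ∃ π : I → Sph,
      Function.Surjective π ∧ (∀ s u, d ω (π s) (π u) = D y s u) ∧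
        (volume : Measure I).map π = ν ω) (hd'.and hID)
    (fun t => rooted (q n t)) {p | ¬ Param (q n p.1) (D p.2) ε}
  refine ⟨Γ', by rw [g1, a2, a1], g2, (g3 _ ?_).trans a4⟩
  rintro t ω y ⟨⟨b1, b2⟩, π, b3, b4, b5⟩ hp
  refine not_lt.2 (gh_le_param _ b1 b3 b5 ?_)
  simp only [b4]
  exact (not_not.1 hp).out

/-- Block CPL for the contour parametrisation. -/
theorem cpl_contour {Ω B Y : Type} [MeasurableSpace Ω] [MeasurableSpace B] [MeasurableSpace Y]
    [StandardBorelSpace Y] (P : Measure Ω) [IsProbabilityMeasure P] (L : Kernel Ω B)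
    [IsMarkovKernel L] (S : Measure Y) (Γ : Measure ((Ω × B) × Y)) (h1 : Γ.fst = P ⊗ₘ L)
    (h2 : Γ.snd = S) {d : Ω → Sph → Sph → ℝ} {ν : Ω → Measure Sph}
    (hd : ∀ᵐ ω ∂P, IsMet (d ω) ∧ IsProbabilityMeasure (ν ω)) {D : Y → I → I → ℝ}
    (hID : ∀ᵐ p ∂Γ, ∃ π : I → Sph, Function.Surjective π ∧
      (∀ s u, d p.1.1 (π s) (π u) = D p.2 s u) ∧ (volume : Measure I).map π = ν p.1.1)
    {T : ℕ → Type} [∀ n, Finite (T n)] [∀ n, MeasurableSpace (T n)]
    [∀ n, DiscreteMeasurableSpace (T n)] (lam : ∀ n, Measure (T n)) (q : ∀ n, T n → Quad n)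
    (hq : ∀ᶠ n in atTop, (lam n).map (fun t => rooted (q n t)) = uniformOn univ)
    (C : ∀ n, T n → ℕ → ℤ) (c : ∀ n t, ℕ → (q n t).Vertex)
    (hC : ∀ᶠ n in atTop, ∀ t, IsContour n (C n t) (c n t))
    (hlim : ∀ ε > 0, ∀ᶠ n in atTop, ∃ Θ : Measure (T n × Y), Θ.fst = lam n ∧ Θ.snd = S ∧
      Θ {p | ¬ ∀ s u, |cn n * (q n p.1).graph.dist (c n p.1 (cornerAt n (C n p.1) s))
        (c n p.1 (cornerAt n (C n p.1) u)) - D p.2 s u| ≤ ε} ≤ ENNReal.ofReal ε) :
    ConvLaw (fun n => (uniformOn univ : Measure (RootedQuad n))) P fun _ c ω =>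
      gh (mdist (Quot.out c)) (vmeas (Quot.out c)) (d ω) (ν ω) fun _ => 0 := by
  refine cpl P L S Γ h1 h2 hd hID lam q hq fun ε hε => ?_
  filter_upwards [hC, hlim ε hε] with n a1 ⟨Θ, a2, a3, a4⟩
  exact ⟨Θ, a2, a3, le_trans (measure_mono fun p hp h =>
    hp ⟨_, (a1 p.1).volume_fibre_le (n_pos (q n p.1)), h⟩) a4⟩

end Pool.Agent.QL
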