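import Pool.Agent.P.MP_7a6434d8_pr.QL.W.GCoup

/-! From weak convergence of codes to couplings. -/

open MeasureTheory ProbabilityTheory Set Filter Topology Metric
open scoped ENNReal NNReal BoundedContinuousFunction

namespace Pool.Agent.QL

theorem cpl_exists_of_lintegral {α : Type} [MeasurableSpace α] {m : Measure α} {g : α → ℝ≥0∞}
    {p : α → Prop} (hg : ∫⁻ a, g a ∂m ≠ 0) (hp : ∀ᵐ a ∂m, p a) : ∃ a, p a ∧ g a ≠ 0 := by
  by_contra h
  push Not at h
  exact hg ((lintegral_congr_ae (hp.mono fun a ha => h a ha)).trans lintegral_zero)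

/-- gluing two couplings into a kernel -/
theorem cpl_kernel {Ω B Y X : Type} [MeasurableSpace Ω] [MeasurableSpace B] [MeasurableSpace Y]
    [MeasurableSpace X] [StandardBorelSpace Y] [Nonempty Y] [StandardBorelSpace X] [Nonempty X]
    (P : Measure Ω) [IsProbabilityMeasure P] (L : Kernel Ω B) [IsMarkovKernel L]
    (Γ : Measure ((Ω × B) × Y)) (h1 : Γ.fst = P ⊗ₘ L) (Q : Measure (Y × X))
    (h2 : Q.fst = Γ.snd) {R₁ : Ω → Y → Prop} (hR₁ : ∀ᵐ p ∂Γ, R₁ p.1.1 p.2)
    {R₂ : Y → X → Prop} (hR₂ : ∀ᵐ p ∂Q, R₂ p.1 p.2) :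
    ∃ κ : Kernel Ω X, IsMarkovKernel κ ∧ κ ∘ₘ P = Q.snd ∧
      ∀ᵐ ω ∂P, ∀ A, MeasurableSet A → κ ω A ≠ 0 → ∃ x ∈ A, ∃ y, R₁ ω y ∧ R₂ y x := by
  have : IsProbabilityMeasure Γ := ⟨by rw [← Measure.fst_univ, h1]; exact measure_univ⟩
  have : IsProbabilityMeasure Q := ⟨by rw [← Measure.fst_univ, h2]; exact measure_univ⟩
  have e1 : Γ.fst ⊗ₘ Γ.condKernel = Γ := Γ.disintegrate _
  have e2 : Q.fst ⊗ₘ Q.condKernel = Q := Q.disintegrate _
  set κ' : Kernel (Ω × B) X := Q.condKernel ∘ₖ Γ.condKernel with hκ'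
  have hap : ∀ ω A, MeasurableSet A →
      (L ⊗ₖ κ').snd ω A = ∫⁻ b, ∫⁻ y, Q.condKernel y A ∂Γ.condKernel (ω, b) ∂L ω := by
    intro ω A hA
    rw [Kernel.snd_apply' _ _ hA, Kernel.compProd_apply (measurable_snd hA)]
    refine lintegral_congr fun b => ?_
    rw [hκ', ← Kernel.comp_apply' _ _ _ hA]
    rfl
  refine ⟨(L ⊗ₖ κ').snd, inferInstance, ?_, ?_⟩
  · ext A hA
    have hm : Measurable fun y => Q.condKernel y A := Kernel.measurable_coe _ hA
    rw [Measure.bind_apply hA (Kernel.aemeasurable _)]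
    simp only [hap _ A hA]
    rw [← Measure.lintegral_compProd (f := fun p => ∫⁻ y, Q.condKernel y A ∂Γ.condKernel p)
      hm.lintegral_kernel, ← h1,
      ← Measure.lintegral_compProd (f := fun p : (Ω × B) × Y => Q.condKernel p.2 A)
        (hm.comp measurable_snd), e1,
      ← lintegral_map hm measurable_snd]
    change ∫⁻ y, Q.condKernel y A ∂Γ.snd = _
    rw [← h2, ← Measure.bind_apply hA (Kernel.aemeasurable _), ← Measure.snd_compProd, e2]
  · have a2 : ∀ᵐ y ∂Q.fst, ∀ᵐ x ∂Q.condKernel y, R₂ y x := by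
      rw [← e2] at hR₂
      exact Measure.ae_ae_of_ae_compProd hR₂
    rw [h2] at a2
    have a3 : ∀ᵐ p ∂Γ, R₁ p.1.1 p.2 ∧ ∀ᵐ x ∂Q.condKernel p.2, R₂ p.2 x :=
      hR₁.and (ae_of_ae_map measurable_snd.aemeasurable a2)
    rw [← e1] at a3
    have a4 := Measure.ae_ae_of_ae_compProd a3
    rw [h1] at a4
    filter_upwards [Measure.ae_ae_of_ae_compProd a4] with ω hω A hA hne
    rw [hap ω A hA] at hne
    obtain ⟨b, hb, hb'⟩ := cpl_exists_of_lintegral hne hω
    obtain ⟨y, hy, hy'⟩ := cpl_exists_of_lintegral hb' hb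
    obtain ⟨x, hx, hx'⟩ := Measure.exists_mem_of_measure_ne_zero_of_ae hy' (ae_restrict_of_ae hy.2)
    exact ⟨x, hx, y, hy.1, hx'⟩

/-- matching along a finite partition of unity -/
theorem cpl_core {T C Ω X J : Type} [MeasurableSpace T] [MeasurableSpace C]
    [DiscreteMeasurableSpace C] [MeasurableSpace Ω] [MeasurableSpace X] [Fintype J]
    (lam : Measure T) [IsProbabilityMeasure lam] {c : T → C} (hc : Measurable c) {f : T → X}
    (hf : Measurable f) (P : Measure Ω) [IsProbabilityMeasure P] (κ : Kernel Ω X)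
    [IsMarkovKernel κ] {ψ : J → X → ℝ≥0∞} (hψ : ∀ j, Measurable (ψ j))
    (h1 : ∀ x, ∑ j, ψ j x = 1) (j₀ : J) :
    ∃ Γ : Measure (C × Ω), Γ.fst = lam.map c ∧ Γ.snd = P ∧
      ∀ (Bad : Set (C × Ω)) (G : Set T) (N : Set Ω), P N = 0 →
        (∀ j ≠ j₀, ∀ t ∈ G, ∀ ω ∉ N, ψ j (f t) ≠ 0 → κ ω {x | ψ j x ≠ 0} ≠ 0 → (c t, ω) ∉ Bad) →
        Γ Bad ≤ ∑ j, (∫⁻ t, ψ j (f t) ∂lam - ∫⁻ x, ψ j x ∂(κ ∘ₘ P)) + lam Gᶜ +
          ∫⁻ x, ψ j₀ x ∂(κ ∘ₘ P) := by
  classical
  set w : J → Measure T := fun j => lam.withDensity fun t => ψ j (f t) with hw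
  set A : J → Measure C := fun j => (w j).map c with hA
  have hk : ∀ j, Measurable fun ω => ∫⁻ x, ψ j x ∂κ ω := fun j => (hψ j).lintegral_kernel
  set L : J → Measure Ω := fun j => P.withDensity fun ω => ∫⁻ x, ψ j x ∂κ ω with hL
  have hws : Measure.sum w = lam := by
    rw [hw, ← withDensity_tsum fun j => (hψ j).fun_comp hf]
    convert withDensity_one
    ext t
    rw [ENNReal.tsum_apply, tsum_fintype]
    exact h1 _
  have hAs : Measure.sum A = lam.map c := by
    rw [← hws]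
    exact (Measure.map_sum hc.aemeasurable).symm
  have hLs : Measure.sum L = P := by
    rw [hL, ← withDensity_tsum hk]
    convert withDensity_one
    ext ω
    rw [ENNReal.tsum_apply, tsum_fintype, ← lintegral_finsetSum _ fun j _ => hψ j]
    simp [h1]
  have : IsProbabilityMeasure (Measure.sum A) := by
    rw [hAs]; exact Measure.isProbabilityMeasure_map hc.aemeasurable
  have : IsProbabilityMeasure (Measure.sum L) := by rw [hLs]; infer_instance
  have hAu : ∀ j, A j univ = ∫⁻ t, ψ j (f t) ∂lam := fun j => by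
    rw [hA, Measure.map_apply hc .univ, preimage_univ, hw, withDensity_apply _ .univ,
      Measure.restrict_univ]
  have hLu : ∀ j, L j univ = ∫⁻ x, ψ j x ∂(κ ∘ₘ P) := fun j => by
    rw [hL, withDensity_apply _ .univ, Measure.restrict_univ,
      Measure.lintegral_bind (Kernel.aemeasurable _) (hψ j).aemeasurable]
  obtain ⟨Γ, g1, g2, g3⟩ := exists_coupling A L
  refine ⟨Γ, g1.trans hAs, g2.trans hLs, fun Bad G N hN hB => ?_⟩
  refine (g3 Bad (fun j => {γ | ¬ ∃ t ∈ G, c t = γ ∧ ψ j (f t) ≠ 0})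
    (fun j => {ω | j = j₀ ∨ ω ∈ N ∨ κ ω {x | ψ j x ≠ 0} = 0}) ?_).trans ?_
  · intro j γ ω hγ hω
    simp only [mem_ofPred_eq, not_not, not_or] at hγ hω
    obtain ⟨t, ht, rfl, ht'⟩ := hγ
    exact hB j hω.1 t ht ω hω.2.1 ht' hω.2.2
  refine add_le_add (add_le_add (le_of_eq ?_) ?_) ?_
  · rw [tsum_fintype]
    simp only [hAu, hLu]
  · rw [← hws]
    refine le_trans (ENNReal.tsum_le_tsum fun j => ?_) (Measure.le_sum_apply _ _)
    rw [hA, Measure.map_apply hc .of_discrete]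
    refine measure_mono_ae ?_
    have : ∀ᵐ t ∂w j, ψ j (f t) ≠ 0 :=
      (ae_withDensity_iff ((hψ j).comp hf)).2 (.of_forall fun _ h => h)
    filter_upwards [this] with t ht h hG
    exact h ⟨t, hG, rfl, ht⟩
  · rw [tsum_fintype, Finset.sum_eq_single j₀ ?_ (by simp), ← hLu]
    · exact measure_mono (subset_univ _)
    intro j _ hj
    have a1 : ∀ᵐ ω ∂L j, ∫⁻ x, ψ j x ∂κ ω ≠ 0 :=
      (ae_withDensity_iff (hk j)).2 (.of_forall fun _ h => h)
    have a2 : ∀ᵐ ω ∂L j, ω ∉ N :=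
      withDensity_absolutelyContinuous _ _ (measure_eq_zero_iff_ae_notMem.1 hN)
    refine measure_eq_zero_iff_ae_notMem.2 ?_
    filter_upwards [a1, a2] with ω b1 b2 h
    rcases h with h | h | h
    · exact hj h
    · exact b2 h
    · refine b1 ((lintegral_congr_ae ?_).trans lintegral_zero)
      filter_upwards [measure_eq_zero_iff_ae_notMem.1 h] with x hx
      simpa using hx

/-- a partition of unity with small supports, up to a rest of small mass -/
theorem cpl_pou {X : Type} [PseudoMetricSpace X] [TopologicalSpace.SeparableSpace X] [Nonempty X]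
    [MeasurableSpace X] [OpensMeasurableSpace X] (Λ : Measure X) [IsProbabilityMeasure Λ]
    {δ η : ℝ} (hδ : 0 < δ) (hη : 0 < η) :
    ∃ (k : ℕ) (ψ : Option (Fin k) → X →ᵇ ℝ), (∀ j x, 0 ≤ ψ j x) ∧ (∀ x, ∑ j, ψ j x = 1) ∧
      (∀ j ≠ none, ∀ x y, ψ j x ≠ 0 → ψ j y ≠ 0 → dist x y ≤ δ) ∧ ∫ x, ψ none x ∂Λ ≤ η := by
  set z := TopologicalSpace.denseSeq X
  have hz : DenseRange z := TopologicalSpace.denseRange_denseSeq X
  let b : ℕ → X →ᵇ ℝ := fun i => BoundedContinuousFunction.ofNormedAddCommGroup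
    (fun x => max 0 (min 1 (2 - 4 * dist x (z i) / δ))) (by fun_prop) 1 fun x => by
      rw [Real.norm_of_nonneg (le_max_left _ _)]
      exact max_le zero_le_one (min_le_left _ _)
  have b0 : ∀ i x, 0 ≤ b i x := fun i x => le_max_left _ _
  have b1 : ∀ i x, b i x ≤ 1 := fun i x => max_le zero_le_one (min_le_left _ _)
  have bs : ∀ i x, b i x ≠ 0 → dist x (z i) ≤ δ / 2 := fun i x h => by
    by_contra hc
    refine h (max_eq_left (min_le_of_right_le ?_))
    have : 2 ≤ 4 * dist x (z i) / δ := by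
      rw [le_div_iff₀ hδ]; linarith [not_le.1 hc]
    linarith
  let r : ℕ → X →ᵇ ℝ := fun k => ∏ j ∈ Finset.range k, (1 - b j)
  have re : ∀ k x, r k x = ∏ j ∈ Finset.range k, (1 - b j x) := fun k x => by
    simp [r]
  have r0 : ∀ k x, 0 ≤ r k x := fun k x => by
    rw [re]; exact Finset.prod_nonneg fun j _ => sub_nonneg.2 (b1 j x)
  have r1 : ∀ k x, r k x ≤ 1 := fun k x => by
    rw [re]
    exact Finset.prod_le_one (fun j _ => sub_nonneg.2 (b1 j x)) fun j _ => by linarith [b0 j x]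
  have hsum : ∀ k x, r k x + ∑ i ∈ Finset.range k, b i x * r i x = 1 := fun k x => by
    induction k with
    | zero => simp [re]
    | succ k ih =>
      rw [Finset.sum_range_succ, re, Finset.prod_range_succ, ← re]
      linarith
  have hlim : Tendsto (fun k => ∫ x, r k x ∂Λ) atTop (𝓝 (∫ _ : X, (0 : ℝ) ∂Λ)) := by
    refine tendsto_integral_of_dominated_convergence (fun _ => 1)
      (fun k => (r k).continuous.aestronglyMeasurable) (integrable_const _)
      (fun k => .of_forall fun x => ?_) (.of_forall fun x => ?_)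
    · rw [Real.norm_of_nonneg (r0 k x)]; exact r1 k x
    · obtain ⟨i, hi⟩ := hz.exists_dist_lt x (show 0 < δ / 4 by positivity)
      refine tendsto_const_nhds.congr' ?_
      filter_upwards [eventually_gt_atTop i] with k hk
      rw [re]
      refine (Finset.prod_eq_zero (Finset.mem_range.2 hk) ?_).symm
      have : 4 * dist x (z i) / δ ≤ 1 := by
        rw [div_le_one hδ]; linarith
      have h2 : b i x = 1 := by
        change max 0 (min 1 (2 - 4 * dist x (z i) / δ)) = 1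
        rw [min_eq_left (by linarith), max_eq_right zero_le_one]
      rw [h2, sub_self]
  rw [integral_zero] at hlim
  obtain ⟨k, hk⟩ := (hlim.eventually (ge_mem_nhds hη)).exists
  refine ⟨k, fun j => j.elim (r k) fun i => b i * r i, ?_, fun x => ?_, ?_, hk⟩
  · rintro (_ | i) x
    · exact r0 k x
    · exact mul_nonneg (b0 i x) (r0 i x)
  · rw [Fintype.sum_option, ← hsum k x, Finset.sum_range]
    rfl
  · rintro (_ | i) hj x y hx hy
    · exact absurd rfl hj
    have h1 := bs i x (left_ne_zero_of_mul hx)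
    have h2 := bs i y (left_ne_zero_of_mul hy)
    linarith [dist_triangle_right x y (z i)]

/-- weak convergence of the codes gives couplings in which the codes are close -/
theorem cpl_filter {T C : ℕ → Type} {Ω X : Type} [∀ n, MeasurableSpace (T n)]
    [∀ n, MeasurableSpace (C n)] [∀ n, DiscreteMeasurableSpace (C n)] [MeasurableSpace Ω]
    [PseudoMetricSpace X] [TopologicalSpace.SeparableSpace X] [Nonempty X] [MeasurableSpace X]
    [OpensMeasurableSpace X] (l : Filter ℕ) (lam : ∀ n, Measure (T n))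
    (hlam : ∀ᶠ n in l, IsProbabilityMeasure (lam n)) {c : ∀ n, T n → C n}
    (hc : ∀ n, Measurable (c n)) {f : ∀ n, T n → X} (hf : ∀ n, Measurable (f n))
    (P : Measure Ω) [IsProbabilityMeasure P] (κ : Kernel Ω X) [IsMarkovKernel κ]
    (hw : ∀ F : X →ᵇ ℝ,
      Tendsto (fun n => ∫ t, F (f n t) ∂lam n) l (𝓝 (∫ x, F x ∂(κ ∘ₘ P))))
    {R : Ω → X → Prop} (hR : ∀ᵐ ω ∂P, ∀ A, MeasurableSet A → κ ω A ≠ 0 → ∃ x ∈ A, R ω x)
    {δ η : ℝ} (hδ : 0 < δ) (hη : 0 < η) :
    ∀ᶠ n in l, ∃ Γ : Measure (C n × Ω), Γ.fst = (lam n).map (c n) ∧ Γ.snd = P ∧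
      ∀ (Bad : Set (C n × Ω)) (G : Set (T n)),
        (∀ t ∈ G, ∀ ω x, R ω x → dist (f n t) x ≤ δ → (c n t, ω) ∉ Bad) →
        Γ Bad ≤ ENNReal.ofReal η + lam n Gᶜ := by
  obtain ⟨k, ψ, ψ0, ψ1, ψs, ψr⟩ := cpl_pou (κ ∘ₘ P) hδ (half_pos hη)
  have hm : ∀ j, Measurable fun x => ENNReal.ofReal (ψ j x) := fun j =>
    (ψ j).continuous.measurable.ennreal_ofReal
  have hs : Tendsto (fun n => ∑ j, |∫ t, ψ j (f n t) ∂lam n - ∫ x, ψ j x ∂(κ ∘ₘ P)|) l
      (𝓝 (∑ _j : Option (Fin k), (0 : ℝ))) := by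
    refine tendsto_finsetSum _ fun j _ => ?_
    have := ((hw (ψ j)).sub_const (∫ x, ψ j x ∂(κ ∘ₘ P))).abs
    simpa using this
  rw [Finset.sum_const_zero] at hs
  filter_upwards [hs.eventually (ge_mem_nhds (half_pos hη)), hlam] with n hn hl
  obtain ⟨Γ, g1, g2, g3⟩ := cpl_core (lam n) (hc n) (hf n) P κ hm (fun x => by
    rw [← ENNReal.ofReal_sum_of_nonneg fun j _ => ψ0 j x, ψ1, ENNReal.ofReal_one]) none
  refine ⟨Γ, g1, g2, fun Bad G hB => (g3 Bad G _ (ae_iff.1 hR) ?_).trans ?_⟩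
  · intro j hj t ht ω hω h1 h2
    obtain ⟨x, hx, hx'⟩ := not_not.1 hω _ ((hm j) (measurableSet_singleton 0).compl) h2
    refine hB t ht ω x hx' (ψs j hj _ _ (fun h => h1 ?_) fun h => hx ?_)
    · rw [h, ENNReal.ofReal_zero]
    · simp [h]
  have i1 : ∀ j, ∫⁻ t, ENNReal.ofReal (ψ j (f n t)) ∂lam n =
      ENNReal.ofReal (∫ t, ψ j (f n t) ∂lam n) := fun j =>
    (ofReal_integral_eq_lintegral_ofReal
      (Integrable.of_bound ((ψ j).continuous.measurable.comp (hf n)).aestronglyMeasurable ‖ψ j‖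
        (.of_forall fun t => (ψ j).norm_coe_le_norm _)) (.of_forall fun t => ψ0 j _)).symm
  have i2 : ∀ j, ∫⁻ x, ENNReal.ofReal (ψ j x) ∂(κ ∘ₘ P) =
      ENNReal.ofReal (∫ x, ψ j x ∂(κ ∘ₘ P)) := fun j =>
    (ofReal_integral_eq_lintegral_ofReal ((ψ j).integrable _) (.of_forall fun t => ψ0 j _)).symm
  simp only [i1, i2]
  rw [add_right_comm, ← add_halves η, ENNReal.ofReal_add (half_pos hη).le (half_pos hη).le]
  refine add_le_add (add_le_add ?_ (ENNReal.ofReal_le_ofReal ψr)) le_rfl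
  refine le_trans ?_ (ENNReal.ofReal_le_ofReal hn)
  rw [ENNReal.ofReal_sum_of_nonneg fun j _ => abs_nonneg _]
  refine Finset.sum_le_sum fun j _ => ?_
  rw [← ENNReal.ofReal_sub _ (integral_nonneg (ψ0 j))]
  exact ENNReal.ofReal_le_ofReal (le_abs_self _)

end Pool.Agent.QL
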