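import Pool.Agent.P.MP_7a6434d8_pr.QL.M1.PLab
import Pool.Agent.P.MP_7a6434d8_pr.QL.M1.Inc

/-! Labelled plane trees and the coding of pointed discs by labelled forests: one peeling step. -/

namespace Pool.Agent.QL.BM

open Pool.Agent.P.MP_7a6434d8_pr Mp Finset

/-- labelled plane trees: the first child with its label increment, and the rest of the root -/
inductive LTree : Type
  | leaf : LTree
  | node : Fin 3 → LTree → LTree → LTree

namespace LTree

/-- number of edges -/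
def sz : LTree → ℕ
  | leaf => 0
  | node _ a b => sz a + sz b + 1

/-- label of the corner `i`, relative to the root -/
def lab : LTree → ℕ → ℤ
  | leaf, _ => 0
  | node d a b, i => if i = 0 then 0 else if i ≤ 2 * sz a + 1 then (d : ℕ) - 1 + lab a (i - 1)
      else lab b (i - 2 * sz a - 2)

/-- height of the corner `i` -/
def ht : LTree → ℕ → ℕ
  | leaf, _ => 0
  | node _ a b, i => if i = 0 then 0 else if i ≤ 2 * sz a + 1 then ht a (i - 1) + 1
      else ht b (i - 2 * sz a - 2)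

/-- last corner of the vertex of the corner `i` -/
def lv : LTree → ℕ → ℕ
  | leaf, _ => 0
  | node _ a b, i => if i = 0 then 2 * sz a + 2 + lv b 0 else if i ≤ 2 * sz a + 1 then
      lv a (i - 1) + 1 else 2 * sz a + 2 + lv b (i - 2 * sz a - 2)

theorem lab_zero (T : LTree) : lab T 0 = 0 := by cases T <;> simp [lab]

theorem lab_fst (d : Fin 3) (a b : LTree) {i : ℕ} (h : i ≤ 2 * sz a) :
    lab (node d a b) (i + 1) = (d : ℕ) - 1 + lab a i := by
  rw [lab, if_neg (by omega), if_pos (by omega), Nat.add_sub_cancel]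

theorem lab_snd (d : Fin 3) (a b : LTree) (i : ℕ) :
    lab (node d a b) (2 * sz a + 2 + i) = lab b i := by
  rw [lab, if_neg (by omega), if_neg (by omega)]
  congr 1; omega

theorem lv_fst (d : Fin 3) (a b : LTree) {i : ℕ} (h : i ≤ 2 * sz a) :
    lv (node d a b) (i + 1) = lv a i + 1 := by
  rw [lv, if_neg (by omega), if_pos (by omega), Nat.add_sub_cancel]

theorem lv_snd (d : Fin 3) (a b : LTree) (i : ℕ) :
    lv (node d a b) (2 * sz a + 2 + i) = 2 * sz a + 2 + lv b i := by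
  rw [lv, if_neg (by omega), if_neg (by omega)]
  congr 2; omega

theorem lv_zero (d : Fin 3) (a b : LTree) : lv (node d a b) 0 = 2 * sz a + 2 + lv b 0 := by
  rw [lv, if_pos rfl]

theorem ht_zero (T : LTree) : ht T 0 = 0 := by cases T <;> simp [ht]

theorem ht_fst (d : Fin 3) (a b : LTree) {i : ℕ} (h : i ≤ 2 * sz a) :
    ht (node d a b) (i + 1) = ht a i + 1 := by
  rw [ht, if_neg (by omega), if_pos (by omega), Nat.add_sub_cancel]

theorem ht_snd (d : Fin 3) (a b : LTree) (i : ℕ) :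
    ht (node d a b) (2 * sz a + 2 + i) = ht b i := by
  rw [ht, if_neg (by omega), if_neg (by omega)]
  congr 1; omega

theorem idx_cases (s i : ℕ) : i = 0 ∨ (∃ j, j ≤ 2 * s ∧ i = j + 1) ∨ ∃ j, i = 2 * s + 2 + j := by
  rcases Nat.eq_zero_or_pos i with h | h
  · exact Or.inl h
  · by_cases h' : i ≤ 2 * s + 1
    · exact Or.inr (Or.inl ⟨i - 1, by omega, by omega⟩)
    · exact Or.inr (Or.inr ⟨i - 2 * s - 2, by omega⟩)

theorem lab_end (T : LTree) : lab T (2 * sz T) = 0 := by
  induction T with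
  | leaf => rfl
  | node d a b _ ih =>
    rw [show 2 * sz (node d a b) = 2 * sz a + 2 + 2 * sz b by simp only [sz]; ring, lab_snd, ih]

theorem lv_le (T : LTree) (i : ℕ) : lv T i ≤ 2 * sz T := by
  induction T generalizing i with
  | leaf => exact le_rfl
  | node d a b iha ihb =>
    have e : sz (node d a b) = sz a + sz b + 1 := rfl
    rcases idx_cases (sz a) i with rfl | ⟨j, hj, rfl⟩ | ⟨j, rfl⟩
    · have := ihb 0
      rw [lv_zero]; omega
    · have := iha j
      rw [lv_fst _ _ _ hj]; omega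
    · have := ihb j
      rw [lv_snd]; omega

end LTree

open LTree

/-- a down step of the boundary labels -/
def Dn (l : ℕ → ℤ) (N p : ℕ) : Prop := p < N ∧ l (p + 1) < l p

/-- The forest `F` codes the pointed disc `(t, v)`; `G p i` is the chain of successors of the
corner `i` of the tree at the boundary position `p`. -/
structure Cod (t : Mp) (v : V t) (l : ℕ → ℤ) (f : V t → ℤ) (F : ℕ → LTree)
    (G : ℕ → ℕ → ℤ → V t) : Prop where
  norm : ∀ p, ¬ Dn l (2 * per t) p → F p = leaf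
  sum : ∑ p ∈ range (2 * per t), sz (F p) = size t
  clos : G (2 * per t) 0 = G 0 0
  mark : ∀ p, p ≤ 2 * per t → G p 0 (l p) = bv t p
  step : ∀ p, p ≤ 2 * per t → ∀ i, i ≤ 2 * sz (F p) → ∀ x, x ≤ l p + lab (F p) i →
    Within t 1 (G p i x) (G p i (x - 1))
  inn : ∀ p i, i < 2 * sz (F p) → ∀ x, x < l p + lab (F p) i → G p i x = G p (i + 1) x
  nxt : ∀ p, p < 2 * per t → ∀ x, x ≤ l p → x ≤ l (p + 1) →
    G p (2 * sz (F p)) x = G (p + 1) 0 x
  lbl : ∀ p, Dn l (2 * per t) p → ∀ i, i ≤ 2 * sz (F p) →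
    f (G p i (l p + lab (F p) i)) = l p + lab (F p) i
  iff : ∀ p q, Dn l (2 * per t) p → Dn l (2 * per t) q → ∀ i j, i ≤ 2 * sz (F p) →
    j ≤ 2 * sz (F q) → (G p i (l p + lab (F p) i) = G q j (l q + lab (F q) j) ↔
      p = q ∧ lv (F p) i = lv (F q) j)
  onto : ∀ z, z ≠ v → ∃ p, Dn l (2 * per t) p ∧ ∃ i, i ≤ 2 * sz (F p) ∧
    G p i (l p + lab (F p) i) = z
  ne : ∀ p, Dn l (2 * per t) p → ∀ i, i ≤ 2 * sz (F p) → G p i (l p + lab (F p) i) ≠ v

theorem cod_pt (l : ℕ → ℤ) (v : V pt) (f : V pt → ℤ) :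
    Cod pt v l f (fun _ => leaf) (fun _ _ _ => ()) where
  norm _ _ := rfl
  sum := rfl
  clos := rfl
  mark _ _ := rfl
  step _ _ _ _ _ _ := Within.refl _ _ _
  inn _ _ _ _ _ := rfl
  nxt _ _ _ _ _ := rfl
  lbl _ h := absurd h.1 (Nat.not_lt_zero _)
  iff _ _ h := absurd h.1 (Nat.not_lt_zero _)
  onto _ h := absurd rfl h
  ne _ h := absurd h.1 (Nat.not_lt_zero _)

theorem pos_cases (p : ℕ) : p = 0 ∨ p = 1 ∨ ∃ q, p = q + 2 := by
  rcases p with _ | _ | q
  · exact Or.inl rfl
  · exact Or.inr (Or.inl rfl)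
  · exact Or.inr (Or.inr ⟨q, rfl⟩)

/-- a dangling edge -/
theorem cod_leaf {a : Mp} {x : V a} {l : ℕ → ℤ} {f : V (bridge a pt) → ℤ} {F' : ℕ → LTree}
    {G' : ℕ → ℕ → ℤ → V a} (h1 : l 1 = l 0 + 1) (h2 : l 2 = l 0)
    (hf : f (bv (bridge a pt) 1) = l 1)
    (H : Cod a x (fun p => l (p + 2)) (fun y => f (Sum.inl y)) F' G') :
    ∃ F G, F 1 = leaf ∧ (∀ p, F (p + 2) = F' p) ∧ Cod (bridge a pt) (Sum.inl x) l f F G := by
  have hper : 2 * per (bridge a pt) = 2 * per a + 2 := by simp only [per]; ring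
  have b1 : bv (bridge a pt) 1 = Sum.inr () := xlabdet_bvb a pt 0 le_rfl
  have b2 : ∀ p, bv (bridge a pt) (p + 2) = Sum.inl (bv a p) := fun p => xlabdet_bva a pt p
  have hadj : ∀ y z, adj a y z → adj (bridge a pt) (Sum.inl y) (Sum.inl z) := fun _ _ h => h
  have hD : ∀ q, Dn l (2 * per (bridge a pt)) (q + 2) ↔ Dn (fun p => l (p + 2)) (2 * per a) q :=
    fun q => by
      unfold Dn
      rw [hper]
      exact and_congr (by omega) Iff.rfl
  have hD0 : ¬ Dn l (2 * per (bridge a pt)) 0 := fun h => by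
    have := h.2
    rw [zero_add] at this
    omega
  have m0 : G' 0 0 (l 0) = bv a 0 := by
    have := H.mark 0 (Nat.zero_le _)
    rwa [zero_add, h2] at this
  have s0 : ∀ y, y ≤ l 0 → Within a 1 (G' 0 0 y) (G' 0 0 (y - 1)) := fun y hy =>
    H.step 0 (Nat.zero_le _) 0 (Nat.zero_le _) y (by rw [lab_zero, zero_add, h2]; omega)
  obtain ⟨F, F0, F1, F2⟩ : ∃ F : ℕ → LTree, F 0 = leaf ∧ F 1 = leaf ∧ ∀ p, F (p + 2) = F' p :=
    ⟨fun p => if p < 2 then leaf else F' (p - 2), rfl, rfl, fun p => if_neg (by omega)⟩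
  obtain ⟨G, G0, G1, G2⟩ : ∃ G : ℕ → ℕ → ℤ → V a ⊕ V pt, (∀ i y, G 0 i y = Sum.inl (G' 0 0 y)) ∧
      (∀ i y, G 1 i y = if l 0 < y then Sum.inr () else Sum.inl (G' 0 0 y)) ∧
      ∀ p i y, G (p + 2) i y = Sum.inl (G' p i y) :=
    ⟨fun p i y => if p = 0 then Sum.inl (G' 0 0 y) else if p = 1 then
      (if l 0 < y then Sum.inr () else Sum.inl (G' 0 0 y)) else Sum.inl (G' (p - 2) i y),
      fun _ _ => rfl, fun _ _ => rfl, fun p i y => by
        beta_reduce
        rw [if_neg (by omega), if_neg (by omega)]; rfl⟩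
  have c1 : ∀ i, G 1 i (l 1 + lab (F 1) i) = Sum.inr () := fun i => by
    rw [G1, F1, if_pos]
    show l 0 < l 1 + 0
    omega
  refine ⟨F, G, F1, F2, ?_, ?_, ?_, ?_, ?_, ?_, ?_, ?_, ?_, ?_, ?_⟩
  · intro p hp
    rcases pos_cases p with rfl | rfl | ⟨q, rfl⟩
    · exact F0
    · exact F1
    · rw [F2]; exact H.norm q fun h => hp ((hD q).2 h)
  · rw [hper, sum_range_succ', sum_range_succ', F0, zero_add, F1]
    simp only [add_assoc, Nat.reduceAdd, F2]
    rw [H.sum]; rfl
  · funext y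
    rw [hper, G2, G0, H.clos]
  · intro p hp
    rcases pos_cases p with rfl | rfl | ⟨q, rfl⟩
    · rw [G0, m0, xlabdet_bv0]
    · rw [G1, if_pos (by omega), b1]
    · rw [G2, b2, H.mark q (by omega)]
  · intro p hp i hi y hy
    rcases pos_cases p with rfl | rfl | ⟨q, rfl⟩
    · rw [G0, G0]
      rw [F0] at hy
      exact (s0 y (by simpa [lab] using hy)).map (t := bridge a pt) Sum.inl hadj
    · rw [G1, G1]
      rw [F1] at hy
      have hy' : y ≤ l 1 + 0 := hy
      by_cases c : l 0 < y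
      · rw [if_pos c, if_neg (by omega), show y - 1 = l 0 by omega, m0]
        exact xgraphb_one (t := bridge a pt) ⟨rfl, rfl⟩
      · rw [if_neg c, if_neg (by omega)]
        exact (s0 y (by omega)).map (t := bridge a pt) Sum.inl hadj
    · rw [G2, G2]
      rw [F2] at hi hy
      exact (H.step q (by omega) i hi y hy).map (t := bridge a pt) Sum.inl hadj
  · intro p i hi y hy
    rcases pos_cases p with rfl | rfl | ⟨q, rfl⟩
    · rw [G0, G0]
    · rw [G1, G1]
    · rw [F2] at hi hy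
      rw [G2, G2, H.inn q i hi y hy]
  · intro p hp y hy hy'
    rcases pos_cases p with rfl | rfl | ⟨q, rfl⟩
    · rw [G0, zero_add, G1, if_neg (by omega)]
      rfl
    · have hy2 : y ≤ l 2 := hy'
      rw [G1, if_neg (by omega)]
      exact (G2 0 0 y).symm
    · rw [G2, F2, H.nxt q (by omega) y hy hy']
      exact (G2 (q + 1) 0 y).symm
  · intro p hp i hi
    rcases pos_cases p with rfl | rfl | ⟨q, rfl⟩
    · exact absurd hp hD0
    · rw [c1, F1, ← b1, hf]
      exact (add_zero _).symm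
    · rw [F2] at hi
      rw [G2, F2]
      exact H.lbl q ((hD q).1 hp) i hi
  · intro p q hp hq i j hi hj
    rcases pos_cases p with rfl | rfl | ⟨p, rfl⟩
    · exact absurd hp hD0
    · rcases pos_cases q with rfl | rfl | ⟨q, rfl⟩
      · exact absurd hq hD0
      · rw [c1, c1, F1]
        exact iff_of_true rfl ⟨rfl, rfl⟩
      · rw [c1, G2]
        exact iff_of_false Sum.inr_ne_inl fun h => by omega
    · rcases pos_cases q with rfl | rfl | ⟨q, rfl⟩
      · exact absurd hq hD0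
      · rw [c1, G2]
        exact iff_of_false Sum.inl_ne_inr fun h => by omega
      · rw [F2] at hi hj
        rw [G2, G2, F2, F2]
        refine Sum.inl_injective.eq_iff.trans
          ((H.iff p q ((hD p).1 hp) ((hD q).1 hq) i j hi hj).trans (and_congr (by omega) Iff.rfl))
  · intro z hz
    rcases z with z | z
    · obtain ⟨p, hp, i, hi, h⟩ := H.onto z fun h => hz (by rw [h])
      refine ⟨p + 2, (hD p).2 hp, i, by rwa [F2], ?_⟩
      rw [G2, F2]
      exact congrArg Sum.inl h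
    · refine ⟨1, ⟨by omega, ?_⟩, 0, Nat.zero_le _, c1 0⟩
      show l 2 < l 1
      omega
  · intro p hp i hi
    rcases pos_cases p with rfl | rfl | ⟨q, rfl⟩
    · exact absurd hp hD0
    · rw [c1]; exact Sum.inr_ne_inl
    · rw [F2] at hi
      rw [G2, F2]
      exact fun h => H.ne q ((hD q).1 hp) i hi (Sum.inl_injective h)

/-- a face: `j` is the position of the first subtree -/
theorem cod_face {r : Mp} {v : V r} {l : ℕ → ℤ} {f : V r → ℤ} {F' : ℕ → LTree}
    {G' : ℕ → ℕ → ℤ → V r} (hr : 2 ≤ per r) (h1 : l 1 = l 0 + 1) (h2 : l 2 = l 0)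
    (hf : f (bv r 3) = l 1) (d : Fin 3) {n1 n2 : ℤ}
    (hd : ((d : ℕ) = 2 ∧ n1 = l 0 + 1 ∧ n2 = l 0 + 2) ∨ ((d : ℕ) = 1 ∧ n1 = l 0 + 1 ∧ n2 = l 0) ∨
      ((d : ℕ) = 0 ∧ n1 = l 0 - 1 ∧ n2 = l 0))
    (H : Cod r v (ins l n1 n2) f F' G') :
    ∃ F G, F 1 = node d (F' d) (F' 3) ∧ (∀ p, F (p + 2) = F' (p + 4)) ∧
      (∀ p : ℕ, p < 3 → p ≠ d → F' p = leaf) ∧ Cod (face r) v l f F G := by
  obtain ⟨N, hN⟩ : ∃ N, 2 * per r = N + 4 := ⟨2 * per r - 4, by omega⟩
  have hper : 2 * per (face r) = N + 2 := by simp only [per]; omega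
  set l' := ins l n1 n2 with hl'
  have l0 : l' 0 = l 0 := rfl
  have l1 : l' 1 = n1 := rfl
  have l2 : l' 2 = n2 := rfl
  have l3 : l' 3 = l 1 := rfl
  have l4 : ∀ p, l' (p + 4) = l (p + 2) := fun p => by
    rw [hl', ins, if_neg (by omega), if_neg (by omega), if_neg (by omega)]; rfl
  have l40 : l' 4 = l 2 := rfl
  have hw : ∀ {y z : V r}, Within r 1 y z → Within (face r) 1 y z := fun h =>
    Within.map (t := face r) (s := r) (fun y => y) (fun _ _ h => Or.inl h) h
  have hD : ∀ q, Dn l (2 * per (face r)) (q + 2) ↔ Dn l' (2 * per r) (q + 4) := fun q => by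
    unfold Dn
    rw [hper, hN, l4 q, show q + 4 + 1 = q + 1 + 4 by omega, l4]
    exact and_congr (by omega) Iff.rfl
  have hD0 : ¬ Dn l (2 * per (face r)) 0 := fun h => by
    have := h.2
    rw [zero_add] at this
    omega
  have hD1 : Dn l (2 * per (face r)) 1 := ⟨by omega, by show l 2 < l 1; omega⟩
  have hD3 : Dn l' (2 * per r) 3 := ⟨by omega, by show l' 4 < l' 3; omega⟩
  have n0 := H.nxt 0 (by omega)
  have n1' := H.nxt 1 (by omega)
  have n2' := H.nxt 2 (by omega)
  simp only [zero_add, Nat.reduceAdd, l0, l1, l2, l3] at n0 n1' n2'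
  have up : ∀ p, l' p ≤ l' (p + 1) → F' p = leaf := fun p h => H.norm p fun h' => by
    have := h'.2; omega
  have key : Dn l' (2 * per r) d ∧ l' d = l 1 + ((d : ℕ) - 1 : ℤ) ∧
      (∀ p : ℕ, p < 3 → p ≠ d → F' p = leaf ∧ ¬ Dn l' (2 * per r) p) ∧
      (∀ y, y ≤ l 0 → y ≤ l' d → G' 0 0 y = G' d 0 y) ∧
      ∀ y, y < l' d → G' d (2 * sz (F' d)) y = G' 3 0 y := by
    have u : ∀ p, l' p ≤ l' (p + 1) → F' p = leaf ∧ ¬ Dn l' (2 * per r) p := fun p h =>
      ⟨up p h, fun h' => by have := h'.2; omega⟩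
    rcases hd with ⟨e, e1, e2⟩ | ⟨e, e1, e2⟩ | ⟨e, e1, e2⟩ <;> rw [e]
    · have u0 := u 0 (by show l' 0 ≤ l' 1; omega)
      have u1 := u 1 (by show l' 1 ≤ l' 2; omega)
      rw [u0.1] at n0
      rw [u1.1] at n1'
      refine ⟨⟨by omega, by show l' 3 < l' 2; omega⟩, by push_cast; omega, fun p a b => ?_,
        fun y a _ => (n0 y a (by omega)).trans (n1' y (by omega) (by omega)),
        fun y a => n2' y (by omega) (by omega)⟩
      obtain rfl | rfl : p = 0 ∨ p = 1 := by omega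
      exacts [u0, u1]
    · have u0 := u 0 (by show l' 0 ≤ l' 1; omega)
      have u2 := u 2 (by show l' 2 ≤ l' 3; omega)
      rw [u0.1] at n0
      rw [u2.1] at n2'
      refine ⟨⟨by omega, by show l' 2 < l' 1; omega⟩, by push_cast; omega, fun p a b => ?_,
        fun y a _ => n0 y a (by omega),
        fun y a => (n1' y (by omega) (by omega)).trans (n2' y (by omega) (by omega))⟩
      obtain rfl | rfl : p = 0 ∨ p = 2 := by omega
      exacts [u0, u2]
    · have u1 := u 1 (by show l' 1 ≤ l' 2; omega)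
      have u2 := u 2 (by show l' 2 ≤ l' 3; omega)
      rw [u1.1] at n1'
      rw [u2.1] at n2'
      refine ⟨⟨by omega, by show l' 1 < l' 0; omega⟩, by push_cast; omega, fun p a b => ?_,
        fun y _ _ => rfl, fun y a => ((n0 y (by omega) (by omega)).trans
          (n1' y (by omega) (by omega))).trans (n2' y (by omega) (by omega))⟩
      obtain rfl | rfl : p = 1 ∨ p = 2 := by omega
      exacts [u1, u2]
  obtain ⟨kD, kl, kup, ka, kb⟩ := key
  have hd3 : (d : ℕ) < 3 := d.2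
  set A := F' d with hA
  set B := F' 3 with hB
  obtain ⟨F, F0, F1, F2⟩ : ∃ F : ℕ → LTree, F 0 = leaf ∧ F 1 = node d A B ∧
      ∀ p, F (p + 2) = F' (p + 4) :=
    ⟨fun p => if p = 0 then leaf else if p = 1 then node d A B else F' (p + 2), rfl, rfl,
      fun p => by
        beta_reduce
        rw [if_neg (by omega), if_neg (by omega)]⟩
  obtain ⟨G, G0, G10, G1a, G1b, G2⟩ : ∃ G : ℕ → ℕ → ℤ → V r, (∀ i, G 0 i = G' 0 0) ∧
      (∀ y, G 1 0 y = if l 0 < y then bv r 3 else G' 0 0 y) ∧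
      (∀ i, i ≤ 2 * sz A → G 1 (i + 1) = G' d i) ∧ (∀ i, G 1 (2 * sz A + 2 + i) = G' 3 i) ∧
      ∀ p, G (p + 2) = G' (p + 4) :=
    ⟨fun p i => if p = 0 then G' 0 0 else if p = 1 then
      (if i = 0 then fun y => if l 0 < y then bv r 3 else G' 0 0 y
        else if i ≤ 2 * sz A + 1 then G' d (i - 1) else G' 3 (i - 2 * sz A - 2))
      else G' (p + 2) i, fun _ => rfl, fun _ => rfl, fun i hi => by
        beta_reduce
        rw [if_neg (by omega), if_pos rfl, if_neg (by omega), if_pos (by omega)]; rfl, fun i => by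
        beta_reduce
        rw [if_neg (by omega), if_pos rfl, if_neg (by omega), if_neg (by omega)]
        congr 1; omega, fun p => by
        funext i
        beta_reduce
        rw [if_neg (by omega), if_neg (by omega)]⟩
  have hsz : sz (node d A B) = sz A + sz B + 1 := rfl
  have m0 : G' 0 0 (l 0) = bv r 0 := H.mark 0 (Nat.zero_le _)
  have m3 : G' 3 0 (l 1) = bv r 3 := H.mark 3 (by omega)
  have s0 : ∀ y, y ≤ l 0 → Within r 1 (G' 0 0 y) (G' 0 0 (y - 1)) := fun y hy =>
    H.step 0 (Nat.zero_le _) 0 (Nat.zero_le _) y (by rw [lab_zero]; omega)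
  have la : ∀ i, i ≤ 2 * sz A → l 1 + lab (node d A B) (i + 1) = l' d + lab A i := fun i hi => by
    rw [lab_fst _ _ _ hi, kl]; ring
  have lb : ∀ i, l 1 + lab (node d A B) (2 * sz A + 2 + i) = l' 3 + lab B i := fun i => by
    rw [lab_snd, l3]
  have cor : ∀ p, Dn l (2 * per (face r)) p → ∀ i, i ≤ 2 * sz (F p) → ∃ p' i',
      Dn l' (2 * per r) p' ∧ i' ≤ 2 * sz (F' p') ∧
      G p i (l p + lab (F p) i) = G' p' i' (l' p' + lab (F' p') i') ∧
      l p + lab (F p) i = l' p' + lab (F' p') i' ∧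
      ((p = 1 ∧ p' = d ∧ lv (F p) i = lv (F' p') i' + 1 ∧ lv (F' p') i' ≤ 2 * sz A) ∨
        (p = 1 ∧ p' = 3 ∧ lv (F p) i = 2 * sz A + 2 + lv (F' p') i') ∨
        (2 ≤ p ∧ p' = p + 2 ∧ lv (F p) i = lv (F' p') i')) := by
    intro p hp i hi
    rcases pos_cases p with rfl | rfl | ⟨q, rfl⟩
    · exact absurd hp hD0
    · rw [F1] at hi ⊢
      rcases idx_cases (sz A) i with rfl | ⟨j, hj, rfl⟩ | ⟨j, rfl⟩
      · refine ⟨3, 0, hD3, Nat.zero_le _, ?_, ?_, Or.inr (Or.inl ⟨rfl, rfl, lv_zero _ _ _⟩)⟩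
        · rw [lab_zero, lab_zero, add_zero, add_zero, G10, if_pos (by omega), l3, m3]
        · rw [lab_zero, lab_zero, l3]
      · refine ⟨d, j, kD, hj, ?_, la j hj, Or.inl ⟨rfl, rfl, lv_fst _ _ _ hj, lv_le _ _⟩⟩
        rw [la j hj, G1a j hj]
      · refine ⟨3, j, hD3, by show j ≤ 2 * sz B; omega, ?_, lb j,
          Or.inr (Or.inl ⟨rfl, rfl, lv_snd _ _ _ _⟩)⟩
        rw [lb j, G1b]
    · rw [F2] at hi ⊢
      refine ⟨q + 4, i, (hD q).1 hp, hi, ?_, by rw [l4], Or.inr (Or.inr ⟨by omega, rfl, rfl⟩)⟩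
      rw [G2, l4]
  refine ⟨F, G, F1, F2, fun p a b => (kup p a b).1, ?_, ?_, ?_, ?_, ?_, ?_, ?_, ?_, ?_, ?_, ?_⟩
  · intro p hp
    rcases pos_cases p with rfl | rfl | ⟨q, rfl⟩
    · exact F0
    · exact absurd hD1 hp
    · rw [F2]; exact H.norm _ fun h => hp ((hD q).2 h)
  · have h3 := H.sum
    have h4 : sz (F' 0) + sz (F' 1) + sz (F' 2) = sz A := by
      have z : ∀ p : ℕ, p < 3 → p ≠ d → sz (F' p) = 0 := fun p a b => by rw [(kup p a b).1]; rfl
      have z0 := z 0 (by norm_num)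
      have z1 := z 1 (by norm_num)
      have z2 := z 2 (by norm_num)
      rcases hd with ⟨e, -⟩ | ⟨e, -⟩ | ⟨e, -⟩ <;> rw [hA, e] <;> omega
    rw [hN, sum_range_succ', sum_range_succ', sum_range_succ', sum_range_succ'] at h3
    rw [hper, sum_range_succ', sum_range_succ', F0, zero_add, F1]
    simp only [add_assoc, Nat.reduceAdd, zero_add, F2] at h3 ⊢
    have e1 : size (face r) = size r + 1 := rfl
    have e2 : sz leaf = 0 := rfl
    have e3 : sz (F' 3) = sz B := rfl
    omega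
  · rw [hper, G2, G0, ← hN, H.clos]
  · intro p hp
    rcases pos_cases p with rfl | rfl | ⟨q, rfl⟩
    · rw [G0, m0, xlabdet_bv_face0]
    · rw [G10, if_pos (by omega), xlabdet_bv_face r 1 one_ne_zero]
    · rw [G2, xlabdet_bv_face r _ (by omega), ← l4]
      exact H.mark _ (by omega)
  · intro p hp i hi y hy
    rcases pos_cases p with rfl | rfl | ⟨q, rfl⟩
    · rw [G0]
      rw [F0] at hy
      exact hw (s0 y (by simpa [lab] using hy))
    · rw [F1] at hi hy
      rcases idx_cases (sz A) i with rfl | ⟨j, hj, rfl⟩ | ⟨j, rfl⟩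
      · rw [lab_zero] at hy
        rw [G10, G10]
        by_cases c : l 0 < y
        · rw [if_pos c, if_neg (by omega), show y - 1 = l 0 by omega, m0]
          exact xgraphb_one (t := face r) (Or.inr (Or.inr ⟨rfl, rfl⟩))
        · rw [if_neg c, if_neg (by omega)]
          exact hw (s0 y (by omega))
      · rw [la j hj] at hy
        rw [G1a j hj]
        exact hw (H.step d (by omega) j hj y hy)
      · rw [lb j] at hy
        rw [G1b]
        exact hw (H.step 3 (by omega) j (by show j ≤ 2 * sz B; omega) y hy)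
    · rw [F2] at hi hy
      rw [← l4] at hy
      rw [G2]
      exact hw (H.step _ (by omega) i hi y hy)
  · intro p i hi y hy
    rcases pos_cases p with rfl | rfl | ⟨q, rfl⟩
    · rw [G0, G0]
    · rw [F1] at hi hy
      rcases idx_cases (sz A) i with rfl | ⟨j, hj, rfl⟩ | ⟨j, rfl⟩
      · rw [lab_zero] at hy
        rw [G10, if_neg (by omega), G1a 0 (Nat.zero_le _)]
        exact ka y (by omega) (by omega)
      · rw [la j hj] at hy
        rw [G1a j hj]
        rcases hj.lt_or_eq with hj' | rfl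
        · rw [G1a _ hj']
          exact H.inn d j hj' y hy
        · rw [lab_end, add_zero] at hy
          rw [show 2 * sz A + 1 + 1 = 2 * sz A + 2 + 0 from rfl, G1b]
          exact kb y hy
      · rw [lb j] at hy
        rw [add_assoc _ j, G1b, G1b]
        exact H.inn 3 j (by show j < 2 * sz B; omega) y hy
    · rw [F2] at hi hy
      rw [← l4] at hy
      rw [G2]
      exact H.inn _ i hi y hy
  · intro p hp y hy hy'
    rcases pos_cases p with rfl | rfl | ⟨q, rfl⟩
    · rw [G0, zero_add, G10, if_neg (by omega)]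
    · rw [F1, show 2 * sz (node d A B) = 2 * sz A + 2 + 2 * sz B by omega, G1b,
        show 1 + 1 = 0 + 2 from rfl, G2]
      exact H.nxt 3 (by omega) y hy hy'
    · rw [F2, G2, show q + 2 + 1 = q + 1 + 2 by omega, G2]
      refine H.nxt (q + 4) (by omega) y (by rwa [l4]) ?_
      rw [show q + 4 + 1 = q + 1 + 4 by omega, l4]
      exact hy'
  · intro p hp i hi
    obtain ⟨p', i', a1, a2, a3, a4, -⟩ := cor p hp i hi
    rw [a3, a4]
    exact H.lbl p' a1 i' a2
  · intro p q hp hq i j hi hj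
    obtain ⟨p', i', a1, a2, a3, -, a5⟩ := cor p hp i hi
    obtain ⟨q', j', b1, b2, b3, -, b5⟩ := cor q hq j hj
    rw [a3, b3]
    refine (H.iff p' q' a1 b1 i' j' a2 b2).trans ?_
    omega
  · intro z hz
    obtain ⟨p, hp, i, hi, h⟩ := H.onto z hz
    by_cases c : p < 3
    · obtain rfl : p = d := by
        by_contra c'
        exact (kup p c c').2 hp
      refine ⟨1, hD1, i + 1, by rw [F1]; change i ≤ 2 * sz A at hi; omega, ?_⟩
      rw [F1, la i hi, G1a i hi]
      exact h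
    · by_cases c' : p = 3
      · subst c'
        refine ⟨1, hD1, 2 * sz A + 2 + i, by rw [F1]; change i ≤ 2 * sz B at hi; omega, ?_⟩
        rw [F1, lb i, G1b]
        exact h
      · obtain ⟨q, rfl⟩ : ∃ q, p = q + 4 := ⟨p - 4, by omega⟩
        refine ⟨q + 2, (hD q).2 hp, i, by rwa [F2], ?_⟩
        rw [F2, G2, ← l4]
        exact h
  · intro p hp i hi
    obtain ⟨p', i', a1, a2, a3, -⟩ := cor p hp i hi
    rw [a3]
    exact H.ne p' a1 i' a2

end Pool.Agent.QL.BM
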