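import Pool.Agent.P.MP_7a6434d8_pr.QL.BM.CvsA

/-! Every pointed disc is coded by a labelled forest that determines it. -/

namespace Pool.Agent.QL.BM

open Pool.Agent.P.MP_7a6434d8_pr Mp Finset LTree

theorem cvs_mod {x N : ℕ} (h : x < 2 * N) :
    (x < N ∧ x % N = x) ∨ (N ≤ x ∧ x % N + N = x) := by
  rcases Nat.lt_or_ge x N with c | c
  · exact Or.inl ⟨c, Nat.mod_eq_of_lt c⟩
  · refine Or.inr ⟨c, ?_⟩
    rw [Nat.mod_eq_sub_mod c, Nat.mod_eq_of_lt (by omega)]
    omega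

theorem cod_rot {t s : Mp} (ht : ok t) {N k : ℕ} (hN : 2 * per t = N) (hN' : 2 * per s = N)
    (hk : k < N) (hsz : size s = size t) (e : V s ≃ V t)
    (he : ∀ x y, adj s x y → adj t (e x) (e y))
    (hb : ∀ q, q ≤ N → e (bv s q) = bv t ((q + k) % N)) {l : ℕ → ℤ} (hl : l N = l 0)
    {v : V s} {f : V t → ℤ} {F' : ℕ → LTree} {G' : ℕ → ℕ → ℤ → V s}
    (H : Cod s v (fun q => l ((q + k) % N)) (fun x => f (e x)) F' G') :
    ∃ F G, (F' = fun q => if q < N then F ((q + k) % N) else leaf) ∧ Cod t (e v) l f F G := by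
  obtain ⟨σ, hσ⟩ : ∃ σ : ℕ → ℕ, ∀ p, σ p = (p + (N - k)) % N := ⟨_, fun _ => rfl⟩
  have s1 : ∀ p, σ p < N := fun p => by rw [hσ]; exact Nat.mod_lt _ (by omega)
  have sv : ∀ p, p < N → (p < k ∧ σ p + k = p + N) ∨ (k ≤ p ∧ σ p + k = p) := fun p hp => by
    have := cvs_mod (x := p + (N - k)) (N := N) (by omega)
    rw [← hσ] at this
    omega
  have s2 : ∀ p, p < N → (σ p + k) % N = p := fun p hp => by
    have := cvs_mod (x := σ p + k) (N := N) (by have := s1 p; omega)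
    have := sv p hp
    omega
  have s3 : ∀ q, q < N → σ ((q + k) % N) = q := fun q hq => by
    have := cvs_mod (x := q + k) (N := N) (by omega)
    have := sv ((q + k) % N) (Nat.mod_lt _ (by omega))
    omega
  have sN : σ N = σ 0 := by rw [hσ, hσ, Nat.add_mod_left, zero_add]
  have s4 : ∀ p, p < N → σ (p + 1) = σ p + 1 ∨ (σ (p + 1) = 0 ∧ σ p + 1 = N) := fun p hp => by
    have a := sv p hp
    rcases Nat.lt_or_ge (p + 1) N with c | c
    · have := sv (p + 1) c
      omega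
    · have := sv 0 (by omega)
      rw [show p + 1 = N by omega, sN]
      omega
  have l1 : ∀ p, p < N → l ((σ p + k) % N) = l p := fun p hp => by rw [s2 p hp]
  have l2 : ∀ p, p < N → l ((σ p + 1 + k) % N) = l (p + 1) := fun p hp => by
    have a := sv p hp
    have b := cvs_mod (x := σ p + 1 + k) (N := N) (by have := s1 p; omega)
    rcases Nat.lt_or_ge (p + 1) N with c | c
    · congr 1; omega
    · rw [show p + 1 = N by omega, hl]
      congr 1; omega
  have hD : ∀ p, p < N → (Dn l (2 * per t) p ↔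
      Dn (fun q => l ((q + k) % N)) (2 * per s) (σ p)) := fun p hp => by
    unfold Dn
    beta_reduce
    rw [hN, hN', l1 p hp, l2 p hp]
    exact and_congr (iff_of_true hp (s1 p)) Iff.rfl
  obtain ⟨F, F1, F2⟩ : ∃ F : ℕ → LTree, (∀ p, p < N → F p = F' (σ p)) ∧
      ∀ p, N ≤ p → F p = leaf :=
    ⟨fun p => if p < N then F' (σ p) else leaf, fun p hp => if_pos hp,
      fun p hp => if_neg (by omega)⟩
  have lt : ∀ {p}, Dn l (2 * per t) p → p < N := fun h => hN ▸ h.1
  have c : ∀ p, p < N → ∀ i, e (G' (σ p) i (l p + lab (F p) i))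
      = e (G' (σ p) i (l ((σ p + k) % N) + lab (F' (σ p)) i)) := fun p hp i => by
    rw [l1 p hp, F1 p hp]
  refine ⟨F, fun p i y => e (G' (σ p) i y), ?_, ?_, ?_, ?_, ?_, ?_, ?_, ?_, ?_, ?_, ?_, ?_⟩
  · funext q
    split_ifs with hq
    · rw [F1 _ (Nat.mod_lt _ (by omega)), s3 q hq]
    · exact H.norm q fun h => hq (hN' ▸ h.1)
  · intro p hp
    rcases Nat.lt_or_ge p N with a | a
    · rw [F1 p a]; exact H.norm _ fun h => hp ((hD p a).2 h)
    · exact F2 p a
  · rw [← hsz, ← H.sum, hN, hN']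
    refine sum_nbij' σ (fun q => (q + k) % N) (fun p _ => mem_range.2 (s1 p))
      (fun q _ => mem_range.2 (Nat.mod_lt _ (by omega))) (fun p hp => s2 p (mem_range.1 hp))
      (fun q hq => s3 q (mem_range.1 hq)) fun p hp => by rw [F1 p (mem_range.1 hp)]
  · rw [hN, sN]
  · have m : ∀ p, p < N → e (G' (σ p) 0 (l p)) = bv t p := fun p a => by
      have := H.mark (σ p) (by have := s1 p; omega)
      rw [l1 p a] at this
      rw [this, hb _ (s1 p).le, s2 p a]
    intro p hp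
    rcases Nat.lt_or_ge p N with a | a
    · exact m p a
    · obtain rfl : p = N := by omega
      show e (G' (σ p) 0 (l p)) = bv t p
      rw [sN, hl, m 0 (by omega), ← hN, bv_end t ht]
  · intro p hp i hi y hy
    refine Within.map e he ?_
    rcases Nat.lt_or_ge p N with a | a
    · rw [F1 p a] at hi hy
      exact H.step _ (by have := s1 p; omega) i hi y (by rwa [l1 p a])
    · obtain rfl : p = N := by omega
      rw [F2 p le_rfl] at hi hy
      obtain rfl : i = 0 := Nat.le_zero.1 hi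
      rw [sN]
      refine H.step _ (by have := s1 0; omega) 0 (Nat.zero_le _) y ?_
      rw [l1 0 (by omega), lab_zero, ← hl]
      exact hy
  · intro p i hi y hy
    rcases Nat.lt_or_ge p N with a | a
    · rw [F1 p a] at hi hy
      exact congrArg e (H.inn _ i hi y (by rwa [l1 p a]))
    · rw [F2 p a] at hi
      exact absurd hi (Nat.not_lt_zero _)
  · intro p hp y hy hy'
    rw [hN] at hp
    refine congrArg e ?_
    rw [F1 p hp, H.nxt _ (by have := s1 p; omega) y (by rwa [l1 p hp]) (by rwa [l2 p hp])]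
    rcases s4 p hp with a | ⟨a, b⟩
    · rw [a]
    · rw [a, b, ← hN', H.clos]
  · intro p hp i hi
    have a := lt hp
    rw [F1 p a] at hi
    have := H.lbl _ ((hD p a).1 hp) i hi
    rw [l1 p a, ← F1 p a] at this
    exact this
  · intro p q hp hq i j hi hj
    have a := lt hp
    have b := lt hq
    rw [F1 p a] at hi
    rw [F1 q b] at hj
    have := H.iff _ _ ((hD p a).1 hp) ((hD q b).1 hq) i j hi hj
    rw [l1 p a, l1 q b, ← F1 p a, ← F1 q b] at this
    refine e.injective.eq_iff.trans (this.trans (and_congr ⟨fun h => ?_, congrArg σ⟩ Iff.rfl))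
    rw [← s2 p a, h, s2 q b]
  · intro z hz
    obtain ⟨q, hq, i, hi, h⟩ := H.onto (e.symm z) fun h => hz (by rw [← h, e.apply_symm_apply])
    have b : q < N := hN' ▸ hq.1
    have a : (q + k) % N < N := Nat.mod_lt _ (by omega)
    refine ⟨(q + k) % N, (hD _ a).2 (by rwa [s3 q b]), i, by rwa [F1 _ a, s3 q b], ?_⟩
    rw [F1 _ a, s3 q b, h, e.apply_symm_apply]
  · intro p hp i hi
    have a := lt hp
    rw [F1 p a] at hi
    rw [c p a]
    exact fun h => H.ne _ ((hD p a).1 hp) i hi (e.injective h)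

/-- a distance-like labelling `f` with boundary labels `l` and unique local minimum `v` -/
structure LabF (t : Mp) (l : ℕ → ℤ) (v : V t) (f : V t → ℤ) : Prop where
  bd : ∀ p, p ≤ 2 * per t → f (bv t p) = l p
  ad : ∀ x y, adj t x y → f x = f y + 1 ∨ f y = f x + 1
  dn : ∀ x, x ≠ v → ∃ y, adj t x y ∧ f x = f y + 1

theorem labF_face {t : Mp} {l : ℕ → ℤ} {v : V t} {f : V t → ℤ} (ht : ok (face t))
    (h : LabF (face t) l v f) (h1 : l 1 = l 0 + 1) (h2 : l 2 = l 0) :
    f (bv t 3) = l 1 ∧ ∃ d : Fin 3, ∃ n1 n2 : ℤ,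
      (((d : ℕ) = 2 ∧ n1 = l 0 + 1 ∧ n2 = l 0 + 2) ∨ ((d : ℕ) = 1 ∧ n1 = l 0 + 1 ∧ n2 = l 0) ∨
        ((d : ℕ) = 0 ∧ n1 = l 0 - 1 ∧ n2 = l 0)) ∧ LabF t (ins l n1 n2) v f := by
  obtain ⟨hok, hper⟩ : ok t ∧ 2 ≤ per t := ht
  obtain ⟨hb, ha, hs⟩ := h
  have hpf : per (face t) = per t - 1 := rfl
  have hg : ∀ p, 3 ≤ p → p ≤ 2 * per t → f (bv t p) = l (p - 2) := by
    intro p h3 hp
    have e := hb (p - 2) (by rw [hpf]; omega)
    rw [xlabdet_bv_face t (p - 2) (by omega), show p - 2 + 2 = p by omega] at e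
    exact e
  have g0 : f (bv t 0) = l 0 := by
    have e := hb 0 (Nat.zero_le _)
    rw [xlabdet_bv_face0] at e
    exact e
  have g3 : f (bv t 3) = l 0 + 1 := (hg 3 le_rfl (by omega)).trans h1
  have g4 : f (bv t 4) = l 0 := (hg 4 (by omega) (by omega)).trans h2
  have hadj : ∀ x y, adj t x y → f x = f y + 1 ∨ f y = f x + 1 :=
    fun x y hxy => ha x y (Or.inl hxy)
  have key : LabF t (ins l (f (bv t 1)) (f (bv t 2))) v f := by
    refine ⟨fun p hp => ?_, hadj, fun x hx => ?_⟩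
    · unfold ins
      split_ifs with p0 p1 p2
      · rw [p0, g0]
      · rw [p1]
      · rw [p2]
      · exact hg p (by omega) hp
    · obtain ⟨y, hy, e⟩ := hs x hx
      rcases hy with hy | ⟨hx0, hy3⟩ | ⟨hx3, hy0⟩
      · exact ⟨y, hy, e⟩
      · rw [hx0, hy3, g0, g3] at e
        omega
      · refine ⟨bv t 4, ?_, ?_⟩
        · rw [hx3]
          exact adj_bv t hok 3 (by omega)
        · rw [hx3, g3, g4]
  have a01 := hadj _ _ (adj_bv t hok 0 (by omega))
  have a12 := hadj _ _ (adj_bv t hok 1 (by omega))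
  have a23 := hadj _ _ (adj_bv t hok 2 (by omega))
  simp only [zero_add, Nat.reduceAdd] at a01 a12 a23
  rw [g0] at a01
  rw [g3] at a23
  refine ⟨g3.trans h1.symm, ?_⟩
  have hc : (f (bv t 1) = l 0 + 1 ∧ f (bv t 2) = l 0 + 2) ∨
      (f (bv t 1) = l 0 + 1 ∧ f (bv t 2) = l 0) ∨
      (f (bv t 1) = l 0 - 1 ∧ f (bv t 2) = l 0) := by omega
  rcases hc with c | c | c
  · exact ⟨2, _, _, Or.inl ⟨rfl, c⟩, key⟩
  · exact ⟨1, _, _, Or.inr (Or.inl ⟨rfl, c⟩), key⟩
  · exact ⟨0, _, _, Or.inr (Or.inr ⟨rfl, c⟩), key⟩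

theorem labF_bridge {a b : Mp} {l : ℕ → ℤ} {v : V a ⊕ V b} {f : V a ⊕ V b → ℤ}
    (ht : ok (bridge a b)) (h : LabF (bridge a b) l v f) (h1 : l 1 = l 0 + 1) (h2 : l 2 = l 0) :
    b = pt ∧ ∃ x, v = Sum.inl x ∧ LabF a (fun p => l (p + 2)) x (fun y => f (Sum.inl y)) := by
  obtain ⟨hb, x, hx, -⟩ := M1.labV_bridge ht ⟨f, h.bd, h.ad, h.dn⟩ h1 h2
  subst hb hx
  have hpf : per (bridge a pt) = per a + 0 + 1 := rfl
  refine ⟨rfl, x, rfl, fun p hp => ?_, fun y z hyz => h.ad (Sum.inl y) (Sum.inl z) hyz,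
    fun y hy => ?_⟩
  · have e := h.bd (p + 2) (by omega)
    rw [show bv (bridge a pt) (p + 2) = Sum.inl (bv a p) from xlabdet_bva a pt p] at e
    exact e
  · obtain ⟨z, hz, e⟩ := h.dn (Sum.inl y) fun hh => hy (Sum.inl_injective hh)
    rcases z with z | z
    · exact ⟨z, hz, e⟩
    · obtain ⟨y0, z0⟩ : y = bv a 0 ∧ z = bv pt 0 := hz
      have g0 := h.bd 0 (Nat.zero_le _)
      have g1 := h.bd (0 + 1) (by omega)
      rw [xlabdet_bv0] at g0
      rw [xlabdet_bvb a pt 0 (Nat.zero_le _)] at g1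
      rw [y0, z0, g0, g1, zero_add] at e
      omega

/-- pointed discs -/
abbrev PD : Type := Σ t : Mp, V t

/-- a decoding map for the boundary labels `l` -/
def Dec (N L : ℕ) (l : ℕ → ℤ) : Prop :=
  ∃ dec : (ℕ → LTree) → PD, ∀ t v f, ok t → per t = L → edges t < N → LabF t l v f →
    ∃ F G, dec F = ⟨t, v⟩ ∧ Cod t v l f F G

theorem dec_peak {N L : ℕ} {l : ℕ → ℤ} (h1 : l 1 = l 0 + 1) (h2 : l 2 = l 0)
    (h0 : Dec N L fun p => l (p + 2)) (ha : Dec N (L + 2) (ins l (l 0 + 1) (l 0 + 2)))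
    (hb : Dec N (L + 2) (ins l (l 0 + 1) (l 0))) (hc : Dec N (L + 2) (ins l (l 0 - 1) (l 0))) :
    Dec (N + 1) (L + 1) l := by
  obtain ⟨d0, h0⟩ := h0
  obtain ⟨da, ha⟩ := ha
  obtain ⟨db, hb⟩ := hb
  obtain ⟨dc, hc⟩ := hc
  let dn : Fin 3 → (ℕ → LTree) → PD := fun d => if (d : ℕ) = 2 then da else
    if (d : ℕ) = 1 then db else dc
  let nw : Fin 3 → LTree → LTree → (ℕ → LTree) → ℕ → LTree := fun d A B F p =>
    if p = d then A else if p = 3 then B else if p < 3 then leaf else F (p - 2)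
  let D : LTree → (ℕ → LTree) → PD := fun T F => match T with
    | leaf => ⟨bridge (d0 fun p => F (p + 2)).1 pt, Sum.inl (d0 fun p => F (p + 2)).2⟩
    | node d A B => ⟨face (dn d (nw d A B F)).1, (dn d (nw d A B F)).2⟩
  refine ⟨fun F => D (F 1) F, fun t v f ht hp he hf => ?_⟩
  cases t with
  | pt => exact absurd hp (by simp [per])
  | face r =>
    obtain ⟨g3, d, n1, n2, hd, hl⟩ := labF_face ht hf h1 h2
    have hr : 2 ≤ per r := ht.2
    have hp' : per r = L + 2 := by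
      have : per (face r) = per r - 1 := rfl
      omega
    have he' : edges r < N := by
      have : edges (face r) = edges r + 1 := rfl
      omega
    obtain ⟨F', G', k1, k2⟩ : ∃ F' G', dn d F' = ⟨r, v⟩ ∧ Cod r v (ins l n1 n2) f F' G' := by
      rcases hd with ⟨e, rfl, rfl⟩ | ⟨e, rfl, rfl⟩ | ⟨e, rfl, rfl⟩
      · simp only [dn, e, if_true]
        exact ha r v f ht.1 hp' he' hl
      · simp only [dn, e, if_true]
        exact hb r v f ht.1 hp' he' hl
      · simp only [dn, e]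
        exact hc r v f ht.1 hp' he' hl
    obtain ⟨F, G, a1, a2, a3, a4⟩ := cod_face hr h1 h2 g3 d hd k2
    refine ⟨F, G, ?_, a4⟩
    have e : nw d (F' d) (F' 3) F = F' := by
      funext p
      simp only [nw]
      split_ifs with c1 c2 c3
      · rw [c1]
      · rw [c2]
      · exact (a3 p c3 c1).symm
      · obtain ⟨q, rfl⟩ : ∃ q, p = q + 4 := ⟨p - 4, by omega⟩
        exact a2 q
    show D (F 1) F = _
    rw [a1]
    show (⟨face (dn d (nw d (F' d) (F' 3) F)).1, (dn d (nw d (F' d) (F' 3) F)).2⟩ : PD) = _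
    rw [e, k1]
  | bridge a b =>
    obtain ⟨rfl, x, rfl, hl⟩ := labF_bridge ht hf h1 h2
    have e1 : per (bridge a pt) = per a + 0 + 1 := rfl
    have e2 : edges (bridge a pt) = edges a + 0 + 1 := rfl
    obtain ⟨F', G', k1, k2⟩ := h0 a x _ ht.1 (by omega) (by omega) hl
    obtain ⟨F, G, a1, a2, a3⟩ := cod_leaf h1 h2 (hf.bd 1 (by omega)) k2
    refine ⟨F, G, ?_, a3⟩
    show D (F 1) F = _
    rw [a1]
    show (⟨bridge (d0 fun p => F (p + 2)).1 pt, Sum.inl (d0 fun p => F (p + 2)).2⟩ : PD) = _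
    rw [funext a2, k1]

theorem dec_rot {N L k : ℕ} {l : ℕ → ℤ} (hl : Valid L l) (hk : k < 2 * L)
    (h : Dec N L fun q => l ((q + k) % (2 * L))) : Dec N L l := by
  classical
  obtain ⟨d, h⟩ := h
  choose e he hb using rotN_shift k
  let ρ : {x : PD // ok x.1} → PD := fun x => ⟨rotN k x.1.1, (e x.1.1 x.2).symm x.1.2⟩
  have hρ : Function.Injective ρ := by
    rintro ⟨⟨t, v⟩, ht⟩ ⟨⟨t', v'⟩, ht'⟩ hh
    obtain rfl : t = t' := rotN_inj k t t' ht ht' (congrArg Sigma.fst hh)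
    have := eq_of_heq (Sigma.mk.inj hh).2
    obtain rfl : v = v' := (e t ht).symm.injective this
    rfl
  haveI : Nonempty {x : PD // ok x.1} := ⟨⟨⟨pt, ()⟩, trivial⟩⟩
  refine ⟨fun F => (Function.invFun ρ
    (d fun q => if q < 2 * L then F ((q + k) % (2 * L)) else leaf)).1,
    fun t v f ht hp hN hf => ?_⟩
  have hs := rotN_ok k t ht
  have hadj := equiv_adj ht hs (e t ht) (he t ht)
  have hp' := rotN_per k t ht
  have hf' : LabF (rotN k t) (fun q => l ((q + k) % (2 * L))) ((e t ht).symm v)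
      (fun x => f (e t ht x)) := by
    refine ⟨fun p a => ?_, fun x y a => hf.ad _ _ ((hadj x y).2 a), fun x hx => ?_⟩
    · rw [hb t ht p (by omega), hp]
      exact hf.bd _ (by rw [hp]; exact (Nat.mod_lt _ (by omega)).le)
    · obtain ⟨y, hy, ey⟩ := hf.dn (e t ht x) fun hh => hx (by rw [← hh, Equiv.symm_apply_apply])
      obtain ⟨y, rfl⟩ := (e t ht).surjective y
      exact ⟨y, (hadj x y).1 hy, ey⟩
  obtain ⟨F', G', k1, k2⟩ := h (rotN k t) _ _ hs (hp'.trans hp)
    (by rw [edges_eq _ hs, rotN_size k t ht, hp', ← edges_eq t ht]; exact hN) hf'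
  obtain ⟨F, G, a1, a2⟩ := cod_rot ht (N := 2 * L) (by rw [hp]) (by rw [hp', hp]) hk
    (rotN_size k t ht) (e t ht) (fun x y a => (hadj x y).2 a)
    (fun q a => by rw [hb t ht q (by omega), hp]) hl.1 k2
  rw [Equiv.apply_symm_apply] at a2
  refine ⟨F, G, ?_, a2⟩
  show (Function.invFun ρ (d fun q => if q < 2 * L then F ((q + k) % (2 * L)) else leaf)).1 = _
  rw [← a1, k1]
  exact congrArg Subtype.val (Function.leftInverse_invFun hρ ⟨⟨t, v⟩, ht⟩)

theorem dec_all (N : ℕ) : ∀ L l, Valid L l → Dec N L l := by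
  induction N with
  | zero => exact fun L l _ => ⟨fun _ => ⟨pt, ()⟩, fun _ _ _ _ _ h => absurd h (Nat.not_lt_zero _)⟩
  | succ N ih =>
    intro L l hl
    rcases L with _ | L
    · refine ⟨fun _ => ⟨pt, ()⟩, fun t v f ht hp _ _ => ?_⟩
      obtain rfl := eq_pt_of_per_zero t ht hp
      exact ⟨_, _, rfl, cod_pt l v f⟩
    · obtain ⟨k, k1, k2⟩ := xlab_choose hl
      have hk : k % (2 * (L + 1)) < 2 * (L + 1) := Nat.mod_lt _ (by omega)
      refine dec_rot hl hk ?_
      simp only [Nat.add_mod_mod]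
      have hv := xlab_valid_rot (by omega) hl k
      generalize hl' : (fun p => l ((p + k) % (2 * (L + 1)))) = l' at hv
      have h1 : l' 1 = l' 0 + 1 := by rw [← hl']; exact k1
      have h2 : l' 2 = l' 0 := by rw [← hl']; exact k2
      exact dec_peak h1 h2 (ih _ _ (xlab_valid_shift hv h2))
        (ih _ _ (xlab_valid_ins hv (by omega) (by omega) (by omega)))
        (ih _ _ (xlab_valid_ins hv (by omega) (by omega) (by omega)))
        (ih _ _ (xlab_valid_ins hv (by omega) (by omega) (by omega)))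

end Pool.Agent.QL.BM
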