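import Pool.Agent.P.MP_7a6434d8_pr.QL.BM.CvsB
import Pool.Agent.P.MP_7a6434d8_pr.QL.BM.Contour

/-! The Cori-Vauquelin-Schaeffer bijection for peeling trees. -/

namespace Pool.Agent.QL.BM

open Pool.Agent.P.MP_7a6434d8_pr Mp Finset LTree

theorem LTree.ht_end (T : LTree) : ht T (2 * sz T) = 0 := by
  induction T with
  | leaf => rfl
  | node d a b _ ih =>
    rw [show 2 * sz (node d a b) = 2 * sz a + 2 + 2 * sz b by simp only [sz]; ring, ht_snd, ih]

theorem LTree.ht_step (T : LTree) (i : ℕ) (hi : i < 2 * sz T) :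
    ht T (i + 1) = ht T i + 1 ∨ ht T (i + 1) + 1 = ht T i := by
  induction T generalizing i with
  | leaf => exact absurd hi (Nat.not_lt_zero _)
  | node d a b iha ihb =>
    have e : sz (node d a b) = sz a + sz b + 1 := rfl
    rcases idx_cases (sz a) i with rfl | ⟨j, hj, rfl⟩ | ⟨j, rfl⟩
    · rw [ht_fst _ _ _ (Nat.zero_le _), ht_zero, ht_zero]
      exact Or.inl rfl
    · rcases hj.lt_or_eq with h | rfl
      · have := iha j h
        rw [ht_fst _ _ _ hj, ht_fst _ _ _ (show j + 1 ≤ _ from h)]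
        omega
      · rw [ht_fst _ _ _ hj, ht_end, show 2 * sz a + 1 + 1 = 2 * sz a + 2 + 0 from rfl, ht_snd,
          ht_zero]
        exact Or.inr rfl
    · rw [add_assoc _ j, ht_snd, ht_snd]
      exact ihb j (by omega)

theorem LTree.lv_iff (T : LTree) (i j : ℕ) (hij : i ≤ j) (hj : j ≤ 2 * sz T) :
    lv T i = lv T j ↔ ht T i = ht T j ∧ ∀ k, i ≤ k → k ≤ j → ht T i ≤ ht T k := by
  induction T generalizing i j with
  | leaf => exact iff_of_true rfl ⟨rfl, fun _ _ _ => le_rfl⟩
  | node d a b iha ihb =>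
    have e : sz (node d a b) = sz a + sz b + 1 := rfl
    rcases idx_cases (sz a) i with rfl | ⟨i, hi, rfl⟩ | ⟨i, rfl⟩
    · rcases idx_cases (sz a) j with rfl | ⟨j, hj', rfl⟩ | ⟨j, rfl⟩
      · exact iff_of_true rfl ⟨rfl, fun _ _ _ => by rw [ht_zero]; exact Nat.zero_le _⟩
      · have := lv_le a j
        rw [lv_zero, lv_fst _ _ _ hj', ht_zero, ht_fst _ _ _ hj']
        exact iff_of_false (by omega) fun h => by omega
      · have := ihb 0 j (Nat.zero_le _) (by omega)
        rw [ht_zero] at this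
        rw [lv_zero, lv_snd, ht_zero, ht_snd, Nat.add_left_cancel_iff, this]
        exact and_congr Iff.rfl (iff_of_true (fun _ _ _ => Nat.zero_le _)
          fun _ _ _ => Nat.zero_le _)
    · rcases idx_cases (sz a) j with rfl | ⟨j, hj', rfl⟩ | ⟨j, rfl⟩
      · omega
      · rw [lv_fst _ _ _ hi, lv_fst _ _ _ hj', ht_fst _ _ _ hi, ht_fst _ _ _ hj',
          Nat.add_right_cancel_iff, Nat.add_right_cancel_iff, iha i j (by omega) hj']
        refine and_congr Iff.rfl ⟨fun h k k1 k2 => ?_, fun h k k1 k2 => ?_⟩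
        · obtain ⟨k, rfl⟩ : ∃ k', k = k' + 1 := ⟨k - 1, by omega⟩
          have := h k (by omega) (by omega)
          rw [ht_fst _ _ _ (by omega)]
          omega
        · have := h (k + 1) (by omega) (by omega)
          rw [ht_fst _ _ _ (by omega)] at this
          omega
      · have := lv_le a i
        rw [lv_fst _ _ _ hi, lv_snd, ht_fst _ _ _ hi]
        refine iff_of_false (by omega) fun h => ?_
        have := h.2 (2 * sz a + 2 + 0) (by omega) (by omega)
        rw [ht_snd, ht_zero] at this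
        omega
    · obtain ⟨j, rfl⟩ : ∃ j', j = 2 * sz a + 2 + j' := ⟨j - (2 * sz a + 2), by omega⟩
      rw [lv_snd, lv_snd, ht_snd, ht_snd, Nat.add_left_cancel_iff, ihb i j (by omega) (by omega)]
      refine and_congr Iff.rfl ⟨fun h k k1 k2 => ?_, fun h k k1 k2 => ?_⟩
      · obtain ⟨k, rfl⟩ : ∃ k', k = 2 * sz a + 2 + k' := ⟨k - (2 * sz a + 2), by omega⟩
        rw [ht_snd]
        exact h k (by omega) (by omega)
      · have := h (2 * sz a + 2 + k) (by omega) (by omega)
        rwa [ht_snd] at this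

theorem LTree.count (n : ℕ) :
    ∃ S : Finset LTree, (∀ T, T ∈ S ↔ sz T = n) ∧ S.card ≤ 3 ^ n * catalan n := by
  classical
  induction n using Nat.strong_induction_on with
  | _ n ih =>
    rcases n with _ | n
    · refine ⟨{leaf}, fun T => ?_, by simp⟩
      cases T <;> simp [sz]
    · choose! S h1 h2 using ih
      refine ⟨(antidiagonal n).biUnion fun p => ((univ : Finset (Fin 3)) ×ˢ S p.1 ×ˢ S p.2).image
        fun x => node x.1 x.2.1 x.2.2, fun T => ?_, card_biUnion_le.trans ?_⟩
      · simp only [mem_biUnion, HasAntidiagonal.mem_antidiagonal, mem_image, mem_product, mem_univ, true_and]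
        constructor
        · rintro ⟨p, hp, x, ⟨a1, a2⟩, rfl⟩
          rw [h1 _ (by omega)] at a1 a2
          simp only [sz]
          omega
        · intro hT
          cases T with
          | leaf => exact absurd hT (by simp [sz])
          | node d a b =>
            have e : sz (node d a b) = sz a + sz b + 1 := rfl
            exact ⟨(sz a, sz b), by simp only; omega, (d, a, b),
              ⟨(h1 _ (by simp only; omega) _).2 rfl, (h1 _ (by simp only; omega) _).2 rfl⟩, rfl⟩
      · rw [catalan_succ', mul_sum]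
        refine sum_le_sum fun p hp => card_image_le.trans ?_
        have hp' := HasAntidiagonal.mem_antidiagonal.1 hp
        rw [card_product, card_product, card_univ, Fintype.card_fin, ← hp']
        have := Nat.mul_le_mul (h2 p.1 (by omega)) (h2 p.2 (by omega))
        calc _ ≤ 3 * (3 ^ p.1 * catalan p.1 * (3 ^ p.2 * catalan p.2)) :=
              Nat.mul_le_mul_left _ this
          _ = _ := by ring

/-- the output of the bijection: `c` sends corners to vertices -/
structure IsCvs (n : ℕ) (T : LTree) (t : Mp) (v : V t) (c : ℕ → V t) : Prop where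
  contour : IsContour n (fun i => (ht T i : ℤ)) c
  ne : ∀ i, i ≤ 2 * n → c i ≠ v
  onto : ∀ z, z ≠ v → ∃ i, i ≤ 2 * n ∧ c i = z
  dist : ∃ μ : ℤ, (∀ i, i ≤ 2 * n → (dW t v (c i) : ℤ) = lab T i - μ + 1) ∧
    (∀ i, i ≤ 2 * n → μ ≤ lab T i) ∧ ∃ i, i ≤ 2 * n ∧ lab T i = μ
  arc : ∀ (i j : ℕ) (m : ℤ), i ≤ j → j ≤ 2 * n → (∀ k, i ≤ k → k ≤ j → m ≤ lab T k) →
    (dW t (c i) (c j) : ℤ) ≤ lab T i + lab T j - 2 * m + 2
  arc' : ∀ (i j : ℕ) (m : ℤ), i ≤ j → j ≤ 2 * n →
    (∀ k, k ≤ 2 * n → k ≤ i ∨ j ≤ k → m ≤ lab T k) →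
    (dW t (c i) (c j) : ℤ) ≤ lab T i + lab T j - 2 * m + 2

theorem cvs_nbr {t : Mp} (ht : ok t) (v : V t) (k : ℕ) :
    ∀ x, dW t v x = k + 1 → ∃ y, dW t v y = 1 := by
  induction k with
  | zero => exact fun x h => ⟨x, h⟩
  | succ k ih =>
    intro x h
    obtain ⟨y, -, hy⟩ := (M1.dW_spec ht v).2 x fun e => by
      rw [e, M1.dW_self] at h
      omega
    exact ih y (by omega)

theorem isCvs_of {t : Mp} (ht : ok t) {v : V t} {T : LTree} {a b : ℤ} (g : ℕ → ℤ → V t)
    (step : ∀ i, i ≤ 2 * sz T → ∀ x, x ≤ a + lab T i → Within t 1 (g i x) (g i (x - 1)))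
    (inn : ∀ i, i < 2 * sz T → ∀ x, x < a + lab T i → g i x = g (i + 1) x)
    (wrap : ∀ x, x < a → g (2 * sz T) x = g 0 x)
    (lbl : ∀ i, i ≤ 2 * sz T → (dW t v (g i (a + lab T i)) : ℤ) - b = a + lab T i)
    (iff : ∀ i j, i ≤ 2 * sz T → j ≤ 2 * sz T →
      (g i (a + lab T i) = g j (a + lab T j) ↔ lv T i = lv T j))
    (onto : ∀ z, z ≠ v → ∃ i, i ≤ 2 * sz T ∧ g i (a + lab T i) = z)
    (ne : ∀ i, i ≤ 2 * sz T → g i (a + lab T i) ≠ v) :
    IsCvs (sz T) T t v fun i => g i (a + lab T i) := by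
  have chain : ∀ i, i ≤ 2 * sz T → ∀ k : ℕ,
      Within t k (g i (a + lab T i)) (g i (a + lab T i - k)) := by
    intro i hi k
    induction k with
    | zero => simpa using Within.refl t 0 _
    | succ k ih =>
      have := step i hi (a + lab T i - k) (by omega)
      rw [show a + lab T i - k - 1 = a + lab T i - ((k + 1 : ℕ) : ℤ) by push_cast; ring] at this
      exact ih.trans this
  have merge : ∀ (i : ℕ) (m : ℤ) (j : ℕ), i ≤ j → j ≤ 2 * sz T →
      (∀ k, i ≤ k → k ≤ j → m ≤ lab T k) → g i (a + m - 1) = g j (a + m - 1) := by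
    intro i m j hij
    induction j, hij using Nat.le_induction with
    | base => exact fun _ _ => rfl
    | succ j hij ih =>
      intro hj h
      have := h j hij (Nat.le_succ j)
      rw [ih (by omega) fun k k1 k2 => h k k1 (by omega)]
      exact inn j hj _ (by omega)
  have fin : ∀ (i j : ℕ) (m : ℤ), i ≤ 2 * sz T → j ≤ 2 * sz T → m ≤ lab T i → m ≤ lab T j →
      g i (a + m - 1) = g j (a + m - 1) →
      (dW t (g i (a + lab T i)) (g j (a + lab T j)) : ℤ) ≤ lab T i + lab T j - 2 * m + 2 := by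
    intro i j m hi hj h1 h2 h
    have c1 := chain i hi (lab T i - m + 1).toNat
    have c2 := chain j hj (lab T j - m + 1).toNat
    rw [show a + lab T i - ((lab T i - m + 1).toNat : ℤ) = a + m - 1 by omega, h] at c1
    rw [show a + lab T j - ((lab T j - m + 1).toNat : ℤ) = a + m - 1 by omega] at c2
    have := M1.dW_le (c1.trans c2.symm)
    omega
  have pos : ∀ i, i ≤ 2 * sz T → 1 ≤ dW t v (g i (a + lab T i)) := fun i hi => by
    refine Nat.pos_of_ne_zero fun h => ne i hi ?_
    exact Eq.symm ((M1.within_iff ht (k := 0)).2 h.le)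
  refine ⟨⟨by rw [ht_zero]; rfl, by rw [ht_end]; rfl, fun i hi => ?_, fun i _ => by positivity,
    fun i j hij hj => ?_⟩, ne, onto, ⟨1 - a - b, fun i hi => ?_, fun i hi => ?_, ?_⟩,
    fun i j m hij hj h => ?_, fun i j m hij hj h => ?_⟩
  · have := ht_step T i hi
    omega
  · rw [iff i j (by omega) hj, lv_iff T i j hij hj]
    simp only [Nat.cast_inj, Nat.cast_le]
  · have := lbl i hi
    omega
  · have := lbl i hi
    have := pos i hi
    omega
  · obtain ⟨y, hy⟩ := cvs_nbr ht v (dW t v (g 0 (a + lab T 0)) - 1) (g 0 (a + lab T 0))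
      (by have := pos 0 (Nat.zero_le _); omega)
    obtain ⟨i, hi, rfl⟩ := onto y fun e => by
      rw [e, M1.dW_self] at hy
      omega
    have := lbl i hi
    exact ⟨i, hi, by omega⟩
  · exact fin i j m (by omega) hj (h i le_rfl hij) (h j hij le_rfl) (merge i m j hij hj h)
  · refine fin i j m (by omega) hj (h i (by omega) (Or.inl le_rfl)) (h j hj (Or.inr le_rfl)) ?_
    have h0 := h 0 (Nat.zero_le _) (Or.inl (Nat.zero_le _))
    rw [lab_zero] at h0
    rw [← merge 0 m i (Nat.zero_le _) (by omega) fun k _ k2 => h k (by omega) (Or.inl k2),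
      merge j m _ hj le_rfl fun k k1 k2 => h k k2 (Or.inr k1), wrap _ (by omega)]

theorem cvs_onto (N : ℕ) : ∃ dec : Bool × LTree → PD, ∀ t v, ok t → per t = 1 → edges t < N →
    ∃ x c, dec x = ⟨t, v⟩ ∧ sz x.2 = size t ∧ IsCvs (size t) x.2 t v c := by
  obtain ⟨d1, h1⟩ := dec_all N 1 (fun p => if p = 1 then 1 else 0) ⟨rfl, fun p hp => by
    obtain rfl | rfl : p = 0 ∨ p = 1 := by omega
    exacts [Or.inl rfl, Or.inr rfl]⟩
  obtain ⟨d2, h2⟩ := dec_all N 1 (fun p => if p = 1 then -1 else 0) ⟨rfl, fun p hp => by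
    obtain rfl | rfl : p = 0 ∨ p = 1 := by omega
    exacts [Or.inr rfl, Or.inl rfl]⟩
  refine ⟨fun x => if x.1 then d1 fun p => if p = 1 then x.2 else leaf
    else d2 fun p => if p = 0 then x.2 else leaf, fun t v ht hp hN => ?_⟩
  obtain ⟨a1, a2⟩ := M1.dW_spec ht v
  have lf : ∀ s : ℤ, (dW t v (bv t 1) : ℤ) - dW t v (bv t 0) = s →
      LabF t (fun p => if p = 1 then s else 0) v
        fun x => (dW t v x : ℤ) - dW t v (bv t 0) := fun s hs => by
    refine ⟨fun p a => ?_, fun x y a => by have := a1 x y a; omega, fun x a => ?_⟩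
    · obtain rfl | rfl | rfl : p = 0 ∨ p = 1 ∨ p = 2 := by omega
      · exact sub_self _
      · exact hs
      · rw [show 2 = 2 * per t by omega, bv_end t ht, if_neg (by omega)]
        exact sub_self _
    · obtain ⟨y, b1, b2⟩ := a2 x a
      exact ⟨y, b1, by omega⟩
  have h01 := a1 _ _ (adj_bv t ht 0 (by omega))
  rw [zero_add] at h01
  rcases h01 with h | h
  · obtain ⟨F, G, k1, H⟩ := h2 t v _ ht hp hN (lf (-1) (by omega))
    have hD : ∀ p, Dn (fun p => if p = 1 then (-1 : ℤ) else 0) (2 * per t) p ↔ p = 0 := fun p => by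
      unfold Dn
      beta_reduce
      rw [hp]
      split_ifs <;> omega
    have hF : ∀ p, p ≠ 0 → F p = leaf := fun p a => H.norm p fun b => a ((hD p).1 b)
    have hs : sz (F 0) = size t := by
      rw [← H.sum, hp, sum_range_succ, sum_range_one, hF 1 one_ne_zero]; rfl
    have d0 := (hD 0).2 rfl
    refine ⟨(false, F 0), fun i => G 0 i (0 + lab (F 0) i), ?_, hs, ?_⟩
    · rw [← k1]
      show d2 _ = d2 F
      congr 1
      funext p
      split_ifs with a
      · rw [a]
      · exact (hF p a).symm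
    · rw [← hs]
      refine isCvs_of ht (G 0) (H.step 0 (Nat.zero_le _)) (H.inn 0) (fun x hx => ?_) (H.lbl 0 d0)
        (fun i j hi hj => (H.iff 0 0 d0 d0 i j hi hj).trans (and_iff_right rfl)) (fun z hz => ?_)
        (H.ne 0 d0)
      · have n0 := H.nxt 0 (by omega) x hx.le (by show x ≤ -1; omega)
        have n1 := H.nxt 1 (by omega) x (by show x ≤ -1; omega) hx.le
        rw [hF 1 one_ne_zero] at n1
        have n2 := congrFun H.clos x
        rw [hp] at n2
        exact (n0.trans n1).trans n2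
      · obtain ⟨p, b1, i, b2, b3⟩ := H.onto z hz
        obtain rfl := (hD p).1 b1
        exact ⟨i, b2, b3⟩
  · obtain ⟨F, G, k1, H⟩ := h1 t v _ ht hp hN (lf 1 (by omega))
    have hD : ∀ p, Dn (fun p => if p = 1 then (1 : ℤ) else 0) (2 * per t) p ↔ p = 1 := fun p => by
      unfold Dn
      beta_reduce
      rw [hp]
      split_ifs <;> omega
    have hF : ∀ p, p ≠ 1 → F p = leaf := fun p a => H.norm p fun b => a ((hD p).1 b)
    have hs : sz (F 1) = size t := by
      rw [← H.sum, hp, sum_range_succ, sum_range_one, hF 0 zero_ne_one]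
      exact (zero_add _).symm
    have d0 := (hD 1).2 rfl
    refine ⟨(true, F 1), fun i => G 1 i (1 + lab (F 1) i), ?_, hs, ?_⟩
    · rw [← k1]
      show d1 _ = d1 F
      congr 1
      funext p
      split_ifs with a
      · rw [a]
      · exact (hF p a).symm
    · rw [← hs]
      refine isCvs_of ht (G 1) (H.step 1 (by omega)) (H.inn 1) (fun x hx => ?_) (H.lbl 1 d0)
        (fun i j hi hj => (H.iff 1 1 d0 d0 i j hi hj).trans (and_iff_right rfl)) (fun z hz => ?_)
        (H.ne 1 d0)
      · have n1 := H.nxt 1 (by omega) x hx.le (by show x ≤ 0; omega)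
        have n0 := H.nxt 0 (by omega) x (by show x ≤ 0; omega) hx.le
        rw [hF 0 zero_ne_one] at n0
        have n2 := congrFun H.clos x
        rw [hp] at n2
        exact (n1.trans n2).trans n0
      · obtain ⟨p, b1, i, b2, b3⟩ := H.onto z hz
        obtain rfl := (hD p).1 b1
        exact ⟨i, b2, b3⟩

end Pool.Agent.QL.BM
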