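import Mathlib

/-! The pseudo-metrics coded by a pair of functions `(e, Z)` on `[0,1]`. -/

open Set
open scoped unitInterval

namespace Pool.Agent.QL

/-- The minimum of `f` over `A`. -/
noncomputable def mn (f : I → ℝ) (A : Set I) : ℝ := sInf (f '' A)

/-- The tree pseudo-metric coded by `e`. -/
noncomputable def dE (e : I → ℝ) (s t : I) : ℝ := e s + e t - 2 * mn e (uIcc s t)

/-- `D°(s,t) = Z s + Z t - 2 max (min of Z between s and t, min of Z on the other cyclic arc)`. -/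
noncomputable def D0 (Z : I → ℝ) (s t : I) : ℝ :=
  Z s + Z t - 2 * max (mn Z (uIcc s t)) (mn Z (Iic (min s t) ∪ Ici (max s t)))

/-- `D*(s,t)`: infimum of `∑ D°(a i, b i)` over chains `a 0 = s`, `b k = t`,
`d_e(b i, a (i+1)) = 0`. -/
noncomputable def Dst (e Z : I → ℝ) (s t : I) : ℝ :=
  sInf {r | ∃ (k : ℕ) (a b : ℕ → I), a 0 = s ∧ b k = t ∧ (∀ i < k, dE e (b i) (a (i + 1)) = 0) ∧
    r = ∑ i ∈ Finset.range (k + 1), D0 Z (a i) (b i)}

end Pool.Agent.QL
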