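import Pool.Agent.P.MP_7a6434d8_pr.QL.BM.ExcCnt

/-!
Local limit theorem for the simple random walk (from Stirling's formula).
-/

namespace Pool.Agent.QL.BM.Exc

open Filter Topology Real

/-- Gaussian density with variance `t` -/
noncomputable def gau (t x : ℝ) : ℝ := (√(2 * π * t))⁻¹ * exp (-x ^ 2 / (2 * t))

theorem ent_bound {u : ℝ} (hu : |u| ≤ 1 / 2) :
    |(1 + u) * log (1 + u) + (1 - u) * log (1 - u) - u ^ 2| ≤ 6 * |u| ^ 3 := by
  have h1 : |u| < 1 := by linarith
  have h1' : |-u| < 1 := by rwa [abs_neg]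
  have a := Real.abs_log_sub_add_sum_range_le h1 2
  have b := Real.abs_log_sub_add_sum_range_le h1' 2
  simp only [Finset.sum_range_succ, Finset.sum_range_zero, abs_neg] at a b
  norm_num at a b
  have hd : |u| ^ 3 / (1 - |u|) ≤ 2 * |u| ^ 3 := by
    rw [div_le_iff₀ (by linarith)]
    have : 0 ≤ |u| ^ 3 := by positivity
    nlinarith
  set r1 := u + u ^ 2 / 2 + log (1 - u) with hr1
  set r2 := -u + u ^ 2 / 2 + log (1 + u) with hr2
  have e : (1 + u) * log (1 + u) + (1 - u) * log (1 - u) - u ^ 2 = (1 + u) * r2 + (1 - u) * r1 := by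
    rw [hr1, hr2]; ring
  have ha : |r1| ≤ 2 * |u| ^ 3 := a.trans hd
  have hb : |r2| ≤ 2 * |u| ^ 3 := b.trans hd
  have hu' := abs_le.1 hu
  rw [e]
  calc |(1 + u) * r2 + (1 - u) * r1| ≤ |(1 + u) * r2| + |(1 - u) * r1| := abs_add_le _ _
    _ = (1 + u) * |r2| + (1 - u) * |r1| := by
        rw [abs_mul, abs_mul, abs_of_nonneg (by linarith : (0 : ℝ) ≤ 1 + u),
          abs_of_nonneg (by linarith : (0 : ℝ) ≤ 1 - u)]
    _ ≤ (1 + u) * (2 * |u| ^ 3) + (1 - u) * (2 * |u| ^ 3) := by
        gcongr <;> linarith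
    _ ≤ 6 * |u| ^ 3 := by
        have : 0 ≤ |u| ^ 3 := by positivity
        nlinarith

theorem fact_eq {n : ℕ} (hn : n ≠ 0) :
    (n.factorial : ℝ) = Stirling.stirlingSeq n * (√(2 * n) * exp (n * log n - n)) := by
  have hn' : (0 : ℝ) < n := by positivity
  have e : ((n : ℝ) / exp 1) ^ n = exp (n * log n - n) := by
    rw [div_pow, ← exp_nat_mul, mul_one, exp_sub, exp_nat_mul, exp_log hn']
  rw [Stirling.stirlingSeq, e, div_mul_cancel₀]
  positivity

theorem choose_eq {a b : ℕ} (ha : a ≠ 0) (hb : b ≠ 0) :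
    ((a + b).choose a : ℝ) / 2 ^ (a + b) =
      Stirling.stirlingSeq (a + b) / (Stirling.stirlingSeq a * Stirling.stirlingSeq b) *
        (√(2 * ((a : ℝ) + b)) / (√(2 * a) * √(2 * b))) *
        exp (-(((a : ℝ) + b) / 2 *
          ((1 + (a - b) / (a + b)) * log (1 + (a - b) / (a + b)) +
            (1 - (a - b) / (a + b)) * log (1 - (a - b) / (a + b))))) := by
  have ha' : (0 : ℝ) < a := by positivity
  have hb' : (0 : ℝ) < b := by positivity
  have hsa : 0 < Stirling.stirlingSeq a := by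
    obtain ⟨a, rfl⟩ := Nat.exists_eq_succ_of_ne_zero ha
    exact Stirling.stirlingSeq'_pos a
  have hsb : 0 < Stirling.stirlingSeq b := by
    obtain ⟨b, rfl⟩ := Nat.exists_eq_succ_of_ne_zero hb
    exact Stirling.stirlingSeq'_pos b
  have hc : ((a + b).choose a : ℝ) = (a + b).factorial / (a.factorial * b.factorial) := by
    rw [Nat.cast_add_choose]
  have e1 : (1 : ℝ) + (a - b) / (a + b) = 2 * a / (a + b) := by field_simp; ring
  have e2 : (1 : ℝ) - (a - b) / (a + b) = 2 * b / (a + b) := by field_simp; ring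
  have l1 : log (2 * (a : ℝ) / (a + b)) = log 2 + log a - log (a + b) := by
    rw [log_div (by positivity) (by positivity), log_mul (by positivity) (by positivity)]
  have l2 : log (2 * (b : ℝ) / (a + b)) = log 2 + log b - log (a + b) := by
    rw [log_div (by positivity) (by positivity), log_mul (by positivity) (by positivity)]
  have p2 : (2 : ℝ) ^ (a + b) = exp (((a : ℝ) + b) * log 2) := by
    rw [← Nat.cast_add, exp_nat_mul, exp_log (by norm_num)]
  have ex : exp (-(((a : ℝ) + b) / 2 * (2 * a / (a + b) * (log 2 + log a - log (a + b)) +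
      2 * b / (a + b) * (log 2 + log b - log (a + b))))) =
      exp (((a : ℝ) + b) * log (a + b) - (a + b)) /
        (exp (a * log a - a) * exp (b * log b - b) * exp (((a : ℝ) + b) * log 2)) := by
    rw [← exp_add, ← exp_add, ← exp_sub]
    congr 1
    field_simp
    ring
  rw [hc, fact_eq ha, fact_eq hb, fact_eq (by omega : a + b ≠ 0), e1, e2, l1, l2, p2, ex]
  push_cast
  field_simp

variable {ι : Type*} {L : Filter ι}

theorem tendsto_nat_atTop {a : ι → ℕ} {s : ι → ℝ} {c : ℝ} (hs : Tendsto s L atTop) (hc : 0 < c)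
    (h : Tendsto (fun n => (a n : ℝ) / s n ^ 2) L (𝓝 c)) : Tendsto a L atTop := by
  have h2 : Tendsto (fun n => (a n : ℝ) / s n ^ 2 * s n ^ 2) L atTop :=
    h.pos_mul_atTop hc ((tendsto_pow_atTop two_ne_zero).comp hs)
  rw [← tendsto_natCast_atTop_iff (R := ℝ)]
  refine h2.congr' ?_
  filter_upwards [hs.eventually_gt_atTop 0] with n hn
  field_simp

theorem llt_choose {a b : ι → ℕ} {s : ι → ℝ} {t x : ℝ} (hs : Tendsto s L atTop) (ht : 0 < t)
    (hm : Tendsto (fun n => ((a n : ℝ) + b n) / s n ^ 2) L (𝓝 t))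
    (hz : Tendsto (fun n => ((a n : ℝ) - b n) / s n) L (𝓝 x)) :
    Tendsto (fun n => s n / 2 * (((a n + b n).choose (a n) : ℝ) / 2 ^ (a n + b n))) L
      (𝓝 (gau t x)) := by
  have hsi : Tendsto (fun n => (s n)⁻¹) L (𝓝 0) := tendsto_inv_atTop_zero.comp hs
  have hpos := hs.eventually_gt_atTop 0
  have hz2 : Tendsto (fun n => ((a n : ℝ) - b n) / s n ^ 2) L (𝓝 0) := by
    have := hz.mul hsi
    rw [mul_zero] at this
    refine this.congr fun n => ?_
    rw [sq, ← div_div, div_eq_mul_inv (_ / _)]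
  have ha : Tendsto (fun n => (a n : ℝ) / s n ^ 2) L (𝓝 (t / 2)) := by
    have := (hm.add hz2).div_const 2
    rw [add_zero] at this
    exact this.congr fun n => by ring
  have hb : Tendsto (fun n => (b n : ℝ) / s n ^ 2) L (𝓝 (t / 2)) := by
    have := (hm.sub hz2).div_const 2
    rw [sub_zero] at this
    exact this.congr fun n => by ring
  have hat := tendsto_nat_atTop hs (half_pos ht) ha
  have hbt := tendsto_nat_atTop hs (half_pos ht) hb
  have habt : Tendsto (fun n => a n + b n) L atTop :=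
    tendsto_atTop_mono (fun n => Nat.le_add_right _ _) hat
  have st := Stirling.tendsto_stirlingSeq_sqrt_pi
  have hpi : 0 < √π := sqrt_pos.2 pi_pos
  have f1 : Tendsto (fun n => Stirling.stirlingSeq (a n + b n) /
      (Stirling.stirlingSeq (a n) * Stirling.stirlingSeq (b n))) L (𝓝 (√π / (√π * √π))) :=
    (st.comp habt).div ((st.comp hat).mul (st.comp hbt)) (by positivity)
  have f2 : Tendsto (fun n => s n / 2 *
      (√(2 * ((a n : ℝ) + b n)) / (√(2 * a n) * √(2 * b n)))) L
      (𝓝 (1 / 2 * (√(2 * t) / (√(2 * (t / 2)) * √(2 * (t / 2)))))) := by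
    have := (((hm.const_mul 2).sqrt).div (((ha.const_mul 2).sqrt).mul ((hb.const_mul 2).sqrt))
      (by positivity)).const_mul (1 / 2)
    refine this.congr' ?_
    filter_upwards [hpos, hat.eventually_gt_atTop 0, hbt.eventually_gt_atTop 0] with n hn h1 h2
    have h1' : (0 : ℝ) < a n := by exact_mod_cast h1
    have h2' : (0 : ℝ) < b n := by exact_mod_cast h2
    have k : ∀ y : ℝ, √(2 * (y / s n ^ 2)) = √(2 * y) / s n := by
      intro y
      rw [← mul_div_assoc, sqrt_div' _ (by positivity), sqrt_sq hn.le]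
    simp only [Pi.div_apply, k]
    have : 0 < √(2 * (a n : ℝ)) := by positivity
    have : 0 < √(2 * (b n : ℝ)) := by positivity
    field_simp
  set u : ι → ℝ := fun n => ((a n : ℝ) - b n) / (a n + b n) with hu
  have hu0 : Tendsto u L (𝓝 0) := by
    have := hz2.div hm ht.ne'
    rw [zero_div] at this
    refine this.congr' ?_
    filter_upwards [hpos] with n hn
    simp only [hu, Pi.div_apply]
    rw [div_div_div_cancel_right₀ (by positivity)]
  have hmain : Tendsto (fun n => ((a n : ℝ) + b n) / 2 * u n ^ 2) L (𝓝 (x ^ 2 / (2 * t))) := by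
    have := (hz.pow 2).div (hm.const_mul 2) (by positivity)
    refine this.congr' ?_
    filter_upwards [hpos, hat.eventually_gt_atTop 0] with n hn h1
    have h1' : (0 : ℝ) < a n := by exact_mod_cast h1
    have : (0 : ℝ) < a n + b n := by positivity
    simp only [hu, Pi.div_apply]
    field_simp
  have herr : Tendsto (fun n => ((a n : ℝ) + b n) / 2 *
      ((1 + u n) * log (1 + u n) + (1 - u n) * log (1 - u n) - u n ^ 2)) L (𝓝 0) := by
    have hb0 : Tendsto (fun n => ((a n : ℝ) + b n) / 2 * u n ^ 2 * (6 * |u n|)) L (𝓝 0) := by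
      have := hmain.mul (hu0.abs.const_mul 6)
      simpa using this
    refine squeeze_zero_norm' ?_ hb0
    have hev : ∀ᶠ n in L, |u n| ≤ 1 / 2 := by
      have := hu0.abs
      rw [abs_zero] at this
      exact this.eventually (ge_mem_nhds (by norm_num))
    filter_upwards [hev] with n hn
    have h0 : (0 : ℝ) ≤ ((a n : ℝ) + b n) / 2 := by positivity
    rw [norm_eq_abs, abs_mul, abs_of_nonneg h0, mul_assoc]
    refine mul_le_mul_of_nonneg_left ((ent_bound hn).trans (le_of_eq ?_)) h0
    rw [← sq_abs (u n)]; ring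
  have f3 : Tendsto (fun n => exp (-(((a n : ℝ) + b n) / 2 *
      ((1 + u n) * log (1 + u n) + (1 - u n) * log (1 - u n))))) L
      (𝓝 (exp (-(x ^ 2 / (2 * t))))) := by
    refine (continuous_exp.tendsto _).comp (Tendsto.neg ?_)
    have := hmain.add herr
    rw [add_zero] at this
    exact this.congr fun n => by ring
  have fin := (f1.mul f2).mul f3
  have ev : √π / (√π * √π) * (1 / 2 * (√(2 * t) / (√(2 * (t / 2)) * √(2 * (t / 2))))) *
      exp (-(x ^ 2 / (2 * t))) = gau t x := by
    have h1 : √(2 * π * t) = √2 * √π * √t := by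
      rw [sqrt_mul (by positivity), sqrt_mul (by positivity)]
    have h2 : √(2 * t) = √2 * √t := by rw [sqrt_mul (by positivity)]
    have h3 : 2 * (t / 2) = t := by ring
    have h4 : 0 < √t := sqrt_pos.2 ht
    have h5 : √2 * √2 = 2 := mul_self_sqrt (by norm_num)
    have h6 : 0 < √2 := by positivity
    rw [gau, h1, h2, h3, neg_div]
    congr 1
    field_simp
    nlinarith
  rw [ev] at fin
  refine fin.congr' ?_
  filter_upwards [hat.eventually_gt_atTop 0, hbt.eventually_gt_atTop 0] with n h1 h2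
  rw [choose_eq h1.ne' h2.ne']
  simp only [hu]
  ring

/-- local limit theorem -/
theorem llt {m : ι → ℕ} {z : ι → ℤ} {s : ι → ℝ} {t x : ℝ} (hs : Tendsto s L atTop) (ht : 0 < t)
    (hm : Tendsto (fun n => (m n : ℝ) / s n ^ 2) L (𝓝 t))
    (hz : Tendsto (fun n => (z n : ℝ) / s n) L (𝓝 x)) (hp : ∀ᶠ n in L, Even (z n + m n)) :
    Tendsto (fun n => s n / 2 * ((Bn (m n) (z n) : ℝ) / 2 ^ m n)) L (𝓝 (gau t x)) := by
  have hsi : Tendsto (fun n => (s n)⁻¹) L (𝓝 0) := tendsto_inv_atTop_zero.comp hs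
  have hpos := hs.eventually_gt_atTop 0
  have hz2 : Tendsto (fun n => (z n : ℝ) / s n ^ 2) L (𝓝 0) := by
    have := hz.mul hsi
    rw [mul_zero] at this
    refine this.congr fun n => ?_
    rw [sq, ← div_div, div_eq_mul_inv (_ / _)]
  have e1 : ∀ᶠ n in L, 0 < (m n : ℝ) / s n ^ 2 + (z n : ℝ) / s n ^ 2 :=
    (hm.add hz2).eventually (lt_mem_nhds (by simpa using ht))
  have e2 : ∀ᶠ n in L, 0 < (m n : ℝ) / s n ^ 2 - (z n : ℝ) / s n ^ 2 :=
    (hm.sub hz2).eventually (lt_mem_nhds (by simpa using ht))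
  set a : ι → ℕ := fun n => ((m n + z n) / 2).toNat with ha
  set b : ι → ℕ := fun n => ((m n - z n) / 2).toNat with hb
  have key : ∀ᶠ n in L, a n + b n = m n ∧ (a n : ℤ) - b n = z n := by
    filter_upwards [hpos, e1, e2, hp] with n hn h1 h2 h3
    rw [← add_div] at h1
    rw [← sub_div] at h2
    have h1' : (0 : ℝ) < m n + z n := (div_pos_iff_of_pos_right (by positivity)).1 h1
    have h2' : (0 : ℝ) < m n - z n := (div_pos_iff_of_pos_right (by positivity)).1 h2
    have h1'' : (0 : ℤ) < m n + z n := by exact_mod_cast h1'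
    have h2'' : (0 : ℤ) < m n - z n := by exact_mod_cast h2'
    obtain ⟨c, hc⟩ := h3
    simp only [ha, hb]
    omega
  have h := llt_choose (L := L) (a := a) (b := b) (x := x) hs ht
    (hm.congr' (by
      filter_upwards [key] with n hn
      rw [← hn.1]; push_cast; rfl))
    (hz.congr' (by
      filter_upwards [key] with n hn
      rw [← hn.2]; push_cast; rfl))
  refine h.congr' ?_
  filter_upwards [key] with n hn
  have : z n = 2 * (a n : ℤ) - (m n : ℤ) := by
    have := hn.1; have := hn.2; omega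
  rw [this, Bn_choose, hn.1]

end Pool.Agent.QL.BM.Exc
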