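import Pool.Agent.P.MP_7a6434d8_pr.QL.BM.ExcLLT
import Pool.Agent.P.MP_7a6434d8_pr.QL.BM.ExcDens

/-!
Local limits for nonnegative paths and for the heights of a uniform Dyck path at finitely many
times.
-/

namespace Pool.Agent.QL.BM.Exc

open Filter Topology Real Finset
open scoped unitInterval

variable {ι : Type*} {L : Filter ι}

theorem gau_eq (t x : ℝ) : gau t x = bmDens t x := rfl

theorem tendsto_add_div {z : ι → ℝ} {s : ι → ℝ} {x : ℝ} (hs : Tendsto s L atTop)
    (hz : Tendsto (fun n => z n / s n) L (𝓝 x)) (c : ℝ) :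
    Tendsto (fun n => (z n + c) / s n) L (𝓝 x) := by
  have := hz.add (tendsto_const_nhds (x := c).div_atTop hs)
  rw [add_zero] at this
  exact this.congr fun n => by ring

theorem lim_mid {m : ι → ℕ} {x y : ι → ℤ} {s : ι → ℝ} {t a b : ℝ} (hs : Tendsto s L atTop)
    (ht : 0 < t) (hm : Tendsto (fun n => (m n : ℝ) / s n ^ 2) L (𝓝 t))
    (hx : Tendsto (fun n => (x n : ℝ) / s n) L (𝓝 a))
    (hy : Tendsto (fun n => (y n : ℝ) / s n) L (𝓝 b))
    (hx0 : ∀ᶠ n in L, 0 ≤ x n) (hy0 : ∀ᶠ n in L, 0 ≤ y n)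
    (hp : ∀ᶠ n in L, Even (x n + y n + m n)) :
    Tendsto (fun n => s n / 2 * ((Nn (m n) (x n) (y n) : ℝ) / 2 ^ m n)) L (𝓝 (pKill t a b)) := by
  have h1 := llt (z := fun n => x n - y n) (x := a - b) hs ht hm
    ((hx.sub hy).congr fun n => by push_cast; ring)
    (hp.mono fun n h => by
      rw [show x n - y n + (m n : ℤ) = x n + y n + m n - 2 * y n by ring]
      exact h.sub (even_two_mul _))
  have h2 := llt (z := fun n => x n + y n + 2) (x := a + b) hs ht hm
    ((tendsto_add_div (z := fun n => (x n : ℝ) + y n) hs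
      ((hx.add hy).congr fun n => by ring) 2).congr fun n => by push_cast; ring)
    (hp.mono fun n h => by
      rw [show x n + y n + 2 + (m n : ℤ) = x n + y n + m n + 2 by ring]
      exact h.add even_two)
  refine (h1.sub h2).congr' ?_
  filter_upwards [hx0, hy0] with n h3 h4
  have := Nn_eq (m n) h3 (show -1 ≤ y n by omega)
  rw [show y n - x n = -(x n - y n) by ring, Bn_neg] at this
  have h5 : (Nn (m n) (x n) (y n) : ℝ) = Bn (m n) (x n - y n) - Bn (m n) (x n + y n + 2) := by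
    exact_mod_cast this
  rw [h5]; ring

theorem ballot_real (m : ℕ) {y : ℤ} (hy : 0 ≤ y) :
    (Nn m 0 y : ℝ) = (y + 1) / (m + 1) * Bn (m + 1) (y + 1) := by
  have h : ((m : ℝ) + 1) * Nn m 0 y = (y + 1) * Bn (m + 1) (y + 1) := by
    exact_mod_cast ballot m hy
  field_simp
  linarith

theorem llt_succ {m : ι → ℕ} {y : ι → ℤ} {s : ι → ℝ} {t b : ℝ} (hs : Tendsto s L atTop)
    (ht : 0 < t) (hm : Tendsto (fun n => (m n : ℝ) / s n ^ 2) L (𝓝 t))
    (hy : Tendsto (fun n => (y n : ℝ) / s n) L (𝓝 b)) (hp : ∀ᶠ n in L, Even (y n + m n)) :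
    Tendsto (fun n => s n / 2 * ((Bn (m n + 1) (y n + 1) : ℝ) / 2 ^ (m n + 1))) L
      (𝓝 (gau t b)) :=
  llt (m := fun n => m n + 1) (z := fun n => y n + 1) hs ht
    ((tendsto_add_div ((tendsto_pow_atTop two_ne_zero).comp hs) hm 1).congr fun n => by
      push_cast; rfl)
    ((tendsto_add_div hs hy 1).congr fun n => by push_cast; rfl)
    (hp.mono fun n h => by
      push_cast
      rw [show y n + 1 + ((m n : ℤ) + 1) = y n + m n + 2 by ring]
      exact h.add even_two)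

theorem lim_end {m : ι → ℕ} {y : ι → ℤ} {s : ι → ℝ} {t b : ℝ} (hs : Tendsto s L atTop)
    (ht : 0 < t) (hm : Tendsto (fun n => (m n : ℝ) / s n ^ 2) L (𝓝 t))
    (hy : Tendsto (fun n => (y n : ℝ) / s n) L (𝓝 b)) (hy0 : ∀ᶠ n in L, 0 ≤ y n)
    (hp : ∀ᶠ n in L, Even (y n + m n)) :
    Tendsto (fun n => s n ^ 2 / 4 * ((Nn (m n) 0 (y n) : ℝ) / 2 ^ m n)) L (𝓝 (qHit t b)) := by
  have h1 := llt_succ hs ht hm hy hp
  have h2 := tendsto_add_div ((tendsto_pow_atTop two_ne_zero).comp hs) hm 1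
  have h3 := tendsto_add_div hs hy 1
  refine ((h3.div h2 ht.ne').mul h1).congr' ?_
  filter_upwards [hy0, hs.eventually_gt_atTop 0] with n h4 h5
  rw [ballot_real _ h4, pow_succ]
  simp only [Pi.div_apply, Function.comp_apply]
  field_simp
  ring

theorem tendsto_sq : Tendsto (fun n : ℕ => √(2 * (n : ℝ))) atTop atTop :=
  tendsto_sqrt_atTop.comp (tendsto_natCast_atTop_atTop.const_mul_atTop two_pos)

theorem lim_cat : Tendsto (fun n : ℕ => √(2 * (n : ℝ)) ^ 3 / 4 *
    ((Nn (2 * n) 0 0 : ℝ) / 2 ^ (2 * n))) atTop (𝓝 (√(2 * π))⁻¹) := by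
  have hm : Tendsto (fun n : ℕ => ((2 * n : ℕ) : ℝ) / √(2 * (n : ℝ)) ^ 2) atTop (𝓝 1) := by
    refine tendsto_const_nhds.congr' ?_
    filter_upwards [eventually_gt_atTop 0] with n hn
    have : (0 : ℝ) < n := by exact_mod_cast hn
    rw [sq_sqrt (by positivity)]; push_cast; field_simp
  have h1 := llt_succ (y := fun _ => 0) (b := 0) tendsto_sq one_pos hm (by simp)
    (Eventually.of_forall fun n => by push_cast; simp)
  have h2 := tendsto_add_div ((tendsto_pow_atTop two_ne_zero).comp tendsto_sq) hm 1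
  have h3 := (h2.inv₀ one_ne_zero).mul h1
  have e : (1 : ℝ)⁻¹ * gau 1 0 = (√(2 * π))⁻¹ := by simp [gau]
  rw [e] at h3
  refine h3.congr' ?_
  filter_upwards [tendsto_sq.eventually_gt_atTop 0] with n h5
  rw [ballot_real _ le_rfl, pow_succ]
  simp only [Function.comp_apply]
  field_simp
  push_cast
  ring

/-- number of Dyck paths with heights `z j` at the times `ti j` -/
def cnt (n : ℕ) {k : ℕ} (ti : Fin k → ℕ) (z : Fin k → ℤ) : ℕ :=
  ((Dy n).filter (fun l => ∀ j, ht l (ti j) = z j)).card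

theorem cnt_eq (n : ℕ) {k : ℕ} (ti : Fin (k + 1) → ℕ) (z : Fin (k + 1) → ℤ)
    (hti : ∀ j : Fin k, ti j.castSucc ≤ ti j.succ) (hm : ti (Fin.last k) ≤ 2 * n) :
    cnt n ti z = Nn (ti 0) 0 (z 0) *
      (∏ j : Fin k, Nn (ti j.succ - ti j.castSucc) (z j.castSucc) (z j.succ)) *
        Nn (2 * n - ti (Fin.last k)) (z (Fin.last k)) 0 := by
  set ti' : ℕ → ℕ := fun j => if h : j < k + 1 then ti ⟨j, h⟩ else 0 with hti'
  set z' : ℕ → ℤ := fun j => if h : j < k + 1 then z ⟨j, h⟩ else 0 with hz'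
  have a1 : ∀ j : Fin (k + 1), ti' j = ti j := fun j => by simp only [hti', dif_pos j.2]
  have a2 : ∀ j : Fin (k + 1), z' j = z j := fun j => by simp only [hz', dif_pos j.2]
  have h := cK_prod ti' z' k (2 * n) 0 (by rw [← a1] at hm; exact hm) (fun j hj => by
    have := hti ⟨j, hj⟩
    rw [← a1, ← a1] at this
    exact this)
  have e : cnt n ti z = cK ti' z' (k + 1) (2 * n) 0 := by
    rw [cnt, cK, Dy]
    congr 1
    refine filter_congr fun l _ => ⟨fun H j hj => ?_, fun H j => ?_⟩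
    · have := H ⟨j, hj⟩
      rw [← a1, ← a2] at this
      exact this
    · rw [← a1, ← a2]; exact H j j.2
  rw [e, h, ← a1, ← a1, ← a2, ← a2, prod_range]
  congr 2
  refine prod_congr rfl fun j _ => ?_
  rw [← a1, ← a1, ← a2, ← a2]
  rfl

theorem tele {k : ℕ} (ti : Fin (k + 1) → ℕ) (hti : ∀ j : Fin k, ti j.castSucc ≤ ti j.succ) :
    ti 0 + ∑ j : Fin k, (ti j.succ - ti j.castSucc) = ti (Fin.last k) := by
  have h1 := Fin.sum_univ_succ ti
  have h2 := Fin.sum_univ_castSucc ti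
  have h3 : ∑ j : Fin k, (ti j.succ - ti j.castSucc) + ∑ j : Fin k, ti j.castSucc =
      ∑ j : Fin k, ti j.succ := by
    rw [← sum_add_distrib]
    exact sum_congr rfl fun j _ => Nat.sub_add_cancel (hti j)
  omega

theorem card_Dy_pos (n : ℕ) : 0 < (Dy n).card := by
  rw [card_Dy]
  have h := ballot (2 * n) (y := 0) le_rfl
  have e : (0 : ℤ) + 1 = 2 * ((n + 1 : ℕ) : ℤ) - ((2 * n + 1 : ℕ) : ℤ) := by push_cast; ring
  have h2 : Bn (2 * n + 1) (0 + 1) = (2 * n + 1).choose (n + 1) := by rw [e, Bn_choose]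
  have h3 : 0 < (2 * n + 1).choose (n + 1) := Nat.choose_pos (by omega)
  rw [h2] at h
  rcases Nat.eq_zero_or_pos (Nn (2 * n) 0 0) with h0 | h0
  · rw [h0] at h; simp at h; omega
  · exact h0

theorem ev_times {k : ℕ} {t : Fin (k + 1) → I} (hmono : StrictMono t)
    (h01 : ∀ i, 0 < t i ∧ t i < 1) {ti : ℕ → Fin (k + 1) → ℕ}
    (hti : ∀ j, Tendsto (fun n : ℕ => (ti n j : ℝ) / (2 * n)) atTop (𝓝 (t j))) :
    ∀ᶠ n in atTop, (∀ j : Fin k, ti n j.castSucc ≤ ti n j.succ) ∧ ∀ j, ti n j ≤ 2 * n := by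
  have h1 : ∀ j : Fin k, ∀ᶠ n : ℕ in atTop, ti n j.castSucc ≤ ti n j.succ := by
    intro j
    have hlt : (t j.castSucc : ℝ) < t j.succ := hmono Fin.castSucc_lt_succ
    filter_upwards [(hti _).eventually_lt (hti _) hlt, eventually_gt_atTop 0] with n h hn
    have : (0 : ℝ) < n := by exact_mod_cast hn
    rw [div_lt_div_iff_of_pos_right (by positivity)] at h
    exact_mod_cast h.le
  have h2 : ∀ j, ∀ᶠ n : ℕ in atTop, ti n j ≤ 2 * n := by
    intro j
    have hlt : (t j : ℝ) < 1 := (h01 j).2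
    filter_upwards [(hti j).eventually (gt_mem_nhds hlt), eventually_gt_atTop 0] with n h hn
    have : (0 : ℝ) < n := by exact_mod_cast hn
    rw [div_lt_one (by positivity)] at h
    exact_mod_cast h.le
  exact (eventually_all.2 h1).and (eventually_all.2 h2)

/-- local limit for the heights of a uniform Dyck path at finitely many times -/
theorem lim_cnt {k : ℕ} {t : Fin (k + 1) → I} (hmono : StrictMono t)
    (h01 : ∀ i, 0 < t i ∧ t i < 1) {ti : ℕ → Fin (k + 1) → ℕ}
    (hti : ∀ j, Tendsto (fun n : ℕ => (ti n j : ℝ) / (2 * n)) atTop (𝓝 (t j)))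
    {z : ℕ → Fin (k + 1) → ℤ} {x : Fin (k + 1) → ℝ} (hx : ∀ j, 0 < x j)
    (hz : ∀ j, Tendsto (fun n : ℕ => (z n j : ℝ) / √(2 * (n : ℝ))) atTop (𝓝 (x j)))
    (hp : ∀ n j, Even (z n j + ti n j)) :
    Tendsto (fun n : ℕ => (√(2 * (n : ℝ)) / 2) ^ (k + 1) * ((cnt n (ti n) (z n) : ℝ) / (Dy n).card))
      atTop (𝓝 (2 * √(2 * π) * qHit (t 0) (x 0) *
        (∏ i : Fin k, pKill (t i.succ - t i.castSucc) (x i.castSucc) (x i.succ)) *
        qHit (1 - t (Fin.last k)) (x (Fin.last k)))) := by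
  have hev := ev_times hmono h01 hti
  have hs := tendsto_sq
  have hsq : ∀ n : ℕ, √(2 * (n : ℝ)) ^ 2 = 2 * n := fun n => sq_sqrt (by positivity)
  have hz0 : ∀ j, ∀ᶠ n in atTop, 0 ≤ z n j := by
    intro j
    filter_upwards [(hz j).eventually (lt_mem_nhds (hx j)), hs.eventually_gt_atTop 0] with n h hn
    have := (div_pos_iff_of_pos_right hn).1 h
    exact_mod_cast this.le
  have A := lim_end (m := fun n => ti n 0) (y := fun n => z n 0) hs (h01 0).1
    (by simpa only [hsq] using hti 0) (hz 0) (hz0 0) (Eventually.of_forall fun n => hp n 0)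
  have B : ∀ j : Fin k, Tendsto (fun n : ℕ => √(2 * (n : ℝ)) / 2 *
      ((Nn (ti n j.succ - ti n j.castSucc) (z n j.castSucc) (z n j.succ) : ℝ) /
        2 ^ (ti n j.succ - ti n j.castSucc))) atTop
      (𝓝 (pKill (t j.succ - t j.castSucc) (x j.castSucc) (x j.succ))) := by
    intro j
    have hlt : (t j.castSucc : ℝ) < t j.succ := hmono Fin.castSucc_lt_succ
    refine lim_mid (m := fun n => ti n j.succ - ti n j.castSucc) hs (sub_pos.2 hlt) ?_ (hz _) (hz _)
      (hz0 _) (hz0 _) ?_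
    · refine ((hti j.succ).sub (hti j.castSucc)).congr' ?_
      filter_upwards [hev] with n hn
      rw [hsq, Nat.cast_sub (hn.1 j), sub_div]
    · filter_upwards [hev] with n hn
      rw [Nat.cast_sub (hn.1 j)]
      have h1 := hp n j.succ
      have h2 := hp n j.castSucc
      rw [show z n j.castSucc + z n j.succ + ((ti n j.succ : ℤ) - ti n j.castSucc) =
        (z n j.succ + ti n j.succ) + (z n j.castSucc + ti n j.castSucc) - 2 * ti n j.castSucc by
          ring]
      exact (h1.add h2).sub (even_two_mul _)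
  have C := lim_end (m := fun n => 2 * n - ti n (Fin.last k)) (y := fun n => z n (Fin.last k))
    (t := 1 - t (Fin.last k)) hs (sub_pos.2 (h01 _).2) (by
      refine (tendsto_const_nhds (x := (1 : ℝ)).sub (hti (Fin.last k))).congr' ?_
      filter_upwards [hev, eventually_gt_atTop 0] with n hn hn0
      have : (0 : ℝ) < n := by exact_mod_cast hn0
      rw [hsq, Nat.cast_sub (hn.2 _)]
      push_cast; field_simp) (hz _) (hz0 _) (by
      filter_upwards [hev] with n hn
      rw [Nat.cast_sub (hn.2 _)]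
      have h1 := hp n (Fin.last k)
      push_cast
      rw [show z n (Fin.last k) + (2 * (n : ℤ) - ti n (Fin.last k)) =
        (z n (Fin.last k) + ti n (Fin.last k)) + 2 * (n - ti n (Fin.last k)) by ring]
      exact h1.add (even_two_mul _))
  have hpi : 0 < √(2 * π) := sqrt_pos.2 (by positivity)
  have D := (((A.mul (tendsto_finsetProd univ fun j _ => B j)).mul C).div lim_cat
    (inv_ne_zero hpi.ne')).const_mul 2
  have e : ∀ a b c : ℝ, 2 * (a * b * c / (√(2 * π))⁻¹) = 2 * √(2 * π) * a * b * c := by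
    intro a b c; field_simp
  rw [e] at D
  refine D.congr' ?_
  filter_upwards [hev, hz0 (Fin.last k), hs.eventually_gt_atTop 0] with n hn h0 hsn
  have hc : (0 : ℝ) < Nn (2 * n) 0 0 := by
    have := card_Dy_pos n
    rw [card_Dy] at this
    exact_mod_cast this
  have tl := tele (ti n) hn.1
  have p2 : (2 : ℝ) ^ (2 * n) = 2 ^ ti n 0 * (∏ j : Fin k, 2 ^ (ti n j.succ - ti n j.castSucc)) *
      2 ^ (2 * n - ti n (Fin.last k)) := by
    rw [prod_pow_eq_pow_sum, ← pow_add, ← pow_add, tl, Nat.add_sub_cancel' (hn.2 _)]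
  simp only [Pi.div_apply]
  rw [cnt_eq n (ti n) (z n) hn.1 (hn.2 _), card_Dy, Nn_symm _ h0 le_rfl, prod_mul_distrib,
    prod_const, prod_div_distrib, p2, card_univ, Fintype.card_fin]
  push_cast
  have : (0 : ℝ) < ∏ j : Fin k, (2 : ℝ) ^ (ti n j.succ - ti n j.castSucc) := by positivity
  generalize ∏ j : Fin k, (2 : ℝ) ^ (ti n j.succ - ti n j.castSucc) = P at this ⊢
  generalize ∏ j : Fin k, (Nn (ti n j.succ - ti n j.castSucc) (z n j.castSucc)
    (z n j.succ) : ℝ) = Q
  generalize √(2 * (n : ℝ)) = s at hsn ⊢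
  rw [pow_succ (s / 2) k]
  generalize (s / 2) ^ k = u
  field_simp
  ring

end Pool.Agent.QL.BM.Exc
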