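import Pool.Agent.P.MP_7a6434d8_pr.QL.BM.Dstar

/-! Distinct minima over disjoint intervals, from finite-dimensional densities (shift trick). -/

open MeasureTheory Set Filter Topology
open scoped ENNReal unitInterval

namespace Pool.Agent.QL

theorem good_shift {ι : Type} [Fintype ι] {ρ : (ι → ℝ) → ℝ≥0∞} (hρ : Measurable ρ) (v : ι → ℝ)
    {φ : (ι → ℝ) → ℝ} (hφ : Measurable φ) (hv : ∀ x (δ : ℝ), φ (x + δ • v) = φ x + δ)
    {B : Set (ι → ℝ)} (hB : MeasurableSet B) (κ : ℝ≥0∞)
    (hκ : ∀ x ∈ B, ∀ δ ∈ Icc (0 : ℝ) 1, κ * ρ x ≤ ρ (x + δ • v)) {ε : ℝ} (hε : 0 < ε) (N : ℕ)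
    (hN : 3 * N * ε ≤ 1) :
    N * (κ * volume.withDensity ρ (B ∩ {x | |φ x| ≤ ε})) ≤ volume.withDensity ρ univ := by
  set A : ℕ → Set (ι → ℝ) := fun j => {x | |φ x - 3 * j * ε| ≤ ε} with hA
  have hAm : ∀ j, MeasurableSet (A j) := fun j =>
    measurableSet_le (hφ.sub_const _).abs measurable_const
  have hE : MeasurableSet (B ∩ {x | |φ x| ≤ ε}) :=
    hB.inter (measurableSet_le hφ.abs measurable_const)
  have hone : ∀ j ∈ Finset.range N,
      κ * volume.withDensity ρ (B ∩ {x | |φ x| ≤ ε}) ≤ volume.withDensity ρ (A j) := by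
    intro j hj
    have hj' : (j : ℝ) ≤ N := by exact_mod_cast (Finset.mem_range.1 hj).le
    have hδ : (3 * j * ε : ℝ) ∈ Icc (0 : ℝ) 1 := ⟨by positivity, by nlinarith⟩
    rw [withDensity_apply _ hE, withDensity_apply _ (hAm j), ← lintegral_indicator hE,
      ← lintegral_indicator (hAm j), ← lintegral_const_mul _ (hρ.indicator hE),
      ← lintegral_add_right_eq_self ((A j).indicator ρ) ((3 * j * ε : ℝ) • v)]
    refine lintegral_mono fun x => ?_
    by_cases hx : x ∈ B ∩ {x | |φ x| ≤ ε}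
    · have h2 : x + (3 * j * ε : ℝ) • v ∈ A j := by
        simp only [hA, mem_ofPred_eq, hv, add_sub_cancel_right]
        exact hx.2
      simp only [indicator_of_mem hx, indicator_of_mem h2]
      exact hκ x hx.1 _ hδ
    · simp [indicator_of_notMem hx]
  have hdis : ((Finset.range N : Finset ℕ) : Set ℕ).PairwiseDisjoint A := by
    intro i _ j _ hij
    refine Set.disjoint_left.2 fun x hi hj => ?_
    simp only [hA, mem_ofPred_eq, abs_le] at hi hj
    rcases lt_or_gt_of_ne hij with h | h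
    · have : (i : ℝ) + 1 ≤ j := by exact_mod_cast h
      nlinarith [hi.2, hj.1]
    · have : (j : ℝ) + 1 ≤ i := by exact_mod_cast h
      nlinarith [hi.1, hj.2]
  calc (N : ℝ≥0∞) * (κ * volume.withDensity ρ (B ∩ {x | |φ x| ≤ ε}))
      = ∑ _j ∈ Finset.range N, κ * volume.withDensity ρ (B ∩ {x | |φ x| ≤ ε}) := by simp
    _ ≤ ∑ j ∈ Finset.range N, volume.withDensity ρ (A j) := Finset.sum_le_sum hone
    _ = volume.withDensity ρ (⋃ j ∈ Finset.range N, A j) :=
        (measure_biUnion_finset hdis fun j _ => hAm j).symm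
    _ ≤ _ := measure_mono (subset_univ _)

/-- finite grids approximating the minimum over an interval -/
theorem good_grid {a b : I} (hab : a ≤ b) : ∃ F : ℕ → Finset I, Monotone F ∧
    (∀ n, a ∈ F n) ∧ (∀ n, ∀ s ∈ F n, s ∈ Icc a b) ∧
    ∀ f : I → ℝ, Continuous f → ∀ ε > 0, ∃ n, ∃ s ∈ F n, f s ≤ mn f (Icc a b) + ε := by
  classical
  have : Nonempty (Icc a b) := ⟨⟨a, le_rfl, hab⟩⟩
  obtain ⟨u, hu⟩ := TopologicalSpace.exists_dense_seq (Icc a b)
  refine ⟨fun n => insert a ((Finset.range n).image fun i => (u i).1), ?_, ?_, ?_, ?_⟩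
  · intro m n hmn
    exact Finset.insert_subset_insert _ (Finset.image_subset_image (Finset.range_mono hmn))
  · intro n
    exact Finset.mem_insert_self _ _
  · intro n s hs
    rcases Finset.mem_insert.1 hs with rfl | hs
    · exact ⟨le_rfl, hab⟩
    · obtain ⟨i, -, rfl⟩ := Finset.mem_image.1 hs
      exact (u i).2
  · intro f hf ε hε
    obtain ⟨_, ⟨s, hs, rfl⟩, hlt⟩ := exists_lt_of_csInf_lt
      (⟨f a, mem_image_of_mem f ⟨le_rfl, hab⟩⟩ : (f '' Icc a b).Nonempty)
      (lt_add_of_pos_right (sInf (f '' Icc a b)) hε)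
    have ho : IsOpen {r : Icc a b | f r.1 < sInf (f '' Icc a b) + ε} :=
      isOpen_lt (hf.comp continuous_subtype_val) continuous_const
    obtain ⟨i, hi⟩ := hu.exists_mem_open ho ⟨⟨s, hs⟩, hlt⟩
    exact ⟨i + 1, (u i).1, Finset.mem_insert_of_mem
      (Finset.mem_image.2 ⟨i, Finset.mem_range.2 (Nat.lt_succ_self i), rfl⟩), le_of_lt hi⟩

theorem good_mn_le {f : I → ℝ} (hf : Continuous f) {A : Set I} {s : I} (hs : s ∈ A) :
    mn f A ≤ f s :=
  csInf_le ((isCompact_range hf).bddBelow.mono (image_subset_range f A)) (mem_image_of_mem f hs)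

theorem good_inf_shift {ι : Type} (P : Finset ι) (hP : P.Nonempty) (x v : ι → ℝ) (δ w : ℝ)
    (hv : ∀ i ∈ P, v i = w) : P.inf' hP (x + δ • v) = P.inf' hP x + δ * w := by
  apply le_antisymm
  · obtain ⟨i, hi, h⟩ := Finset.exists_mem_eq_inf' hP x
    rw [h]
    refine (Finset.inf'_le _ hi).trans (le_of_eq ?_)
    simp [hv i hi]
  · refine Finset.le_inf' _ _ fun i hi => ?_
    have := Finset.inf'_le x hi
    simp only [Pi.add_apply, Pi.smul_apply, smul_eq_mul, hv i hi]
    linarith

theorem good_core {Y : Type} [MeasurableSpace Y] (S : Measure Y) [IsFiniteMeasure S]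
    (e : Y → I → ℝ) (hc : ∀ y, Continuous (e y)) (hm : ∀ t, Measurable fun y => e y t)
    (ρ : ∀ k : ℕ, (Fin (k + 1) → I) → (Fin (k + 1) → ℝ) → ℝ≥0∞) (hρ : ∀ k t, Measurable (ρ k t))
    {a b c d : I} (hab : a ≤ b) (hbc : b < c) (hcd : c ≤ d)
    (hfdd : ∀ k (t : Fin (k + 1) → I), StrictMono t → (∀ i, t i ∈ Icc a b ∪ Icc c d) →
      S.map (fun y i => e y (t i)) = volume.withDensity (ρ k t))
    (hshift : ∀ K : ℕ, ∃ κ : ℝ≥0∞, κ ≠ 0 ∧ ∀ k (t : Fin (k + 1) → I), StrictMono t →
      (∀ i, t i ∈ Icc a b ∪ Icc c d) → ∀ x : Fin (k + 1) → ℝ, (∀ i, x i ≤ K) →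
      ∀ δ ∈ Icc (0 : ℝ) 1, κ * ρ k t x ≤ ρ k t (x + δ • fun i => if c ≤ t i then (1 : ℝ) else 0)) :
    ∀ᵐ y ∂S, mn (e y) (Icc a b) ≠ mn (e y) (Icc c d) := by
  classical
  obtain ⟨F, hFm, hFa, hF, hFd⟩ := good_grid hab
  obtain ⟨G, hGm, hGc, hG, hGd⟩ := good_grid hcd
  have key : ∀ K : ℕ, S {y | (∀ t, e y t ≤ K) ∧ mn (e y) (Icc a b) = mn (e y) (Icc c d)} = 0 := by
    intro K
    obtain ⟨κ, hκ0, hκ⟩ := hshift K
    have hN : ∀ N : ℕ, (N : ℝ≥0∞) * (κ * S {y | (∀ t, e y t ≤ K) ∧
        mn (e y) (Icc a b) = mn (e y) (Icc c d)}) ≤ S univ := by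
      intro N
      obtain ⟨ε, hε, hNε⟩ : ∃ ε : ℝ, 0 < ε ∧ 3 * N * ε ≤ 1 := by
        refine ⟨1 / (3 * N + 1), by positivity, ?_⟩
        rw [mul_one_div, div_le_one (by positivity)]
        linarith
      set E : ℕ → Set Y := fun n => {y | (∀ t, e y t ≤ K) ∧
        |(G n).inf' ⟨c, hGc n⟩ (e y) - (F n).inf' ⟨a, hFa n⟩ (e y)| ≤ ε} with hE
      have hEn : ∀ n, (N : ℝ≥0∞) * (κ * S (E n)) ≤ S univ := by
        intro n
        obtain ⟨k, hk⟩ : ∃ k, (F n ∪ G n).card = k + 1 :=
          Nat.exists_eq_succ_of_ne_zero (Finset.card_ne_zero.2 ⟨a, Finset.mem_union_left _ (hFa n)⟩)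
        set t : Fin (k + 1) → I := fun i => (F n ∪ G n).orderEmbOfFin hk i with ht
        have htm : StrictMono t := ((F n ∪ G n).orderEmbOfFin hk).strictMono
        have htF : ∀ i, t i ∈ F n ∪ G n := fun i => Finset.orderEmbOfFin_mem _ hk i
        have hts : ∀ s ∈ F n ∪ G n, ∃ i, t i = s := by
          intro s hs
          have : s ∈ range ((F n ∪ G n).orderEmbOfFin hk) := by
            rw [Finset.range_orderEmbOfFin]
            exact Finset.mem_coe.2 hs
          exact this
        have htI : ∀ i, t i ∈ Icc a b ∪ Icc c d := fun i => by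
          rcases Finset.mem_union.1 (htF i) with h | h
          · exact Or.inl (hF n _ h)
          · exact Or.inr (hG n _ h)
        have hP : (Finset.univ.filter fun i => t i ∈ F n).Nonempty := by
          obtain ⟨i, hi⟩ := hts a (Finset.mem_union_left _ (hFa n))
          exact ⟨i, by simp [hi, hFa n]⟩
        have hQ : (Finset.univ.filter fun i => t i ∈ G n).Nonempty := by
          obtain ⟨i, hi⟩ := hts c (Finset.mem_union_right _ (hGc n))
          exact ⟨i, by simp [hi, hGc n]⟩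
        set φ : (Fin (k + 1) → ℝ) → ℝ := fun x => Finset.inf' _ hQ x - Finset.inf' _ hP x with hφ
        have hφm : Measurable φ :=
          ((Continuous.finset_inf'_apply hQ fun i _ => continuous_apply i).sub
            (Continuous.finset_inf'_apply hP fun i _ => continuous_apply i)).measurable
        have hv : ∀ x (δ : ℝ),
            φ (x + δ • fun i => if c ≤ t i then (1 : ℝ) else 0) = φ x + δ := by
          intro x δ
          simp only [hφ]
          rw [good_inf_shift _ hQ x _ δ 1, good_inf_shift _ hP x _ δ 0]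
          · ring
          · intro i hi
            exact if_neg (not_le.2 ((hF n _ (Finset.mem_filter.1 hi).2).2.trans_lt hbc))
          · intro i hi
            exact if_pos (hG n _ (Finset.mem_filter.1 hi).2).1
        have hB : MeasurableSet {x : Fin (k + 1) → ℝ | ∀ i, x i ≤ K} := by
          rw [ofPred_forall]
          exact MeasurableSet.iInter fun i =>
            measurableSet_le (measurable_pi_apply i) measurable_const
        have h1 := good_shift (hρ k t) _ hφm hv hB κ (hκ k t htm htI) hε N hNε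
        have hX : Measurable fun y i => e y (t i) := measurable_pi_lambda _ fun i => hm _
        rw [← hfdd k t htm htI, Measure.map_apply hX MeasurableSet.univ, preimage_univ,
          Measure.map_apply hX (hB.inter (measurableSet_le hφm.abs measurable_const))] at h1
        refine le_trans (mul_le_mul_right (mul_le_mul_right (measure_mono ?_) _) _) h1
        intro y hy
        refine ⟨fun i => hy.1 _, ?_⟩
        have himg : ∀ (H : Finset I) (hH : H.Nonempty) (_ : H ⊆ F n ∪ G n)
            (hR : (Finset.univ.filter fun i => t i ∈ H).Nonempty),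
            Finset.inf' _ hR (fun i => e y (t i)) = H.inf' hH (e y) := by
          intro H hH hsub hR
          apply le_antisymm
          · refine Finset.le_inf' _ _ fun s hs => ?_
            obtain ⟨i, rfl⟩ := hts s (hsub hs)
            exact Finset.inf'_le (fun i => e y (t i)) (by simp [hs])
          · exact Finset.le_inf' _ _ fun i hi => Finset.inf'_le _ (Finset.mem_filter.1 hi).2
        have := hy.2
        simp only [hφ, mem_ofPred_eq]
        rwa [himg _ ⟨c, hGc n⟩ Finset.subset_union_right, himg _ ⟨a, hFa n⟩ Finset.subset_union_left]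
      have hsub : {y | (∀ t, e y t ≤ K) ∧ mn (e y) (Icc a b) = mn (e y) (Icc c d)} ⊆
          ⋃ m, ⋂ n ≥ m, E n := by
        intro y hy
        obtain ⟨n1, s, hs, hs'⟩ := hFd _ (hc y) ε hε
        obtain ⟨n2, u, hu, hu'⟩ := hGd _ (hc y) ε hε
        refine mem_iUnion.2 ⟨max n1 n2, mem_iInter₂.2 fun n hn => ⟨hy.1, ?_⟩⟩
        have h1 := Finset.inf'_le (e y) (hFm ((le_max_left _ _).trans hn) hs)
        have h2 := Finset.inf'_le (e y) (hGm ((le_max_right _ _).trans hn) hu)
        have h3 : mn (e y) (Icc a b) ≤ (F n).inf' ⟨a, hFa n⟩ (e y) :=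
          Finset.le_inf' _ _ fun r hr => good_mn_le (hc y) (hF n r hr)
        have h4 : mn (e y) (Icc c d) ≤ (G n).inf' ⟨c, hGc n⟩ (e y) :=
          Finset.le_inf' _ _ fun r hr => good_mn_le (hc y) (hG n r hr)
        have h5 := hy.2
        rw [abs_le]
        constructor <;> linarith
      have hmono : Monotone fun m => ⋂ n ≥ m, E n := fun m m' h =>
        biInter_subset_biInter_left fun n hn => le_trans h hn
      refine le_trans (by gcongr) (?_ : (N : ℝ≥0∞) * (κ * S (⋃ m, ⋂ n ≥ m, E n)) ≤ _)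
      rw [hmono.measure_iUnion, ENNReal.mul_iSup, ENNReal.mul_iSup]
      refine iSup_le fun m => le_trans ?_ (hEn m)
      gcongr
      exact biInter_subset_of_mem (le_refl m)
    by_contra h0
    obtain ⟨N, hN'⟩ := ENNReal.exists_nat_mul_gt (mul_ne_zero hκ0 h0) (measure_ne_top S univ)
    exact absurd (hN N) (not_le.2 hN')
  rw [ae_iff]
  refine measure_mono_null (fun y hy => ?_) (measure_iUnion_null key)
  obtain ⟨M, hM⟩ := (isCompact_range (hc y)).bddAbove
  obtain ⟨K, hK⟩ := exists_nat_ge M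
  exact mem_iUnion.2 ⟨K, fun t => (hM (mem_range_self t)).trans hK, not_not.1 hy⟩

end Pool.Agent.QL
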