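import Mathlib

/-! The conditional characteristic function of the labels of a tree given its contour. -/

open MeasureTheory ProbabilityTheory Finset

namespace Pool.Agent.QL

/-- the step `k → k + 1` of the contour `C` goes up along an edge above which `C` stays until
time `i` -/
def opn (C : ℕ → ℤ) (k i : ℕ) : Prop := k < i ∧ ∀ m, k < m → m ≤ i → C k < C m

open Classical in
/-- the label of the corner `i`: sum of the increments along the ancestral line -/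
noncomputable def labOf {N : ℕ} (C : ℕ → ℤ) (d : Fin N → Fin 3) (i : ℕ) : ℤ :=
  ∑ k : Fin N, if opn C k i then ((d k : ℕ) : ℤ) - 1 else 0

/-- the minimum of `C` between `i` and `j` -/
def mnC (C : ℕ → ℤ) (i j : ℕ) : ℤ :=
  (Icc (min i j) (max i j)).inf' (nonempty_Icc.2 min_le_max) C

open Classical in
/-- the conditional characteristic function of the labels -/
noncomputable def labPhi {ι : Type} [Fintype ι] (N : ℕ) (C : ℕ → ℤ) (a : ι → ℕ) (b : ι → ℝ) : ℝ :=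
  ∏ k : Fin N, (1 + 2 * Real.cos (∑ j, if opn C k (a j) then b j else 0)) / 3

theorem mnC_le (C : ℕ → ℤ) {i j m : ℕ} (h1 : min i j ≤ m) (h2 : m ≤ max i j) :
    mnC C i j ≤ C m := inf'_le _ (mem_Icc.2 ⟨h1, h2⟩)

theorem mnC_mem (C : ℕ → ℤ) (i j : ℕ) : ∃ m, min i j ≤ m ∧ m ≤ max i j ∧ mnC C i j = C m := by
  obtain ⟨m, hm, e⟩ := exists_mem_eq_inf' (nonempty_Icc.2 (min_le_max (a := i) (b := j))) C
  exact ⟨m, (mem_Icc.1 hm).1, (mem_Icc.1 hm).2, e⟩

theorem mnC_comm (C : ℕ → ℤ) (i j : ℕ) : mnC C i j = mnC C j i := by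
  simp only [mnC, min_comm i j, max_comm i j]

open Classical in
theorem lab_count_aux {N : ℕ} {C : ℕ → ℤ} (h0 : C 0 = 0)
    (hs : ∀ i < N, C (i + 1) ≤ C i + 1) (hp : ∀ i ≤ N, 0 ≤ C i) {j : ℕ} (hj : j ≤ N) :
    ∀ i ≤ j, (∃ m, i ≤ m ∧ m ≤ j ∧
      (∑ k ∈ range i, if opn C k j then (1 : ℤ) else 0) = C m) ∧
      ∀ m, i ≤ m → m ≤ j → (∑ k ∈ range i, if opn C k j then (1 : ℤ) else 0) ≤ C m := by
  intro i
  induction i with
  | zero => exact fun _ => ⟨⟨0, le_rfl, Nat.zero_le _, by simp [h0]⟩,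
      fun m _ hm => by simpa using hp m (hm.trans hj)⟩
  | succ i ih =>
    intro hi
    obtain ⟨⟨m, h1, h2, h3⟩, h4⟩ := ih (by omega)
    rw [sum_range_succ]
    by_cases ho : opn C i j
    · rw [if_pos ho]
      have h5 := h4 i le_rfl (by omega)
      have hm : m = i := by
        by_contra hne
        have := ho.2 m (by omega) h2
        omega
      subst hm
      have h6 := ho.2 (m + 1) (by omega) hi
      have h7 := hs m (by omega)
      refine ⟨⟨m + 1, le_rfl, hi, by omega⟩, fun m' h8 h9 => ?_⟩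
      have := ho.2 m' (by omega) h9
      omega
    · rw [if_neg ho, add_zero]
      refine ⟨?_, fun m' h8 h9 => h4 m' (by omega) h9⟩
      by_cases hm : m = i
      · subst hm
        have : ∃ m', m < m' ∧ m' ≤ j ∧ C m' ≤ C m := by
          by_contra hne
          push Not at hne
          exact ho ⟨by omega, hne⟩
        obtain ⟨m', h5, h6, h7⟩ := this
        have := h4 m' h5.le h6
        exact ⟨m', h5, h6, by omega⟩
      · exact ⟨m, by omega, h2, h3⟩

open Classical in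
/-- the number of common ancestral edges is the minimum of the contour -/
theorem lab_count {N : ℕ} {C : ℕ → ℤ} (h0 : C 0 = 0)
    (hs : ∀ i < N, C (i + 1) ≤ C i + 1) (hp : ∀ i ≤ N, 0 ≤ C i) {i j : ℕ} (hi : i ≤ N)
    (hj : j ≤ N) :
    (∑ k : Fin N, if opn C k i ∧ opn C k j then (1 : ℤ) else 0) = mnC C i j := by
  wlog hij : i ≤ j generalizing i j
  · rw [mnC_comm, ← this hj hi (by omega)]
    simp only [and_comm]
  obtain ⟨⟨m, h1, h2, h3⟩, h4⟩ := lab_count_aux h0 hs hp hj i hij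
  have e : (∑ k : Fin N, if opn C k i ∧ opn C k j then (1 : ℤ) else 0) =
      ∑ k ∈ range i, if opn C k j then (1 : ℤ) else 0 := by
    rw [Fin.sum_univ_eq_sum_range (fun k => if opn C k i ∧ opn C k j then (1 : ℤ) else 0),
      ← sum_subset (range_mono hi)]
    · refine sum_congr rfl fun k hk => if_congr ⟨fun h => h.2, fun h => ⟨⟨mem_range.1 hk,
        fun m h5 h6 => h.2 m h5 (h6.trans hij)⟩, h⟩⟩ rfl rfl
    · exact fun k _ hk => if_neg fun h => hk (mem_range.2 h.1.1)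
  rw [e]
  refine le_antisymm ?_ ?_
  · obtain ⟨m', h5, h6, h7⟩ := mnC_mem C i j
    rw [h7]
    exact h4 m' (by omega) (by omega)
  · rw [h3]
    exact mnC_le C (by omega) (by omega)

open Classical in
theorem lab_sq {ι : Type} [Fintype ι] {N : ℕ} {C : ℕ → ℤ} (h0 : C 0 = 0)
    (hs : ∀ i < N, C (i + 1) ≤ C i + 1) (hp : ∀ i ≤ N, 0 ≤ C i) {a : ι → ℕ} (ha : ∀ j, a j ≤ N)
    (b : ι → ℝ) :
    ∑ k : Fin N, (∑ j, if opn C k (a j) then b j else 0) ^ 2 =
      ∑ j, ∑ j', b j * b j' * mnC C (a j) (a j') := by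
  simp only [sq, sum_mul_sum]
  rw [sum_comm]
  refine sum_congr rfl fun j _ => ?_
  rw [sum_comm]
  refine sum_congr rfl fun j' _ => ?_
  rw [← lab_count h0 hs hp (ha j) (ha j')]
  push_cast
  rw [mul_sum]
  refine sum_congr rfl fun k _ => ?_
  by_cases h1 : opn C k (a j) <;> by_cases h2 : opn C k (a j') <;> simp [h1, h2]

theorem lab_form_nonneg {ι : Type} [Fintype ι] {N : ℕ} {C : ℕ → ℤ} (h0 : C 0 = 0)
    (hs : ∀ i < N, C (i + 1) ≤ C i + 1) (hp : ∀ i ≤ N, 0 ≤ C i) {a : ι → ℕ} (ha : ∀ j, a j ≤ N)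
    (b : ι → ℝ) : 0 ≤ ∑ j, ∑ j', b j * b j' * mnC C (a j) (a j') := by
  rw [← lab_sq h0 hs hp ha]
  exact sum_nonneg fun _ _ => sq_nonneg _

theorem lab_cos {θ δ : ℝ} (h : θ ^ 2 ≤ δ) (hδ : δ ≤ 1 / 12) :
    Real.exp (-θ ^ 2 / 3 - 2 * δ * θ ^ 2) ≤ (1 + 2 * Real.cos θ) / 3 ∧
      (1 + 2 * Real.cos θ) / 3 ≤ Real.exp (-θ ^ 2 / 3 + 2 * δ * θ ^ 2) := by
  have h1 : |θ| ≤ 1 := by
    rw [← sq_le_one_iff_abs_le_one]
    linarith
  have h2 := Real.cos_bound h1
  have h3 : |θ| ^ 4 = (θ ^ 2) ^ 2 := by rw [← sq_abs θ]; ring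
  rw [h3, abs_le] at h2
  have h4 := sq_nonneg θ
  generalize θ ^ 2 = x at *
  have hxx : x ^ 2 ≤ δ * x := by nlinarith
  constructor
  · have h5 : Real.exp (-x / 3 - 2 * δ * x) ≤ Real.exp (-(x / 3 + 2 * x ^ 2)) :=
      Real.exp_le_exp.2 (by linarith)
    refine h5.trans ?_
    have hv : 0 ≤ x / 3 + 2 * x ^ 2 := by positivity
    have hv2 : x / 3 + 2 * x ^ 2 ≤ x := by nlinarith
    have h6 : (x / 3 + 2 * x ^ 2) ^ 2 ≤ x ^ 2 := pow_le_pow_left₀ hv hv2 2
    generalize hvv : x / 3 + 2 * x ^ 2 = v at *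
    have h7 := Real.add_one_le_exp v
    have h8 : Real.exp (-v) ≤ 1 - v + v ^ 2 := by
      rw [Real.exp_neg, inv_le_iff_one_le_mul₀ (Real.exp_pos v)]
      have h9 : 0 ≤ 1 - v + v ^ 2 := by nlinarith
      nlinarith [mul_le_mul_of_nonneg_left h7 h9, pow_nonneg hv 3]
    nlinarith [h2.1, sq_nonneg x]
  · have h7 := Real.add_one_le_exp (-x / 3 + 2 * δ * x)
    nlinarith [h2.2, sq_nonneg x]

theorem lab_prod {κ : Type} [Fintype κ] (θ : κ → ℝ) {δ : ℝ} (h0 : 0 ≤ δ) (hδ : δ ≤ 1 / 12)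
    (h : ∀ k, θ k ^ 2 ≤ δ) :
    |∏ k, (1 + 2 * Real.cos (θ k)) / 3 - Real.exp (-(∑ k, θ k ^ 2) / 3)| ≤ 12 * δ := by
  have h1 : ∏ k, Real.exp (-θ k ^ 2 / 3 - 2 * δ * θ k ^ 2) ≤ ∏ k, (1 + 2 * Real.cos (θ k)) / 3 :=
    prod_le_prod (fun _ _ => (Real.exp_pos _).le) fun k _ => (lab_cos (h k) hδ).1
  have h2 : ∏ k, (1 + 2 * Real.cos (θ k)) / 3 ≤ ∏ k, Real.exp (-θ k ^ 2 / 3 + 2 * δ * θ k ^ 2) :=
    prod_le_prod (fun k _ => (Real.exp_pos _).le.trans (lab_cos (h k) hδ).1)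
      fun k _ => (lab_cos (h k) hδ).2
  rw [← Real.exp_sum] at h1 h2
  have e1 : ∑ k, (-θ k ^ 2 / 3 - 2 * δ * θ k ^ 2) =
      -(∑ k, θ k ^ 2) / 3 - 2 * δ * ∑ k, θ k ^ 2 := by
    rw [sum_sub_distrib, ← mul_sum, ← sum_div, sum_neg_distrib]
  have e2 : ∑ k, (-θ k ^ 2 / 3 + 2 * δ * θ k ^ 2) =
      -(∑ k, θ k ^ 2) / 3 + 2 * δ * ∑ k, θ k ^ 2 := by
    rw [sum_add_distrib, ← mul_sum, ← sum_div, sum_neg_distrib]
  rw [e1] at h1
  rw [e2] at h2
  have hx : 0 ≤ ∑ k, θ k ^ 2 := sum_nonneg fun _ _ => sq_nonneg _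
  generalize ∑ k, θ k ^ 2 = x at *
  generalize ∏ k, (1 + 2 * Real.cos (θ k)) / 3 = P at *
  have hy : 0 ≤ 2 * δ * x := by positivity
  have key : ∀ u v : ℝ, Real.exp u - Real.exp v ≤ (u - v) * Real.exp u := fun u v => by
    have h3 := Real.add_one_le_exp (v - u)
    have h4 : Real.exp v = Real.exp (v - u) * Real.exp u := by rw [← Real.exp_add]; congr 1; ring
    rw [h4]
    nlinarith [Real.exp_pos u]
  have kx : x * Real.exp (-x / 6) ≤ 6 := by
    have h3 := Real.add_one_le_exp (x / 6)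
    have h4 : Real.exp (-x / 6) * Real.exp (x / 6) = 1 := by
      rw [← Real.exp_add, ← Real.exp_zero]; congr 1; ring
    nlinarith [Real.exp_pos (-x / 6)]
  have k1 : Real.exp (-x / 3) ≤ Real.exp (-x / 6) := Real.exp_le_exp.2 (by linarith)
  have k2 : Real.exp (-x / 3 + 2 * δ * x) ≤ Real.exp (-x / 6) := Real.exp_le_exp.2 (by nlinarith)
  have k3 : 2 * δ * x * Real.exp (-x / 6) ≤ 12 * δ := by nlinarith
  rw [abs_le]
  constructor
  · have h3 := key (-x / 3) (-x / 3 - 2 * δ * x)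
    have h4 := mul_le_mul_of_nonneg_left k1 hy
    rw [sub_sub_cancel] at h3
    linarith
  · have h3 := key (-x / 3 + 2 * δ * x) (-x / 3)
    have h4 := mul_le_mul_of_nonneg_left k2 hy
    rw [add_sub_cancel_left] at h3
    linarith

/-- Gaussian approximation of the conditional characteristic function, uniform in the tree -/
theorem labPhi_approx {ι : Type} [Fintype ι] {N : ℕ} {C : ℕ → ℤ} (h0 : C 0 = 0)
    (hs : ∀ i < N, C (i + 1) ≤ C i + 1) (hp : ∀ i ≤ N, 0 ≤ C i) {a : ι → ℕ} (ha : ∀ j, a j ≤ N)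
    {b : ι → ℝ} (hb : (∑ j, |b j|) ^ 2 ≤ 1 / 12) :
    |labPhi N C a b - Real.exp (-(∑ j, ∑ j', b j * b j' * mnC C (a j) (a j')) / 3)| ≤
      12 * (∑ j, |b j|) ^ 2 := by
  classical
  rw [← lab_sq h0 hs hp ha]
  refine lab_prod _ (sq_nonneg _) hb fun k => ?_
  refine sq_le_sq' (abs_le.1 ?_).1 (abs_le.1 ?_).2 <;>
  · refine (abs_sum_le_sum_abs _ _).trans (sum_le_sum fun j _ => ?_)
    split_ifs <;> simp

theorem lab_sum {ι : Type} [Fintype ι] (N : ℕ) (C : ℕ → ℤ) (a : ι → ℕ) (b : ι → ℝ) :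
    ∑ d : Fin N → Fin 3, Complex.exp (Complex.I * ∑ j, (b j : ℂ) * (labOf C d (a j) : ℂ)) =
      3 ^ N * (labPhi N C a b : ℂ) := by
  classical
  have e1 : ∀ d : Fin N → Fin 3, Complex.exp (Complex.I * ∑ j, (b j : ℂ) * (labOf C d (a j) : ℂ)) =
      ∏ k : Fin N, Complex.exp (((∑ j, if opn C k (a j) then b j else 0 : ℝ) : ℂ) *
        (((d k : ℕ) : ℂ) - 1) * Complex.I) := fun d => by
    rw [← Complex.exp_sum, ← sum_mul, mul_comm Complex.I]
    congr 2
    simp only [labOf]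
    push_cast
    simp only [mul_sum, sum_mul]
    rw [sum_comm]
    refine sum_congr rfl fun k _ => sum_congr rfl fun j _ => ?_
    split_ifs <;> simp
  simp only [e1]
  rw [← Fintype.piFinset_univ, ← prod_univ_sum (fun _ : Fin N => (univ : Finset (Fin 3)))
    (fun k (x : Fin 3) => Complex.exp (((∑ j, if opn C k (a j) then b j else 0 : ℝ) : ℂ) *
      (((x : ℕ) : ℂ) - 1) * Complex.I)), labPhi]
  rw [Complex.ofReal_prod, show (3 : ℂ) ^ N = ∏ _k : Fin N, 3 by simp, ← prod_mul_distrib]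
  refine prod_congr rfl fun k _ => ?_
  generalize (∑ j, if opn C k (a j) then b j else 0 : ℝ) = θ
  rw [Fin.sum_univ_three]
  have h2 := Complex.two_cos (θ : ℂ)
  push_cast
  rw [h2]
  norm_num
  ring

theorem lab_integral_unif {X : Type} [Fintype X] [MeasurableSpace X] [DiscreteMeasurableSpace X]
    (f : X → ℂ) : ∫ x, f x ∂uniformOn Set.univ = (Fintype.card X : ℂ)⁻¹ * ∑ x, f x := by
  rw [integral_fintype Integrable.of_finite, mul_sum]
  refine sum_congr rfl fun x _ => ?_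
  rw [measureReal_def, uniformOn_univ]
  simp

/-- the labels given the tree, product form -/
theorem lab_char {ι W : Type} [Fintype ι] [MeasurableSpace W] [Finite W]
    [DiscreteMeasurableSpace W] (μ : Measure W) [IsFiniteMeasure μ] (N : ℕ) (C : W → ℕ → ℤ)
    (a : ι → ℕ) (b : ι → ℝ) (G : W → ℂ) :
    ∫ t : W × (Fin N → Fin 3), G t.1 *
        Complex.exp (Complex.I * ∑ j, (b j : ℂ) * (labOf (C t.1) t.2 (a j) : ℂ))
        ∂μ.prod (uniformOn Set.univ) =
      ∫ t : W × (Fin N → Fin 3), G t.1 * (labPhi N (C t.1) a b : ℂ) ∂μ.prod (uniformOn Set.univ) := by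
  rw [integral_prod _ Integrable.of_finite, integral_prod _ Integrable.of_finite]
  refine integral_congr_ae (ae_of_all _ fun w => ?_)
  simp only [integral_const_mul]
  congr 1
  rw [lab_integral_unif, lab_sum]
  simp

/-- the labels given the tree, uniform law on the product -/
theorem lab_char_unif {ι W : Type} [Fintype ι] [MeasurableSpace W] [Fintype W]
    [DiscreteMeasurableSpace W] (N : ℕ) (C : W → ℕ → ℤ) (a : ι → ℕ) (b : ι → ℝ) (G : W → ℂ) :
    ∫ t : W × (Fin N → Fin 3), G t.1 *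
        Complex.exp (Complex.I * ∑ j, (b j : ℂ) * (labOf (C t.1) t.2 (a j) : ℂ))
        ∂uniformOn Set.univ =
      ∫ t : W × (Fin N → Fin 3), G t.1 * (labPhi N (C t.1) a b : ℂ) ∂uniformOn Set.univ := by
  rw [lab_integral_unif, lab_integral_unif, Fintype.sum_prod_type, Fintype.sum_prod_type]
  congr 1
  refine sum_congr rfl fun w _ => ?_
  simp only [← mul_sum]
  rw [lab_sum]
  simp

end Pool.Agent.QL
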