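import Mathlib

/-! Convergence of conditional characteristic functions through couplings. -/

open MeasureTheory Set Filter Topology
open scoped ENNReal

namespace Pool.Agent.QL

/-- `exp (i u - q / 2)` -/
noncomputable def labE (u q : ℝ) : ℂ := Complex.exp (Complex.I * u) * Real.exp (-q / 2)

theorem labE_norm (u : ℝ) {q : ℝ} (hq : 0 ≤ q) : ‖labE u q‖ ≤ 1 := by
  rw [labE, norm_mul, Complex.norm_exp_I_mul_ofReal, one_mul, Complex.norm_real,
    Real.norm_of_nonneg (Real.exp_pos _).le]
  exact Real.exp_le_one_iff.2 (by linarith)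

theorem labE_lip (u u' : ℝ) {q q' : ℝ} (hq : 0 ≤ q) (hq' : 0 ≤ q') :
    ‖labE u q - labE u' q'‖ ≤ |u - u'| + |q - q'| := by
  have key : ∀ a b : ℝ, 0 ≤ a → Real.exp (-a / 2) - Real.exp (-b / 2) ≤ |a - b| := fun a b ha => by
    have h3 := Real.add_one_le_exp (-b / 2 - -a / 2)
    have h4 : Real.exp (-b / 2) = Real.exp (-b / 2 - -a / 2) * Real.exp (-a / 2) := by
      rw [← Real.exp_add]; congr 1; ring
    have h5 : Real.exp (-a / 2) ≤ 1 := Real.exp_le_one_iff.2 (by linarith)
    have h6 := neg_abs_le (a - b)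
    rw [h4]
    nlinarith [Real.exp_pos (-a / 2), abs_nonneg (a - b)]
  have e : labE u q - labE u' q' = Complex.exp (Complex.I * u') *
      ((Complex.exp (Complex.I * (u - u' : ℝ)) - 1) * Real.exp (-q / 2) +
        (Real.exp (-q / 2) - Real.exp (-q' / 2) : ℝ)) := by
    have : Complex.exp (Complex.I * u) =
        Complex.exp (Complex.I * u') * Complex.exp (Complex.I * (u - u' : ℝ)) := by
      rw [← Complex.exp_add]; congr 1; push_cast; ring
    rw [labE, labE, this, Complex.ofReal_sub (Real.exp _)]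
    ring
  rw [e, norm_mul, Complex.norm_exp_I_mul_ofReal, one_mul]
  refine (norm_add_le _ _).trans (add_le_add ?_ ?_)
  · rw [norm_mul, Complex.norm_real, Real.norm_of_nonneg (Real.exp_pos _).le]
    exact (mul_le_of_le_one_right (norm_nonneg _) (Real.exp_le_one_iff.2 (by linarith))).trans
      Real.norm_exp_I_mul_ofReal_sub_one_le
  · rw [Complex.norm_real, Real.norm_eq_abs, abs_le]
    have h1 := key q q' hq
    have h2 := key q' q hq'
    rw [abs_sub_comm] at h2
    constructor <;> linarith

theorem continuous_labE : Continuous fun p : ℝ × ℝ => labE p.1 p.2 := by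
  unfold labE
  fun_prop

theorem lab_lim {T : ℕ → Type} {Y : Type} [∀ n, MeasurableSpace (T n)] [MeasurableSpace Y]
    (lam : ∀ n, Measure (T n)) (S : Measure Y) [IsProbabilityMeasure S]
    {An Qn : ∀ n, T n → ℝ} {A Q : Y → ℝ} (hAn : ∀ n, Measurable (An n))
    (hQn : ∀ n, Measurable (Qn n)) (hA : Measurable A) (hQ : Measurable Q)
    (h0 : ∀ n t, 0 ≤ Qn n t)
    (h : ∀ ε : ℝ, 0 < ε → ∀ᶠ n in atTop, ∃ Θ : Measure (T n × Y), Θ.fst = lam n ∧ Θ.snd = S ∧
      Θ {p | ¬ (|An n p.1 - A p.2| ≤ ε ∧ |Qn n p.1 - Q p.2| ≤ ε)} ≤ ENNReal.ofReal ε) :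
    Tendsto (fun n => ∫ t, labE (An n t) (Qn n t) ∂lam n) atTop
      (𝓝 (∫ y, labE (A y) (Q y) ∂S)) := by
  have hpos : ∀ᵐ y ∂S, 0 ≤ Q y := by
    have h1 : ∀ m : ℕ, ∀ᵐ y ∂S, -(1 / ((m : ℝ) + 1)) ≤ Q y := fun m => by
      rw [ae_iff]
      refine le_antisymm (ENNReal.le_of_forall_pos_le_add fun ε hε _ => ?_) zero_le
      obtain ⟨n, Θ, -, e2, e3⟩ := (h (min ε (1 / ((m : ℝ) + 1)))
        (lt_min hε Nat.one_div_pos_of_nat)).exists
      have hm : MeasurableSet {a | ¬ -(1 / ((m : ℝ) + 1)) ≤ Q a} :=
        (measurableSet_le measurable_const hQ).compl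
      rw [← e2, Measure.snd_apply hm, zero_add]
      refine le_trans (measure_mono ?_) (e3.trans ?_)
      · intro p hp hp'
        refine hp ?_
        have h2 := (abs_le.1 hp'.2).2
        have h3 := h0 n p.1
        have h4 := min_le_right (ε : ℝ) (1 / ((m : ℝ) + 1))
        change -(1 / ((m : ℝ) + 1)) ≤ Q p.2
        linarith
      · rw [← ENNReal.ofReal_coe_nnreal]
        exact ENNReal.ofReal_le_ofReal (min_le_left _ _)
    filter_upwards [ae_all_iff.2 h1] with y hy
    by_contra hn
    obtain ⟨m, hm⟩ := exists_nat_one_div_lt (show 0 < -Q y by linarith [not_le.1 hn])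
    linarith [hy m]
  refine Metric.tendsto_nhds.2 fun ε hε => ?_
  filter_upwards [h (ε / 5) (by positivity)] with n ⟨Θ, e1, e2, e3⟩
  have : IsProbabilityMeasure Θ := ⟨by rw [← Measure.snd_univ, e2]; exact measure_univ⟩
  have m1 : Measurable fun t => labE (An n t) (Qn n t) :=
    continuous_labE.measurable.comp ((hAn n).prodMk (hQn n))
  have m2 : Measurable fun y => labE (A y) (Q y) := continuous_labE.measurable.comp (hA.prodMk hQ)
  have hpos' : ∀ᵐ p ∂Θ, 0 ≤ Q p.2 := by
    rw [← e2] at hpos
    exact ae_of_ae_map measurable_snd.aemeasurable hpos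
  have i1 : Integrable (fun p : T n × Y => labE (An n p.1) (Qn n p.1)) Θ :=
    Integrable.of_bound (m1.comp measurable_fst).aestronglyMeasurable 1
      (ae_of_all _ fun p => labE_norm _ (h0 n _))
  have i2 : Integrable (fun p : T n × Y => labE (A p.2) (Q p.2)) Θ :=
    Integrable.of_bound (m2.comp measurable_snd).aestronglyMeasurable 1
      (hpos'.mono fun p hp => labE_norm _ hp)
  set B : Set (T n × Y) := {p | ¬ (|An n p.1 - A p.2| ≤ ε / 5 ∧ |Qn n p.1 - Q p.2| ≤ ε / 5)}
    with hB
  have mB : MeasurableSet B :=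
    ((measurableSet_le (((hAn n).comp measurable_fst).sub (hA.comp measurable_snd)).abs
      measurable_const).inter (measurableSet_le
        (((hQn n).comp measurable_fst).sub (hQ.comp measurable_snd)).abs measurable_const)).compl
  have i3 : Integrable (B.indicator fun _ => (2 : ℝ)) Θ := (integrable_const _).indicator mB
  rw [← e1, ← e2, Measure.fst, Measure.snd,
    integral_map measurable_fst.aemeasurable m1.aestronglyMeasurable,
    integral_map measurable_snd.aemeasurable m2.aestronglyMeasurable, dist_eq_norm,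
    ← integral_sub i1 i2]
  refine (norm_integral_le_of_norm_le ((integrable_const (2 * (ε / 5))).add i3) ?_).trans_lt ?_
  · filter_upwards [hpos'] with p hp
    by_cases hb : p ∈ B
    · have h1 := norm_sub_le (labE (An n p.1) (Qn n p.1)) (labE (A p.2) (Q p.2))
      have h2 := labE_norm (An n p.1) (h0 n p.1)
      have h3 := labE_norm (A p.2) hp
      simp only [Pi.add_apply, indicator_of_mem hb]
      linarith
    · have h1 := labE_lip (An n p.1) (A p.2) (h0 n p.1) hp
      have h2 := not_not.1 hb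
      simp only [Pi.add_apply, indicator_of_notMem hb]
      linarith [h2.1, h2.2]
  · have h1 : Θ.real B ≤ ε / 5 := ENNReal.toReal_le_of_le_ofReal (by positivity) e3
    rw [integral_add' (integrable_const _) i3, integral_const, integral_indicator_const _ mB]
    simp only [probReal_univ, smul_eq_mul]
    linarith

end Pool.Agent.QL
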