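import Pool.Agent.P.MP_7a6434d8_pr.QL.BM.LimDefs

/-! Elementary properties of `mn`, `dE`, `D0`, `Dst`. -/

open MeasureTheory Set Filter Topology
open scoped ENNReal unitInterval

namespace Pool.Agent.QL

variable {e Z f : I → ℝ}

theorem mn_le (hf : Continuous f) {A : Set I} {x : I} (hx : x ∈ A) : mn f A ≤ f x :=
  csInf_le ((isCompact_range hf).bddBelow.mono (image_subset_range _ _)) (mem_image_of_mem f hx)

theorem le_mn {A : Set I} (hA : A.Nonempty) {r : ℝ} (h : ∀ x ∈ A, r ≤ f x) : r ≤ mn f A :=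
  le_csInf (hA.image f) (by rintro _ ⟨x, hx, rfl⟩; exact h x hx)

theorem mn_union (hf : Continuous f) {A B : Set I} (hA : A.Nonempty) (hB : B.Nonempty) :
    mn f (A ∪ B) = min (mn f A) (mn f B) := by
  refine le_antisymm (le_min ?_ ?_) (le_mn hA.inl ?_)
  · exact le_mn hA fun x hx => mn_le hf (Or.inl hx)
  · exact le_mn hB fun x hx => mn_le hf (Or.inr hx)
  · rintro x (hx | hx)
    · exact (min_le_left _ _).trans (mn_le hf hx)
    · exact (min_le_right _ _).trans (mn_le hf hx)

theorem continuous_mn_uIcc :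
    Continuous fun p : C(I, ℝ) × I × I => mn p.1 (uIcc p.2.1 p.2.2) := by
  have h : ∀ p : C(I, ℝ) × I × I, mn p.1 (uIcc p.2.1 p.2.2) = sInf ((fun u : I =>
      p.1 (max (min p.2.1 p.2.2) (min u (max p.2.1 p.2.2)))) '' univ) := by
    intro p
    unfold mn
    congr 1
    ext r
    constructor
    · rintro ⟨x, hx, rfl⟩
      refine ⟨x, mem_univ _, ?_⟩
      simp only
      rw [min_eq_left hx.2, max_eq_right hx.1]
    · rintro ⟨x, -, rfl⟩
      exact ⟨_, ⟨le_max_left _ _, max_le min_le_max (min_le_right _ _)⟩, rfl⟩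
  simp only [h]
  refine IsCompact.continuous_sInf isCompact_univ ?_
  refine continuous_eval.comp (Continuous.prodMk (continuous_fst.fst) ?_)
  fun_prop

theorem continuous_dE : Continuous fun p : C(I, ℝ) × I × I => dE p.1 p.2.1 p.2.2 := by
  unfold dE
  refine Continuous.sub ?_ (continuous_const.mul continuous_mn_uIcc)
  fun_prop

theorem D0_eq (hZ : Continuous Z) (s t : I) : D0 Z s t = Z s + Z t - 2 * max (mn Z (uIcc s t))
    (min (mn Z (uIcc 0 (min s t))) (mn Z (uIcc (max s t) 1))) := by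
  unfold D0
  rw [mn_union hZ nonempty_Iic nonempty_Ici, uIcc_of_le (unitInterval.nonneg' (t := min s t)),
    uIcc_of_le (unitInterval.le_one' (t := max s t))]
  congr 5
  · exact Icc_bot.symm
  · exact Icc_top.symm

theorem continuous_D0 : Continuous fun p : C(I, ℝ) × I × I => D0 p.1 p.2.1 p.2.2 := by
  have h : (fun p : C(I, ℝ) × I × I => D0 p.1 p.2.1 p.2.2) = fun p => p.1 p.2.1 + p.1 p.2.2 -
      2 * max (mn p.1 (uIcc p.2.1 p.2.2)) (min (mn p.1 (uIcc 0 (min p.2.1 p.2.2)))
        (mn p.1 (uIcc (max p.2.1 p.2.2) 1))) := funext fun p => D0_eq p.1.continuous _ _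
  rw [h]
  refine Continuous.sub (by fun_prop) (continuous_const.mul (continuous_mn_uIcc.max
    (Continuous.min ?_ ?_)))
  · exact continuous_mn_uIcc.comp (f := fun p : C(I, ℝ) × I × I => (p.1, 0, min p.2.1 p.2.2))
      (by fun_prop)
  · exact continuous_mn_uIcc.comp (f := fun p : C(I, ℝ) × I × I => (p.1, max p.2.1 p.2.2, 1))
      (by fun_prop)

theorem continuous_D0' (hZ : Continuous Z) : Continuous fun p : I × I => D0 Z p.1 p.2 :=
  continuous_D0.comp (f := fun p : I × I => ((⟨Z, hZ⟩ : C(I, ℝ)), p)) (by fun_prop)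

theorem dE_comm (s t : I) : dE e s t = dE e t s := by
  unfold dE; rw [uIcc_comm, add_comm]

theorem dE_self (s : I) : dE e s s = 0 := by
  simp [dE, mn]; ring

theorem D0_comm (s t : I) : D0 Z s t = D0 Z t s := by
  unfold D0; rw [uIcc_comm, add_comm, min_comm s t, max_comm s t]

theorem D0_max_le (hZ : Continuous Z) (s t : I) :
    max (mn Z (uIcc s t)) (mn Z (Iic (min s t) ∪ Ici (max s t))) ≤ Z s := by
  refine max_le (mn_le hZ left_mem_uIcc) (mn_le hZ ?_)
  rcases le_total s t with h | h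
  · exact Or.inl (le_min le_rfl h)
  · exact Or.inr (max_le le_rfl h)

theorem sub_le_D0 (hZ : Continuous Z) (s t : I) : Z t - Z s ≤ D0 Z s t := by
  have := D0_max_le hZ s t
  unfold D0; linarith

theorem D0_nonneg (hZ : Continuous Z) (s t : I) : 0 ≤ D0 Z s t := by
  have h1 := sub_le_D0 hZ s t
  have h2 := sub_le_D0 hZ t s
  rw [D0_comm] at h2
  linarith

theorem D0_self (hZ : Continuous Z) (s : I) : D0 Z s s = 0 := by
  refine le_antisymm ?_ (D0_nonneg hZ s s)
  have h : Z s ≤ max (mn Z (uIcc s s)) (mn Z (Iic (min s s) ∪ Ici (max s s))) :=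
    le_max_of_le_left (le_mn nonempty_uIcc fun x hx => by
      rw [uIcc_self] at hx; rw [hx])
  unfold D0; linarith

theorem D0_min {s : I} (hs : ∀ t, Z s ≤ Z t) (hZ : Continuous Z) (t : I) :
    D0 Z s t ≤ Z t - mn Z univ := by
  have h1 : Z s ≤ max (mn Z (uIcc s t)) (mn Z (Iic (min s t) ∪ Ici (max s t))) :=
    le_max_of_le_left (le_mn nonempty_uIcc fun x _ => hs x)
  have h2 : mn Z univ ≤ Z s := mn_le hZ (mem_univ s)
  unfold D0; linarith

/-- chains from `s` to `t` with total length `r` -/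
inductive Ch (e Z : I → ℝ) (s : I) : I → ℝ → Prop
  | base (t : I) : Ch e Z s t (D0 Z s t)
  | step {t u : I} {r : ℝ} (v : I) : Ch e Z s t r → dE e t u = 0 → Ch e Z s v (r + D0 Z u v)

theorem ch_iff {s t : I} {r : ℝ} : Ch e Z s t r ↔ ∃ (k : ℕ) (a b : ℕ → I), a 0 = s ∧ b k = t ∧
    (∀ i < k, dE e (b i) (a (i + 1)) = 0) ∧
    r = ∑ i ∈ Finset.range (k + 1), D0 Z (a i) (b i) := by
  constructor
  · intro h
    induction h with
    | base t => exact ⟨0, fun _ => s, fun _ => t, rfl, rfl, by simp, by simp⟩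
    | @step t u r v _ hu ih =>
      obtain ⟨k, a, b, ha, hb, hd, rfl⟩ := ih
      refine ⟨k + 1, Function.update a (k + 1) u, Function.update b (k + 1) v, ?_, ?_, ?_, ?_⟩
      · rw [Function.update_of_ne (by omega), ha]
      · rw [Function.update_self]
      · intro i hi
        rw [Function.update_of_ne (by omega)]
        rcases Nat.lt_succ_iff_lt_or_eq.1 hi with h | rfl
        · rw [Function.update_of_ne (by omega)]; exact hd i h
        · rw [Function.update_self, hb]; exact hu
      · rw [Finset.sum_range_succ _ (k + 1), Function.update_self, Function.update_self]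
        congr 1
        refine Finset.sum_congr rfl fun i hi => ?_
        have := Finset.mem_range.1 hi
        rw [Function.update_of_ne (by omega), Function.update_of_ne (by omega)]
  · rintro ⟨k, a, b, rfl, rfl, hd, rfl⟩
    induction k with
    | zero => simpa using Ch.base (b 0)
    | succ k ih =>
      rw [Finset.sum_range_succ]
      exact Ch.step _ (ih fun i hi => hd i (by omega)) (hd k (by omega))

theorem Dst_eq (s t : I) : Dst e Z s t = sInf {r | Ch e Z s t r} := by
  unfold Dst; congr 1; ext r; exact ch_iff.symm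

theorem Ch.nonneg (hZ : Continuous Z) {s t : I} {r : ℝ} (h : Ch e Z s t r) : 0 ≤ r := by
  induction h with
  | base t => exact D0_nonneg hZ _ _
  | step v _ _ ih => exact add_nonneg ih (D0_nonneg hZ _ _)

theorem Ch.trans {s t u v : I} {r r' : ℝ} (h : Ch e Z s t r) (hu : dE e t u = 0)
    (h' : Ch e Z u v r') : Ch e Z s v (r + r') := by
  induction h' with
  | base v => exact h.step v hu
  | step v _ hd ih => rw [← add_assoc]; exact ih.step v hd

theorem Ch.symm {s t : I} {r : ℝ} (h : Ch e Z s t r) : Ch e Z t s r := by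
  induction h with
  | base t => rw [D0_comm]; exact Ch.base s
  | @step t u r v _ hd ih =>
    rw [add_comm, D0_comm]
    exact (Ch.base u).trans (by rw [dE_comm]; exact hd) ih

theorem Dst_le (hZ : Continuous Z) {s t : I} {r : ℝ} (h : Ch e Z s t r) : Dst e Z s t ≤ r := by
  rw [Dst_eq]; exact csInf_le ⟨0, fun _ h => h.nonneg hZ⟩ h

theorem le_Dst {s t : I} {x : ℝ} (h : ∀ r, Ch e Z s t r → x ≤ r) : x ≤ Dst e Z s t := by
  rw [Dst_eq]; exact le_csInf ⟨_, Ch.base t⟩ h

theorem exists_ch {s t : I} {x : ℝ} (h : Dst e Z s t < x) : ∃ r, Ch e Z s t r ∧ r < x := by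
  by_contra hc
  push Not at hc
  exact absurd (le_Dst hc) (not_le.2 h)

theorem Dst_nonneg (hZ : Continuous Z) (s t : I) : 0 ≤ Dst e Z s t :=
  le_Dst fun _ h => h.nonneg hZ

theorem Dst_le_D0 (hZ : Continuous Z) (s t : I) : Dst e Z s t ≤ D0 Z s t :=
  Dst_le hZ (Ch.base t)

theorem Dst_comm (hZ : Continuous Z) (s t : I) : Dst e Z s t = Dst e Z t s :=
  le_antisymm (le_Dst fun _ h => Dst_le hZ h.symm) (le_Dst fun _ h => Dst_le hZ h.symm)

theorem Dst_tri (hZ : Continuous Z) (s t u : I) : Dst e Z s u ≤ Dst e Z s t + Dst e Z t u := by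
  rw [← sub_le_iff_le_add]
  refine le_Dst fun r h => ?_
  rw [sub_le_comm]
  refine le_Dst fun r' h' => ?_
  rw [sub_le_iff_le_add']
  exact Dst_le hZ (h.trans (dE_self t) h')

theorem Dst_lip (hZ : Continuous Z) (s t s' t' : I) :
    Dst e Z s t ≤ Dst e Z s' t' + D0 Z s s' + D0 Z t t' := by
  have h1 := Dst_tri (e := e) hZ s s' t
  have h2 := Dst_tri (e := e) hZ s' t' t
  have h3 := Dst_le_D0 (e := e) hZ s s'
  have h4 := Dst_le_D0 (e := e) hZ t' t
  rw [D0_comm] at h4
  linarith

theorem continuous_Dst (hZ : Continuous Z) : Continuous fun p : I × I => Dst e Z p.1 p.2 := by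
  rw [continuous_iff_continuousAt]
  intro q
  have h : Continuous fun p : I × I => D0 Z p.1 q.1 + D0 Z p.2 q.2 :=
    ((continuous_D0' hZ).comp (continuous_fst.prodMk continuous_const)).add
      ((continuous_D0' hZ).comp (continuous_snd.prodMk continuous_const))
  have h0 := h.tendsto q
  simp only [D0_self hZ, add_zero] at h0
  rw [ContinuousAt, tendsto_iff_dist_tendsto_zero]
  refine squeeze_zero (fun _ => dist_nonneg) (fun p => ?_) h0
  have h1 := Dst_lip (e := e) hZ p.1 p.2 q.1 q.2
  have h2 := Dst_lip (e := e) hZ q.1 q.2 p.1 p.2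
  rw [D0_comm q.1, D0_comm q.2] at h2
  rw [Real.dist_eq, abs_le]
  constructor <;> linarith

end Pool.Agent.QL
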