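import Pool.Agent.P.MP_7a6434d8_pr.QL.BM.CplAbs

/-! Finite-dimensional convergence and a modulus of continuity give uniform couplings. -/

open MeasureTheory ProbabilityTheory Set Filter Topology Metric
open scoped ENNReal NNReal unitInterval BoundedContinuousFunction

namespace Pool.Agent.QL

variable {Y E : Type} [MeasurableSpace Y] [PseudoMetricSpace E] [SecondCountableTopology E]
  [MeasurableSpace E] [BorelSpace E]

theorem pathCpl_mod (S : Measure Y) [IsFiniteMeasure S] (y : Y → C(I, E))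
    (hy : ∀ s, Measurable fun a => y a s) {ε : ℝ} (hε : 0 < ε) :
    ∃ θ > 0, S {a | ¬ ∀ s u, dist s u < θ → dist (y a s) (y a u) ≤ ε} ≤ ENNReal.ofReal ε := by
  obtain ⟨D, Dc, Dd⟩ := TopologicalSpace.exists_countable_dense (I × I)
  set A : ℕ → Set Y := fun m =>
    {a | ¬ ∀ s u, dist s u < 1 / ((m : ℝ) + 1) → dist (y a s) (y a u) ≤ ε} with hA
  have hm : ∀ m, MeasurableSet (A m) := fun m => by
    have e : A m = ⋃ p ∈ D ∩ {p | dist p.1 p.2 < 1 / ((m : ℝ) + 1)},
        {a | ε < dist (y a p.1) (y a p.2)} := by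
      ext a
      simp only [hA, mem_ofPred_eq, mem_iUnion, mem_inter_iff, not_forall, not_le, exists_prop]
      constructor
      · rintro ⟨s, u, h1, h2⟩
        have ho : IsOpen ({p : I × I | dist p.1 p.2 < 1 / ((m : ℝ) + 1)} ∩
            {p | ε < dist (y a p.1) (y a p.2)}) :=
          (isOpen_lt (by fun_prop) continuous_const).inter (isOpen_lt continuous_const (by fun_prop))
        obtain ⟨p, p1, p2⟩ := Dd.inter_open_nonempty _ ho ⟨(s, u), h1, h2⟩
        exact ⟨p, ⟨p2, p1.1⟩, p1.2⟩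
      · rintro ⟨p, p1, p2⟩
        exact ⟨p.1, p.2, p1.2, p2⟩
    rw [e]
    exact MeasurableSet.biUnion (Dc.mono inter_subset_left) fun p _ =>
      measurableSet_lt measurable_const ((hy _).dist (hy _))
  have hanti : Antitone A := fun m m' h a ha hb => ha fun s u hsu => hb s u
    (hsu.trans_le (Nat.one_div_le_one_div h))
  have hI : ⋂ m, A m = ∅ := by
    refine eq_empty_of_forall_notMem fun a ha => ?_
    obtain ⟨δ, hδ, h⟩ := Metric.uniformContinuous_iff.1
      (CompactSpace.uniformContinuous_of_continuous (y a).continuous) ε hε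
    obtain ⟨m, hm⟩ := exists_nat_one_div_lt hδ
    exact mem_iInter.1 ha m fun s u hsu => (h (hsu.trans hm)).le
  have ht := tendsto_measure_iInter_atTop (μ := S) (fun m => (hm m).nullMeasurableSet) hanti
    ⟨0, measure_ne_top _ _⟩
  rw [hI, measure_empty] at ht
  obtain ⟨m, hm⟩ := (ht.eventually (ge_mem_nhds (ENNReal.ofReal_pos.2 hε))).exists
  exact ⟨_, by positivity, hm⟩

theorem pathCpl_grid {θ : ℝ} (hθ : 0 < θ) : ∃ (k : ℕ) (s : Fin k → I), StrictMono s ∧
    (∀ j, 0 < s j ∧ s j < 1) ∧ ∀ u, ∃ j, dist (s j) u < θ := by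
  obtain ⟨m, hm⟩ := exists_nat_one_div_lt hθ
  have h2 : (0 : ℝ) < m + 2 := by positivity
  have hlt : ∀ j : Fin (m + 1), ((j : ℝ) + 1) / (m + 2) < 1 := fun j => by
    rw [div_lt_one h2]
    have : (j : ℝ) ≤ m := by exact_mod_cast Nat.lt_succ_iff.1 j.2
    linarith
  refine ⟨m + 1, fun j => ⟨(j + 1) / (m + 2), by positivity, (hlt j).le⟩, fun i j h => ?_,
    fun j => ⟨?_, hlt j⟩, fun u => ?_⟩
  · change ((i : ℝ) + 1) / (m + 2) < (j + 1) / (m + 2)
    have : (i : ℝ) < j := by exact_mod_cast h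
    gcongr
  · change (0 : ℝ) < (j + 1) / (m + 2)
    positivity
  · have u0 : 0 ≤ (u : ℝ) * (m + 2) := mul_nonneg u.2.1 h2.le
    have u1 : (u : ℝ) * (m + 2) ≤ m + 2 := mul_le_of_le_one_left h2.le u.2.2
    have f1 := Nat.floor_le u0
    have f2 := Nat.lt_floor_add_one ((u : ℝ) * (m + 2))
    refine ⟨⟨min ⌊(u : ℝ) * (m + 2)⌋₊ m, by omega⟩, lt_of_le_of_lt ?_ hm⟩
    have key : |((min ⌊(u : ℝ) * (m + 2)⌋₊ m : ℕ) : ℝ) + 1 - u * (m + 2)| ≤ 1 := by
      rcases le_total ⌊(u : ℝ) * (m + 2)⌋₊ m with h | h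
      · rw [min_eq_left h, abs_le]
        constructor <;> linarith
      · have : (m : ℝ) ≤ ⌊(u : ℝ) * (m + 2)⌋₊ := by exact_mod_cast h
        rw [min_eq_right h, abs_le]
        constructor <;> linarith
    change |(((min ⌊(u : ℝ) * (m + 2)⌋₊ m : ℕ) : ℝ) + 1) / (m + 2) - u| ≤ _
    rw [div_sub' h2.ne', abs_div, abs_of_pos h2, mul_comm ((m : ℝ) + 2)]
    exact div_le_div₀ zero_le_one key (by positivity) (by linarith)

/-- `N n` is the number of steps of the discrete paths `X n t`. -/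
theorem path_coupling [Nonempty E] (S : Measure Y) [IsProbabilityMeasure S] (y : Y → C(I, E))
    (hy : ∀ s, Measurable fun a => y a s) {T : ℕ → Type} [∀ n, MeasurableSpace (T n)]
    [∀ n, DiscreteMeasurableSpace (T n)] (lam : ∀ n, Measure (T n))
    (hlam : ∀ᶠ n in atTop, IsProbabilityMeasure (lam n)) (N : ℕ → ℕ) (hN : Tendsto N atTop atTop)
    (X : ∀ n, T n → ℕ → E)
    (fdd : ∀ (k : ℕ) (s : Fin k → I), StrictMono s → (∀ j, 0 < s j ∧ s j < 1) →
      ∃ a : ℕ → Fin k → ℕ, (∀ᶠ n in atTop, ∀ j, a n j ≤ N n) ∧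
        (∀ j, Tendsto (fun n => (a n j : ℝ) / N n) atTop (𝓝 (s j))) ∧
        ∀ F : (Fin k → E) →ᵇ ℝ, Tendsto (fun n => ∫ t, F (fun j => X n t (a n j)) ∂lam n) atTop
          (𝓝 (∫ b, F (fun j => y b (s j)) ∂S)))
    (md : ∀ ε > 0, ∃ θ > 0, ∀ᶠ n in atTop, lam n {t | ¬ ∀ i ≤ N n, ∀ j ≤ N n,
      |(i : ℝ) - j| ≤ θ * N n → dist (X n t i) (X n t j) ≤ ε} ≤ ENNReal.ofReal ε)
    {ε : ℝ} (hε : 0 < ε) :
    ∀ᶠ n in atTop, ∃ Θ : Measure (T n × Y), Θ.fst = lam n ∧ Θ.snd = S ∧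
      Θ {p | ¬ ∀ i ≤ N n, ∀ u : I, |(i : ℝ) - N n * u| ≤ 1 → dist (X n p.1 i) (y p.2 u) ≤ ε} ≤
        ENNReal.ofReal ε := by
  have h3 : 0 < ε / 3 := by positivity
  obtain ⟨θ, hθ, m1⟩ := md _ h3
  obtain ⟨θ', hθ', m2⟩ := pathCpl_mod S y hy h3
  obtain ⟨k, s, s1, s2, s3⟩ := pathCpl_grid (lt_min (show 0 < θ / 3 by positivity) hθ')
  obtain ⟨a, a1, a2, a3⟩ := fdd k s s1 s2
  have hg : Measurable fun b j => y b (s j) := measurable_pi_lambda _ fun j => hy _
  have hw : ∀ F : (Fin k → E) →ᵇ ℝ, Tendsto (fun n => ∫ t, F (fun j => X n t (a n j)) ∂lam n)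
      atTop (𝓝 (∫ x, F x ∂(Kernel.deterministic _ hg ∘ₘ S))) := fun F => by
    rw [Measure.deterministic_comp_eq_map,
      integral_map hg.aemeasurable F.continuous.aestronglyMeasurable]
    exact a3 F
  have hc := cpl_filter (C := T) atTop lam hlam (c := fun _ => id) (fun _ => measurable_id)
    (f := fun n t j => X n t (a n j)) (fun _ => .of_discrete) S _ hw
    (R := fun b x => x = fun j => y b (s j)) (.of_forall fun b A hA h => ⟨_, by
      rw [Kernel.deterministic_apply' _ _ hA] at h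
      by_contra h'
      exact h (indicator_of_notMem h' _), rfl⟩) h3 h3
  have t1 : ∀ᶠ n in atTop, ∀ j, |(a n j : ℝ) / N n - s j| ≤ θ / 3 :=
    eventually_all.2 fun j => by
      have := (a2 j).eventually (closedBall_mem_nhds _ (show 0 < θ / 3 by positivity))
      simpa only [Real.dist_eq] using this
  have t2 : ∀ᶠ n in atTop, 3 / θ ≤ (N n : ℝ) :=
    (tendsto_natCast_atTop_atTop.comp hN).eventually (eventually_ge_atTop _)
  filter_upwards [hc, m1, a1, t1, t2] with n ⟨Θ, g1, g2, g3⟩ b1 b2 b3 b4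
  refine ⟨Θ, by rw [g1, Measure.map_id], g2, ?_⟩
  set Bad := {p : T n × Y |
    ¬ ∀ i ≤ N n, ∀ u : I, |(i : ℝ) - N n * u| ≤ 1 → dist (X n p.1 i) (y p.2 u) ≤ ε}
  set M := {a | ¬ ∀ s u, dist s u < θ' → dist (y a s) (y a u) ≤ ε / 3}
  have hN0 : (0 : ℝ) < N n := lt_of_lt_of_le (by positivity) b4
  have c1 : Θ (Prod.snd ⁻¹' M) ≤ ENNReal.ofReal (ε / 3) :=
    (Measure.le_map_apply measurable_snd.aemeasurable M).trans (by rwa [← g2] at m2)
  have c2 := g3 (Bad \ Prod.snd ⁻¹' M) {t | ∀ i ≤ N n, ∀ j ≤ N n,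
      |(i : ℝ) - j| ≤ θ * N n → dist (X n t i) (X n t j) ≤ ε / 3} (by
    rintro t ht b x rfl hx ⟨e1, e2⟩
    refine e1 fun i hi u hu => ?_
    obtain ⟨j, hj⟩ := s3 u
    have d1 := not_not.1 e2 _ _ (hj.trans_le (min_le_right _ _))
    have d2 := (dist_le_pi_dist _ _ j).trans hx
    have d3 : dist (X n t i) (X n t (a n j)) ≤ ε / 3 := by
      refine ht i hi _ (b2 j) ?_
      have f1 : |(s j : ℝ) - u| < θ / 3 := hj.trans_le (min_le_left _ _)
      have f2 := b3 j
      have f3 : 1 ≤ θ / 3 * N n := by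
        rw [div_le_iff₀ hθ] at b4
        linarith
      have f4 : (i : ℝ) - a n j = (i - N n * u) - N n * (a n j / N n - s j) - N n * (s j - u) := by
        field_simp
        ring
      rw [f4]
      refine (abs_sub _ _).trans ((add_le_add (abs_sub _ _) le_rfl).trans ?_)
      rw [abs_mul, abs_mul, abs_of_pos hN0]
      nlinarith
    have d4 := dist_triangle4 (X n t i) (X n t (a n j)) (y b (s j)) (y b u)
    simp only [id] at d1 d2 ⊢
    linarith)
  calc Θ Bad ≤ Θ (Bad \ Prod.snd ⁻¹' M) + Θ (Prod.snd ⁻¹' M) :=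
        (measure_mono (subset_sdiff_union _ _)).trans (measure_union_le _ _)
    _ ≤ ENNReal.ofReal (ε / 3) + ENNReal.ofReal (ε / 3) + ENNReal.ofReal (ε / 3) :=
        add_le_add (c2.trans (add_le_add le_rfl b1)) c1
    _ = ENNReal.ofReal ε := by
        rw [← ENNReal.ofReal_add h3.le h3.le, ← ENNReal.ofReal_add (by positivity) h3.le]
        congr 1
        ring

end Pool.Agent.QL
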