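import Pool.Agent.P.MP_7a6434d8_pr.QL.BM.Stmts
import Pool.Agent.P.MP_7a6434d8_pr.QL.BM.PathCpl
import Pool.Agent.P.MP_7a6434d8_pr.QL.BM.LimBasic
import Pool.Agent.P.MP_7a6434d8_pr.QL.BM.LabChar
import Pool.Agent.P.MP_7a6434d8_pr.QL.BM.LabLim

/-! Block LAB: joint finite-dimensional convergence of contour and labels. -/

open MeasureTheory ProbabilityTheory Set Filter Topology Metric
open scoped ENNReal NNReal unitInterval BoundedContinuousFunction

namespace Pool.Agent.QL.BM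

theorem lab_dy_nonempty (n : ℕ) : (Exc.Dy n).Nonempty := by
  induction n with
  | zero => exact ⟨[], by simp [Exc.Dy, Exc.Pos, Exc.Ws, Exc.ht]⟩
  | succ n ih =>
    obtain ⟨w, hw⟩ := ih
    simp only [Exc.Dy, Exc.Pos, Finset.mem_filter, Exc.mem_Ws] at hw
    obtain ⟨h1, h2, h3⟩ := hw
    have e1 : Exc.ht (w ++ [true]) (2 * n + 1) = 1 := by
      have := Exc.ht_concat w true
      rw [h1, h3] at this
      rw [this]; simp [Exc.sg]
    have e2 : Exc.ht (w ++ [true] ++ [false]) (2 * n + 1 + 1) = 0 := by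
      have := Exc.ht_concat (w ++ [true]) false
      rw [List.length_append, h1, List.length_singleton, e1] at this
      rw [this]; simp [Exc.sg]
    refine ⟨w ++ [true] ++ [false], ?_⟩
    simp only [Exc.Dy, Exc.Pos, Finset.mem_filter, Exc.mem_Ws]
    refine ⟨by simp [h1]; ring, fun j hj => ?_, e2⟩
    by_cases h4 : j ≤ 2 * n
    · rw [List.append_assoc, Exc.ht_append_le (h1 ▸ h4)]
      exact h2 j h4
    · by_cases h5 : j = 2 * n + 1
      · rw [Exc.ht_append_le (by simp [h1, h5]), h5, e1]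
        exact zero_le_one
      · rw [show j = 2 * n + 1 + 1 by omega, e2]

theorem lab_prob {n : ℕ} (hn : 1 ≤ n) : IsProbabilityMeasure (lamT n) := by
  obtain ⟨w, hw⟩ := lab_dy_nonempty n
  have : Nonempty (TT n) := ⟨(true, ⟨w, Finset.mem_filter.2 ⟨hw, hn⟩⟩, fun _ => 0)⟩
  unfold lamT
  infer_instance

theorem lab_dw {n : ℕ} (x : TT n) : x.C 0 = 0 ∧
    (∀ i < 2 * n, x.C (i + 1) ≤ x.C i + 1) ∧ ∀ i ≤ 2 * n, 0 ≤ x.C i := by
  have hw := (Finset.mem_filter.1 x.2.1.2).1
  simp only [Exc.Dy, Exc.Pos, Finset.mem_filter, Exc.mem_Ws] at hw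
  refine ⟨Exc.ht_zero _, fun i hi => ?_, hw.2.1⟩
  have hi' : i < x.2.1.1.length := hi.trans_eq hw.1.symm
  rw [TT.C, Exc.ht_succ hi']
  have := le_abs_self (Exc.sg (x.2.1.1[i]'hi'))
  rw [Exc.abs_sg] at this
  omega

theorem lab_ix_near (n : ℕ) (s : I) : |(stepAt n s : ℝ) - 2 * n * s| ≤ 1 := by
  have h0 : 0 ≤ 2 * (n : ℝ) * s := mul_nonneg (by positivity) s.2.1
  have h1 := Nat.floor_le h0
  have h2 := Nat.lt_floor_add_one (2 * (n : ℝ) * s)
  rw [stepAt, abs_le]
  constructor <;> linarith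

theorem lab_ix_mono (n : ℕ) {s u : I} (h : s ≤ u) : stepAt n s ≤ stepAt n u :=
  Nat.floor_le_floor (mul_le_mul_of_nonneg_left h (by positivity))

/-- the contour is close to `e` -/
def LabNear (n : ℕ) (C : ℕ → ℤ) (e : I → ℝ) (ε : ℝ) : Prop :=
  ∀ i ≤ 2 * n, ∀ u : I, |(i : ℝ) - 2 * n * u| ≤ 1 → |(√(2 * n))⁻¹ * C i - e u| ≤ ε

theorem LabNear.mn {n : ℕ} (hn : 0 < n) {C : ℕ → ℤ} {e : I → ℝ} (he : Continuous e) {ε : ℝ}
    (h : LabNear n C e ε) (s u : I) :
    |(√(2 * n))⁻¹ * mnC C (stepAt n s) (stepAt n u) - mn e (uIcc s u)| ≤ ε := by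
  wlog hsu : s ≤ u generalizing s u
  · rw [mnC_comm, uIcc_comm]
    exact this u s (le_of_not_ge hsu)
  have hi := lab_ix_mono n hsu
  have hn' : (0 : ℝ) < 2 * n := by positivity
  rw [uIcc_of_le hsu, abs_le]
  constructor
  · obtain ⟨m, h1, h2, h3⟩ := mnC_mem C (stepAt n s) (stepAt n u)
    rw [min_eq_left hi] at h1
    rw [max_eq_right hi] at h2
    obtain ⟨r, hr, hr'⟩ : ∃ r ∈ Icc s u, |(m : ℝ) - 2 * n * r| ≤ 1 := by
      rcases h1.eq_or_lt with h4 | h4
      · exact ⟨s, left_mem_Icc.2 hsu, h4 ▸ lab_ix_near n s⟩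
      · have h5 : (s : ℝ) ≤ m / (2 * n) := by
          rw [le_div_iff₀ hn', mul_comm]
          exact ((Nat.floor_lt (mul_nonneg hn'.le s.2.1)).1 h4).le
        have h6 : m / (2 * n) ≤ (u : ℝ) := by
          rw [div_le_iff₀ hn', mul_comm]
          exact (Nat.le_floor_iff (mul_nonneg hn'.le u.2.1)).1 h2
        refine ⟨⟨m / (2 * n), s.2.1.trans h5, h6.trans u.2.2⟩, ⟨h5, h6⟩, ?_⟩
        change |(m : ℝ) - 2 * n * (m / (2 * n))| ≤ 1
        rw [mul_div_cancel₀ _ hn'.ne']
        simp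
    have h7 := (abs_le.1 (h m (h2.trans (stepAt_le n u)) r hr')).1
    have h8 := mn_le he hr
    rw [h3]
    linarith
  · have : (√(2 * n))⁻¹ * mnC C (stepAt n s) (stepAt n u) - ε ≤ QL.mn e (Icc s u) := by
      refine le_mn (nonempty_Icc.2 hsu) fun r hr => ?_
      have h7 := (abs_le.1 (h _ (stepAt_le n r) r (lab_ix_near n r))).2
      have h8 : (mnC C (stepAt n s) (stepAt n u) : ℝ) ≤ C (stepAt n r) := by
        exact_mod_cast mnC_le C ((min_le_left _ _).trans (lab_ix_mono n hr.1))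
          ((lab_ix_mono n hr.2).trans (le_max_right _ _))
      have h9 := mul_le_mul_of_nonneg_left h8 (inv_nonneg.2 (Real.sqrt_nonneg (2 * n)))
      linarith
    linarith

/-- The contour is coupled with the excursion. -/
def LabCpl (S : Measure Snake) : Prop :=
  ∀ ε > 0, ∀ᶠ n in atTop, ∃ Θ : Measure (TT n × Snake), Θ.fst = lamT n ∧ Θ.snd = S ∧
    Θ {p | ¬ ∀ i ≤ 2 * n, ∀ u : I, |(i : ℝ) - ((2 * n : ℕ) : ℝ) * u| ≤ 1 →
      dist ((√(2 * n))⁻¹ * p.1.C i) (p.2.1 u) ≤ ε} ≤ ENNReal.ofReal ε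

theorem lab_cpl {S : Measure Snake} (hE : LabCpl S) {ε : ℝ} (hε : 0 < ε) :
    ∀ᶠ n in atTop, ∃ Θ : Measure (TT n × Snake), Θ.fst = lamT n ∧ Θ.snd = S ∧
      Θ {p | ¬ LabNear n p.1.C p.2.1 ε} ≤ ENNReal.ofReal ε := by
  simpa only [LabNear, Real.dist_eq, Nat.cast_mul, Nat.cast_ofNat] using hE ε hε

theorem lab_cn_sq {n : ℕ} (hn : 0 < n) : cn n ^ 2 = 3 / (2 * √(2 * n)) := by
  have hn' : (0 : ℝ) < 2 * n := by positivity
  have h1 : cn n ^ 2 = √(9 / 8 / n) := by
    rw [cn, ← Real.rpow_natCast, ← Real.rpow_mul (by positivity), Real.sqrt_eq_rpow]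
    norm_num
  rw [h1, Real.sqrt_eq_iff_mul_self_eq (by positivity) (by positivity), div_mul_div_comm,
    mul_mul_mul_comm, Real.mul_self_sqrt hn'.le]
  field_simp
  norm_num

theorem lab_cn_lim : Tendsto (fun n => cn n ^ 2) atTop (𝓝 0) := by
  have h1 : Tendsto (fun n : ℕ => 3 / (2 * √(2 * (n : ℝ)))) atTop (𝓝 0) :=
    tendsto_const_nhds.div_atTop ((Real.tendsto_sqrt_atTop.comp
      (tendsto_natCast_atTop_atTop.const_mul_atTop two_pos)).const_mul_atTop two_pos)
  exact h1.congr' ((eventually_gt_atTop 0).mono fun n hn => (lab_cn_sq hn).symm)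

theorem lab_char_TT {ι : Type} [Fintype ι] (n : ℕ) (a : ι → ℕ) (b : ι → ℝ) (G : (ℕ → ℤ) → ℂ) :
    ∫ x : TT n, G x.C * Complex.exp (Complex.I * ∑ j, (b j : ℂ) * (x.l (a j) : ℂ)) ∂lamT n =
      ∫ x : TT n, G x.C * (labPhi (2 * n) x.C a b : ℂ) ∂lamT n := by
  rw [lamT, lab_integral_unif, lab_integral_unif]
  congr 1
  change ∑ x : Bool × DyW n × (Fin (2 * n) → Fin 3), G (Exc.ht x.2.1.1) *
      Complex.exp (Complex.I * ∑ j, (b j : ℂ) * (labOf (Exc.ht x.2.1.1) x.2.2 (a j) : ℂ)) =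
    ∑ x : Bool × DyW n × (Fin (2 * n) → Fin 3), G (Exc.ht x.2.1.1) *
      (labPhi (2 * n) (Exc.ht x.2.1.1) a b : ℂ)
  simp only [Fintype.sum_prod_type]
  refine Finset.sum_congr rfl fun _ _ => Finset.sum_congr rfl fun w _ => ?_
  simp only [← Finset.mul_sum]
  rw [lab_sum]
  simp

theorem lab_cf {S : Measure Snake} (hS : IsSnake S) (hE : LabCpl S) {k : ℕ} (t : Fin k → I)
    (a b : Fin k → ℝ) :
    Tendsto (fun n => ∫ x : TT n, Complex.exp (Complex.I *
      (∑ j, a j * ((√(2 * n))⁻¹ * x.C (stepAt n (t j))) + ∑ j, b j * (cn n * x.l (stepAt n (t j))) : ℝ))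
      ∂lamT n) atTop
      (𝓝 (∫ y, Complex.exp (Complex.I * (∑ j, a j * y.1 (t j) + ∑ j, b j * y.2 (t j) : ℝ)) ∂S)) := by
  have := hS.prob
  set An : ∀ n, TT n → ℝ := fun n w => ∑ j, a j * ((√(2 * n))⁻¹ * w.C (stepAt n (t j))) with hAn
  set Qn : ∀ n, TT n → ℝ := fun n w =>
    ∑ i, ∑ j, b i * b j * ((√(2 * n))⁻¹ * mnC w.C (stepAt n (t i)) (stepAt n (t j))) with hQn
  have hQ' : ∀ n w, Qn n w =
      (∑ i, ∑ j, b i * b j * mnC w.C (stepAt n (t i)) (stepAt n (t j))) / √(2 * n) := by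
    intro n w
    simp only [hQn, Finset.sum_div, mul_div_assoc, inv_mul_eq_div]
  have cA : Continuous fun e : C(I, ℝ) => ∑ j, a j * e (t j) := by fun_prop
  have cQ : Continuous fun e : C(I, ℝ) => ∑ i, ∑ j, b i * b j * mn e (uIcc (t i) (t j)) :=
    continuous_finsetSum _ fun i _ => continuous_finsetSum _ fun j _ => continuous_const.mul
      (continuous_mn_uIcc.comp (continuous_id.prodMk (continuous_const (y := (t i, t j)))))
  set K : ℝ := ∑ j, |a j| + ∑ i, ∑ j, |b i * b j| + 1 with hK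
  have Ka : 0 ≤ ∑ j, |a j| := Finset.sum_nonneg fun _ _ => abs_nonneg _
  have Kb : 0 ≤ ∑ i, ∑ j, |b i * b j| :=
    Finset.sum_nonneg fun _ _ => Finset.sum_nonneg fun _ _ => abs_nonneg _
  have K0 : 0 < K := by positivity
  have h1 := lab_lim (fun n => lamT n) S (An := An) (Qn := Qn)
    (A := fun y => ∑ j, a j * y.1 (t j))
    (Q := fun y => ∑ i, ∑ j, b i * b j * mn y.1 (uIcc (t i) (t j)))
    (fun _ => Measurable.of_discrete) (fun _ => Measurable.of_discrete)
    (cA.comp Snake.continuous_fst).measurable (cQ.comp Snake.continuous_fst).measurable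
    (fun n w => by
      rw [hQ']
      exact div_nonneg (lab_form_nonneg (lab_dw w).1 (lab_dw w).2.1 (lab_dw w).2.2
        (fun j => stepAt_le n (t j)) b) (Real.sqrt_nonneg _))
    (fun ε hε => by
      have hη : 0 < ε / K := by positivity
      have hK1 : ε / K * K = ε := div_mul_cancel₀ _ K0.ne'
      filter_upwards [lab_cpl hE hη, eventually_gt_atTop 0] with n ⟨Θ, e1, e2, e3⟩ hn
      refine ⟨Θ, e1, e2, le_trans (measure_mono ?_)
        (e3.trans (ENNReal.ofReal_le_ofReal (by nlinarith)))⟩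
      intro p hp hp'
      refine hp ⟨?_, ?_⟩
      · rw [hAn, ← Finset.sum_sub_distrib]
        refine (Finset.abs_sum_le_sum_abs _ _).trans
          ((Finset.sum_le_sum (g := fun j => |a j| * (ε / K)) fun j _ => ?_).trans ?_)
        · rw [← mul_sub, abs_mul]
          exact mul_le_mul_of_nonneg_left (hp' _ (stepAt_le n _) _ (lab_ix_near n _)) (abs_nonneg _)
        · rw [← Finset.sum_mul]
          nlinarith
      · rw [hQn, ← Finset.sum_sub_distrib]
        refine (Finset.abs_sum_le_sum_abs _ _).trans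
          ((Finset.sum_le_sum (g := fun i => (∑ j, |b i * b j|) * (ε / K)) fun i _ => ?_).trans ?_)
        · rw [← Finset.sum_sub_distrib, Finset.sum_mul]
          refine (Finset.abs_sum_le_sum_abs _ _).trans (Finset.sum_le_sum fun j _ => ?_)
          rw [← mul_sub, abs_mul]
          exact mul_le_mul_of_nonneg_left (LabNear.mn hn p.2.1.continuous hp' _ _) (abs_nonneg _)
        · rw [← Finset.sum_mul]
          nlinarith)
  have h2 := hS.lab k t b (BoundedContinuousFunction.ofNormedAddCommGroup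
    (fun e : C(I, ℝ) => Complex.exp (Complex.I * (∑ j, a j * e (t j) : ℝ)))
    (Complex.continuous_exp.comp (continuous_const.mul (Complex.continuous_ofReal.comp cA))) 1
    fun e => (Complex.norm_exp_I_mul_ofReal _).le)
  simp only [BoundedContinuousFunction.coe_ofNormedAddCommGroup] at h2
  have h3 : ∫ y, Complex.exp (Complex.I * (∑ j, a j * y.1 (t j) + ∑ j, b j * y.2 (t j) : ℝ)) ∂S =
      ∫ y, labE (∑ j, a j * y.1 (t j)) (∑ i, ∑ j, b i * b j * mn y.1 (uIcc (t i) (t j))) ∂S := by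
    refine Eq.trans ?_ h2
    simp only [Complex.ofReal_add, mul_add, Complex.exp_add]
  rw [h3]
  have h4 : Tendsto (fun n => 12 * (cn n ^ 2 * (∑ j, |b j|) ^ 2)) atTop (𝓝 0) := by
    simpa using (lab_cn_lim.mul_const ((∑ j, |b j|) ^ 2)).const_mul 12
  refine h1.congr_dist (squeeze_zero' (Eventually.of_forall fun _ => dist_nonneg) ?_ h4)
  filter_upwards [h4.eventually (ge_mem_nhds one_pos), eventually_gt_atTop 0] with n h5 hn
  have h6 : (∑ j, |b j * cn n|) ^ 2 = cn n ^ 2 * (∑ j, |b j|) ^ 2 := by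
    simp only [abs_mul, ← Finset.sum_mul]
    rw [mul_pow, sq_abs, mul_comm]
  have h7 : ∫ x : TT n, Complex.exp (Complex.I *
      (∑ j, a j * ((√(2 * n))⁻¹ * x.C (stepAt n (t j))) + ∑ j, b j * (cn n * x.l (stepAt n (t j))) : ℝ))
      ∂lamT n = ∫ w : TT n, Complex.exp (Complex.I * An n w) *
        (labPhi (2 * n) w.C (fun j => stepAt n (t j)) (fun j => b j * cn n) : ℂ)
        ∂lamT n := by
    refine Eq.trans ?_ (lab_char_TT n (fun j => stepAt n (t j)) (fun j => b j * cn n)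
      fun C => Complex.exp (Complex.I * (∑ j, a j * ((√(2 * n))⁻¹ * C (stepAt n (t j))) : ℝ)))
    refine integral_congr_ae (ae_of_all _ fun x => ?_)
    simp only [Complex.ofReal_add, mul_add, Complex.exp_add]
    congr 3
    push_cast
    simp only [mul_assoc]
  have := lab_prob hn
  rw [h7, dist_eq_norm, ← integral_sub Integrable.of_finite Integrable.of_finite]
  refine (norm_integral_le_of_norm_le_const (C := 12 * (cn n ^ 2 * (∑ j, |b j|) ^ 2))
    (ae_of_all _ fun w => ?_)).trans_eq (by simp)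
  have h8 := labPhi_approx (lab_dw w).1 (lab_dw w).2.1 (lab_dw w).2.2 (fun j => stepAt_le n (t j))
    (b := fun j => b j * cn n) (by rw [h6]; linarith)
  have h9 : -(∑ i, ∑ j, b i * cn n * (b j * cn n) *
      mnC w.C (stepAt n (t i)) (stepAt n (t j))) / 3 = -Qn n w / 2 := by
    have : ∀ i j, b i * cn n * (b j * cn n) * (mnC w.C (stepAt n (t i)) (stepAt n (t j)) : ℝ) =
        cn n ^ 2 * (b i * b j * mnC w.C (stepAt n (t i)) (stepAt n (t j))) := fun i j => by ring
    simp only [this, ← Finset.mul_sum]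
    rw [hQ', lab_cn_sq hn]
    ring
  rw [h9, h6] at h8
  rw [labE, ← mul_sub, norm_mul, Complex.norm_exp_I_mul_ofReal, one_mul, ← Complex.ofReal_sub,
    Complex.norm_real, Real.norm_eq_abs, abs_sub_comm]
  exact h8

/-- Joint finite-dimensional convergence of contour and labels. -/
theorem lab_fdd {S : Measure Snake} (hS : IsSnake S) (hE : LabCpl S) (k : ℕ) (t : Fin k → I)
    (F : (Fin k → ℝ × ℝ) →ᵇ ℝ) :
    Tendsto (fun n => ∫ x : TT n, F fun j =>
      ((√(2 * n))⁻¹ * x.C (stepAt n (t j)), cn n * x.l (stepAt n (t j))) ∂lamT n) atTop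
      (𝓝 (∫ y, F fun j => (y.1 (t j), y.2 (t j)) ∂S)) := by
  have := hS.prob
  set X : ∀ n, TT n → EuclideanSpace ℝ (Fin k ⊕ Fin k) := fun n x => WithLp.toLp 2
    (Sum.elim (fun j => (√(2 * n))⁻¹ * x.C (stepAt n (t j))) fun j => cn n * x.l (stepAt n (t j)))
    with hX
  set Y : Snake → EuclideanSpace ℝ (Fin k ⊕ Fin k) := fun y => WithLp.toLp 2
    (Sum.elim (fun j => y.1 (t j)) fun j => y.2 (t j)) with hY
  have mX : ∀ n, Measurable (X n) := fun _ => Measurable.of_discrete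
  have mY : Measurable Y := by
    refine ((PiLp.continuous_toLp 2 _).comp (continuous_pi fun i => ?_)).measurable
    rcases i with j | j
    · exact (continuous_eval_const (t j)).comp Snake.continuous_fst
    · exact (continuous_eval_const (t j)).comp Snake.continuous_snd
  have hp : ∀ n, IsProbabilityMeasure (lamT (n + 1)) := fun n => lab_prob (Nat.le_add_left 1 n)
  have h1 : Tendsto (β := ProbabilityMeasure (EuclideanSpace ℝ (Fin k ⊕ Fin k)))
      (fun n => ⟨(lamT (n + 1)).map (X (n + 1)),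
        Measure.isProbabilityMeasure_map (mX _).aemeasurable⟩)
      atTop (𝓝 ⟨S.map Y, Measure.isProbabilityMeasure_map mY.aemeasurable⟩) := by
    refine ProbabilityMeasure.tendsto_of_tendsto_charFun fun ξ => ?_
    have mξ : Continuous fun z : EuclideanSpace ℝ (Fin k ⊕ Fin k) =>
        Complex.exp ((inner ℝ z ξ : ℝ) * Complex.I) := by fun_prop
    simp only [ProbabilityMeasure.coe_mk, charFun_apply]
    simp only [integral_map (mX _).aemeasurable mξ.aestronglyMeasurable,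
      integral_map mY.aemeasurable mξ.aestronglyMeasurable]
    have e : ∀ u v : Fin k → ℝ, ((inner ℝ (WithLp.toLp 2 (Sum.elim u v)) ξ : ℝ) : ℂ) * Complex.I =
        Complex.I * (∑ j, ξ (.inl j) * u j + ∑ j, ξ (.inr j) * v j : ℝ) := fun u v => by
      rw [mul_comm]
      congr 2
      simp [PiLp.inner_apply]
    simp only [hX, hY, e]
    exact (tendsto_add_atTop_iff_nat 1).2
      (lab_cf hS hE t (fun j => ξ (.inl j)) fun j => ξ (.inr j))
  have h2 := ProbabilityMeasure.tendsto_iff_forall_integral_tendsto.1 h1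
    (F.compContinuous ⟨fun z j => (z (.inl j), z (.inr j)), by fun_prop⟩)
  simp only [ProbabilityMeasure.coe_mk] at h2
  simp only [integral_map (mX _).aemeasurable
      (BoundedContinuousFunction.continuous _).aestronglyMeasurable,
    integral_map mY.aemeasurable (BoundedContinuousFunction.continuous _).aestronglyMeasurable]
    at h2
  exact (tendsto_add_atTop_iff_nat 1).1 h2

end Pool.Agent.QL.BM
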