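import Pool.Agent.P.MP_7a6434d8_pr.QL.BM.TDefs

/-! The open up-steps of a nonnegative nearest-neighbour path and the labels they carry. -/

namespace Pool.Agent.QL.BM.LC

open Finset

/-- the steps `k < i` such that the path stays strictly above `C k` on `[k + 1, i]`: the edges
between the root and the vertex visited at time `i` -/
def opn (C : ℕ → ℤ) (i : ℕ) : Finset ℕ :=
  (range i).filter (fun k => ∀ m ≤ i, k < m → C k < C m)

/-- the label at time `i`: sum of the increments `d k - 1` over the open steps -/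
def lblF {N : ℕ} (C : ℕ → ℤ) (d : Fin N → Fin 3) (i : ℕ) : ℤ :=
  ∑ k ∈ univ.filter (fun k : Fin N => (k : ℕ) ∈ opn C i), (((d k : ℕ) : ℤ) - 1)

/-- the minimum of `C` between the times `i` and `j` -/
def cmin (C : ℕ → ℤ) (i j : ℕ) : ℤ := (uIcc i j).inf' nonempty_uIcc C

/-- a nonnegative nearest-neighbour path with `N` steps started at `0` -/
structure IsWalk (N : ℕ) (C : ℕ → ℤ) : Prop where
  zero : C 0 = 0
  step : ∀ i < N, C (i + 1) = C i + 1 ∨ C (i + 1) = C i - 1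
  nonneg : ∀ i ≤ N, 0 ≤ C i

theorem mem_opn {C : ℕ → ℤ} {i k : ℕ} :
    k ∈ opn C i ↔ k < i ∧ ∀ m, k < m → m ≤ i → C k < C m := by
  simp only [opn, mem_filter, mem_range]
  exact and_congr_right fun _ => ⟨fun h m a b => h m b a, fun h m a b => h m b a⟩

theorem opn_zero (C : ℕ → ℤ) : opn C 0 = ∅ := by simp [opn]

theorem opn_subset (C : ℕ → ℤ) (i : ℕ) : opn C i ⊆ range i := filter_subset _ _

theorem opn_congr {C C' : ℕ → ℤ} {i : ℕ} (h : ∀ m ≤ i, C m = C' m) : opn C i = opn C' i := by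
  ext k
  simp only [mem_opn]
  refine and_congr_right fun hk => forall_congr' fun m => forall_congr' fun _ =>
    forall_congr' fun h2 => ?_
  rw [h k hk.le, h m h2]

theorem cmin_le (C : ℕ → ℤ) {i j m : ℕ} (h1 : min i j ≤ m) (h2 : m ≤ max i j) :
    cmin C i j ≤ C m :=
  inf'_le C (by rw [uIcc, mem_Icc]; exact ⟨h1, h2⟩)

theorem exists_cmin (C : ℕ → ℤ) (i j : ℕ) :
    ∃ m, min i j ≤ m ∧ m ≤ max i j ∧ cmin C i j = C m := by
  obtain ⟨m, hm, e⟩ := exists_mem_eq_inf' (nonempty_uIcc (a := i) (b := j)) C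
  rw [uIcc, mem_Icc] at hm
  exact ⟨m, hm.1, hm.2, e⟩

theorem le_cmin {C : ℕ → ℤ} {i j : ℕ} {μ : ℤ} (h : ∀ m, min i j ≤ m → m ≤ max i j → μ ≤ C m) :
    μ ≤ cmin C i j := by
  obtain ⟨m, h1, h2, e⟩ := exists_cmin C i j
  rw [e]
  exact h m h1 h2

theorem cmin_comm (C : ℕ → ℤ) (i j : ℕ) : cmin C i j = cmin C j i := by
  apply le_antisymm
  · exact le_cmin fun m h1 h2 => cmin_le C (by rwa [min_comm]) (by rwa [max_comm])
  · exact le_cmin fun m h1 h2 => cmin_le C (by rwa [min_comm]) (by rwa [max_comm])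

theorem cmin_self (C : ℕ → ℤ) (i : ℕ) : cmin C i i = C i := by
  obtain ⟨m, h1, h2, e⟩ := exists_cmin C i i
  rw [e, show m = i by omega]

theorem injOn_opn (C : ℕ → ℤ) (i : ℕ) : Set.InjOn C (opn C i) := by
  intro k hk k' hk' e
  rw [mem_coe, mem_opn] at hk hk'
  rcases lt_trichotomy k k' with h | h | h
  · exact absurd e (hk.2 k' h hk'.1.le).ne
  · exact h
  · exact absurd e (hk'.2 k h hk.1.le).ne'

theorem image_opn {N : ℕ} {C : ℕ → ℤ} (hC : IsWalk N C) {i : ℕ} (hi : i ≤ N) :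
    (opn C i).image C = Ico 0 (C i) := by
  ext h
  simp only [mem_image, mem_Ico, mem_opn]
  constructor
  · rintro ⟨k, ⟨h1, h2⟩, rfl⟩
    exact ⟨hC.nonneg k (by omega), h2 i h1 le_rfl⟩
  · rintro ⟨h0, h1⟩
    have hne : ∃ k, C k ≤ h ∧ k ≤ i := ⟨0, by rw [hC.zero]; exact h0, Nat.zero_le _⟩
    classical
    have hP := Nat.findGreatest_spec (P := fun k => C k ≤ h) (Nat.zero_le i)
      (by rw [hC.zero]; exact h0)
    set k := Nat.findGreatest (fun k => C k ≤ h) i with hk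
    have hki : k ≤ i := Nat.findGreatest_le i
    have hgt : ∀ m, k < m → m ≤ i → h < C m := fun m a b =>
      not_le.1 (Nat.findGreatest_is_greatest (P := fun k => C k ≤ h) a b)
    have hlt : k < i := by
      rcases hki.lt_or_eq with a | a
      · exact a
      · rw [a] at hP
        omega
    have e : C k = h := by
      have := hgt (k + 1) (by omega) hlt
      rcases hC.step k (by omega) with a | a <;> omega
    exact ⟨k, ⟨hlt, fun m a b => e ▸ hgt m a b⟩, e⟩

theorem opn_inter {C : ℕ → ℤ} {i j : ℕ} (hij : i ≤ j) :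
    opn C i ∩ opn C j = (opn C i).filter (fun k => C k < cmin C i j) := by
  ext k
  simp only [mem_inter, mem_filter, mem_opn]
  refine and_congr_right fun hk => ⟨fun h => ?_, fun h => ⟨by omega, fun m a b => ?_⟩⟩
  · obtain ⟨m, h1, h2, e⟩ := exists_cmin C i j
    rw [e]
    exact h.2 m (by omega) (by omega)
  · rcases le_total m i with c | c
    · exact hk.2 m a c
    · exact h.trans_le (cmin_le C (by omega) (by omega))

theorem card_filter_opn {N : ℕ} {C : ℕ → ℤ} (hC : IsWalk N C) {i : ℕ} (hi : i ≤ N) {μ : ℤ}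
    (h0 : 0 ≤ μ) (h1 : μ ≤ C i) : (((opn C i).filter (fun k => C k < μ)).card : ℤ) = μ := by
  rw [← card_image_of_injOn ((injOn_opn C i).mono (coe_subset.2 (filter_subset _ _)))]
  have : ((opn C i).filter (fun k => C k < μ)).image C = Ico 0 μ := by
    rw [← filter_image (f := C) (p := fun x => x < μ), image_opn hC hi]
    ext x
    simp only [mem_filter, mem_Ico]
    omega
  rw [this, Int.card_Ico]
  omega

theorem cmin_nonneg {N : ℕ} {C : ℕ → ℤ} (hC : IsWalk N C) {i j : ℕ} (hi : i ≤ N) (hj : j ≤ N) :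
    0 ≤ cmin C i j :=
  le_cmin fun m _ h2 => hC.nonneg m (by omega)

/-- the number of common open steps is the minimum of the path between the two times -/
theorem card_opn_inter {N : ℕ} {C : ℕ → ℤ} (hC : IsWalk N C) {i j : ℕ} (hi : i ≤ N)
    (hj : j ≤ N) : ((opn C i ∩ opn C j).card : ℤ) = cmin C i j := by
  wlog hij : i ≤ j generalizing i j
  · rw [inter_comm, cmin_comm]
    exact this hj hi (by omega)
  rw [opn_inter hij]
  exact card_filter_opn hC hi (cmin_nonneg hC hi hj) (cmin_le C (by omega) (by omega))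

theorem card_opn {N : ℕ} {C : ℕ → ℤ} (hC : IsWalk N C) {i : ℕ} (hi : i ≤ N) :
    ((opn C i).card : ℤ) = C i := by
  have := card_opn_inter hC hi hi
  rwa [inter_self, cmin_self] at this

theorem opn_up {N : ℕ} {C : ℕ → ℤ} (hC : IsWalk N C) {i k : ℕ} (hi : i ≤ N) (hk : k ∈ opn C i) :
    C (k + 1) = C k + 1 := by
  rw [mem_opn] at hk
  have := hk.2 (k + 1) (by omega) hk.1
  rcases hC.step k (by omega) with a | a <;> omega

theorem lblF_eq {N : ℕ} (C : ℕ → ℤ) (d : Fin N → Fin 3) (i : ℕ) : lblF C d i = lbl C d i := by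
  unfold lblF lbl
  rw [sum_filter]
  refine sum_congr rfl fun k _ => ?_
  have : (k : ℕ) ∈ opn C i ↔ Opn C i k := mem_opn
  by_cases h : Opn C i k
  · rw [if_pos h, if_pos (this.2 h)]
  · rw [if_neg h, if_neg (fun a => h (this.1 a))]

theorem card_filter_fin {N : ℕ} {s : Finset ℕ} (hs : s ⊆ range N) :
    (univ.filter (fun k : Fin N => (k : ℕ) ∈ s)).card = s.card := by
  refine card_bij (fun k _ => (k : ℕ)) (fun k hk => (mem_filter.1 hk).2)
    (fun a _ b _ h => Fin.ext h) (fun k hk => ?_)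
  exact ⟨⟨k, mem_range.1 (hs hk)⟩, mem_filter.2 ⟨mem_univ _, hk⟩, rfl⟩

/-- characteristic function of the uniform law on `{-1, 0, 1}` -/
noncomputable def phi3 (x : ℝ) : ℝ := (1 + 2 * Real.cos x) / 3

theorem abs_phi3_le (x : ℝ) : |phi3 x| ≤ 1 := by
  have h1 := Real.cos_le_one x
  have h2 := Real.neg_one_le_cos x
  rw [phi3, abs_le]
  constructor <;> linarith

theorem phi3_approx {x : ℝ} (hx : |x| ≤ 1) : |phi3 x - Real.exp (-(x ^ 2 / 3))| ≤ x ^ 4 := by
  have h1 := Real.cos_bound hx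
  have hx2 : x ^ 2 ≤ 1 := by
    rw [← sq_abs]
    exact pow_le_one₀ (abs_nonneg x) hx
  have h0 : 0 ≤ x ^ 2 := sq_nonneg x
  have h2 := Real.abs_exp_sub_one_sub_id_le (x := -(x ^ 2 / 3))
    (by rw [abs_neg, abs_of_nonneg (by positivity)]; linarith)
  have e4 : |x| ^ 4 = x ^ 4 := by
    rw [show (4 : ℕ) = 2 * 2 from rfl, pow_mul, sq_abs, ← pow_mul]
  have e5 : (-(x ^ 2 / 3)) ^ 2 = x ^ 4 / 9 := by ring
  rw [e4, abs_le] at h1
  rw [e5, abs_le] at h2
  have h4 : 0 ≤ x ^ 4 := by positivity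
  rw [phi3, abs_le]
  constructor <;> linarith [h1.1, h1.2, h2.1, h2.2]

theorem sum_exp_fin3 (x : ℝ) :
    ∑ a : Fin 3, Complex.exp (Complex.I * ((x * ((((a : ℕ) : ℤ) - 1 : ℤ) : ℝ) : ℝ) : ℂ)) =
      3 * (phi3 x : ℂ) := by
  rw [Fin.sum_univ_three, phi3]
  push_cast
  have := Complex.two_cos (x : ℂ)
  simp only [Fin.val_zero, Fin.val_one, Fin.val_two]
  push_cast
  have e0 : Complex.I * (x * (0 - 1)) = -(x : ℂ) * Complex.I := by ring
  have e1 : Complex.I * (x * (1 - 1)) = 0 := by ring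
  have e2 : Complex.I * (x * (2 - 1)) = (x : ℂ) * Complex.I := by ring
  rw [e0, e1, e2, Complex.exp_zero, this]
  ring

theorem abs_prod_sub_prod_le_sum {ι : Type*} (s : Finset ι) (a b : ι → ℝ)
    (ha : ∀ i ∈ s, |a i| ≤ 1) (hb : ∀ i ∈ s, |b i| ≤ 1) :
    |∏ i ∈ s, a i - ∏ i ∈ s, b i| ≤ ∑ i ∈ s, |a i - b i| := by
  classical
  induction s using Finset.induction_on with
  | empty => simp
  | insert i s hi ih =>
    rw [prod_insert hi, prod_insert hi, sum_insert hi]
    have h1 := ih (fun j hj => ha j (mem_insert_of_mem hj))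
      (fun j hj => hb j (mem_insert_of_mem hj))
    have h2 : |∏ j ∈ s, b j| ≤ 1 := by
      rw [abs_prod]
      exact prod_le_one (fun _ _ => abs_nonneg _) (fun j hj => hb j (mem_insert_of_mem hj))
    have h3 := ha i (mem_insert_self i s)
    have e : a i * ∏ j ∈ s, a j - b i * ∏ j ∈ s, b j =
        a i * (∏ j ∈ s, a j - ∏ j ∈ s, b j) + (a i - b i) * ∏ j ∈ s, b j := by ring
    rw [e]
    refine (abs_add_le _ _).trans ?_
    rw [abs_mul, abs_mul, add_comm]
    exact add_le_add (mul_le_of_le_one_right (abs_nonneg _) h2)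
      ((mul_le_of_le_one_left (abs_nonneg _) h3).trans h1)

section Abstract

variable {ι κ : Type} [Fintype ι] [DecidableEq ι] [Fintype κ]

/-- total coefficient of the increment `e` -/
noncomputable def coefE (O : κ → Finset ι) (lam : κ → ℝ) (e : ι) : ℝ :=
  ∑ j, if e ∈ O j then lam j else 0

theorem sum_coefE (O : κ → Finset ι) (lam : κ → ℝ) (x : ι → ℝ) :
    ∑ j, lam j * ∑ e ∈ O j, x e = ∑ e, coefE O lam e * x e := by
  simp only [coefE, sum_mul]
  rw [sum_comm]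
  refine sum_congr rfl fun j _ => ?_
  rw [mul_sum]
  simp only [ite_mul, zero_mul]
  rw [← sum_filter]
  congr 1
  ext e
  simp

theorem sum_exp_labels (O : κ → Finset ι) (lam : κ → ℝ) :
    ∑ d : ι → Fin 3, Complex.exp (Complex.I *
      ((∑ j, lam j * ((∑ e ∈ O j, (((d e : ℕ) : ℤ) - 1) : ℤ) : ℝ) : ℝ) : ℂ)) =
      3 ^ Fintype.card ι * ((∏ e, phi3 (coefE O lam e) : ℝ) : ℂ) := by
  have h : ∀ d : ι → Fin 3, Complex.exp (Complex.I *
      ((∑ j, lam j * ((∑ e ∈ O j, (((d e : ℕ) : ℤ) - 1) : ℤ) : ℝ) : ℝ) : ℂ)) =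
      ∏ e, Complex.exp (Complex.I *
        ((coefE O lam e * ((((d e : ℕ) : ℤ) - 1 : ℤ) : ℝ) : ℝ) : ℂ)) := by
    intro d
    rw [← Complex.exp_sum, ← mul_sum, ← Complex.ofReal_sum, ← sum_coefE]
    simp only [Int.cast_sum]
  simp only [h]
  have := (prod_univ_sum (fun _ : ι => (univ : Finset (Fin 3))) (fun e a =>
    Complex.exp (Complex.I * ((coefE O lam e * ((((a : ℕ) : ℤ) - 1 : ℤ) : ℝ) : ℝ) : ℂ)))).symm
  rw [Fintype.piFinset_univ] at this
  rw [this]
  simp only [sum_exp_fin3]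
  rw [prod_mul_distrib, prod_const, card_univ, Complex.ofReal_prod]

omit [Fintype ι] in
theorem abs_coefE_le (O : κ → Finset ι) (lam : κ → ℝ) (e : ι) :
    |coefE O lam e| ≤ ∑ j, |lam j| := by
  refine (abs_sum_le_sum_abs _ _).trans (sum_le_sum fun j _ => ?_)
  split_ifs <;> simp

theorem sum_coefE_sq (O : κ → Finset ι) (lam : κ → ℝ) :
    ∑ e, coefE O lam e ^ 2 = ∑ j, ∑ j', lam j * lam j' * ((O j ∩ O j').card : ℝ) := by
  have h : ∀ e, coefE O lam e ^ 2 =
      ∑ j, ∑ j', if e ∈ O j ∩ O j' then lam j * lam j' else 0 := by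
    intro e
    rw [sq, coefE, sum_mul_sum]
    refine sum_congr rfl fun j _ => sum_congr rfl fun j' _ => ?_
    by_cases h1 : e ∈ O j <;> by_cases h2 : e ∈ O j' <;> simp [h1, h2]
  simp only [h]
  rw [sum_comm]
  refine sum_congr rfl fun j _ => ?_
  rw [sum_comm]
  refine sum_congr rfl fun j' _ => ?_
  rw [← sum_filter, sum_const, nsmul_eq_mul, mul_comm]
  congr 3
  ext e
  simp

theorem sum_coefE_four (O : κ → Finset ι) (lam : κ → ℝ) :
    ∑ e, coefE O lam e ^ 4 ≤ (∑ j, |lam j|) ^ 4 * ∑ j, ((O j).card : ℝ) := by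
  have h : ∀ e, coefE O lam e ^ 4 ≤
      ∑ j, if e ∈ O j then (∑ j, |lam j|) ^ 4 else 0 := by
    intro e
    by_cases he : ∃ j, e ∈ O j
    · obtain ⟨j, hj⟩ := he
      have h1 : coefE O lam e ^ 4 ≤ (∑ j, |lam j|) ^ 4 := by
        rw [show coefE O lam e ^ 4 = |coefE O lam e| ^ 4 by
          rw [show (4 : ℕ) = 2 * 2 from rfl, pow_mul, pow_mul, sq_abs]]
        exact pow_le_pow_left₀ (abs_nonneg _) (abs_coefE_le O lam e) 4
      refine h1.trans ?_
      have := single_le_sum (f := fun j => if e ∈ O j then (∑ j, |lam j|) ^ 4 else 0)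
        (fun j _ => by split_ifs <;> positivity) (mem_univ j)
      simpa only [if_pos hj] using this
    · push Not at he
      simp [coefE, he]
  refine (sum_le_sum fun e _ => h e).trans (le_of_eq ?_)
  rw [sum_comm, mul_sum]
  refine sum_congr rfl fun j _ => ?_
  rw [← sum_filter, sum_const, nsmul_eq_mul, mul_comm]
  congr 3
  ext e
  simp

theorem prod_phi3_approx (O : κ → Finset ι) (lam : κ → ℝ) (h : ∑ j, |lam j| ≤ 1) :
    |∏ e, phi3 (coefE O lam e) -
      Real.exp (-(1 / 3) * ∑ j, ∑ j', lam j * lam j' * ((O j ∩ O j').card : ℝ))| ≤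
      (∑ j, |lam j|) ^ 4 * ∑ j, ((O j).card : ℝ) := by
  have e : Real.exp (-(1 / 3) * ∑ j, ∑ j', lam j * lam j' * ((O j ∩ O j').card : ℝ)) =
      ∏ e, Real.exp (-(coefE O lam e ^ 2 / 3)) := by
    rw [← sum_coefE_sq, ← Real.exp_sum, mul_sum]
    congr 1
    exact sum_congr rfl fun e _ => by ring
  rw [e]
  refine (abs_prod_sub_prod_le_sum _ _ _ (fun e _ => abs_phi3_le _) (fun e _ => ?_)).trans
    ((sum_le_sum fun e _ => phi3_approx ((abs_coefE_le O lam e).trans h)).trans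
      (sum_coefE_four O lam))
  rw [abs_of_pos (Real.exp_pos _), Real.exp_le_one_iff]
  have := sq_nonneg (coefE O lam e)
  linarith

end Abstract

/-- the conditional characteristic function of the labels at the times `a j` -/
noncomputable def labPhi {κ : Type} [Fintype κ] (N : ℕ) (a : κ → ℕ) (lam : κ → ℝ)
    (C : ℕ → ℤ) : ℝ :=
  ∏ e : Fin N, phi3 (coefE (fun j => univ.filter (fun k : Fin N => (k : ℕ) ∈ opn C (a j))) lam e)

theorem abs_labPhi_le {κ : Type} [Fintype κ] (N : ℕ) (a : κ → ℕ) (lam : κ → ℝ) (C : ℕ → ℤ) :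
    |labPhi N a lam C| ≤ 1 := by
  rw [labPhi, abs_prod]
  exact prod_le_one (fun _ _ => abs_nonneg _) (fun _ _ => abs_phi3_le _)

/-- LABCHAR, first half: the average over the increments -/
theorem sum_exp_lblF {κ : Type} [Fintype κ] (N : ℕ) (a : κ → ℕ) (lam : κ → ℝ) (C : ℕ → ℤ) :
    ∑ d : Fin N → Fin 3, Complex.exp (Complex.I *
      ((∑ j, lam j * (lblF C d (a j) : ℝ) : ℝ) : ℂ)) = 3 ^ N * (labPhi N a lam C : ℂ) := by
  have := sum_exp_labels (fun j => univ.filter (fun k : Fin N => (k : ℕ) ∈ opn C (a j))) lam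
  rw [Fintype.card_fin] at this
  exact this

/-- LABCHAR, second half: the Gaussian approximation -/
theorem labPhi_approx {κ : Type} [Fintype κ] {N : ℕ} {C : ℕ → ℤ} (hC : IsWalk N C) (a : κ → ℕ)
    (ha : ∀ j, a j ≤ N) (lam : κ → ℝ) (h : ∑ j, |lam j| ≤ 1) :
    |labPhi N a lam C -
      Real.exp (-(1 / 3) * ∑ j, ∑ j', lam j * lam j' * (cmin C (a j) (a j') : ℝ))| ≤
      (∑ j, |lam j|) ^ 4 * ∑ j, (C (a j) : ℝ) := by
  have key := prod_phi3_approx
    (fun j => univ.filter (fun k : Fin N => (k : ℕ) ∈ opn C (a j))) lam h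
  have hs : ∀ j, opn C (a j) ⊆ range N := fun j =>
    (opn_subset C _).trans (range_subset_range.2 (ha j))
  have e1 : ∀ j j', ((univ.filter (fun k : Fin N => (k : ℕ) ∈ opn C (a j)) ∩
      univ.filter (fun k : Fin N => (k : ℕ) ∈ opn C (a j'))).card : ℝ) =
      (cmin C (a j) (a j') : ℝ) := by
    intro j j'
    rw [← card_opn_inter hC (ha j) (ha j'), Int.cast_natCast,
      ← card_filter_fin (inter_subset_left.trans (hs j))]
    congr 2
    ext k
    simp
  have e2 : ∀ j, ((univ.filter (fun k : Fin N => (k : ℕ) ∈ opn C (a j))).card : ℝ) =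
      (C (a j) : ℝ) := by
    intro j
    rw [← card_opn hC (ha j), Int.cast_natCast, card_filter_fin (hs j)]
  simp only [e1, e2] at key
  exact key

theorem isWalk_TT {n : ℕ} (t : TT n) : IsWalk (2 * n) t.C := by
  have h0 : t.2.1.1 ∈ Exc.Pos (2 * n) 0 := (mem_filter.1 t.2.1.2).1
  have h1 := mem_filter.1 h0
  have h : t.2.1.1.length = 2 * n ∧ (∀ j ≤ 2 * n, 0 ≤ Exc.ht t.2.1.1 j) ∧
      Exc.ht t.2.1.1 (2 * n) = 0 := ⟨Exc.mem_Ws.1 h1.1, h1.2⟩
  refine ⟨Exc.ht_zero _, fun i hi => ?_, h.2.1⟩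
  have := Exc.ht_succ (l := t.2.1.1) (i := i) (by rw [h.1]; exact hi)
  unfold TT.C
  rw [this]
  cases (t.2.1.1)[i]'(by rw [h.1]; exact hi) <;> simp [Exc.sg, sub_eq_add_neg]

open MeasureTheory ProbabilityTheory in
theorem integral_lamT_eq (n : ℕ) (F : TT n → ℂ) :
    ∫ t, F t ∂lamT n = ((Fintype.card (TT n) : ℝ)⁻¹ : ℝ) • ∑ t, F t := by
  have : IsFiniteMeasure (lamT n) := by
    unfold lamT
    infer_instance
  rw [integral_fintype .of_finite, smul_sum]
  refine sum_congr rfl fun t _ => ?_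
  congr 1
  rw [Measure.real, lamT, uniformOn_univ]
  simp

open MeasureTheory in
/-- LABCHAR for the uniform law on codes -/
theorem labchar_TT {κ : Type} [Fintype κ] (n : ℕ) (a : κ → ℕ) (lam : κ → ℝ)
    (G : (ℕ → ℤ) → ℂ) :
    ∫ t, G t.C * Complex.exp (Complex.I * ((∑ j, lam j * (t.l (a j) : ℝ) : ℝ) : ℂ)) ∂lamT n =
      ∫ t, G t.C * (labPhi (2 * n) a lam t.C : ℂ) ∂lamT n := by
  rw [integral_lamT_eq, integral_lamT_eq]
  congr 1
  have key : ∀ F : TT n → ℂ, ∑ t, F t = ∑ s : Bool, ∑ w : DyW n,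
      ∑ d : Fin (2 * n) → Fin 3, F (s, w, d) := by
    intro F
    exact Fintype.sum_prod_type (fun t : Bool × DyW n × (Fin (2 * n) → Fin 3) => F t) |>.trans
      (sum_congr rfl fun s _ => Fintype.sum_prod_type
        (fun t : DyW n × (Fin (2 * n) → Fin 3) => F (s, t)))
  rw [key, key]
  refine sum_congr rfl fun s _ => sum_congr rfl fun w _ => ?_
  have h := sum_exp_lblF (2 * n) a lam (Exc.ht w.1)
  simp only [lblF_eq] at h
  change ∑ d : Fin (2 * n) → Fin 3, G (Exc.ht w.1) * Complex.exp (Complex.I *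
      ((∑ j, lam j * (lbl (Exc.ht w.1) d (a j) : ℝ) : ℝ) : ℂ)) =
    ∑ d : Fin (2 * n) → Fin 3, G (Exc.ht w.1) * (labPhi (2 * n) a lam (Exc.ht w.1) : ℂ)
  rw [← mul_sum, h, sum_const, card_univ, Fintype.card_fun, Fintype.card_fin, Fintype.card_fin,
    nsmul_eq_mul]
  push_cast
  ring

/-- LABCHAR for codes: the Gaussian approximation -/
theorem labPhi_approx_TT {κ : Type} [Fintype κ] {n : ℕ} (t : TT n) (a : κ → ℕ)
    (ha : ∀ j, a j ≤ 2 * n) (lam : κ → ℝ) (h : ∑ j, |lam j| ≤ 1) :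
    |labPhi (2 * n) a lam t.C -
      Real.exp (-(1 / 3) * ∑ j, ∑ j', lam j * lam j' * (cmin t.C (a j) (a j') : ℝ))| ≤
      (∑ j, |lam j|) ^ 4 * ∑ j, (t.C (a j) : ℝ) :=
  labPhi_approx (isWalk_TT t) a ha lam h

end Pool.Agent.QL.BM.LC
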