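import Pool.Agent.P.MP_7a6434d8_pr.QL.BM.Dstar
import Pool.Agent.P.MP_7a6434d8_pr.QL.BM.Contour

/-! Definitions for the block LIM. -/

open MeasureTheory Set Filter Topology
open scoped ENNReal unitInterval

namespace Pool.Agent.QL

/-- the grid point `i / (2 n)` -/
noncomputable def gp (n i : ℕ) : I := projIcc 0 1 zero_le_one ((i : ℝ) / (2 * n))

/-- a pointed finite metric space coded by a labelled contour -/
structure IsCoded {V : Type} (n : ℕ) (C l : ℕ → ℤ) (c : ℕ → V) (d : V → V → ℕ) (vs : V) :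
    Prop where
  contour : IsContour n C c
  self : ∀ v, d v v = 0
  symm : ∀ u v, d u v = d v u
  tri : ∀ u v w, d u w ≤ d u v + d v w
  arc1 : ∀ (i j : ℕ) (m : ℤ), i ≤ j → j ≤ 2 * n → (∀ k, i ≤ k → k ≤ j → m ≤ l k) →
    (d (c i) (c j) : ℤ) ≤ l i + l j - 2 * m + 2
  arc2 : ∀ (i j : ℕ) (m : ℤ), i ≤ j → j ≤ 2 * n → (∀ k ≤ 2 * n, k ≤ i ∨ j ≤ k → m ≤ l k) →
    (d (c i) (c j) : ℤ) ≤ l i + l j - 2 * m + 2
  star : ∃ k ≤ 2 * n, ∀ i ≤ 2 * n, l k ≤ l i ∧ (d vs (c i) : ℤ) = l i - l k + 1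

/-- the rescaled contour and label sequences are `η`-close to `(e, Z)` on the grid -/
def SnClose (n : ℕ) (a b : ℝ) (C l : ℕ → ℤ) (e Z : I → ℝ) (η : ℝ) : Prop :=
  ∀ i ≤ 2 * n, |a * C i - e (gp n i)| ≤ η ∧ |b * l i - Z (gp n i)| ≤ η

/-- the rescaled distance in the contour parametrisation -/
noncomputable def Gd {V : Type} (n : ℕ) (b : ℝ) (C : ℕ → ℤ) (c : ℕ → V) (d : V → V → ℕ)
    (s u : I) : ℝ := b * d (c (cornerAt n C s)) (c (cornerAt n C u))

/-- the minimum of `e` over an interval is attained at most once in the interior -/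
def Tri (e : I → ℝ) : Prop :=
  ∀ a s u d : I, a < s → s < u → u < d → (∀ r ∈ Icc a d, e s ≤ e r) → e s ≠ e u

/-- `G` is a pseudo-metric with the properties of the limit up to `η` -/
structure Appr (e Z : I → ℝ) (η : ℝ) (G : I → I → ℝ) : Prop where
  self : ∀ s, G s s = 0
  symm : ∀ s u, G s u = G u s
  tri : ∀ s u v, G s v ≤ G s u + G u v
  le : ∀ s u, G s u ≤ D0 Z s u + η
  exc : ∀ (s m u : I) (h : ℝ), s ≤ m → m ≤ u → e s + η ≤ h → e u + η ≤ h → h + η ≤ e m →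
    ∃ s' u' : I, (s : ℝ) - η ≤ s' ∧ (s' : ℝ) ≤ m + η ∧ (m : ℝ) - η ≤ u' ∧ (u' : ℝ) ≤ u + η ∧
      e s' ≤ h + η ∧ e u' ≤ h + η ∧ G s' u' ≤ η

/-- the Laplace functional of the distance between two uniform points -/
noncomputable def HH (G : I → I → ℝ) : ℝ := ∫ p : I × I, Real.exp (-G p.1 p.2)

/-- the Laplace functional of the label above its minimum -/
noncomputable def KK (Z : I → ℝ) : ℝ := ∫ s : I, Real.exp (-(Z s - mn Z univ))

/-- the discrete analogue of `KK` -/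
noncomputable def Kd {V : Type} (n : ℕ) (b : ℝ) (C : ℕ → ℤ) (c : ℕ → V) (d : V → V → ℕ)
    (vs : V) : ℝ := ∫ s : I, Real.exp (-(b * d vs (c (cornerAt n C s))))

/-- `P n` holds with `Γ n`-probability tending to one -/
def InP {T : ℕ → Type} {Y : Type} [∀ n, MeasurableSpace (T n)] [MeasurableSpace Y]
    (Γ : ∀ n, Measure (T n × Y)) (P : ∀ n, T n → Y → Prop) : Prop :=
  Tendsto (fun n => Γ n {p | ¬ P n p.1 p.2}) atTop (𝓝 0)

end Pool.Agent.QL
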