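import Pool.Agent.P.MP_7a6434d8_pr.QL.BM.LimBasic

/-! From a discrete code close to `(e, Z)` to an approximate pseudo-metric. -/

open MeasureTheory Set Filter Topology
open scoped ENNReal unitInterval

namespace Pool.Agent.QL

theorem det1_gp_mono (n : ℕ) {i j : ℕ} (h : i ≤ j) : gp n i ≤ gp n j :=
  monotone_projIcc zero_le_one (div_le_div_of_nonneg_right (by exact_mod_cast h) (by positivity))

theorem det1_gp_near {n i : ℕ} {δ : ℝ} (hn : 0 < n) (hδ : 1 / (2 * (n : ℝ)) ≤ δ) (hi : i ≤ 2 * n)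
    {s : I} (h : |(i : ℝ) - 2 * n * s| ≤ 1) : |(gp n i : ℝ) - s| ≤ δ := by
  have h0 : (0 : ℝ) < 2 * n := by positivity
  have h1 : (i : ℝ) / (2 * n) ∈ Icc (0 : ℝ) 1 :=
    ⟨by positivity, (div_le_one h0).2 (by exact_mod_cast hi)⟩
  have h2 : (gp n i : ℝ) = i / (2 * n) := by rw [gp, projIcc_of_mem _ h1]
  have h3 : (i : ℝ) / (2 * n) - s = (i - 2 * n * s) / (2 * n) := by field_simp
  rw [h2, h3, abs_div, abs_of_pos h0]
  exact (div_le_div_of_nonneg_right h h0.le).trans hδ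

theorem det1_step_near (n : ℕ) (s : I) : |(stepAt n s : ℝ) - 2 * n * s| ≤ 1 := by
  have h0 : 0 ≤ 2 * (n : ℝ) * s := mul_nonneg (by positivity) s.2.1
  have h1 := Nat.floor_le h0
  have h2 := Nat.lt_floor_add_one (2 * (n : ℝ) * s)
  rw [stepAt, abs_le]
  constructor <;> linarith

theorem det1_step_mono (n : ℕ) {s u : I} (h : s ≤ u) : stepAt n s ≤ stepAt n u :=
  Nat.floor_le_floor (mul_le_mul_of_nonneg_left h (by positivity))

theorem det1_large {δ : ℝ} (hδ : 0 < δ) : ∃ N : ℕ, ∀ n ≥ N, 0 < n ∧ 1 / (2 * (n : ℝ)) ≤ δ := by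
  obtain ⟨N, hN⟩ := exists_nat_one_div_lt hδ
  refine ⟨N + 1, fun n hn => ⟨by omega, le_trans ?_ hN.le⟩⟩
  have h1 : (N : ℝ) + 1 ≤ n := by exact_mod_cast hn
  have h2 : (0 : ℝ) ≤ N := Nat.cast_nonneg _
  exact one_div_le_one_div_of_le (by positivity) (by linarith)

theorem det1_mod {f : I → ℝ} (hf : Continuous f) {η : ℝ} (hη : 0 < η) :
    ∃ δ > 0, ∀ s t : I, |(s : ℝ) - t| ≤ δ → |f s - f t| ≤ η := by
  obtain ⟨δ, h1, h2⟩ := Metric.uniformContinuous_iff_le.1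
    (CompactSpace.uniformContinuous_of_continuous hf) η hη
  exact ⟨δ, h1, fun s t h => h2 h⟩

theorem det1_mod2 {f : I × I → ℝ} (hf : Continuous f) {η : ℝ} (hη : 0 < η) :
    ∃ δ > 0, ∀ s t s' t' : I, |(s : ℝ) - s'| ≤ δ → |(t : ℝ) - t'| ≤ δ →
      |f (s, t) - f (s', t')| ≤ η := by
  obtain ⟨δ, h1, h2⟩ := Metric.uniformContinuous_iff_le.1
    (CompactSpace.uniformContinuous_of_continuous hf) η hη
  exact ⟨δ, h1, fun s t s' t' h h' => h2 (a := (s, t)) (b := (s', t')) (max_le h h')⟩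

theorem det1_grid {V : Type} {n : ℕ} {C l : ℕ → ℤ} {c : ℕ → V} {d : V → V → ℕ} {vs : V}
    {a b η : ℝ} {e Z : I → ℝ} (hZ : Continuous Z) (hb : 0 < b) (h : IsCoded n C l c d vs)
    (hs : SnClose n a b C l e Z η) {i j : ℕ} (hi : i ≤ 2 * n) (hj : j ≤ 2 * n) :
    b * d (c i) (c j) ≤ D0 Z (gp n i) (gp n j) + 4 * η + 2 * b := by
  wlog hij : i ≤ j generalizing i j
  · rw [h.symm, D0_comm]
    exact this hj hi (not_le.1 hij).le
  have low : ∀ (A : Set I) (k : ℕ), k ≤ 2 * n → gp n k ∈ A → ⌈(mn Z A - η) / b⌉ ≤ l k := by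
    intro A k hk hA
    rw [Int.ceil_le, div_le_iff₀ hb]
    linarith [mn_le hZ hA, (abs_le.1 (hs k hk).2).1]
  have fin : ∀ M : ℝ, (d (c i) (c j) : ℤ) ≤ l i + l j - 2 * ⌈(M - η) / b⌉ + 2 →
      b * d (c i) (c j) ≤ Z (gp n i) + Z (gp n j) - 2 * M + 4 * η + 2 * b := by
    intro M hM
    have h1 : (d (c i) (c j) : ℝ) ≤ l i + l j - 2 * (⌈(M - η) / b⌉ : ℝ) + 2 := by exact_mod_cast hM
    have h2 := Int.le_ceil ((M - η) / b)
    rw [div_le_iff₀ hb] at h2
    have h3 := mul_le_mul_of_nonneg_left h1 hb.le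
    linarith [(abs_le.1 (hs i hi).2).2, (abs_le.1 (hs j hj).2).2]
  have hg := det1_gp_mono n hij
  rw [D0, uIcc_of_le hg, min_eq_left hg, max_eq_right hg]
  rcases max_choice (mn Z (Icc (gp n i) (gp n j))) (mn Z (Iic (gp n i) ∪ Ici (gp n j))) with
    hm | hm <;> rw [hm] <;> refine fin _ ?_
  · exact h.arc1 i j _ hij hj fun k k1 k2 =>
      low _ k (k2.trans hj) ⟨det1_gp_mono n k1, det1_gp_mono n k2⟩
  · exact h.arc2 i j _ hij hj fun k hk k1 =>
      low _ k hk (k1.imp (det1_gp_mono n) (det1_gp_mono n))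

theorem det1_left {n : ℕ} {C : ℕ → ℤ}
    (hs : ∀ i < 2 * n, C (i + 1) = C i + 1 ∨ C (i + 1) = C i - 1) {H : ℤ} {m : ℕ} (hm : m ≤ 2 * n)
    (h1 : H ≤ C m) {i0 : ℕ} (hi : i0 ≤ m) (h2 : C i0 ≤ H) :
    ∃ i, i0 ≤ i ∧ i ≤ m ∧ C i = H ∧ ∀ k, i ≤ k → k ≤ m → H ≤ C k := by
  classical
  set i := Nat.findGreatest (fun k => C k ≤ H) m with hd
  have a1 : i ≤ m := Nat.findGreatest_le m
  have a2 : C i ≤ H := Nat.findGreatest_spec (P := fun k => C k ≤ H) hi h2
  have a3 : ∀ k, i < k → k ≤ m → H < C k := fun k k1 k2 =>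
    not_le.1 (Nat.findGreatest_is_greatest k1 k2)
  have a4 : i0 ≤ i := Nat.le_findGreatest hi h2
  have a5 : C i = H := by
    rcases eq_or_lt_of_le a1 with e | e
    · rw [e] at a2 ⊢; omega
    · have := a3 (i + 1) (by omega) e
      have := hs i (by omega)
      omega
  refine ⟨i, a4, a1, a5, fun k k1 k2 => ?_⟩
  rcases eq_or_lt_of_le k1 with e | e
  · rw [← e, a5]
  · exact (a3 k e k2).le

theorem det1_right {n : ℕ} {C : ℕ → ℤ}
    (hs : ∀ i < 2 * n, C (i + 1) = C i + 1 ∨ C (i + 1) = C i - 1) {H : ℤ} {m : ℕ}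
    (h1 : H ≤ C m) {j0 : ℕ} (hj : m ≤ j0) (hj0 : j0 ≤ 2 * n) (h2 : C j0 ≤ H) :
    ∃ j, m ≤ j ∧ j ≤ j0 ∧ C j = H ∧ ∀ k, m ≤ k → k ≤ j → H ≤ C k := by
  classical
  have hex : ∃ k, m ≤ k ∧ C k ≤ H := ⟨j0, hj, h2⟩
  obtain ⟨a1, a2⟩ := Nat.find_spec hex
  have a4 : Nat.find hex ≤ j0 := Nat.find_min' hex ⟨hj, h2⟩
  set j := Nat.find hex with hd
  have a3 : ∀ k, m ≤ k → k < j → H < C k := fun k k1 k2 =>
    not_le.1 fun e => Nat.find_min hex k2 ⟨k1, e⟩
  have a5 : C j = H := by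
    rcases eq_or_lt_of_le a1 with e | e
    · rw [← e] at a2 ⊢; omega
    · have := a3 (j - 1) (by omega) (by omega)
      have h3 := hs (j - 1) (by omega)
      rw [show j - 1 + 1 = j by omega] at h3
      omega
  refine ⟨j, a1, a4, a5, fun k k1 k2 => ?_⟩
  rcases eq_or_lt_of_le k2 with e | e
  · rw [e, a5]
  · exact (a3 k k1 e).le

theorem det1 {e Z : I → ℝ} (he : Continuous e) (hZ : Continuous Z) {ε : ℝ} (hε : 0 < ε) :
    ∃ η > 0, ∃ N : ℕ, ∀ n ≥ N, ∀ (V : Type) (C l : ℕ → ℤ) (c : ℕ → V) (d : V → V → ℕ) (vs : V)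
      (a b : ℝ), 0 < a → 0 < b → b ≤ η → IsCoded n C l c d vs → SnClose n a b C l e Z η →
      Appr e Z ε (Gd n b C c d) := by
  have hη : 0 < ε / 14 := by positivity
  obtain ⟨δ1, p1, m1⟩ := det1_mod he hη
  obtain ⟨δ2, p2, m2⟩ := det1_mod2 (continuous_D0' hZ) hη
  obtain ⟨N, hN⟩ := det1_large (lt_min hε (lt_min p1 p2))
  refine ⟨ε / 14, hη, N, fun n hn V C l c d vs a b ha hb hbη h hs => ?_⟩
  obtain ⟨n0, hδ⟩ := hN n hn
  have d0 := hδ.trans (min_le_left _ _)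
  have d1 := hδ.trans ((min_le_right _ _).trans (min_le_left _ _))
  have d2 := hδ.trans ((min_le_right _ _).trans (min_le_right _ _))
  have nc : ∀ s : I, |(gp n (cornerAt n C s) : ℝ) - s| ≤ δ2 := fun s =>
    det1_gp_near n0 d2 (cornerAt_le n C s) (cornerAt_near n C s)
  have small : ∀ i ≤ 2 * n, b * d (c (cornerAt n C (gp n i))) (c i) ≤ ε / 2 := by
    intro i hi
    have h1 := det1_grid hZ hb h hs (cornerAt_le n C (gp n i)) hi
    have h2 := (abs_le.1 (m2 _ (gp n i) _ (gp n i) (nc (gp n i)) (by simpa using p2.le))).2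
    simp only [D0_self hZ] at h2
    linarith
  refine ⟨fun s => ?_, fun s u => ?_, fun s u v => ?_, fun s u => ?_,
    fun s m u x hsm hmu h1 h2 h3 => ?_⟩
  · rw [Gd, h.self, Nat.cast_zero, mul_zero]
  · rw [Gd, Gd, h.symm]
  · rw [Gd, Gd, Gd, ← mul_add]
    exact mul_le_mul_of_nonneg_left (by exact_mod_cast h.tri _ _ _) hb.le
  · have h1 := det1_grid hZ hb h hs (cornerAt_le n C s) (cornerAt_le n C u)
    have h2 := (abs_le.1 (m2 _ _ _ _ (nc s) (nc u))).2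
    simp only at h2
    rw [Gd]
    linarith
  · have ns : ∀ s : I, |e (gp n (stepAt n s)) - e s| ≤ ε / 14 := fun s =>
      m1 _ _ (det1_gp_near n0 d1 (stepAt_le n s) (det1_step_near n s))
    have ns0 : ∀ s : I, |(gp n (stepAt n s) : ℝ) - s| ≤ ε := fun s =>
      det1_gp_near n0 d0 (stepAt_le n s) (det1_step_near n s)
    have lo : ∀ s : I, e s + ε ≤ x → C (stepAt n s) ≤ ⌊x / a⌋ := fun s hx => by
      rw [Int.le_floor, le_div_iff₀ ha]
      linarith [(abs_le.1 (ns s)).2, (abs_le.1 (hs _ (stepAt_le n s)).1).2]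
    have fl : (⌊x / a⌋ : ℝ) * a ≤ x := (le_div_iff₀ ha).1 (Int.floor_le _)
    have hi : ⌊x / a⌋ ≤ C (stepAt n m) := by
      have h4 : a * (⌊x / a⌋ : ℝ) ≤ a * C (stepAt n m) := by
        linarith [(abs_le.1 (ns m)).1, (abs_le.1 (hs _ (stepAt_le n m)).1).1]
      exact_mod_cast le_of_mul_le_mul_left h4 ha
    obtain ⟨i, i1, i2, i3, i4⟩ := det1_left h.contour.step (stepAt_le n m) hi
      (det1_step_mono n hsm) (lo s h1)
    obtain ⟨j, j1, j2, j3, j4⟩ := det1_right h.contour.step hi (det1_step_mono n hmu)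
      (stepAt_le n u) (lo u h2)
    have i5 : i ≤ 2 * n := i2.trans (stepAt_le n m)
    have j5 : j ≤ 2 * n := j2.trans (stepAt_le n u)
    have hc : c i = c j := (h.contour.eq_iff i j (i2.trans j1) j5).2 ⟨i3.trans j3.symm,
      fun k k1 k2 => by
        rw [i3]
        exact (le_total k (stepAt n m)).elim (i4 k k1) fun k3 => j4 k k3 k2⟩
    have up : ∀ k ≤ 2 * n, C k = ⌊x / a⌋ → e (gp n k) ≤ x + ε := fun k hk hC => by
      have h4 := (abs_le.1 (hs k hk).1).1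
      rw [hC] at h4
      linarith
    have g1 : (gp n (stepAt n s) : ℝ) ≤ gp n i := det1_gp_mono n i1
    have g2 : (gp n i : ℝ) ≤ gp n (stepAt n m) := det1_gp_mono n i2
    have g3 : (gp n (stepAt n m) : ℝ) ≤ gp n j := det1_gp_mono n j1
    have g4 : (gp n j : ℝ) ≤ gp n (stepAt n u) := det1_gp_mono n j2
    refine ⟨gp n i, gp n j, by linarith [(abs_le.1 (ns0 s)).1], by linarith [(abs_le.1 (ns0 m)).2],
      by linarith [(abs_le.1 (ns0 m)).1], by linarith [(abs_le.1 (ns0 u)).2], up i i5 i3,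
      up j j5 j3, ?_⟩
    have t1 := small i i5
    have t2 := small j j5
    rw [h.symm, ← hc] at t2
    have t3 : b * d (c (cornerAt n C (gp n i))) (c (cornerAt n C (gp n j))) ≤
        b * d (c (cornerAt n C (gp n i))) (c i) + b * d (c i) (c (cornerAt n C (gp n j))) := by
      rw [← mul_add]
      exact mul_le_mul_of_nonneg_left (by exact_mod_cast h.tri _ _ _) hb.le
    rw [Gd]
    linarith

theorem det1_exp {x y t : ℝ} (hx : 0 ≤ x) (ht : 0 ≤ t) (h : y - t ≤ x) :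
    Real.exp (-x) ≤ Real.exp (-y) + t := by
  rcases le_total y x with h1 | h1
  · exact (Real.exp_le_exp.2 (neg_le_neg h1)).trans (le_add_of_nonneg_right ht)
  · have h2 : Real.exp (-y) = Real.exp (-x) * Real.exp (x - y) := by
      rw [← Real.exp_add]; congr 1; ring
    have h3 := Real.add_one_le_exp (x - y)
    have h4 : Real.exp (-x) ≤ 1 := Real.exp_le_one_iff.2 (by linarith)
    have h5 := Real.exp_pos (-x)
    rw [h2]
    nlinarith

theorem det_K {e Z : I → ℝ} (hZ : Continuous Z) {ε : ℝ} (hε : 0 < ε) :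
    ∃ η > 0, ∃ N : ℕ, ∀ n ≥ N, ∀ (V : Type) (C l : ℕ → ℤ) (c : ℕ → V) (d : V → V → ℕ) (vs : V)
      (a b : ℝ), 0 < b → b ≤ η → IsCoded n C l c d vs → SnClose n a b C l e Z η →
      Kd n b C c d vs ≤ KK Z + ε := by
  have hη : 0 < ε / 4 := by positivity
  obtain ⟨δ, p1, m1⟩ := det1_mod hZ hη
  obtain ⟨N, hN⟩ := det1_large p1
  obtain ⟨s0, -, hs0⟩ := isCompact_univ.exists_isMinOn univ_nonempty hZ.continuousOn
  have hm : Z s0 ≤ mn Z univ := le_mn univ_nonempty fun x hx => hs0 hx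
  refine ⟨ε / 4, hη, N, fun n hn V C l c d vs a b hb _ h hs => ?_⟩
  obtain ⟨n0, hδ⟩ := hN n hn
  obtain ⟨k, -, hk⟩ := h.star
  have nc : ∀ s : I, |b * l (cornerAt n C s) - Z s| ≤ ε / 2 := fun s => by
    have h1 := abs_le.1 (m1 _ _ (det1_gp_near n0 hδ (cornerAt_le n C s) (cornerAt_near n C s)))
    have h2 := abs_le.1 (hs _ (cornerAt_le n C s)).2
    rw [abs_le]
    constructor <;> linarith [h1.1, h1.2, h2.1, h2.2]
  have hk0 : b * l k ≤ mn Z univ + ε / 2 := by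
    have h1 : (l k : ℝ) ≤ l (cornerAt n C s0) := by exact_mod_cast (hk _ (cornerAt_le n C s0)).1
    linarith [mul_le_mul_of_nonneg_left h1 hb.le, (abs_le.1 (nc s0)).2]
  have hc : Continuous fun s : I => Real.exp (-(Z s - mn Z univ)) := by fun_prop
  have hi : Integrable (fun s : I => Real.exp (-(Z s - mn Z univ))) :=
    hc.integrable_of_hasCompactSupport (HasCompactSupport.of_compactSpace _)
  have e1 : KK Z + ε = ∫ s : I, (Real.exp (-(Z s - mn Z univ)) + ε) := by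
    rw [integral_add hi (integrable_const _), KK]
    simp
  rw [e1, Kd]
  refine integral_mono_of_nonneg (Eventually.of_forall fun s => (Real.exp_pos _).le)
    (hi.add (integrable_const _)) (Eventually.of_forall fun s => ?_)
  refine det1_exp (by positivity) hε.le ?_
  have h1 : (d vs (c (cornerAt n C s)) : ℝ) = l (cornerAt n C s) - l k + 1 := by
    exact_mod_cast (hk _ (cornerAt_le n C s)).2
  rw [h1]
  linarith [(abs_le.1 (nc s)).1]

end Pool.Agent.QL
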