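import Pool.Agent.P.MP_7a6434d8_pr.QL.BM.LimMeas

/-! Approximate pseudo-metrics are close to `Dst`. -/

open MeasureTheory Set Filter Topology
open scoped ENNReal unitInterval

namespace Pool.Agent.QL

variable {e Z : I → ℝ}

theorem Appr.mono {η η' : ℝ} {G : I → I → ℝ} (h : Appr e Z η G) (hη : η ≤ η') :
    Appr e Z η' G where
  self := h.self
  symm := h.symm
  tri := h.tri
  le s u := (h.le s u).trans (by linarith)
  exc s m u x h1 h2 h3 h4 h5 := by
    obtain ⟨s', u', a1, a2, a3, a4, a5, a6, a7⟩ :=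
      h.exc s m u x h1 h2 (by linarith) (by linarith) (by linarith)
    exact ⟨s', u', by linarith, by linarith, by linarith, by linarith, by linarith, by linarith,
      by linarith⟩

theorem Appr.nonneg {η : ℝ} {G : I → I → ℝ} (h : Appr e Z η G) (s u : I) : 0 ≤ G s u := by
  have h1 := h.tri s u s
  rw [h.self, h.symm u s] at h1
  linarith

/-- the filter generated by a monotone family -/
def monoF {X : Type} (A : ℝ → X → Prop) (hA : ∀ η η' x, η ≤ η' → A η x → A η' x) : Filter X where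
  sets := {s | ∃ η > 0, ∀ x, A η x → x ∈ s}
  univ_sets := ⟨1, one_pos, fun _ _ => mem_univ _⟩
  sets_of_superset := fun ⟨η, h0, h⟩ hs => ⟨η, h0, fun x hx => hs (h x hx)⟩
  inter_sets := fun ⟨η, h0, h⟩ ⟨η', h0', h'⟩ => ⟨min η η', lt_min h0 h0', fun x hx =>
    ⟨h x (hA _ _ x (min_le_left _ _) hx), h' x (hA _ _ x (min_le_right _ _) hx)⟩⟩

theorem eventually_monoF {X : Type} {A : ℝ → X → Prop}
    {hA : ∀ η η' x, η ≤ η' → A η x → A η' x} {P : X → Prop} :
    (∀ᶠ x in monoF A hA, P x) ↔ ∃ η > 0, ∀ x, A η x → P x := Iff.rfl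

/-- the filter of approximate pseudo-metrics -/
def apF (e Z : I → ℝ) : Filter (I → I → ℝ) :=
  monoF (Appr e Z) fun _ _ _ h h' => h'.mono h

theorem apF_appr {η : ℝ} (h : 0 < η) : ∀ᶠ G in apF e Z, Appr e Z η G := ⟨η, h, fun _ h => h⟩

theorem eventually_unif {X K : Type} [TopologicalSpace K] [CompactSpace K] {l : Filter X}
    {P : X → K → Prop} (h : ∀ k, ∃ U ∈ 𝓝 k, ∀ᶠ x in l, ∀ k' ∈ U, P x k') :
    ∀ᶠ x in l, ∀ k, P x k := by
  have := isCompact_univ.induction_on (p := fun s => ∀ᶠ x in l, ∀ k ∈ s, P x k) (by simp)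
    (fun s t hst ht => ht.mono fun x hx k hk => hx k (hst hk))
    (fun s t hs ht => (hs.and ht).mono fun x hx k hk => hk.elim (hx.1 k) (hx.2 k))
    fun k _ => by simpa only [nhdsWithin_univ] using h k
  exact this.mono fun x hx k => hx k (mem_univ k)

theorem D0_near (hZ : Continuous Z) (s : I) {ε : ℝ} (hε : 0 < ε) :
    ∃ β > 0, ∀ x : I, |(x : ℝ) - s| ≤ β → D0 Z s x ≤ ε := by
  have h := ((continuous_D0' hZ).comp (Continuous.prodMk_right s)).continuousAt (x := s)
  obtain ⟨β, h0, hβ⟩ := Metric.continuousAt_iff.1 h ε hε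
  refine ⟨β / 2, by positivity, fun x hx => ?_⟩
  have := hβ (x := x) (by rw [Subtype.dist_eq, Real.dist_eq]; linarith)
  simp only [Function.comp, D0_self hZ, Real.dist_eq, sub_zero] at this
  exact ((le_abs_self _).trans_lt this).le

theorem det_pair0 (he : Continuous e) (hZ : Continuous Z) {s u : I} (hsu : s < u)
    (h1 : e u = e s) (h2 : ∀ x, s < x → x < u → e s < e x) {ε : ℝ} (hε : 0 < ε) :
    ∀ᶠ G in apF e Z, G s u ≤ ε := by
  have hsu' : (s : ℝ) < u := hsu
  obtain ⟨β₁, b1, hb1⟩ := D0_near hZ s (show 0 < ε / 5 by positivity)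
  obtain ⟨β₂, b2, hb2⟩ := D0_near hZ u (show 0 < ε / 5 by positivity)
  obtain ⟨β, b0, c1, c2, c3⟩ : ∃ β > 0, β ≤ β₁ ∧ β ≤ β₂ ∧ β ≤ ((u : ℝ) - s) / 4 :=
    ⟨min β₁ (min β₂ (((u : ℝ) - s) / 4)), lt_min b1 (lt_min b2 (by linarith)), min_le_left _ _,
      (min_le_right _ _).trans (min_le_left _ _), (min_le_right _ _).trans (min_le_right _ _)⟩
  let m : I := ⟨(s + u) / 2, by linarith [s.2.1, u.2.1], by linarith [s.2.2, u.2.2]⟩
  have hm : (m : ℝ) = (s + u) / 2 := rfl
  have hK : IsCompact {x : I | (s : ℝ) + β ≤ x ∧ (x : ℝ) ≤ u - β} :=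
    ((isClosed_le continuous_const continuous_subtype_val).inter
      (isClosed_le continuous_subtype_val continuous_const)).isCompact
  have hmK : m ∈ {x : I | (s : ℝ) + β ≤ x ∧ (x : ℝ) ≤ u - β} := ⟨by linarith, by linarith⟩
  obtain ⟨x₀, hx₀, hmin⟩ := hK.exists_isMinOn ⟨m, hmK⟩ he.continuousOn
  have hκ : e s < e x₀ := h2 x₀ (show (s : ℝ) < x₀ by linarith [hx₀.1])
    (show (x₀ : ℝ) < u by linarith [hx₀.2])
  obtain ⟨η, η0, d1, d2, d3⟩ : ∃ η > 0, η ≤ (e x₀ - e s) / 4 ∧ η ≤ β ∧ η ≤ ε / 5 :=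
    ⟨min ((e x₀ - e s) / 4) (min β (ε / 5)), lt_min (by linarith) (lt_min b0 (by positivity)),
      min_le_left _ _, (min_le_right _ _).trans (min_le_left _ _),
      (min_le_right _ _).trans (min_le_right _ _)⟩
  filter_upwards [apF_appr η0] with G hG
  have hm' : e x₀ ≤ e m := hmin hmK
  obtain ⟨s', u', a1, a2, a3, a4, a5, a6, a7⟩ := hG.exc s m u (e s + (e x₀ - e s) / 2)
    (show (s : ℝ) ≤ m by linarith) (show (m : ℝ) ≤ u by linarith) (by linarith) (by linarith)
    (by linarith)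
  have e1 : (s' : ℝ) < s + β := by
    by_contra hc
    have : e x₀ ≤ e s' := hmin ⟨not_lt.1 hc, by linarith⟩
    linarith
  have e2 : (u : ℝ) - β < u' := by
    by_contra hc
    have : e x₀ ≤ e u' := hmin ⟨by linarith, not_lt.1 hc⟩
    linarith
  have f1 := hb1 s' (abs_le.2 ⟨by linarith, by linarith⟩)
  have f2 := hb2 u' (abs_le.2 ⟨by linarith, by linarith⟩)
  have g1 := hG.tri s s' u
  have g2 := hG.tri s' u' u
  have g3 := hG.le s s'
  have g4 := hG.le u u'
  rw [hG.symm] at g4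
  linarith

theorem det_pair (he : Continuous e) (hZ : Continuous Z) (hT : Tri e) {s u : I}
    (h : dE e s u = 0) {ε : ℝ} (hε : 0 < ε) : ∀ᶠ G in apF e Z, G s u ≤ ε := by
  wlog hsu : s ≤ u generalizing s u
  · filter_upwards [this (by rw [dE_comm]; exact h) (le_of_not_ge hsu), apF_appr one_pos]
      with G h1 h2
    rwa [h2.symm]
  rcases hsu.eq_or_lt with rfl | hlt
  · filter_upwards [apF_appr one_pos] with G h2
    rw [h2.self]; exact hε.le
  have m1 : mn e (uIcc s u) ≤ e s := mn_le he left_mem_uIcc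
  have m2 : mn e (uIcc s u) ≤ e u := mn_le he right_mem_uIcc
  unfold dE at h
  have hu : e u = e s := by linarith
  have hmin : ∀ x ∈ Icc s u, e s ≤ e x := fun x hx => by
    have : mn e (uIcc s u) ≤ e x := mn_le he (by rwa [uIcc_of_le hsu])
    linarith
  by_cases hr : ∃ r, s < r ∧ r < u ∧ e r = e s
  · obtain ⟨r, r1, r2, r3⟩ := hr
    have p1 := det_pair0 he hZ r1 r3 (fun x x1 x2 => by
      refine lt_of_le_of_ne (hmin x ⟨x1.le, (x2.trans r2).le⟩) fun hx => ?_
      exact hT s x r u x1 x2 r2 (fun y hy => hx ▸ hmin y hy) (hx.symm.trans r3.symm))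
      (half_pos hε)
    have p2 := det_pair0 he hZ r2 (hu.trans r3.symm) (fun x x1 x2 => by
      refine lt_of_le_of_ne (r3 ▸ hmin x ⟨(r1.trans x1).le, x2.le⟩) fun hx => ?_
      exact hT s r x u r1 x1 x2 (fun y hy => r3 ▸ hmin y hy) hx) (half_pos hε)
    filter_upwards [p1, p2, apF_appr one_pos] with G h1 h2 h3
    linarith [h3.tri s r u]
  · exact det_pair0 he hZ hlt hu (fun x x1 x2 => lt_of_le_of_ne (hmin x ⟨x1.le, x2.le⟩)
      fun hx => hr ⟨x, x1, x2, hx.symm⟩) hε

theorem det_chain (he : Continuous e) (hZ : Continuous Z) (hT : Tri e) {s t : I} {r : ℝ}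
    (h : Ch e Z s t r) : ∀ ε > 0, ∀ᶠ G in apF e Z, G s t ≤ r + ε := by
  induction h with
  | base t => exact fun ε hε => (apF_appr hε).mono fun G hG => hG.le _ _
  | @step t u r v _ hd ih =>
    intro ε hε
    have h3 : 0 < ε / 3 := by positivity
    filter_upwards [ih _ h3, det_pair he hZ hT hd h3, apF_appr h3] with G h1 h2 h3
    linarith [h3.tri s t v, h3.tri t u v, h3.le u v]

theorem isOpen_nb (hZ : Continuous Z) (q : I × I) (ε : ℝ) :
    IsOpen {p : I × I | D0 Z p.1 q.1 + D0 Z p.2 q.2 < ε} :=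
  isOpen_lt (((continuous_D0' hZ).comp (continuous_fst.prodMk continuous_const)).add
    ((continuous_D0' hZ).comp (continuous_snd.prodMk continuous_const))) continuous_const

theorem det_up (he : Continuous e) (hZ : Continuous Z) (hT : Tri e) {ε : ℝ} (hε : 0 < ε) :
    ∀ᶠ G in apF e Z, ∀ s u, G s u ≤ Dst e Z s u + ε := by
  have : ∀ᶠ G in apF e Z, ∀ p : I × I, G p.1 p.2 ≤ Dst e Z p.1 p.2 + ε := by
    refine eventually_unif fun q => ⟨_, (isOpen_nb hZ q (ε / 4)).mem_nhds ?_, ?_⟩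
    · simp only [mem_ofPred_eq, D0_self hZ]; linarith
    obtain ⟨r, hr, hr'⟩ := exists_ch (show Dst e Z q.1 q.2 < Dst e Z q.1 q.2 + ε / 8 by linarith)
    have h8 : 0 < ε / 8 := by positivity
    filter_upwards [det_chain he hZ hT hr _ h8, apF_appr h8] with G h1 h2 p hp
    have g1 := h2.tri p.1 q.1 p.2
    have g2 := h2.tri q.1 q.2 p.2
    have g3 := h2.le p.1 q.1
    have g4 := h2.le p.2 q.2
    rw [h2.symm] at g4
    have g5 := Dst_lip (e := e) hZ q.1 q.2 p.1 p.2
    rw [D0_comm q.1, D0_comm q.2] at g5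
    linarith
  exact this.mono fun G h s u => h (s, u)

theorem openPos_I : (volume : Measure I).IsOpenPosMeasure := ⟨fun U hU hne => by
  obtain ⟨a, b, hab, h⟩ := hU.exists_Ioo_subset hne
  have : (a : ℝ) < b := hab
  refine ((measure_mono h).trans_lt' ?_).ne'
  rw [unitInterval.volume_Ioo]
  exact ENNReal.ofReal_pos.2 (by linarith)⟩

theorem exp_neg_ge {x y τ : ℝ} (hy : 0 ≤ y) (hτ : 0 ≤ τ) (h : x ≤ y + τ) :
    Real.exp (-y) - τ ≤ Real.exp (-x) := by
  have h1 : Real.exp (-(y + τ)) ≤ Real.exp (-x) := Real.exp_le_exp.2 (by linarith)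
  have h2 : Real.exp (-y) ≤ 1 := Real.exp_le_one_iff.2 (by linarith)
  have h3 := Real.add_one_le_exp (-τ)
  rw [neg_add, Real.exp_add] at h1
  nlinarith [Real.exp_pos (-y)]

theorem integrable_exp_neg {X : Type} [MeasurableSpace X] (μ : Measure X) [IsFiniteMeasure μ]
    {g : X → ℝ} (hm : Measurable g) (hg : ∀ x, 0 ≤ g x) :
    Integrable (fun x => Real.exp (-g x)) μ :=
  Integrable.of_bound hm.neg.exp.aestronglyMeasurable 1 (Eventually.of_forall fun x => by
    rw [Real.norm_of_nonneg (Real.exp_pos _).le, Real.exp_le_one_iff]; linarith [hg x])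

theorem HH_ge (hZ : Continuous Z) {G : I → I → ℝ} (hm : Measurable fun p : I × I => G p.1 p.2)
    (h0 : ∀ s u, 0 ≤ G s u) {τ c : ℝ} (hτ : 0 ≤ τ) (h : ∀ s u, G s u ≤ Dst e Z s u + τ)
    {U : Set (I × I)} (hU : MeasurableSet U)
    (hc : ∀ p ∈ U, Real.exp (-Dst e Z p.1 p.2) + c ≤ Real.exp (-G p.1 p.2)) :
    HH (Dst e Z) - τ + c * volume.real U ≤ HH G := by
  have i1 := integrable_exp_neg volume (continuous_Dst (e := e) hZ).measurable
    fun p => Dst_nonneg hZ p.1 p.2
  have i2 := integrable_exp_neg volume hm fun p => h0 p.1 p.2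
  have i3 : Integrable (U.indicator fun _ => c) (volume : Measure (I × I)) :=
    (integrable_const c).indicator hU
  have := integral_mono ((i1.sub (integrable_const τ)).add i3) i2 fun p => by
    simp only [Pi.add_apply, Pi.sub_apply]
    by_cases hp : p ∈ U
    · rw [indicator_of_mem hp]; linarith [hc p hp]
    · rw [indicator_of_notMem hp, add_zero]
      exact exp_neg_ge (Dst_nonneg hZ _ _) hτ (h _ _)
  rw [integral_add' (i1.sub (integrable_const τ)) i3, integral_sub' i1 (integrable_const τ),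
    integral_indicator_const _ hU] at this
  simpa [HH, mul_comm] using this

theorem det2_up (he : Continuous e) (hZ : Continuous Z) (hT : Tri e) {ε : ℝ} (hε : 0 < ε) :
    ∃ η > 0, ∀ G, Appr e Z η G → (Measurable fun p : I × I => G p.1 p.2) →
      HH (Dst e Z) - ε ≤ HH G := by
  obtain ⟨η, h0, h⟩ := (det_up he hZ hT hε).and (apF_appr one_pos)
  refine ⟨η, h0, fun G hG hm => ?_⟩
  simpa using HH_ge hZ hm hG.nonneg hε.le (h G hG).1 (c := 0) MeasurableSet.empty (by simp)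

theorem det2_low (he : Continuous e) (hZ : Continuous Z) (hT : Tri e) {ε : ℝ} (hε : 0 < ε) :
    ∃ η > 0, ∀ G, Appr e Z η G → (Measurable fun p : I × I => G p.1 p.2) →
      HH G ≤ HH (Dst e Z) + η → ∀ s u, |G s u - Dst e Z s u| ≤ ε := by
  let l : Filter (I → I → ℝ) := monoF (fun η G => Appr e Z η G ∧
      (Measurable fun p : I × I => G p.1 p.2) ∧ HH G ≤ HH (Dst e Z) + η)
    fun _ _ _ h h' => ⟨h'.1.mono h, h'.2.1, h'.2.2.trans (by linarith)⟩
  have hl : l ≤ apF e Z := fun s ⟨η, h0, h⟩ => ⟨η, h0, fun G hG => h G hG.1⟩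
  obtain ⟨M, hM⟩ := (isCompact_range (continuous_Dst (e := e) hZ)).bddAbove
  have key : ∀ᶠ G in l, ∀ p : I × I, Dst e Z p.1 p.2 - ε ≤ G p.1 p.2 := by
    refine eventually_unif fun q => ?_
    have hq : q ∈ {p : I × I | D0 Z p.1 q.1 + D0 Z p.2 q.2 < ε / 16} := by
      simp only [mem_ofPred_eq, D0_self hZ]; linarith
    have hU := isOpen_nb hZ q (ε / 16)
    refine ⟨_, hU.mem_nhds hq, ?_⟩
    set U := {p : I × I | D0 Z p.1 q.1 + D0 Z p.2 q.2 < ε / 16}
    have := openPos_I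
    have : (volume : Measure (I × I)).IsOpenPosMeasure := Measure.prod.instIsOpenPosMeasure
    have hv : 0 < volume.real U :=
      ENNReal.toReal_pos (hU.measure_pos volume ⟨q, hq⟩).ne' (measure_ne_top _ _)
    set c := Real.exp (-M) * (ε / 2)
    have hc : 0 < c * volume.real U / 3 := by positivity
    have h1 : ∀ᶠ G in l, (Measurable fun p : I × I => G p.1 p.2) ∧
        HH G ≤ HH (Dst e Z) + c * volume.real U / 3 :=
      ⟨_, hc, fun G hG => hG.2⟩
    filter_upwards [h1, hl (det_up he hZ hT hc), hl (apF_appr (show 0 < ε / 16 by positivity))]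
      with G ⟨hm, hH⟩ h2 (h3 : Appr e Z (ε / 16) G) p hp
    by_contra hlt
    push Not at hlt
    have := HH_ge hZ hm h3.nonneg hc.le h2 hU.measurableSet (c := c) fun p' hp' => by
      have g1 := h3.tri p'.1 q.1 p'.2
      have g2 := h3.tri q.1 p.1 p'.2
      have g3 := h3.tri p.1 p.2 p'.2
      have g4 := h3.tri p.2 q.2 p'.2
      have g5 := h3.le p'.1 q.1
      have g6 := h3.le p.1 q.1
      have g7 := h3.le p.2 q.2
      have g8 := h3.le p'.2 q.2
      rw [h3.symm] at g6 g8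
      have g9 := Dst_lip (e := e) hZ p.1 p.2 q.1 q.2
      have g10 := Dst_lip (e := e) hZ q.1 q.2 p'.1 p'.2
      rw [D0_comm q.1, D0_comm q.2] at g10
      simp only [U, mem_ofPred_eq] at hp hp'
      have k1 : Real.exp (-Dst e Z p'.1 p'.2 + ε / 2) ≤ Real.exp (-G p'.1 p'.2) :=
        Real.exp_le_exp.2 (by linarith)
      have k2 : Real.exp (-M) ≤ Real.exp (-Dst e Z p'.1 p'.2) :=
        Real.exp_le_exp.2 (neg_le_neg (hM (mem_range_self p')))
      have k3 := Real.add_one_le_exp (ε / 2)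
      rw [Real.exp_add] at k1
      have k4 : c ≤ Real.exp (-Dst e Z p'.1 p'.2) * (ε / 2) :=
        mul_le_mul_of_nonneg_right k2 (by positivity)
      nlinarith [Real.exp_pos (-Dst e Z p'.1 p'.2)]
    linarith
  obtain ⟨η, h0, h⟩ := key.and (hl (det_up he hZ hT hε))
  refine ⟨η, h0, fun G h1 h2 h3 s u => ?_⟩
  obtain ⟨a1, a2⟩ := h G ⟨h1, h2, h3⟩
  exact abs_le.2 ⟨by linarith [a1 (s, u)], by linarith [a2 s u]⟩

end Pool.Agent.QL
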