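import Pool.Agent.P.MP_7a6434d8_pr.QL.BM.LimDefs

/-! Convergence in probability along a sequence of couplings. -/

open MeasureTheory Set Filter Topology
open scoped ENNReal unitInterval

namespace Pool.Agent.QL

variable {T : ℕ → Type} {Y : Type} [∀ n, MeasurableSpace (T n)] [MeasurableSpace Y]

theorem InP.and {Γ : ∀ n, Measure (T n × Y)} {P Q : ∀ n, T n → Y → Prop} (hP : InP Γ P)
    (hQ : InP Γ Q) : InP Γ fun n t y => P n t y ∧ Q n t y := by
  have h := hP.add hQ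
  rw [add_zero] at h
  refine tendsto_of_tendsto_of_tendsto_of_le_of_le tendsto_const_nhds h (fun _ => zero_le)
    fun n => le_trans (measure_mono fun p hp => ?_) (measure_union_le _ _)
  exact not_and_or.1 hp

theorem limprob_inv {m k : ℕ} (h : m ≤ k) : (1 : ℝ) / (k + 1) ≤ 1 / (m + 1) := by gcongr

/-- diagonal choice of couplings -/
theorem prob_diag (lam : ∀ n, Measure (T n)) [∀ n, IsProbabilityMeasure (lam n)] (S : Measure Y)
    [IsProbabilityMeasure S] (A : ℝ → ∀ n, T n → Y → Prop)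
    (mono : ∀ η η' n t y, η ≤ η' → A η n t y → A η' n t y)
    (h : ∀ η > 0, ∀ᶠ n in atTop, ∃ Γ : Measure (T n × Y), Γ.fst = lam n ∧ Γ.snd = S ∧
      Γ {p | ¬ A η n p.1 p.2} ≤ ENNReal.ofReal η) :
    ∃ Γ : ∀ n, Measure (T n × Y), (∀ n, (Γ n).fst = lam n ∧ (Γ n).snd = S) ∧
      ∀ η > 0, InP Γ (A η) := by
  classical
  let Q : ℕ → ℕ → Prop := fun n k => ∃ Γ : Measure (T n × Y), Γ.fst = lam n ∧ Γ.snd = S ∧
    Γ {p | ¬ A (1 / (k + 1)) n p.1 p.2} ≤ ENNReal.ofReal (1 / (k + 1))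
  have key : ∀ n, ∃ Γ : Measure (T n × Y), (Γ.fst = lam n ∧ Γ.snd = S) ∧ ∀ m ≤ n, Q n m →
      Γ {p | ¬ A (1 / (m + 1)) n p.1 p.2} ≤ ENNReal.ofReal (1 / (m + 1)) := by
    intro n
    by_cases h1 : Q n (Nat.findGreatest (Q n) n)
    · obtain ⟨Γ, h2, h3, h4⟩ := h1
      refine ⟨Γ, ⟨h2, h3⟩, fun m hm hQ => ?_⟩
      have h5 := limprob_inv (Nat.le_findGreatest hm hQ)
      exact le_trans (measure_mono fun p hp h6 => hp (mono _ _ _ _ _ h5 h6))
        (h4.trans (ENNReal.ofReal_le_ofReal h5))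
    · exact ⟨(lam n).prod S, ⟨Measure.fst_prod, Measure.snd_prod⟩,
        fun m hm hQ => absurd (Nat.findGreatest_spec hm hQ) h1⟩
  choose Γ h1 h2 using key
  refine ⟨Γ, h1, fun η hη => ENNReal.tendsto_nhds_zero.2 fun ε hε => ?_⟩
  obtain ⟨r, -, h3, h4⟩ := ENNReal.lt_iff_exists_real_btwn.1 hε
  obtain ⟨m, hm⟩ := exists_nat_one_div_lt (lt_min hη (ENNReal.ofReal_pos.1 h3))
  filter_upwards [h (1 / (m + 1)) (by positivity), eventually_ge_atTop m] with n h5 h6
  exact le_trans (measure_mono fun p hp h7 => hp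
    (mono _ _ _ _ _ (hm.le.trans (min_le_left _ _)) h7)) ((h2 n m h6 h5).trans
      ((ENNReal.ofReal_le_ofReal (hm.le.trans (min_le_right _ _))).trans h4.le))

/-- a deterministic implication with constants depending on `y` passes to probability -/
theorem prob_up [∀ n, Countable (T n)] {Γ : ∀ n, Measure (T n × Y)} {S : Measure Y}
    [IsProbabilityMeasure S] (hΓ : ∀ n, (Γ n).snd = S) {A : ℝ → ∀ n, T n → Y → Prop}
    (mono : ∀ η η' n t y, η ≤ η' → A η n t y → A η' n t y)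
    (mA : ∀ η n t, MeasurableSet {y | A η n t y}) (hA : ∀ η > 0, InP Γ (A η))
    {P : ∀ n, T n → Y → Prop} (mP : ∀ n t, MeasurableSet {y | P n t y})
    (h : ∀ᵐ y ∂S, ∃ η > 0, ∃ N : ℕ, ∀ n ≥ N, ∀ t, A η n t y → P n t y) : InP Γ P := by
  let B : ℕ → Set Y := fun m => ⋃ (n : ℕ) (_ : m ≤ n) (t : T n),
    {y | A (1 / (m + 1)) n t y} ∩ {y | P n t y}ᶜ
  have h1 : ∀ m, MeasurableSet (B m) := fun m => .iUnion fun n => .iUnion fun _ =>
    .iUnion fun t => (mA _ n t).inter (mP n t).compl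
  have h2 : Antitone B := fun m k hmk y hy => by
    simp only [B, mem_iUnion] at hy ⊢
    obtain ⟨n, hn, t, h3, h4⟩ := hy
    exact ⟨n, hmk.trans hn, t, mono _ _ _ _ _ (limprob_inv hmk) h3, h4⟩
  have h3 : S (⋂ m, B m) = 0 := by
    refine measure_eq_zero_iff_ae_notMem.2 (h.mono fun y ⟨η, hη, N, hy⟩ hB => ?_)
    obtain ⟨m, hm⟩ := exists_nat_one_div_lt hη
    have h4 := mem_iInter.1 hB (max m N)
    simp only [B, mem_iUnion] at h4
    obtain ⟨n, hn, t, h5, h6⟩ := h4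
    exact h6 (hy n ((le_max_right _ _).trans hn) t
      (mono _ _ _ _ _ ((limprob_inv (le_max_left _ _)).trans hm.le) h5))
  have h4 := tendsto_measure_iInter_atTop (μ := S) (fun m => (h1 m).nullMeasurableSet) h2
    ⟨0, measure_ne_top _ _⟩
  rw [h3] at h4
  refine ENNReal.tendsto_nhds_zero.2 fun ε hε => ?_
  have h5 := ENNReal.half_pos hε.ne'
  obtain ⟨m, hm⟩ := (ENNReal.tendsto_nhds_zero.1 h4 _ h5).exists
  filter_upwards [ENNReal.tendsto_nhds_zero.1 (hA (1 / (m + 1)) (by positivity)) _ h5,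
    eventually_ge_atTop m] with n h6 h7
  rw [← ENNReal.add_halves ε]
  refine le_trans (measure_mono (t := _ ∪ Prod.snd ⁻¹' B m) fun p hp => ?_)
    ((measure_union_le _ _).trans (add_le_add h6 ?_))
  · refine or_iff_not_imp_left.2 fun h8 => ?_
    simp only [B, mem_preimage, mem_iUnion]
    exact ⟨n, h7, p.1, not_not.1 h8, hp⟩
  · rw [← Measure.snd_apply (h1 m), hΓ n]
    exact hm

theorem limprob_ind {Ω : Type} [MeasurableSpace Ω] {μ : Measure Ω} [IsProbabilityMeasure μ]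
    {X : Ω → ℝ} (hX : Integrable X μ) {D E : Set Ω} (hD : MeasurableSet D) (hE : MeasurableSet E)
    {a c : ℝ} (h : ∀ p, E.indicator (fun _ => a) p ≤ X p + c + D.indicator (fun _ => 1) p) :
    μ.real E * a ≤ ∫ p, X p ∂μ + c + μ.real D := by
  have h1 : Integrable (fun p => X p + c) μ := hX.add (integrable_const c)
  have h2 := integral_mono ((integrable_const a).indicator hE)
    (h1.add ((integrable_const (1 : ℝ)).indicator hD)) h
  simp only [Pi.add_apply] at h2
  rwa [integral_add h1 ((integrable_const _).indicator hD), integral_add hX (integrable_const c),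
    integral_indicator_const _ hD, integral_indicator_const _ hE, integral_const, probReal_univ,
    one_smul, smul_eq_mul, smul_eq_mul, mul_one] at h2

theorem limprob_sub {A : Type} [MeasurableSpace A] {lam : Measure A} [IsProbabilityMeasure lam]
    {S : Measure Y} {Γ : Measure (A × Y)} (hΓ : Γ.fst = lam ∧ Γ.snd = S) {f : A → ℝ} {g : Y → ℝ}
    (mf : Measurable f) (mg : Measurable g) (bf : ∀ t, f t ∈ Icc (0 : ℝ) 1)
    (bg : ∀ y, g y ∈ Icc (0 : ℝ) 1) : IsProbabilityMeasure Γ ∧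
      Integrable (fun p => f p.1 - g p.2) Γ ∧
      ∫ p, (f p.1 - g p.2) ∂Γ = ∫ t, f t ∂lam - ∫ y, g y ∂S := by
  have : IsProbabilityMeasure Γ := ⟨by rw [← Measure.fst_univ, hΓ.1, measure_univ]⟩
  have h1 : Integrable (fun p : A × Y => f p.1) Γ := Integrable.of_mem_Icc 0 1
    (mf.comp measurable_fst).aemeasurable (.of_forall fun p => bf _)
  have h2 : Integrable (fun p : A × Y => g p.2) Γ := Integrable.of_mem_Icc 0 1
    (mg.comp measurable_snd).aemeasurable (.of_forall fun p => bg _)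
  refine ⟨this, h1.sub h2, ?_⟩
  rw [integral_sub h1 h2, ← hΓ.1, ← hΓ.2, Measure.fst, Measure.snd,
    integral_map measurable_fst.aemeasurable mf.aestronglyMeasurable,
    integral_map measurable_snd.aemeasurable mg.aestronglyMeasurable]

theorem InP.limprob_real {Γ : ∀ n, Measure (T n × Y)} {P : ∀ n, T n → Y → Prop} (h : InP Γ P)
    {δ : ℝ} (hδ : 0 < δ) : ∀ᶠ n in atTop, (Γ n).real {p | ¬ P n p.1 p.2} ≤ δ :=
  (ENNReal.tendsto_nhds_zero.1 h _ (ENNReal.ofReal_pos.2 hδ)).mono fun _ h =>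
    ENNReal.toReal_le_of_le_ofReal hδ.le h

/-- bounded convergence -/
theorem prob_exp {lam : ∀ n, Measure (T n)} [∀ n, IsProbabilityMeasure (lam n)] {S : Measure Y}
    [IsProbabilityMeasure S] {Γ : ∀ n, Measure (T n × Y)}
    (hΓ : ∀ n, (Γ n).fst = lam n ∧ (Γ n).snd = S) {f : ∀ n, T n → ℝ} {g : Y → ℝ}
    (mf : ∀ n, Measurable (f n)) (mg : Measurable g) (bf : ∀ n t, f n t ∈ Icc (0 : ℝ) 1)
    (bg : ∀ y, g y ∈ Icc (0 : ℝ) 1) (h : ∀ ε > 0, InP Γ fun n t y => f n t ≤ g y + ε) :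
    ∀ δ > 0, ∀ᶠ n in atTop, ∫ t, f n t ∂lam n ≤ ∫ y, g y ∂S + δ := by
  intro δ hδ
  filter_upwards [(h (δ / 2) (half_pos hδ)).limprob_real (half_pos hδ)] with n hn
  obtain ⟨h1, h2, h3⟩ := limprob_sub (hΓ n) (mf n) mg (bf n) bg
  have h4 := limprob_ind (D := {p | ¬ f n p.1 ≤ g p.2 + δ / 2}) (a := 0) (c := δ / 2) h2.neg
    (measurableSet_le ((mf n).comp measurable_fst)
      ((mg.comp measurable_snd).add_const _)).compl .empty fun p => by
        rw [indicator_empty, Pi.neg_apply]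
        by_cases hp : f n p.1 ≤ g p.2 + δ / 2
        · rw [indicator_of_notMem (not_not.2 hp)]
          linarith
        · rw [indicator_of_mem (show p ∈ {p | ¬ f n p.1 ≤ g p.2 + δ / 2} from hp)]
          linarith [(bf n p.1).2, (bg p.2).1]
  simp only [Pi.neg_apply] at h4
  rw [integral_neg, h3] at h4
  linarith

/-- a one-sided bound in probability and the opposite bound in mean give the other side -/
theorem prob_one {lam : ∀ n, Measure (T n)} [∀ n, IsProbabilityMeasure (lam n)] {S : Measure Y}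
    [IsProbabilityMeasure S] {Γ : ∀ n, Measure (T n × Y)}
    (hΓ : ∀ n, (Γ n).fst = lam n ∧ (Γ n).snd = S) {f : ∀ n, T n → ℝ} {g : Y → ℝ}
    (mf : ∀ n, Measurable (f n)) (mg : Measurable g) (bf : ∀ n t, f n t ∈ Icc (0 : ℝ) 1)
    (bg : ∀ y, g y ∈ Icc (0 : ℝ) 1) (h : ∀ ε > 0, InP Γ fun n t y => g y - ε ≤ f n t)
    (hm : ∀ δ > 0, ∀ᶠ n in atTop, ∫ t, f n t ∂lam n ≤ ∫ y, g y ∂S + δ) :
    ∀ ε > 0, InP Γ fun n t y => f n t ≤ g y + ε := by
  refine fun ε hε => ENNReal.tendsto_nhds_zero.2 fun η hη => ?_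
  obtain ⟨r, -, h0, hr⟩ := ENNReal.lt_iff_exists_real_btwn.1 hη
  have hδ : 0 < r * ε / 3 := by
    have := ENNReal.ofReal_pos.1 h0
    positivity
  filter_upwards [(h _ hδ).limprob_real hδ, hm _ hδ] with n hn hn'
  obtain ⟨h1, h2, h3⟩ := limprob_sub (hΓ n) (mf n) mg (bf n) bg
  have h4 := limprob_ind (D := {p | ¬ g p.2 - r * ε / 3 ≤ f n p.1})
    (E := {p | ¬ f n p.1 ≤ g p.2 + ε}) (a := ε) (c := r * ε / 3) h2
    (measurableSet_le ((mg.comp measurable_snd).sub_const _) ((mf n).comp measurable_fst)).compl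
    (measurableSet_le ((mf n).comp measurable_fst) ((mg.comp measurable_snd).add_const _)).compl
    fun p => by
      by_cases hp : f n p.1 ≤ g p.2 + ε
      · rw [indicator_of_notMem (not_not.2 hp)]
        by_cases hq : g p.2 - r * ε / 3 ≤ f n p.1
        · rw [indicator_of_notMem (not_not.2 hq)]
          linarith
        · rw [indicator_of_mem (show p ∈ {p | ¬ g p.2 - r * ε / 3 ≤ f n p.1} from hq)]
          linarith [(bf n p.1).1, (bg p.2).2]
      · rw [indicator_of_mem (show p ∈ {p | ¬ f n p.1 ≤ g p.2 + ε} from hp)]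
        have := indicator_nonneg (s := {p | ¬ g p.2 - r * ε / 3 ≤ f n p.1})
          (f := fun _ => (1 : ℝ)) (fun _ _ => zero_le_one) p
        linarith [not_le.1 hp]
  refine le_trans ((ENNReal.le_ofReal_iff_toReal_le (measure_ne_top _ _)
    (ENNReal.ofReal_pos.1 h0).le).2 (le_of_mul_le_mul_right ?_ hε)) hr.le
  exact h4.trans (by linarith)

end Pool.Agent.QL
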