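import Pool.Agent.P.MP_7a6434d8_pr.QL.BM.LimDefs

/-! The discrete re-rooting identity in the contour parametrisation. -/

open MeasureTheory ProbabilityTheory Set Filter Topology
open scoped ENNReal unitInterval

namespace Pool.Agent.QL

theorem measurable_Gd {V : Type} (n : ℕ) (b : ℝ) (C : ℕ → ℤ) (c : ℕ → V) (d : V → V → ℕ) :
    Measurable fun p : I × I => Gd n b C c d p.1 p.2 := by
  exact (measurable_of_countable fun q : ℕ × ℕ => b * (d (c q.1) (c q.2) : ℝ)).comp
    ((measurable_cornerAt n C).prodMap (measurable_cornerAt n C))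

theorem limRer_mem {Ω : Type} [MeasurableSpace Ω] {μ : Measure Ω} [IsProbabilityMeasure μ]
    (f : Ω → ℝ) (hf : ∀ x, 0 ≤ f x) : ∫ x, Real.exp (-f x) ∂μ ∈ Icc (0 : ℝ) 1 := by
  refine ⟨integral_nonneg fun x => (Real.exp_pos _).le, ?_⟩
  simpa using integral_mono_of_nonneg (μ := μ) (Eventually.of_forall fun x => (Real.exp_pos _).le)
    (integrable_const (1 : ℝ))
    (Eventually.of_forall fun x => Real.exp_le_one_iff.2 (neg_nonpos.2 (hf x)))

theorem HH_Gd_mem {V : Type} (n : ℕ) {b : ℝ} (hb : 0 ≤ b) (C : ℕ → ℤ) (c : ℕ → V)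
    (d : V → V → ℕ) : HH (Gd n b C c d) ∈ Icc (0 : ℝ) 1 := by
  exact limRer_mem _ fun p => mul_nonneg hb (Nat.cast_nonneg _)

theorem Kd_mem {V : Type} (n : ℕ) {b : ℝ} (hb : 0 ≤ b) (C : ℕ → ℤ) (c : ℕ → V)
    (d : V → V → ℕ) (vs : V) : Kd n b C c d vs ∈ Icc (0 : ℝ) 1 := by
  exact limRer_mem _ fun p => mul_nonneg hb (Nat.cast_nonneg _)

theorem rer {T : Type} [MeasurableSpace T] [Finite T] [MeasurableSingletonClass T]
    (lam : Measure T) [IsProbabilityMeasure lam] {n : ℕ} (hn : 0 < n) {V : T → Type}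
    [∀ t, Fintype (V t)] (hV : ∀ t, Fintype.card (V t) = n + 2) {C : T → ℕ → ℤ}
    {c : ∀ t, ℕ → V t} (hc : ∀ t, IsContour n (C t) (c t)) (d : ∀ t, V t → V t → ℕ)
    (vs : ∀ t, V t) {b : ℝ} (hb : 0 ≤ b)
    (hr : ∀ F : ℕ → ℝ, ((n : ℝ) + 2) * ∫ t, ∑ v, F (d t (vs t) v) ∂lam =
      ∫ t, ∑ u, ∑ v, F (d t u v) ∂lam) :
    ∫ t, HH (Gd n b (C t) (c t) (d t)) ∂lam ≤
      ∫ t, Kd n b (C t) (c t) (d t) (vs t) ∂lam + 12 / n := by
  classical
  have hn' : (1 : ℝ) ≤ n := by exact_mod_cast hn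
  have hF : ∀ k : ℕ, Real.exp (-(b * k)) ≤ 1 := fun k =>
    Real.exp_le_one_iff.2 (neg_nonpos.2 (mul_nonneg hb k.cast_nonneg))
  have h1 : ∀ t, HH (Gd n b (C t) (c t) (d t)) ≤
      (n : ℝ)⁻¹ * (n : ℝ)⁻¹ * ∑ u, ∑ v, Real.exp (-(b * d t u v)) := by
    intro t
    rw [HH, Measure.volume_eq_prod, integral_prod
      (fun p : I × I => Real.exp (-Gd n b (C t) (c t) (d t) p.1 p.2)) (Integrable.of_bound
      (measurable_Gd n b (C t) (c t) (d t)).neg.exp.aestronglyMeasurable 1
      (Eventually.of_forall fun p => by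
        rw [Real.norm_of_nonneg (Real.exp_pos _).le]; exact hF _))]
    simp only [Gd, fun u => (hc t).integral hn fun v => Real.exp (-(b * d t u v))]
    rw [(hc t).integral hn fun u => (n : ℝ)⁻¹ * ∑ v ∈ nonRoot n (c t), Real.exp (-(b * d t u v)),
      ← Finset.mul_sum, ← mul_assoc]
    refine mul_le_mul_of_nonneg_left ((Finset.sum_le_sum fun u _ =>
      Finset.sum_le_univ_sum_of_nonneg fun v => (Real.exp_pos _).le).trans
      (Finset.sum_le_univ_sum_of_nonneg fun u => Finset.sum_nonneg fun v _ =>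
        (Real.exp_pos _).le)) (by positivity)
  have h2 : ∀ t, ∑ v, Real.exp (-(b * d t (vs t) v)) ≤
      n * Kd n b (C t) (c t) (d t) (vs t) + 2 := by
    intro t
    rw [Kd, (hc t).integral hn fun v => Real.exp (-(b * d t (vs t) v)),
      mul_inv_cancel_left₀ (by positivity), ← Finset.sum_add_sum_compl (nonRoot n (c t))]
    have h3 := Finset.sum_le_card_nsmul (nonRoot n (c t))ᶜ _ 1 fun v _ => hF (d t (vs t) v)
    rw [Finset.card_compl, hV, (hc t).card_nonRoot, Nat.add_sub_cancel_left] at h3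
    simpa using h3
  have h3 := integral_mono (μ := lam) .of_finite .of_finite h1
  have h4 := integral_mono (μ := lam) .of_finite .of_finite h2
  have h5 := integral_mono (μ := lam) .of_finite (integrable_const (1 : ℝ))
    fun t => (Kd_mem n hb (C t) (c t) (d t) (vs t)).2
  rw [integral_const_mul, ← hr fun k => Real.exp (-(b * k))] at h3
  rw [integral_add .of_finite (integrable_const _), integral_const_mul] at h4
  simp only [integral_const, probReal_univ, one_smul] at h4 h5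
  refine h3.trans ((mul_le_mul_of_nonneg_left (mul_le_mul_of_nonneg_left h4 (by positivity))
    (by positivity)).trans ?_)
  generalize ∫ t, Kd n b (C t) (c t) (d t) (vs t) ∂lam = K at h5
  field_simp
  nlinarith

end Pool.Agent.QL
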