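import Pool.Agent.P.MP_7a6434d8_pr.QL.BM.LimDet1
import Pool.Agent.P.MP_7a6434d8_pr.QL.BM.LimDet2
import Pool.Agent.P.MP_7a6434d8_pr.QL.BM.LimProb
import Pool.Agent.P.MP_7a6434d8_pr.QL.BM.LimRer

/-! Block LIM: the rescaled distance functions converge to `Dst`. -/

open MeasureTheory Set Filter Topology
open scoped ENNReal unitInterval

namespace Pool.Agent.QL

theorem SnClose.mono {n : ℕ} {a b : ℝ} {C l : ℕ → ℤ} {e Z : I → ℝ} {η η' : ℝ}
    (h : SnClose n a b C l e Z η) (hη : η ≤ η') : SnClose n a b C l e Z η' :=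
  fun i hi => ⟨(h i hi).1.trans hη, (h i hi).2.trans hη⟩

theorem lim_main (z : ℕ → ℕ) (hz : Tendsto z atTop atTop) {T : ℕ → Type} [∀ n, Finite (T n)] [∀ n, MeasurableSpace (T n)]
    [∀ n, DiscreteMeasurableSpace (T n)] (lam : ∀ n, Measure (T n))
    [∀ n, IsProbabilityMeasure (lam n)] {Y : Type} [MeasurableSpace Y] (S : Measure Y)
    [IsProbabilityMeasure S] {e Z : Y → C(I, ℝ)} (he : ∀ s, Measurable fun y => e y s)
    (hZ : ∀ s, Measurable fun y => Z y s) {V : ∀ n, T n → Type} [∀ n t, Fintype (V n t)]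
    (C l : ∀ n, T n → ℕ → ℤ) (c : ∀ n t, ℕ → V n t) (d : ∀ n t, V n t → V n t → ℕ)
    (vs : ∀ n t, V n t) {a b : ℕ → ℝ} (ha : ∀ᶠ n in atTop, 0 < a n) (hb0 : ∀ n, 0 ≤ b n)
    (hb : ∀ᶠ n in atTop, 0 < b n) (hb' : Tendsto b atTop (𝓝 0))
    (hcode : ∀ᶠ n in atTop, ∀ t, Fintype.card (V n t) = z n + 2 ∧
      IsCoded (z n) (C n t) (l n t) (c n t) (d n t) (vs n t))
    (hr : ∀ᶠ n : ℕ in atTop, ∀ F : ℕ → ℝ,
      ((z n : ℝ) + 2) * ∫ t, ∑ v, F (d n t (vs n t) v) ∂lam n =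
      ∫ t, ∑ u, ∑ v, F (d n t u v) ∂lam n)
    (hsnake : ∀ η > 0, ∀ᶠ n in atTop, ∃ Γ : Measure (T n × Y), Γ.fst = lam n ∧ Γ.snd = S ∧
      Γ {p | ¬ SnClose (z n) (a n) (b n) (C n p.1) (l n p.1) (e p.2) (Z p.2) η} ≤ ENNReal.ofReal η)
    (hgood : ∀ᵐ y ∂S, Tri (e y))
    (hrr : ∫ y, KK (Z y) ∂S ≤ ∫ y, HH (Dst (e y) (Z y)) ∂S) :
    ∀ ε > 0, ∀ᶠ n in atTop, ∃ Θ : Measure (T n × Y), Θ.fst = lam n ∧ Θ.snd = S ∧
      Θ {p | ¬ ∀ s u, |b n * d n p.1 (c n p.1 (cornerAt (z n) (C n p.1) s))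
        (c n p.1 (cornerAt (z n) (C n p.1) u)) - Dst (e p.2) (Z p.2) s u| ≤ ε} ≤ ENNReal.ofReal ε := by
  let A : ℝ → ∀ n, T n → Y → Prop := fun η n t y =>
    SnClose (z n) (a n) (b n) (C n t) (l n t) (e y) (Z y) η
  have mono : ∀ η η' n t y, η ≤ η' → A η n t y → A η' n t y := fun _ _ _ _ _ h h' => h'.mono h
  have mA : ∀ η n t, MeasurableSet {y | A η n t y} := fun η n t => by
    simp only [A, SnClose, ofPred_forall]
    exact MeasurableSet.iInter fun i => MeasurableSet.iInter fun _ =>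
      (measurableSet_le (measurable_const.sub (he _)).abs measurable_const).inter
        (measurableSet_le (measurable_const.sub (hZ _)).abs measurable_const)
  obtain ⟨Γ, hΓ, hA⟩ := prob_diag lam S A mono hsnake
  let G : ∀ n, T n → I → I → ℝ := fun n t => Gd (z n) (b n) (C n t) (c n t) (d n t)
  have small : ∀ η > 0, ∀ M : ℕ, ∃ N : ℕ, ∀ n ≥ N, M ≤ z n ∧ 0 < a n ∧ 0 < b n ∧ b n ≤ η ∧
      ∀ t, IsCoded (z n) (C n t) (l n t) (c n t) (d n t) (vs n t) := fun η hη M => by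
    refine eventually_atTop.1 ?_
    filter_upwards [hz.eventually_ge_atTop M, ha, hb, hb'.eventually (ge_mem_nhds hη), hcode]
      with n h0 h1 h2 h3 h4
    exact ⟨h0, h1, h2, h3, fun t => (h4 t).2⟩
  have appr : ∀ y, ∀ ε > 0, ∃ η > 0, ∃ N : ℕ, ∀ n ≥ N, ∀ t, A η n t y →
      Appr (e y) (Z y) ε (G n t) := fun y ε hε => by
    obtain ⟨η, h0, N, h⟩ := det1 (e y).continuous (Z y).continuous hε
    obtain ⟨N', h'⟩ := small η h0 N
    refine ⟨η, h0, N', fun n hn t hA => ?_⟩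
    obtain ⟨a0, a1, a2, a3, a4⟩ := h' n hn
    exact h _ a0 _ _ _ _ _ _ _ _ a1 a2 a3 (a4 t) hA
  have mH := measurable_HH he hZ
  have mK := measurable_KK hZ
  have hK : ∀ ε > 0, InP Γ fun n t y =>
      Kd (z n) (b n) (C n t) (c n t) (d n t) (vs n t) ≤ KK (Z y) + ε := fun ε hε => by
    refine prob_up (fun n => (hΓ n).2) mono mA hA
      (fun n t => measurableSet_le measurable_const (mK.add_const ε)) (.of_forall fun y => ?_)
    obtain ⟨η, h0, N, h⟩ := det_K (e := e y) (Z y).continuous hε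
    obtain ⟨N', h'⟩ := small η h0 N
    refine ⟨η, h0, N', fun n hn t hA => ?_⟩
    obtain ⟨a0, a1, a2, a3, a4⟩ := h' n hn
    exact h _ a0 _ _ _ _ _ _ _ _ a2 a3 (a4 t) hA
  have hH : ∀ ε > 0, InP Γ fun n t y => HH (Dst (e y) (Z y)) - ε ≤ HH (G n t) := fun ε hε => by
    refine prob_up (fun n => (hΓ n).2) mono mA hA
      (fun n t => measurableSet_le (mH.sub_const ε) measurable_const) (hgood.mono fun y hy => ?_)
    obtain ⟨η, h0, h⟩ := det2_up (e y).continuous (Z y).continuous hy hε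
    obtain ⟨η', h0', N, h'⟩ := appr y η h0
    exact ⟨η', h0', N, fun n hn t hA => h _ (h' n hn t hA) (measurable_Gd _ _ _ _ _)⟩
  have hE := prob_exp hΓ (fun n => .of_discrete) mK (fun n t => Kd_mem (z n) (hb0 n) _ _ _ _)
    (fun y => KK_mem (Z y).continuous) hK
  have hm : ∀ δ > 0, ∀ᶠ n in atTop, ∫ t, HH (G n t) ∂lam n ≤
      ∫ y, HH (Dst (e y) (Z y)) ∂S + δ := fun δ hδ => by
    filter_upwards [hE _ (half_pos hδ), hcode, hr, hz.eventually_gt_atTop 0,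
      hz.eventually ((tendsto_const_div_atTop_nhds_zero_nat (12 : ℝ)).eventually
        (ge_mem_nhds (half_pos hδ)))]
      with n h1 h2 h3 h4 h5
    have := rer (lam n) h4 (fun t => (h2 t).1) (fun t => (h2 t).2.contour) (d n) (vs n) (hb0 n) h3
    simp only [G]
    linarith
  have hO := prob_one hΓ (fun n => .of_discrete) mH (fun n t => HH_Gd_mem (z n) (hb0 n) _ _ _)
    (fun y => HH_mem (Dst_nonneg (Z y).continuous)) hH hm
  intro ε hε
  have fin : InP Γ fun n t y => ∀ s u, |G n t s u - Dst (e y) (Z y) s u| ≤ ε := by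
    refine prob_up (A := fun η n t y => A η n t y ∧ HH (G n t) ≤ HH (Dst (e y) (Z y)) + η)
      (fun n => (hΓ n).2)
      (fun η η' n t y h h' => ⟨mono _ _ _ _ _ h h'.1, h'.2.trans (by linarith)⟩)
      (fun η n t => (mA η n t).inter (measurableSet_le measurable_const (mH.add_const η)))
      (fun η hη => (hA η hη).and (hO η hη)) (fun n t => measurableSet_near he hZ _ ε)
      (hgood.mono fun y hy => ?_)
    obtain ⟨η, h0, h⟩ := det2_low (e y).continuous (Z y).continuous hy hε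
    obtain ⟨η', h0', N, h'⟩ := appr y η h0
    refine ⟨min η η', lt_min h0 h0', N, fun n hn t hA => h _
      (h' n hn t (mono _ _ _ _ _ (min_le_right _ _) hA.1)) (measurable_Gd _ _ _ _ _)
      (hA.2.trans ?_)⟩
    linarith [min_le_left η η']
  filter_upwards [fin.eventually (ge_mem_nhds (ENNReal.ofReal_pos.2 hε))] with n hn
  exact ⟨Γ n, (hΓ n).1, (hΓ n).2, hn⟩

end Pool.Agent.QL
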