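import Pool.Agent.P.MP_7a6434d8_pr.QL.BM.LimBasic

/-! Measurability of `Dst`. -/

open MeasureTheory Set Filter Topology
open scoped ENNReal unitInterval

namespace Pool.Agent.QL

variable {Y : Type} [MeasurableSpace Y] {e Z : Y → C(I, ℝ)}

theorem measurable_of_eval {K : Type} [TopologicalSpace K] [CompactSpace K]
    [SecondCountableTopology K] [T2Space K] [Nonempty K] {f : Y → C(K, ℝ)}
    (hf : ∀ x, Measurable fun y => f y x) : @Measurable _ _ _ (borel _) f := by
  let _ : MeasurableSpace C(K, ℝ) := borel _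
  have : BorelSpace C(K, ℝ) := ⟨rfl⟩
  have hc : Continuous fun (g : C(K, ℝ)) (k : ℕ) => g (TopologicalSpace.denseSeq K k) :=
    continuous_pi fun k => continuous_eval_const _
  have hi : Function.Injective fun (g : C(K, ℝ)) (k : ℕ) => g (TopologicalSpace.denseSeq K k) := by
    intro g g' h
    ext x
    exact congrFun ((TopologicalSpace.denseRange_denseSeq K).equalizer g.continuous g'.continuous
      h) x
  rw [← (hc.measurableEmbedding hi).measurable_comp_iff]
  exact measurable_pi_lambda _ fun k => hf _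

theorem isClosed_chain (s t : I) (k : ℕ) (q : ℝ) :
    IsClosed {x : C(I, ℝ) × C(I, ℝ) | ∃ ab : (ℕ → I) × (ℕ → I), ab.1 0 = s ∧ ab.2 k = t ∧
      (∀ i < k, dE x.1 (ab.2 i) (ab.1 (i + 1)) = 0) ∧
      ∑ i ∈ Finset.range (k + 1), D0 x.2 (ab.1 i) (ab.2 i) ≤ q} := by
  have h : IsClosed {z : (C(I, ℝ) × C(I, ℝ)) × (ℕ → I) × (ℕ → I) | z.2.1 0 = s ∧ z.2.2 k = t ∧
      (∀ i < k, dE z.1.1 (z.2.2 i) (z.2.1 (i + 1)) = 0) ∧
      ∑ i ∈ Finset.range (k + 1), D0 z.1.2 (z.2.1 i) (z.2.2 i) ≤ q} := by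
    refine (isClosed_eq (by fun_prop) continuous_const).inter
      ((isClosed_eq (by fun_prop) continuous_const).inter (IsClosed.inter ?_ ?_))
    · change IsClosed {z : (C(I, ℝ) × C(I, ℝ)) × (ℕ → I) × (ℕ → I) |
        ∀ i < k, dE z.1.1 (z.2.2 i) (z.2.1 (i + 1)) = 0}
      simp only [ofPred_forall]
      refine isClosed_iInter fun i => isClosed_iInter fun _ => isClosed_eq ?_ continuous_const
      exact continuous_dE.comp (f := fun z : (C(I, ℝ) × C(I, ℝ)) × (ℕ → I) × (ℕ → I) =>
        (z.1.1, z.2.2 i, z.2.1 (i + 1))) (by fun_prop)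
    · change IsClosed {z : (C(I, ℝ) × C(I, ℝ)) × (ℕ → I) × (ℕ → I) |
        ∑ i ∈ Finset.range (k + 1), D0 z.1.2 (z.2.1 i) (z.2.2 i) ≤ q}
      refine isClosed_le (continuous_finsetSum _ fun i _ => ?_) continuous_const
      exact continuous_D0.comp (f := fun z : (C(I, ℝ) × C(I, ℝ)) × (ℕ → I) × (ℕ → I) =>
        (z.1.2, z.2.1 i, z.2.2 i)) (by fun_prop)
  convert isClosedMap_fst_of_compactSpace _ h using 1
  ext x
  simp

theorem measurable_Dst (he : ∀ s, Measurable fun y => e y s) (hZ : ∀ s, Measurable fun y => Z y s)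
    (s t : I) : Measurable fun y => Dst (e y) (Z y) s t := by
  let _ : MeasurableSpace C(I, ℝ) := borel _
  have : BorelSpace C(I, ℝ) := ⟨rfl⟩
  have hm : Measurable fun y => (e y, Z y) :=
    (measurable_of_eval he).prodMk (measurable_of_eval hZ)
  refine measurable_of_Iio fun r => ?_
  have : (fun y => Dst (e y) (Z y) s t) ⁻¹' Iio r = ⋃ (k : ℕ) (q : ℚ) (_ : (q : ℝ) < r),
      (fun y => (e y, Z y)) ⁻¹' {x : C(I, ℝ) × C(I, ℝ) | ∃ ab : (ℕ → I) × (ℕ → I),
        ab.1 0 = s ∧ ab.2 k = t ∧ (∀ i < k, dE x.1 (ab.2 i) (ab.1 (i + 1)) = 0) ∧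
        ∑ i ∈ Finset.range (k + 1), D0 x.2 (ab.1 i) (ab.2 i) ≤ q} := by
    ext y
    simp only [mem_preimage, mem_Iio, mem_iUnion, mem_ofPred_eq]
    constructor
    · intro h
      obtain ⟨x, hx, hr⟩ := exists_ch h
      obtain ⟨k, a, b, h1, h2, h3, rfl⟩ := ch_iff.1 hx
      obtain ⟨q, hq1, hq2⟩ := exists_rat_btwn hr
      exact ⟨k, q, hq2, (a, b), h1, h2, h3, hq1.le⟩
    · rintro ⟨k, q, hq, ⟨a, b⟩, h1, h2, h3, h4⟩
      exact ((Dst_le (Z y).continuous (ch_iff.2 ⟨k, a, b, h1, h2, h3, rfl⟩)).trans h4).trans_lt hq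
  rw [this]
  exact MeasurableSet.iUnion fun k => MeasurableSet.iUnion fun q => MeasurableSet.iUnion fun _ =>
    hm (isClosed_chain s t k q).measurableSet

theorem measurableSet_near (he : ∀ s, Measurable fun y => e y s)
    (hZ : ∀ s, Measurable fun y => Z y s) (G : I → I → ℝ) (ε : ℝ) :
    MeasurableSet {y | ∀ s u, |G s u - Dst (e y) (Z y) s u| ≤ ε} := by
  let _ : MeasurableSpace C(I × I, ℝ) := borel _
  have : BorelSpace C(I × I, ℝ) := ⟨rfl⟩
  have hm : Measurable fun y => (⟨fun p => Dst (e y) (Z y) p.1 p.2,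
      continuous_Dst (Z y).continuous⟩ : C(I × I, ℝ)) :=
    measurable_of_eval fun p => measurable_Dst he hZ p.1 p.2
  have hc : IsClosed {D : C(I × I, ℝ) | ∀ s u, |G s u - D (s, u)| ≤ ε} := by
    simp only [ofPred_forall]
    exact isClosed_iInter fun s => isClosed_iInter fun u =>
      isClosed_le (by fun_prop) continuous_const
  exact hm hc.measurableSet

theorem measurable_HH (he : ∀ s, Measurable fun y => e y s)
    (hZ : ∀ s, Measurable fun y => Z y s) : Measurable fun y => HH (Dst (e y) (Z y)) := by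
  have h : Measurable (Function.uncurry fun (p : I × I) y =>
      Real.exp (-Dst (e y) (Z y) p.1 p.2)) :=
    measurable_uncurry_of_continuous_of_measurable
      (fun y => Real.continuous_exp.comp (continuous_Dst (Z y).continuous).neg)
      fun p => (measurable_Dst he hZ p.1 p.2).neg.exp
  exact (h.stronglyMeasurable.integral_prod_left' (μ := volume)).measurable

theorem measurable_mn (hZ : ∀ s, Measurable fun y => Z y s) (s t : I) :
    Measurable fun y => mn (Z y) (uIcc s t) := by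
  let _ : MeasurableSpace C(I, ℝ) := borel _
  have : BorelSpace C(I, ℝ) := ⟨rfl⟩
  exact (continuous_mn_uIcc.comp (f := fun f : C(I, ℝ) => (f, s, t))
    (by fun_prop)).measurable.comp (measurable_of_eval hZ)

theorem measurable_KK (hZ : ∀ s, Measurable fun y => Z y s) : Measurable fun y => KK (Z y) := by
  have hu : (uIcc 0 1 : Set I) = univ := by
    rw [uIcc_of_le zero_le_one]; exact Icc_bot_top
  have h : Measurable (Function.uncurry fun (s : I) y =>
      Real.exp (-(Z y s - mn (Z y) univ))) :=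
    measurable_uncurry_of_continuous_of_measurable (fun y => by fun_prop)
      fun s => ((hZ s).sub (hu ▸ measurable_mn hZ 0 1)).neg.exp
  exact (h.stronglyMeasurable.integral_prod_left' (μ := volume)).measurable

theorem exp_int_mem {X : Type} [MeasurableSpace X] (μ : Measure X) [IsProbabilityMeasure μ]
    {g : X → ℝ} (hg : ∀ x, 0 ≤ g x) : ∫ x, Real.exp (-g x) ∂μ ∈ Icc (0 : ℝ) 1 := by
  refine ⟨integral_nonneg fun x => (Real.exp_pos _).le, ?_⟩
  have := norm_integral_le_of_norm_le_const (μ := μ) (f := fun x => Real.exp (-g x)) (C := 1)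
    (Eventually.of_forall fun x => by
      rw [Real.norm_of_nonneg (Real.exp_pos _).le, Real.exp_le_one_iff]; linarith [hg x])
  simpa using (le_abs_self _).trans this

theorem HH_mem {G : I → I → ℝ} (hG : ∀ s u, 0 ≤ G s u) : HH G ∈ Icc (0 : ℝ) 1 :=
  exp_int_mem _ fun p => hG p.1 p.2

theorem KK_mem {Z : I → ℝ} (hZ : Continuous Z) : KK Z ∈ Icc (0 : ℝ) 1 :=
  exp_int_mem _ fun s => sub_nonneg.2 (mn_le hZ (mem_univ s))

end Pool.Agent.QL
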