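import Mathlib

/-! Dyadic chaining, Chernoff bound in counting form, two exponential moment bounds. -/

namespace Pool.Agent.QL.BM.Md

open Finset Real

theorem chain (m : ℕ) : ∀ (f : ℕ → ℝ) (M : ℕ) (g : ℕ → ℝ), (∀ a, 0 ≤ g a) →
    (∀ a ≤ m, ∀ k, (k + 1) * 2 ^ a ≤ M → |f ((k + 1) * 2 ^ a) - f (k * 2 ^ a)| ≤ g a) →
    ∀ i j, i ≤ j → j ≤ M → j - i < 2 ^ (m + 1) → |f j - f i| ≤ 2 * ∑ a ∈ range (m + 1), g a := by
  induction m with
  | zero =>
    intro f M g hg h i j hij hj hd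
    have h0 := hg 0
    rcases (by omega : j = i ∨ j = i + 1) with rfl | rfl
    · simp [h0]
    · have := h 0 le_rfl i (by simpa using hj)
      simp only [pow_zero, mul_one] at this
      simp only [zero_add, range_one, sum_singleton]
      linarith
  | succ m ih =>
    intro f M g hg h i j hij hj hd
    have h0 := hg 0
    have hs : 0 ≤ ∑ a ∈ range (m + 1), g (a + 1) := sum_nonneg fun a _ => hg _
    rw [sum_range_succ']
    by_cases hc : (i + 1) / 2 ≤ j / 2
    · have h1 := ih (fun k => f (2 * k)) (M / 2) (fun a => g (a + 1)) (fun a => hg _)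
        (fun a ha k hk => by
          have := h (a + 1) (by omega) k (by rw [pow_succ, ← mul_assoc]; omega)
          rwa [pow_succ, ← mul_assoc, ← mul_assoc, mul_comm _ 2, mul_comm _ 2] at this)
        ((i + 1) / 2) (j / 2) hc (by omega) (by rw [pow_succ] at hd; omega)
      have h2 : |f j - f (2 * (j / 2))| ≤ g 0 := by
        rcases (by omega : j = 2 * (j / 2) ∨ j = 2 * (j / 2) + 1) with e | e
        · rw [← e]; simpa using h0
        · have := h 0 (by omega) (2 * (j / 2)) (by omega)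
          simp only [pow_zero, mul_one] at this
          rwa [← e] at this
      have h3 : |f (2 * ((i + 1) / 2)) - f i| ≤ g 0 := by
        rcases (by omega : 2 * ((i + 1) / 2) = i ∨ 2 * ((i + 1) / 2) = i + 1) with e | e
        · rw [e]; simpa using h0
        · have := h 0 (by omega) i (by omega)
          simp only [pow_zero, mul_one] at this
          rwa [e]
      rw [abs_le] at h1 h2 h3 ⊢
      constructor <;> linarith [h1.1, h1.2, h2.1, h2.2, h3.1, h3.2]
    · have : j = i := by omega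
      subst this
      simp only [sub_self, abs_zero]
      linarith

theorem geom_le {ρ : ℝ} (hρ : 1 < ρ) (m : ℕ) :
    ∑ a ∈ range (m + 1), ρ ^ a ≤ ρ / (ρ - 1) * ρ ^ m := by
  rw [geom_sum_eq hρ.ne', div_mul_eq_mul_div, pow_succ']
  exact div_le_div_of_nonneg_right (by linarith) (by linarith)

/-- union bound over all dyadic intervals -/
theorem union_dyadic {Ω : Type} (s : Finset Ω) (P : Ω → ℕ → ℕ → Prop) [∀ ω a k, Decidable (P ω a k)]
    (M m : ℕ) {A Z : ℝ} (hA : 0 ≤ A * Z)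
    (h : ∀ a ≤ m, ∀ k, (k + 1) * 2 ^ a ≤ M → (#(s.filter fun ω => P ω a k) : ℝ) ≤ A * 4 ^ a * Z)
    [DecidablePred fun ω => ∃ a ≤ m, ∃ k, (k + 1) * 2 ^ a ≤ M ∧ P ω a k] :
    (#(s.filter fun ω => ∃ a ≤ m, ∃ k, (k + 1) * 2 ^ a ≤ M ∧ P ω a k) : ℝ) ≤
      2 * A * M * 2 ^ m * Z := by
  classical
  have hsub : (s.filter fun ω => ∃ a ≤ m, ∃ k, (k + 1) * 2 ^ a ≤ M ∧ P ω a k) ⊆
      (range (m + 1)).biUnion fun a => (range (M / 2 ^ a)).biUnion fun k =>
        s.filter fun ω => P ω a k := by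
    intro ω hω
    obtain ⟨h1, a, ha, k, hk, hP⟩ := mem_filter.1 hω
    refine mem_biUnion.2 ⟨a, mem_range.2 (by omega), mem_biUnion.2 ⟨k, mem_range.2 ?_,
      mem_filter.2 ⟨h1, hP⟩⟩⟩
    exact (Nat.le_div_iff_mul_le (by positivity)).2 hk
  have h1 : ∀ a ∈ range (m + 1), (#((range (M / 2 ^ a)).biUnion fun k =>
      s.filter fun ω => P ω a k) : ℝ) ≤ A * Z * M * 2 ^ a := by
    intro a ha
    have h2 : (#((range (M / 2 ^ a)).biUnion fun k => s.filter fun ω => P ω a k) : ℝ) ≤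
        ∑ k ∈ range (M / 2 ^ a), (#(s.filter fun ω => P ω a k) : ℝ) := by
      exact_mod_cast card_biUnion_le
    have h3 : ∑ k ∈ range (M / 2 ^ a), (#(s.filter fun ω => P ω a k) : ℝ) ≤
        ∑ _k ∈ range (M / 2 ^ a), A * 4 ^ a * Z := sum_le_sum fun k hk =>
      h a (by simpa [Nat.lt_succ_iff] using ha) k
        ((Nat.le_div_iff_mul_le (by positivity)).1 (mem_range.1 hk))
    have h4 : ((M / 2 ^ a : ℕ) : ℝ) * 2 ^ a ≤ M := by exact_mod_cast Nat.div_mul_le_self M (2 ^ a)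
    rw [sum_const, card_range, nsmul_eq_mul] at h3
    have h5 : (4 : ℝ) ^ a = 2 ^ a * 2 ^ a := by rw [← mul_pow]; norm_num
    calc _ ≤ ((M / 2 ^ a : ℕ) : ℝ) * (A * 4 ^ a * Z) := h2.trans h3
      _ = A * Z * (((M / 2 ^ a : ℕ) : ℝ) * 2 ^ a) * 2 ^ a := by rw [h5]; ring
      _ ≤ _ := by gcongr
  have h6 := geom_le (ρ := 2) (by norm_num) m
  calc (#(s.filter fun ω => ∃ a ≤ m, ∃ k, (k + 1) * 2 ^ a ≤ M ∧ P ω a k) : ℝ)
      ≤ ∑ a ∈ range (m + 1), (#((range (M / 2 ^ a)).biUnion fun k =>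
        s.filter fun ω => P ω a k) : ℝ) := by
        exact_mod_cast (card_le_card hsub).trans card_biUnion_le
    _ ≤ ∑ a ∈ range (m + 1), A * Z * M * 2 ^ a := sum_le_sum h1
    _ = A * Z * M * ∑ a ∈ range (m + 1), (2 : ℝ) ^ a := by rw [mul_sum]
    _ ≤ A * Z * M * (2 / (2 - 1) * 2 ^ m) := by gcongr
    _ = _ := by ring

theorem chernoff1 {Ω : Type} (s : Finset Ω) (X : Ω → ℝ) {x v B : ℝ} (hx : 0 < x) (hv : 0 < v)
    (h : ∀ l : ℝ, 0 ≤ l → ∑ ω ∈ s, exp (l * X ω) ≤ B * exp (l ^ 2 * v / 2)) :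
    (#(s.filter fun ω => x < X ω) : ℝ) ≤ B * exp (-(x ^ 2 / (2 * v))) := by
  have h1 := h (x / v) (by positivity)
  have h2 : (#(s.filter fun ω => x < X ω) : ℝ) * exp (x / v * x) ≤ ∑ ω ∈ s, exp (x / v * X ω) := by
    rw [← nsmul_eq_mul, ← sum_const]
    refine (sum_le_sum fun ω hω => ?_).trans
      (sum_le_sum_of_subset_of_nonneg (filter_subset _ _) fun _ _ _ => (exp_pos _).le)
    exact exp_le_exp.2 (mul_le_mul_of_nonneg_left (mem_filter.1 hω).2.le (by positivity))
  have h3 : exp ((x / v) ^ 2 * v / 2) = exp (-(x ^ 2 / (2 * v))) * exp (x / v * x) := by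
    rw [← exp_add]
    congr 1
    field_simp
    ring
  rw [h3, ← mul_assoc] at h1
  exact le_of_mul_le_mul_right (h2.trans h1) (exp_pos _)

theorem chernoff {Ω : Type} (s : Finset Ω) (X : Ω → ℝ) {x v B : ℝ} (hx : 0 < x) (hv : 0 < v)
    (hB : 0 ≤ B) (h : ∀ l : ℝ, ∑ ω ∈ s, exp (l * X ω) ≤ B * exp (l ^ 2 * v / 2)) (p : ℕ) :
    (#(s.filter fun ω => x < |X ω|) : ℝ) ≤ 2 * B * (p.factorial * (2 * v / x ^ 2) ^ p) := by
  classical
  have h1 := chernoff1 s X hx hv fun l _ => h l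
  have h2 := chernoff1 s (fun ω => -X ω) hx hv fun l _ => by simpa using h (-l)
  have h3 : (#(s.filter fun ω => x < |X ω|) : ℝ) ≤
      #(s.filter fun ω => x < X ω) + #(s.filter fun ω => x < -X ω) := by
    have : (s.filter fun ω => x < |X ω|) ⊆
        (s.filter fun ω => x < X ω) ∪ (s.filter fun ω => x < -X ω) := by
      intro ω hω
      obtain ⟨a, b⟩ := mem_filter.1 hω
      rcases lt_abs.1 b with c | c
      · exact mem_union_left _ (mem_filter.2 ⟨a, c⟩)
      · exact mem_union_right _ (mem_filter.2 ⟨a, c⟩)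
    exact_mod_cast (card_le_card this).trans (card_union_le _ _)
  have h4 : exp (-(x ^ 2 / (2 * v))) ≤ p.factorial * (2 * v / x ^ 2) ^ p := by
    have h5 := pow_div_factorial_le_exp (x := x ^ 2 / (2 * v)) (by positivity) p
    have h6 : (0 : ℝ) < (x ^ 2 / (2 * v)) ^ p / p.factorial := by positivity
    rw [exp_neg]
    refine (inv_anti₀ h6 h5).trans (le_of_eq ?_)
    rw [inv_div, div_eq_mul_inv, ← inv_pow, inv_div]
  nlinarith [mul_le_mul_of_nonneg_left h4 hB]

theorem three_mgf {ι : Type} [Fintype ι] [DecidableEq ι] (c : ι → ℝ) (l : ℝ) :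
    ∑ d : ι → Fin 3, exp (l * ∑ k, c k * (((d k : ℕ) : ℝ) - 1)) ≤
      3 ^ Fintype.card ι * exp (l ^ 2 * (∑ k, c k ^ 2) / 2) := by
  have h1 : ∑ d : ι → Fin 3, exp (l * ∑ k, c k * (((d k : ℕ) : ℝ) - 1)) =
      ∏ k, ∑ x : Fin 3, exp (l * (c k * (((x : ℕ) : ℝ) - 1))) := by
    rw [Fintype.prod_sum]
    refine sum_congr rfl fun d _ => ?_
    rw [mul_sum, exp_sum]
  rw [h1, mul_sum, sum_div, exp_sum, ← card_univ, ← prod_const, ← prod_mul_distrib]
  refine prod_le_prod (fun k _ => sum_nonneg fun _ _ => (exp_pos _).le) fun k _ => ?_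
  have h2 := cosh_le_exp_half_sq (l * c k)
  have h3 := one_le_cosh (l * c k)
  rw [cosh_eq] at h2 h3
  rw [Fin.sum_univ_three, show l ^ 2 * c k ^ 2 = (l * c k) ^ 2 by ring]
  norm_num
  linarith

theorem choose_ratio {N a : ℕ} (ha : a ≤ N) : ∀ s ≤ a,
    (((N - s).choose (a - s) : ℕ) : ℝ) ≤ N.choose a * ((a : ℝ) / N) ^ s := by
  intro s
  induction s with
  | zero => simp
  | succ s ih =>
    intro hs
    have h1 := ih (by omega)
    obtain ⟨u, rfl⟩ : ∃ u, a = s + 1 + u := ⟨a - (s + 1), by omega⟩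
    obtain ⟨w, rfl⟩ : ∃ w, N = s + 1 + u + w := ⟨N - (s + 1 + u), by omega⟩
    rw [show s + 1 + u + w - s = u + w + 1 by omega, show s + 1 + u - s = u + 1 by omega] at h1
    rw [show s + 1 + u + w - (s + 1) = u + w by omega, show s + 1 + u - (s + 1) = u by omega]
    have h2 : ((u : ℝ) + w + 1) * (u + w).choose u = (u + w + 1).choose (u + 1) * (u + 1) := by
      exact_mod_cast Nat.add_one_mul_choose_eq (u + w) u
    have h3 : ((u : ℝ) + 1) / (u + w + 1) ≤ ((s + 1 + u : ℕ) : ℝ) / ((s + 1 + u + w : ℕ) : ℝ) := by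
      push_cast
      rw [div_le_div_iff₀ (by positivity) (by positivity)]
      nlinarith [mul_nonneg (Nat.cast_nonneg (α := ℝ) s) (Nat.cast_nonneg (α := ℝ) w)]
    calc (((u + w).choose u : ℕ) : ℝ)
        = (u + w + 1).choose (u + 1) * (((u : ℝ) + 1) / (u + w + 1)) := by
          field_simp
          linarith
      _ ≤ _ := by
          rw [pow_succ, ← mul_assoc]
          exact mul_le_mul h1 h3 (by positivity) (by positivity)

theorem hyper_pow {ι : Type} [Fintype ι] [DecidableEq ι] {a : ℕ} (ha : a ≤ Fintype.card ι)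
    (J : Finset ι) {t : ℝ} (ht : 0 ≤ t) :
    ∑ S ∈ powersetCard a (univ : Finset ι), (1 + t) ^ #(J ∩ S) ≤
      (Fintype.card ι).choose a * (1 + t * ((a : ℝ) / Fintype.card ι)) ^ #J := by
  have h1 : ∀ S : Finset ι, (1 + t) ^ #(J ∩ S) =
      ∑ A ∈ J.powerset, if A ⊆ S then t ^ #A else 0 := by
    intro S
    have : (1 + t) ^ #(J ∩ S) = ∏ i ∈ J, (1 + if i ∈ S then t else 0) := by
      rw [← prod_const, ← filter_mem_eq_inter, prod_filter]
      exact prod_congr rfl fun i _ => by split_ifs <;> simp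
    rw [this, prod_one_add]
    refine sum_congr rfl fun A _ => ?_
    rw [prod_ite_zero, prod_const]
    rfl
  have h2 : (1 + t * ((a : ℝ) / Fintype.card ι)) ^ #J =
      ∑ A ∈ J.powerset, (t * ((a : ℝ) / Fintype.card ι)) ^ #A := by
    rw [← prod_const, prod_one_add]
    simp
  simp only [h1]
  rw [h2, sum_comm, mul_sum]
  refine sum_le_sum fun A _ => ?_
  rw [← sum_filter, sum_const, nsmul_eq_mul, mul_pow, mul_left_comm, mul_comm]
  refine mul_le_mul_of_nonneg_left ?_ (by positivity)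
  by_cases hA : #A ≤ a
  · rw [card_filter_powersetCard_subset _ _ _ (subset_univ _) hA, card_univ]
    exact choose_ratio ha _ hA
  · rw [filter_eq_empty_iff.2 fun S hS h =>
      hA ((card_le_card h).trans_eq (mem_powersetCard.1 hS).2)]
    simp only [card_empty, Nat.cast_zero]
    positivity

theorem hyper_one {ι : Type} [Fintype ι] [DecidableEq ι] {a : ℕ} (ha : a ≤ Fintype.card ι)
    (h2 : 2 * a ≤ Fintype.card ι + 1) (h0 : 0 < Fintype.card ι) (J : Finset ι) {l : ℝ}
    (hl : 0 ≤ l) : ∑ S ∈ powersetCard a (univ : Finset ι), exp (l * (2 * #(J ∩ S) - #J)) ≤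
      3 * (Fintype.card ι).choose a * exp (l ^ 2 * #J / 2) := by
  have hN : (0 : ℝ) < Fintype.card ι := by exact_mod_cast h0
  have ht : 0 ≤ exp (2 * l) - 1 := sub_nonneg.2 (one_le_exp (by positivity))
  have h1 := hyper_pow ha J ht
  have h3 : ∀ S : Finset ι, exp (l * (2 * #(J ∩ S) - #J)) =
      (1 + (exp (2 * l) - 1)) ^ #(J ∩ S) * exp (-l) ^ #J := by
    intro S
    rw [add_sub_cancel, ← exp_nat_mul, ← exp_nat_mul, ← exp_add]
    congr 1
    ring
  have hp : (a : ℝ) / Fintype.card ι ≤ 1 / 2 + 1 / Fintype.card ι / 2 := by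
    have : (2 * a : ℝ) ≤ Fintype.card ι + 1 := by exact_mod_cast h2
    rw [div_le_iff₀ hN]
    field_simp
    linarith
  have h4 : (1 + (exp (2 * l) - 1) * ((a : ℝ) / Fintype.card ι)) * exp (-l) ≤
      exp (l ^ 2 / 2) * exp (1 / Fintype.card ι) := by
    have e1 : exp (2 * l) * exp (-l) = exp l := by rw [← exp_add]; congr 1; ring
    have e2 := cosh_le_exp_half_sq l
    rw [cosh_eq] at e2
    have e3 := add_one_le_exp (1 / (Fintype.card ι : ℝ))
    have e4 : (0 : ℝ) < 1 / Fintype.card ι := by positivity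
    have e5 := exp_pos l
    have e6 := exp_pos (-l)
    calc _ ≤ (1 + (exp (2 * l) - 1) * (1 / 2 + 1 / Fintype.card ι / 2)) * exp (-l) := by gcongr
      _ = (exp l + exp (-l)) / 2 + 1 / Fintype.card ι * ((exp l - exp (-l)) / 2) := by
          rw [← e1]; ring
      _ ≤ (exp l + exp (-l)) / 2 * (1 / Fintype.card ι + 1) := by nlinarith
      _ ≤ _ := by gcongr
  have h5 : exp (1 / Fintype.card ι) ^ #J ≤ 3 := by
    rw [← exp_nat_mul]
    refine (exp_le_exp.2 ?_).trans exp_one_lt_three.le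
    rw [mul_one_div, div_le_one hN]
    exact_mod_cast card_le_univ J
  simp only [h3]
  rw [← sum_mul]
  calc _ ≤ (Fintype.card ι).choose a * (1 + (exp (2 * l) - 1) * ((a : ℝ) / Fintype.card ι)) ^ #J *
        exp (-l) ^ #J := by gcongr
    _ = (Fintype.card ι).choose a *
        ((1 + (exp (2 * l) - 1) * ((a : ℝ) / Fintype.card ι)) * exp (-l)) ^ #J := by
        rw [mul_pow, mul_assoc]
    _ ≤ (Fintype.card ι).choose a * (exp (l ^ 2 / 2) * exp (1 / Fintype.card ι)) ^ #J := by gcongr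
    _ ≤ (Fintype.card ι).choose a * (exp (l ^ 2 / 2) ^ #J * 3) := by rw [mul_pow]; gcongr
    _ = _ := by rw [← exp_nat_mul, show (#J : ℝ) * (l ^ 2 / 2) = l ^ 2 * #J / 2 by ring]; ring

theorem hyper_mgf {ι : Type} [Fintype ι] [DecidableEq ι] {n : ℕ} (hn : Fintype.card ι = 2 * n + 1)
    (J : Finset ι) (l : ℝ) :
    ∑ S ∈ powersetCard n (univ : Finset ι), exp (l * (2 * #(J ∩ S) - #J)) ≤
      3 * (2 * n + 1).choose n * exp (l ^ 2 * #J / 2) := by
  rcases le_total 0 l with hl | hl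
  · rw [← hn]
    exact hyper_one (by omega) (by omega) (by omega) J hl
  · have h1 := hyper_one (ι := ι) (a := n + 1) (by omega) (by omega) (by omega) J (neg_nonneg.2 hl)
    rw [hn, neg_sq, Nat.choose_symm_of_eq_add (show 2 * n + 1 = n + 1 + n by omega)] at h1
    refine le_trans (le_of_eq ?_) h1
    refine sum_nbij' (fun S => Sᶜ) (fun S => Sᶜ) ?_ ?_ (by simp) (by simp) ?_
    · intro S hS
      simp only [mem_powersetCard, subset_univ, true_and] at hS ⊢
      rw [card_compl]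
      omega
    · intro S hS
      simp only [mem_powersetCard, subset_univ, true_and] at hS ⊢
      rw [card_compl]
      omega
    · intro S _
      have : (#(J ∩ S) : ℝ) + #(J ∩ Sᶜ) = #J := by
        rw [← sdiff_eq_inter_compl]
        exact_mod_cast card_inter_add_card_sdiff J S
      congr 1
      rw [← this]
      ring

end Pool.Agent.QL.BM.Md
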