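import Pool.Agent.P.MP_7a6434d8_pr.QL.BM.LimMeas

/-! Tools for the convergence of discrete snakes. -/

open MeasureTheory Set Filter Topology
open scoped ENNReal unitInterval

namespace Pool.Agent.QL

/-- the minimum of a sequence between two indices -/
noncomputable def dmn (x : ℕ → ℝ) (i j : ℕ) : ℝ := sInf (x '' uIcc i j)

/-- a character of `ℝ^k` -/
noncomputable def ch {k : ℕ} (μ v : Fin k → ℝ) : ℂ :=
  Complex.exp (((∑ j, μ j * v j : ℝ) : ℂ) * Complex.I)

/-- the Gaussian characteristic function for the covariance `m` -/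
noncomputable def gw {k : ℕ} (μ : Fin k → ℝ) (m : Fin k → Fin k → ℝ) : ℝ :=
  Real.exp (-(1 / 2) * ∑ i, ∑ j, μ i * μ j * m i j)

theorem dmn_le (x : ℕ → ℝ) {i j k : ℕ} (hk : k ∈ uIcc i j) : dmn x i j ≤ x k :=
  csInf_le ((finite_uIcc i j).image x).bddBelow (mem_image_of_mem x hk)

theorem le_dmn {x : ℕ → ℝ} {i j : ℕ} {r : ℝ} (h : ∀ k ∈ uIcc i j, r ≤ x k) : r ≤ dmn x i j :=
  le_csInf (nonempty_uIcc.image x) (by rintro _ ⟨k, hk, rfl⟩; exact h k hk)

theorem exists_dmn (x : ℕ → ℝ) (i j : ℕ) : ∃ k ∈ uIcc i j, x k = dmn x i j :=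
  (nonempty_uIcc.image x).csInf_mem ((finite_uIcc i j).image x)

theorem psd_per {ι : Type} [Fintype ι] (R : ι → ι → Prop) [DecidableRel R]
    (hs : ∀ i j, R i j → R j i) (ht : ∀ i j l, R i j → R j l → R i l) (μ : ι → ℝ) :
    0 ≤ ∑ i, ∑ j, μ i * μ j * if R i j then 1 else 0 := by
  classical
  set c : ι → ℝ := fun l => ((Finset.univ.filter (R l)).card : ℝ)⁻¹ with hc
  have key : ∀ i j, (if R i j then 1 else 0 : ℝ) =
      ∑ l, c l * ((if R l i then 1 else 0) * if R l j then 1 else 0) := by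
    intro i j
    split_ifs with h
    · have e : ∀ l, c l * ((if R l i then 1 else 0) * if R l j then 1 else 0) =
          if R i l then c i else 0 := fun l => by
        by_cases h' : R i l
        · have : Finset.univ.filter (R l) = Finset.univ.filter (R i) :=
            Finset.filter_congr fun m _ => ⟨ht _ _ _ h', ht _ _ _ (hs _ _ h')⟩
          simp [hc, h', hs _ _ h', ht _ _ _ (hs _ _ h') h, this]
        · simp [h', show ¬ R l i from fun g => h' (hs _ _ g)]
      have hne : ((Finset.univ.filter (R i)).card : ℝ) ≠ 0 := by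
        exact_mod_cast Finset.card_ne_zero.2 ⟨j, by simpa using h⟩
      simp only [e]
      rw [← Finset.sum_filter, Finset.sum_const, nsmul_eq_mul, hc, mul_inv_cancel₀ hne]
    · refine (Finset.sum_eq_zero fun l _ => ?_).symm
      by_cases h1 : R l i
      · simp [show ¬ R l j from fun g => h (ht _ _ _ (hs _ _ h1) g)]
      · simp [h1]
  have e2 : (∑ i, ∑ j, μ i * μ j * if R i j then 1 else 0) =
      ∑ l, c l * (∑ i, μ i * if R l i then 1 else 0) ^ 2 := by
    simp only [sq, Finset.sum_mul_sum]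
    rw [Finset.sum_congr rfl fun i _ => Finset.sum_congr rfl fun j _ => by
      rw [key i j, Finset.mul_sum]]
    simp only [Finset.mul_sum]
    rw [Finset.sum_congr rfl fun i _ => Finset.sum_comm, Finset.sum_comm]
    refine Finset.sum_congr rfl fun l _ => Finset.sum_congr rfl fun i _ =>
      Finset.sum_congr rfl fun j _ => by ring
  rw [e2]
  exact Finset.sum_nonneg fun l _ => mul_nonneg (inv_nonneg.2 (Nat.cast_nonneg _)) (sq_nonneg _)

theorem psd_ultra {k : ℕ} (m : Fin k → Fin k → ℝ) (h0 : ∀ i j, 0 ≤ m i j)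
    (hs : ∀ i j, m i j = m j i) (ht : ∀ i j l, min (m i j) (m j l) ≤ m i l) (μ : Fin k → ℝ) :
    0 ≤ ∑ i, ∑ j, μ i * μ j * m i j := by
  classical
  have hi : ∀ i j, Integrable ((Ioo 0 (m i j)).indicator fun _ : ℝ => (1 : ℝ)) := fun i j =>
    (integrable_indicator_iff measurableSet_Ioo).2 (integrableOn_const (by simp))
  have e : ∀ i j, m i j = ∫ r : ℝ, (Ioo 0 (m i j)).indicator (fun _ => (1 : ℝ)) r := fun i j => by
    rw [integral_indicator_const _ measurableSet_Ioo]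
    simp [h0]
  rw [Finset.sum_congr rfl fun i _ => Finset.sum_congr rfl fun j _ => by
    rw [e i j, ← integral_const_mul]]
  rw [Finset.sum_congr rfl fun i _ => (integral_finsetSum _ fun j _ => (hi i j).const_mul _).symm,
    ← integral_finsetSum _ fun i _ => integrable_finsetSum _ fun j _ => (hi i j).const_mul _]
  refine integral_nonneg fun r => ?_
  simp only [Pi.zero_apply, indicator]
  convert psd_per (fun i j => r ∈ Ioo 0 (m i j)) (fun i j h => hs i j ▸ h)
    (fun i j l h h' => ⟨h.1, (lt_min h.2 h'.2).trans_le (ht i j l)⟩) μ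

theorem psd_dmn {k N : ℕ} {x : ℕ → ℝ} (hx : ∀ i ≤ N, 0 ≤ x i) {a : Fin k → ℕ}
    (ha : ∀ j, a j ≤ N) (μ : Fin k → ℝ) : 0 ≤ ∑ i, ∑ j, μ i * μ j * dmn x (a i) (a j) := by
  refine psd_ultra _ (fun i j => le_dmn fun r hr => hx r (hr.2.trans (max_le (ha i) (ha j))))
    (fun i j => by rw [dmn, uIcc_comm, dmn]) (fun i j l => le_dmn fun r hr => ?_) μ
  rcases uIcc_subset_uIcc_union_uIcc (b := a j) hr with h | h
  · exact (min_le_left _ _).trans (dmn_le x h)
  · exact (min_le_right _ _).trans (dmn_le x h)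

theorem psd_mn {k : ℕ} {e : I → ℝ} (hc : Continuous e) (he : ∀ u, 0 ≤ e u) (s : Fin k → I)
    (μ : Fin k → ℝ) : 0 ≤ ∑ i, ∑ j, μ i * μ j * mn e (uIcc (s i) (s j)) := by
  refine psd_ultra _ (fun i j => le_mn nonempty_uIcc fun r _ => he r)
    (fun i j => by rw [uIcc_comm]) (fun i j l => le_mn nonempty_uIcc fun r hr => ?_) μ
  rcases uIcc_subset_uIcc_union_uIcc (b := s j) hr with h | h
  · exact (min_le_left _ _).trans (mn_le hc h)
  · exact (min_le_right _ _).trans (mn_le hc h)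

theorem norm_ch {k : ℕ} (μ v : Fin k → ℝ) : ‖ch μ v‖ = 1 := Complex.norm_exp_ofReal_mul_I _

theorem ch_sub {k : ℕ} (μ : Fin k → ℝ) {v w : Fin k → ℝ} {δ : ℝ} (h : ∀ j, |v j - w j| ≤ δ) :
    ‖ch μ v - ch μ w‖ ≤ (∑ j, |μ j|) * δ := by
  have e : ch μ v - ch μ w =
      ch μ w * (Complex.exp (Complex.I * ((∑ j, μ j * (v j - w j) : ℝ) : ℂ)) - 1) := by
    rw [mul_sub, mul_one, ch, ch, ← Complex.exp_add]
    congr 2
    simp only [mul_sub, Finset.sum_sub_distrib]
    push_cast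
    ring
  rw [e, norm_mul, norm_ch, one_mul]
  refine Real.norm_exp_I_mul_ofReal_sub_one_le.trans ?_
  rw [Real.norm_eq_abs, Finset.sum_mul]
  refine (Finset.abs_sum_le_sum_abs _ _).trans (Finset.sum_le_sum fun j _ => ?_)
  rw [abs_mul]
  exact mul_le_mul_of_nonneg_left (h j) (abs_nonneg _)

theorem exp_neg_sub {a b : ℝ} (ha : a ≤ 0) (hb : b ≤ 0) : |Real.exp a - Real.exp b| ≤ |a - b| := by
  have key : ∀ {a b : ℝ}, a ≤ 0 → Real.exp a - Real.exp b ≤ |a - b| := fun {a b} ha => by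
    have h1 := Real.add_one_le_exp (b - a)
    have h2 : Real.exp b = Real.exp a * Real.exp (b - a) := by rw [← Real.exp_add]; simp
    have h3 := Real.exp_pos a
    have h4 := Real.exp_le_one_iff.2 ha
    have h5 := le_abs_self (a - b)
    have h6 := abs_nonneg (a - b)
    nlinarith
  rw [abs_le]
  exact ⟨by have := key (b := a) hb; rw [abs_sub_comm] at this; linarith, key ha⟩

theorem gw_le_one {k : ℕ} {μ : Fin k → ℝ} {m : Fin k → Fin k → ℝ}
    (h : 0 ≤ ∑ i, ∑ j, μ i * μ j * m i j) : |gw μ m| ≤ 1 := by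
  rw [gw, abs_of_pos (Real.exp_pos _), Real.exp_le_one_iff]
  linarith

theorem gw_sub {k : ℕ} {μ : Fin k → ℝ} {m m' : Fin k → Fin k → ℝ}
    (h : 0 ≤ ∑ i, ∑ j, μ i * μ j * m i j) (h' : 0 ≤ ∑ i, ∑ j, μ i * μ j * m' i j) {δ : ℝ}
    (hδ : 0 ≤ δ) (hm : ∀ i j, |m i j - m' i j| ≤ δ) : |gw μ m - gw μ m'| ≤ (∑ j, |μ j|) ^ 2 * δ := by
  refine (exp_neg_sub (by linarith) (by linarith)).trans ?_
  have h1 : |∑ i, ∑ j, μ i * μ j * m i j - ∑ i, ∑ j, μ i * μ j * m' i j| ≤
      (∑ j, |μ j|) ^ 2 * δ := by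
    rw [← Finset.sum_sub_distrib, sq, Finset.sum_mul_sum, Finset.sum_mul]
    refine (Finset.abs_sum_le_sum_abs _ _).trans (Finset.sum_le_sum fun i _ => ?_)
    rw [← Finset.sum_sub_distrib, Finset.sum_mul]
    refine (Finset.abs_sum_le_sum_abs _ _).trans (Finset.sum_le_sum fun j _ => ?_)
    rw [← mul_sub, abs_mul, abs_mul]
    exact mul_le_mul_of_nonneg_left (hm i j) (by positivity)
  rw [← mul_sub, abs_mul, abs_neg, abs_of_pos (by norm_num : (0 : ℝ) < 1 / 2)]
  have : 0 ≤ (∑ j, |μ j|) ^ 2 * δ := by positivity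
  linarith

/-- uniform closeness of the paths gives closeness of the minima -/
theorem dmn_close {N : ℕ} (hN : 0 < N) {x : ℕ → ℝ} {e : I → ℝ} (hc : Continuous e) {ε θ : ℝ}
    (hx : ∀ i ≤ N, ∀ u : I, |(i : ℝ) - N * u| ≤ 1 → dist (x i) (e u) ≤ ε)
    (he : ∀ s u, dist s u < θ → dist (e s) (e u) ≤ ε) {a b : ℕ} (ha : a ≤ N) (hb : b ≤ N)
    {s s' : I} (hs : |(a : ℝ) - N * s| ≤ 1) (hs' : |(b : ℝ) - N * s'| ≤ 1) (hθ : 1 < θ * N) :
    |dmn x a b - mn e (uIcc s s')| ≤ 2 * ε := by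
  have hN' : (0 : ℝ) < N := by exact_mod_cast hN
  have hε : 0 ≤ ε := dist_nonneg.trans (hx a ha s hs)
  rw [abs_le'] at hs hs'
  rw [abs_le']
  constructor
  · rw [sub_le_comm]
    refine le_mn nonempty_uIcc fun u hu => ?_
    have u0 : 0 ≤ (N : ℝ) * u := mul_nonneg hN'.le u.2.1
    have f1 := Nat.floor_le u0
    have f2 := Nat.lt_floor_add_one ((N : ℝ) * u)
    have k1 : (N : ℝ) * s ≤ N * u ∨ (N : ℝ) * s' ≤ N * u :=
      (min_le_iff.1 hu.1).imp (fun h => mul_le_mul_of_nonneg_left h hN'.le)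
        fun h => mul_le_mul_of_nonneg_left h hN'.le
    have k2 : (N : ℝ) * u ≤ N * s ∨ (N : ℝ) * u ≤ N * s' :=
      (le_max_iff.1 hu.2).imp (fun h => mul_le_mul_of_nonneg_left h hN'.le)
        fun h => mul_le_mul_of_nonneg_left h hN'.le
    set i := max (min a b) (min ⌊(N : ℝ) * u⌋₊ (max a b)) with hi
    have hm : i ∈ uIcc a b := ⟨le_max_left _ _, max_le min_le_max (min_le_right _ _)⟩
    have h1 : |(i : ℝ) - N * u| ≤ 1 := by
      rw [hi, abs_le']
      push_cast
      constructor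
      · rw [sub_le_iff_le_add, max_le_iff, min_le_iff, min_le_iff]
        exact ⟨k1.imp (fun h => by linarith [hs.1]) fun h => by linarith [hs'.1],
          Or.inl (by linarith)⟩
      · rw [neg_sub, sub_le_comm, le_max_iff, le_min_iff, le_min_iff, le_max_iff]
        exact Or.inr ⟨by linarith, k2.imp (fun h => by linarith [hs.2]) fun h => by
          linarith [hs'.2]⟩
    have h2 := hx i (hm.2.trans (max_le ha hb)) u h1
    rw [Real.dist_eq, abs_le'] at h2
    linarith [dmn_le x hm, h2.1]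
  · obtain ⟨i, hi, e1⟩ := exists_dmn x a b
    have hiN : i ≤ N := hi.2.trans (max_le ha hb)
    have hiN' : (i : ℝ) ≤ N := by exact_mod_cast hiN
    set u : I := ⟨i / N, by positivity, (div_le_one hN').2 hiN'⟩ with hu
    have eu : (N : ℝ) * u = i := mul_div_cancel₀ _ hN'.ne'
    have h1 := hx i hiN u (by rw [eu]; simp)
    have k1 : (a : ℝ) ≤ i ∨ (b : ℝ) ≤ i := by exact_mod_cast min_le_iff.1 hi.1
    have k2 : (i : ℝ) ≤ a ∨ (i : ℝ) ≤ b := by exact_mod_cast le_max_iff.1 hi.2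
    obtain ⟨v, hv, hd⟩ : ∃ v ∈ uIcc s s', |(N : ℝ) * u - N * v| ≤ 1 := by
      rcases le_total u (min s s') with h | h
      · have g1 := mul_le_mul_of_nonneg_left (show (u : ℝ) ≤ s from h.trans (min_le_left _ _)) hN'.le
        have g2 := mul_le_mul_of_nonneg_left (show (u : ℝ) ≤ s' from h.trans (min_le_right _ _))
          hN'.le
        rcases k1 with k | k
        · exact ⟨s, left_mem_uIcc, abs_le.2 ⟨by linarith [hs.2], by linarith⟩⟩
        · exact ⟨s', right_mem_uIcc, abs_le.2 ⟨by linarith [hs'.2], by linarith⟩⟩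
      rcases le_total u (max s s') with h' | h'
      · exact ⟨u, ⟨h, h'⟩, by simp⟩
      · have g1 := mul_le_mul_of_nonneg_left (show (s : ℝ) ≤ u from (le_max_left _ _).trans h') hN'.le
        have g2 := mul_le_mul_of_nonneg_left (show (s' : ℝ) ≤ u from (le_max_right _ _).trans h')
          hN'.le
        rcases k2 with k | k
        · exact ⟨s, left_mem_uIcc, abs_le.2 ⟨by linarith, by linarith [hs.1]⟩⟩
        · exact ⟨s', right_mem_uIcc, abs_le.2 ⟨by linarith, by linarith [hs'.1]⟩⟩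
    have h2 := he u v (by
      rw [← mul_sub, abs_mul, abs_of_pos hN'] at hd
      change |(u : ℝ) - v| < θ
      by_contra hc'
      nlinarith [not_lt.1 hc'])
    rw [Real.dist_eq, abs_le'] at h1 h2
    linarith [mn_le hc hv, h1.2, h2.2]

/-- couplings give convergence of bounded expectations -/
theorem tendsto_of_coupling {Y : Type} [MeasurableSpace Y] (S : Measure Y)
    [IsProbabilityMeasure S] {T : ℕ → Type} [∀ n, MeasurableSpace (T n)]
    [∀ n, DiscreteMeasurableSpace (T n)] (lam : ∀ n, Measure (T n)) (Ψ : ∀ n, T n → ℂ)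
    {Φ : Y → ℂ} (hΦ : Measurable Φ) (h1 : ∀ᶠ n in atTop, ∀ t, ‖Ψ n t‖ ≤ 1)
    (h2 : ∀ᵐ y ∂S, ‖Φ y‖ ≤ 1)
    (h : ∀ ε > 0, ∀ᶠ n in atTop, ∃ Θ : Measure (T n × Y), Θ.fst = lam n ∧ Θ.snd = S ∧
      Θ {p | ¬ ‖Ψ n p.1 - Φ p.2‖ ≤ ε} ≤ ENNReal.ofReal ε) :
    Tendsto (fun n => ∫ t, Ψ n t ∂lam n) atTop (𝓝 (∫ y, Φ y ∂S)) := by
  refine Metric.tendsto_nhds.2 fun ε hε => ?_
  have h4 : 0 < ε / 4 := by positivity
  filter_upwards [h1, h _ h4] with n b1 ⟨Θ, g1, g2, g3⟩
  have : IsProbabilityMeasure Θ := ⟨by rw [← Measure.snd_univ, g2]; exact measure_univ⟩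
  have m1 : Measurable fun p : T n × Y => Ψ n p.1 := (Measurable.of_discrete).comp measurable_fst
  have m2 : Measurable fun p : T n × Y => Φ p.2 := hΦ.comp measurable_snd
  have a2 : ∀ᵐ p ∂Θ, ‖Φ p.2‖ ≤ 1 := ae_of_ae_map measurable_snd.aemeasurable (by rwa [← g2] at h2)
  have i1 := Integrable.of_bound (μ := Θ) m1.aestronglyMeasurable 1 (.of_forall fun p => b1 _)
  have i2 := Integrable.of_bound (μ := Θ) m2.aestronglyMeasurable 1 a2
  have hB : MeasurableSet {p : T n × Y | ¬ ‖Ψ n p.1 - Φ p.2‖ ≤ ε / 4} :=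
    (measurableSet_le (m1.sub m2).norm measurable_const).compl
  rw [← g1, ← g2, Measure.fst, Measure.snd,
    integral_map measurable_fst.aemeasurable (Measurable.of_discrete).aestronglyMeasurable,
    integral_map measurable_snd.aemeasurable hΦ.aestronglyMeasurable, dist_eq_norm,
    ← integral_sub i1 i2]
  have i3 : Integrable ({p : T n × Y | ¬ ‖Ψ n p.1 - Φ p.2‖ ≤ ε / 4}.indicator fun _ => (2 : ℝ)) Θ :=
    (integrable_const _).indicator hB
  refine lt_of_le_of_lt (norm_integral_le_of_norm_le ((integrable_const (ε / 4)).add i3) ?_) ?_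
  · filter_upwards [a2] with p hp
    by_cases hb : ‖Ψ n p.1 - Φ p.2‖ ≤ ε / 4
    · simp [hb]
    · have := norm_sub_le (Ψ n p.1) (Φ p.2)
      simp only [Pi.add_apply, indicator, mem_ofPred_eq, hb, not_false_eq_true, if_true]
      linarith [b1 p.1]
  · have e := integral_add (integrable_const (ε / 4)) i3
    have g4 : Θ.real {p : T n × Y | ¬ ‖Ψ n p.1 - Φ p.2‖ ≤ ε / 4} ≤ ε / 4 :=
      ENNReal.toReal_le_of_le_ofReal h4.le g3
    simp only [Pi.add_apply]
    rw [e, integral_indicator_const _ hB, integral_const, probReal_univ, smul_eq_mul, smul_eq_mul]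
    linarith

end Pool.Agent.QL
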