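import Pool.Agent.P.MP_7a6434d8_pr.QL.BM.Stmts
import Pool.Agent.P.MP_7a6434d8_pr.QL.BM.PathCpl
import Pool.Agent.P.MP_7a6434d8_pr.QL.BM.SnakeA
import Pool.Agent.P.MP_7a6434d8_pr.QL.BM.LabChar

/-! Convergence of the discrete snake to the Brownian snake. -/

open MeasureTheory ProbabilityTheory Set Filter Topology Metric
open scoped ENNReal NNReal unitInterval BoundedContinuousFunction

namespace Pool.Agent.QL.BM

theorem sn_dyck (n : ℕ) : ∃ w : List Bool,
    w.length = 2 * n ∧ (∀ j ≤ 2 * n, 0 ≤ Exc.ht w j) ∧ Exc.ht w (2 * n) = 0 := by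
  induction n with
  | zero => exact ⟨[], rfl, fun j _ => by simp [Exc.ht], by simp⟩
  | succ n ih =>
    obtain ⟨w, h1, h2, h3⟩ := ih
    have e1 : Exc.ht (w ++ [true]) (2 * n + 1) = 1 := by
      rw [← h1, Exc.ht_concat, h1, h3]
      simp [Exc.sg]
    have l1 : (w ++ [true]).length = 2 * n + 1 := by simp [h1]
    have e2 : Exc.ht (w ++ [true] ++ [false]) (2 * (n + 1)) = 0 := by
      rw [show 2 * (n + 1) = (w ++ [true]).length + 1 by omega, Exc.ht_concat, l1, e1]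
      simp [Exc.sg]
    refine ⟨w ++ [true] ++ [false], by simp [h1]; omega, fun j hj => ?_, e2⟩
    rcases (show j ≤ 2 * n ∨ j = 2 * n + 1 ∨ j = 2 * (n + 1) by omega) with h | rfl | rfl
    · rw [Exc.ht_append_le (by omega), Exc.ht_append_le (by omega)]
      exact h2 j h
    · rw [Exc.ht_append_le l1.ge, e1]
      exact zero_le_one
    · exact e2.ge

theorem sn_prob {n : ℕ} (hn : 1 ≤ n) : IsProbabilityMeasure (lamT n) := by
  obtain ⟨w, h1, h2, h3⟩ := sn_dyck n
  have : Nonempty (TT n) := ⟨(true, ⟨w, Finset.mem_filter.2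
    ⟨Finset.mem_filter.2 ⟨Exc.mem_Ws.2 h1, h2, h3⟩, hn⟩⟩, fun _ => 0)⟩
  exact instIsProbabilityMeasure_uniformOn_univ

theorem sn_nonneg {n : ℕ} (t : TT n) : ∀ i ≤ 2 * n, 0 ≤ t.C i :=
  (Finset.mem_filter.1 (Finset.mem_filter.1 t.2.1.2).1).2.1

theorem sn_step {n : ℕ} (t : TT n) : ∀ i < 2 * n, t.C (i + 1) ≤ t.C i + 1 := fun i hi => by
  have hl := Exc.mem_Ws.1 (Finset.mem_filter.1 (Finset.mem_filter.1 t.2.1.2).1).1
  have h := hi.trans_eq hl.symm
  rw [TT.C, Exc.ht_succ h]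
  have := le_of_abs_le (Exc.abs_sg (t.2.1.1[i]'h)).le
  omega

theorem sn_lab (n : ℕ) {k : ℕ} (a : Fin k → ℕ) (b : Fin k → ℝ) (G : (ℕ → ℤ) → ℂ) :
    ∫ t, G t.C * ch b (fun j => t.l (a j)) ∂lamT n =
      ∫ t, G t.C * (labPhi (2 * n) t.C a b : ℂ) ∂lamT n := by
  have e : ∀ (C : ℕ → ℤ) (d : Fin (2 * n) → Fin 3), ch b (fun j => lbl C d (a j)) =
      Complex.exp (Complex.I * ∑ j, (b j : ℂ) * (labOf C d (a j) : ℂ)) := fun C d => by
    rw [ch, mul_comm]
    push_cast
    rfl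
  rw [lamT, lab_integral_unif, lab_integral_unif]
  congr 1
  refine (Fintype.sum_prod_type _).trans (Eq.trans ?_ (Fintype.sum_prod_type _).symm)
  refine Finset.sum_congr rfl fun _ _ => ?_
  rw [Fintype.sum_prod_type, Fintype.sum_prod_type]
  refine Finset.sum_congr rfl fun w _ => ?_
  simp only [TT.l, TT.C, e, ← Finset.mul_sum]
  rw [lab_sum]
  simp

theorem sn_Phi {k : ℕ} (N : ℕ) (C : ℕ → ℤ) (a : Fin k → ℕ) (b : Fin k → ℝ) :
    |labPhi N C a b| ≤ 1 := by
  rw [labPhi, Finset.abs_prod]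
  refine Finset.prod_le_one (fun _ _ => abs_nonneg _) fun i _ => abs_le.2 ⟨?_, ?_⟩
  · linarith [Real.neg_one_le_cos (∑ j, @ite _ (opn C i (a j)) (Classical.propDecidable _) (b j) 0)]
  · linarith [Real.cos_le_one (∑ j, @ite _ (opn C i (a j)) (Classical.propDecidable _) (b j) 0)]

theorem sn_levy {k : ℕ} {Y : Type} [MeasurableSpace Y] (S : Measure Y) [IsProbabilityMeasure S]
    {T : ℕ → Type} [∀ n, MeasurableSpace (T n)] [∀ n, DiscreteMeasurableSpace (T n)]
    (lam : ∀ n, Measure (T n)) (hlam : ∀ᶠ n in atTop, IsProbabilityMeasure (lam n))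
    (x z : ∀ n, T n → Fin k → ℝ) {e Z : Y → Fin k → ℝ} (he : ∀ j, Measurable fun y => e y j)
    (hZ : ∀ j, Measurable fun y => Z y j)
    (h : ∀ μ ν, Tendsto (fun n => ∫ t, ch μ (x n t) * ch ν (z n t) ∂lam n) atTop
      (𝓝 (∫ y, ch μ (e y) * ch ν (Z y) ∂S))) (F : (Fin k → ℝ × ℝ) →ᵇ ℝ) :
    Tendsto (fun n => ∫ t, F (fun j => (x n t j, z n t j)) ∂lam n) atTop
      (𝓝 (∫ y, F (fun j => (e y j, Z y j)) ∂S)) := by
  classical
  set φ : (Fin k → ℝ) → (Fin k → ℝ) → EuclideanSpace ℝ (Fin k ⊕ Fin k) :=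
    fun v w => WithLp.toLp 2 (Sum.elim v w) with hφ
  have hm : Measurable fun y => φ (e y) (Z y) :=
    (WithLp.measurable_toLp 2 _).comp (measurable_pi_lambda _ fun j => by
      cases j
      exacts [he _, hZ _])
  have hc : ∀ {A : Type} [MeasurableSpace A] (m : Measure A) (v w : A → Fin k → ℝ),
      (Measurable fun y => φ (v y) (w y)) → ∀ r, charFun (m.map fun y => φ (v y) (w y)) r =
        ∫ y, ch (fun j => r (.inl j)) (v y) * ch (fun j => r (.inr j)) (w y) ∂m := by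
    intro A _ m v w hm r
    rw [charFun_apply, integral_map hm.aemeasurable (Continuous.aestronglyMeasurable (by fun_prop))]
    refine integral_congr_ae (.of_forall fun y => ?_)
    simp only [ch, ← Complex.exp_add, ← add_mul, ← Complex.ofReal_add, hφ, PiLp.inner_apply,
      Fintype.sum_sum_type]
    simp
  set P₀ : ProbabilityMeasure (EuclideanSpace ℝ (Fin k ⊕ Fin k)) :=
    ⟨S.map fun y => φ (e y) (Z y), Measure.isProbabilityMeasure_map hm.aemeasurable⟩ with hP₀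
  set P : ℕ → ProbabilityMeasure (EuclideanSpace ℝ (Fin k ⊕ Fin k)) := fun n =>
    if h : IsProbabilityMeasure (lam n) then ⟨(lam n).map fun t => φ (x n t) (z n t),
      Measure.isProbabilityMeasure_map Measurable.of_discrete.aemeasurable⟩ else P₀ with hP
  have hPn : ∀ᶠ n in atTop, (P n : Measure _) = (lam n).map fun t => φ (x n t) (z n t) :=
    hlam.mono fun n hn => by simp [hP, hn]
  have ht : Tendsto P atTop (𝓝 P₀) := ProbabilityMeasure.tendsto_of_tendsto_charFun fun r => by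
    rw [show (P₀ : Measure _) = S.map fun y => φ (e y) (Z y) from rfl, hc S e Z hm]
    refine (h _ _).congr' (hPn.mono fun n hn => ?_)
    simp only [hn, hc _ _ _ Measurable.of_discrete]
  set G : EuclideanSpace ℝ (Fin k ⊕ Fin k) →ᵇ ℝ :=
    F.compContinuous ⟨fun v j => (v (.inl j), v (.inr j)), by fun_prop⟩ with hG
  have h2 := ProbabilityMeasure.tendsto_iff_forall_integral_tendsto.1 ht G
  rw [show (P₀ : Measure _) = S.map fun y => φ (e y) (Z y) from rfl,
    integral_map hm.aemeasurable G.continuous.aestronglyMeasurable] at h2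
  refine h2.congr' (hPn.mono fun n hn => ?_)
  simp only [hn]
  rw [integral_map Measurable.of_discrete.aemeasurable G.continuous.aestronglyMeasurable]
  rfl

theorem sn_pos {S : Measure Snake} (hS : IsSnake S) : ∀ᵐ y ∂S, ∀ u, 0 ≤ y.1 u := by
  have h1 : ∀ s : I, 0 < s ∧ s < 1 → ∀ᵐ y ∂S, 0 < y.1 s := fun s hs => by
    have hm : Measurable fun (y : Snake) (_ : Fin 1) => y.1 s :=
      measurable_pi_lambda _ fun _ => Snake.measurable_e s
    have hA : MeasurableSet {x : Fin 1 → ℝ | ¬ 0 < x 0} :=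
      (measurableSet_lt measurable_const (measurable_pi_apply 0)).compl
    have h : S.map (fun (y : Snake) (_ : Fin 1) => y.1 s) {x | ¬ 0 < x 0} =
        volume.withDensity (excDens 0 fun _ => s) {x | ¬ 0 < x 0} :=
      congrArg (fun m : Measure (Fin 1 → ℝ) => m {x | ¬ 0 < x 0})
        (hS.exc 0 (fun _ => s) (Subsingleton.strictMono (α := Fin 1) _) fun _ => hs)
    rw [Measure.map_apply hm hA, withDensity_apply _ hA,
      setLIntegral_congr_fun hA (f := excDens 0 fun _ => s) (g := fun _ => 0)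
        fun x hx => if_neg fun h => hx (h 0),
      lintegral_zero] at h
    exact h
  choose k s _ s2 s3 using fun m : ℕ => pathCpl_grid (θ := 1 / ((m : ℝ) + 1)) (by positivity)
  filter_upwards [ae_all_iff.2 fun m => ae_all_iff.2 fun j => h1 _ (s2 m j)] with y hy u
  by_contra hu
  obtain ⟨δ, hδ, h⟩ := Metric.eventually_nhds_iff.1
    (y.1.continuous.continuousAt.eventually_lt continuousAt_const (not_le.1 hu))
  obtain ⟨m, hm⟩ := exists_nat_one_div_lt hδ
  obtain ⟨j, hj⟩ := s3 m u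
  exact (h (hj.trans hm)).not_gt (hy m j)

/-- the rescaled contour -/
noncomputable def snx (n : ℕ) (t : TT n) (i : ℕ) : ℝ := (√(2 * n))⁻¹ * t.C i

/-- the rescaled labels -/
noncomputable def snz (n : ℕ) (t : TT n) (i : ℕ) : ℝ := cn n * t.l i

theorem sn_probs : ∀ᶠ n in atTop, IsProbabilityMeasure (lamT n) :=
  (eventually_ge_atTop 1).mono fun _ => sn_prob

theorem sn_two : Tendsto (fun n : ℕ => 2 * n) atTop atTop :=
  tendsto_id.const_mul_atTop' two_pos

theorem sn_time (s : I) :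
    Tendsto (fun n : ℕ => (stepAt n s : ℝ) / (2 * n : ℕ)) atTop (𝓝 s) := by
  have := (tendsto_nat_floor_mul_div_atTop s.2.1).comp (tendsto_natCast_atTop_atTop.comp sn_two)
  refine this.congr fun n => ?_
  simp [stepAt, mul_comm]

theorem sn_time' (n : ℕ) (s : I) : |(stepAt n s : ℝ) - (2 * n : ℕ) * s| ≤ 1 := by
  have h1 := Nat.floor_le (show 0 ≤ 2 * (n : ℝ) * s from mul_nonneg (by positivity) s.2.1)
  have h2 := Nat.lt_floor_add_one (2 * (n : ℝ) * s)
  push_cast
  rw [stepAt, abs_le]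
  constructor <;> linarith

theorem sn_md (hm : ModStmt) : ∀ ε > 0, ∃ θ > 0, ∀ᶠ n in atTop,
    lamT n {t | ¬ ∀ i ≤ 2 * n, ∀ j ≤ 2 * n, |(i : ℝ) - j| ≤ θ * (2 * n : ℕ) →
      dist (snx n t i, snz n t i) (snx n t j, snz n t j) ≤ ε} ≤ ENNReal.ofReal ε := fun ε hε => by
  obtain ⟨θ, hθ, h⟩ := hm ε hε
  refine ⟨θ, hθ, ?_⟩
  filter_upwards [h, eventually_ge_atTop 1] with n hn h1
  refine (measure_mono fun t ht => ?_).trans hn
  by_contra hc
  refine ht fun i hi j hj hij => ?_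
  have hs : 0 < √(2 * (n : ℝ)) := by positivity
  have hcn : 0 ≤ cn n := Real.rpow_nonneg (by positivity) _
  have h2 : ¬ (_ ∨ _) := fun h => hc ⟨i, hi, j, hj, by exact_mod_cast hij, h⟩
  rw [not_or, not_lt, not_lt] at h2
  rw [Prod.dist_eq, max_le_iff, Real.dist_eq, Real.dist_eq, snx, snx, snz, snz, ← mul_sub,
    ← mul_sub, abs_mul, abs_mul, abs_of_nonneg hcn, abs_of_pos (inv_pos.2 hs),
    inv_mul_le_iff₀' hs]
  exact h2

theorem sn_exc (he : ExcStmt) (hm : ModStmt) {S : Measure Snake} (hS : IsSnake S) {ε : ℝ}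
    (hε : 0 < ε) : ∀ᶠ n in atTop, ∃ Θ : Measure (TT n × Snake), Θ.fst = lamT n ∧ Θ.snd = S ∧
      Θ {p | ¬ ∀ i ≤ 2 * n, ∀ u : I, |(i : ℝ) - (2 * n : ℕ) * u| ≤ 1 →
        dist (snx n p.1 i) (p.2.1 u) ≤ ε} ≤ ENNReal.ofReal ε := by
  have := hS.prob
  refine path_coupling S (fun y => y.1) Snake.measurable_e lamT sn_probs _ sn_two snx
    (fun k s s1 s2 => ⟨fun n j => stepAt n (s j), .of_forall fun n j => stepAt_le _ _,
      fun j => sn_time _, fun F => ?_⟩) (fun ε hε => ?_) hε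
  · cases k with
    | zero =>
      simp only [Subsingleton.elim _ (default : Fin 0 → ℝ), integral_const, probReal_univ]
      refine tendsto_const_nhds.congr' (sn_probs.mono fun n hn => ?_)
      simp only [probReal_univ]
    | succ k => exact he S hS k s s1 s2 F
  · obtain ⟨θ, hθ, h⟩ := sn_md hm ε hε
    refine ⟨θ, hθ, h.mono fun n hn => (measure_mono fun t ht hc => ?_).trans hn⟩
    exact ht fun i hi j hj hij => (le_max_left _ _).trans (hc i hi j hj hij)

theorem sn_dmn {n : ℕ} (t : TT n) (i j : ℕ) :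
    dmn (snx n t) i j = (√(2 * n))⁻¹ * mnC t.C i j := by
  have hs : 0 ≤ (√(2 * (n : ℝ)))⁻¹ := by positivity
  refine le_antisymm ?_ (le_dmn fun m hm => ?_)
  · obtain ⟨m, h1, h2, h3⟩ := mnC_mem t.C i j
    rw [h3]
    exact dmn_le _ ⟨h1, h2⟩
  · exact mul_le_mul_of_nonneg_left (by exact_mod_cast mnC_le t.C hm.1 hm.2) hs

theorem sn_cn_sq {n : ℕ} (hn : 1 ≤ n) : cn n ^ 2 = 3 / 2 * (√(2 * n))⁻¹ := by
  have h0 : (0 : ℝ) < n := by exact_mod_cast hn
  have h1 : (cn n ^ 2) ^ 2 = 9 / 8 / n := by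
    rw [← pow_mul, cn, ← Real.rpow_natCast, ← Real.rpow_mul (by positivity)]
    norm_num
  refine (pow_left_inj₀ (sq_nonneg _) (by positivity) two_ne_zero).1 ?_
  rw [h1, mul_pow, inv_pow, Real.sq_sqrt (by positivity)]
  field_simp
  norm_num

theorem sn_cn : Tendsto (fun n => cn n ^ 2) atTop (𝓝 0) := by
  have h := (tendsto_inv_atTop_zero.comp (Real.tendsto_sqrt_atTop.comp
    (tendsto_natCast_atTop_atTop.comp sn_two))).const_mul (3 / 2 : ℝ)
  rw [mul_zero] at h
  refine h.congr' ((eventually_ge_atTop 1).mono fun n hn => ?_)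
  simp [sn_cn_sq hn]

theorem sn_gw {n k : ℕ} (hn : 1 ≤ n) (t : TT n) {a : Fin k → ℕ} (ha : ∀ j, a j ≤ 2 * n)
    {ν : Fin k → ℝ} (h : (∑ j, |ν j|) ^ 2 * cn n ^ 2 ≤ 1 / 12) :
    |labPhi (2 * n) t.C a (fun j => ν j * cn n) - gw ν fun i j => dmn (snx n t) (a i) (a j)| ≤
      12 * ((∑ j, |ν j|) ^ 2 * cn n ^ 2) := by
  have hcn : 0 ≤ cn n := Real.rpow_nonneg (by positivity) _
  have e : (∑ j, |ν j * cn n|) ^ 2 = (∑ j, |ν j|) ^ 2 * cn n ^ 2 := by
    simp only [abs_mul, abs_of_nonneg hcn, ← Finset.sum_mul, mul_pow]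
  have h1 := labPhi_approx (C := t.C) (Exc.ht_zero _) (sn_step t) (sn_nonneg t) ha (e ▸ h)
  rw [e] at h1
  refine le_of_eq_of_le ?_ h1
  rw [gw]
  congr 3
  simp only [sn_dmn]
  rw [neg_div, neg_mul, neg_inj]
  simp only [Finset.mul_sum, Finset.sum_div]
  refine Finset.sum_congr rfl fun i _ => Finset.sum_congr rfl fun j _ => ?_
  rw [mul_mul_mul_comm (ν i) (cn n), ← sq, sn_cn_sq hn]
  ring

theorem sn_char (he : ExcStmt) (hm : ModStmt) {S : Measure Snake} (hS : IsSnake S) {k : ℕ}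
    (s : Fin k → I) (μ ν : Fin k → ℝ) :
    Tendsto (fun n => ∫ t, ch μ (fun j => snx n t (stepAt n (s j))) *
      ch ν (fun j => snz n t (stepAt n (s j))) ∂lamT n) atTop
      (𝓝 (∫ y, ch μ (fun j => y.1 (s j)) * ch ν (fun j => y.2 (s j)) ∂S)) := by
  have := hS.prob
  have e1 : ∫ y, ch μ (fun j => y.1 (s j)) * ch ν (fun j => y.2 (s j)) ∂S = ∫ y,
      ch μ (fun j => y.1 (s j)) * (gw ν fun i j => mn y.1 (uIcc (s i) (s j)) : ℝ) ∂S := by
    have h := hS.lab k s ν (.ofNormedAddCommGroup (fun f => ch μ fun j => f (s j))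
      (by unfold ch; fun_prop) 1 fun f => (norm_ch _ _).le)
    convert h using 3 with y y
    · rw [ch, ch, mul_comm Complex.I]
      rfl
    · rw [gw, neg_mul, neg_div, one_div, ← div_eq_inv_mul]
      rfl
  have e2 : ∀ n, ∫ t, ch μ (fun j => snx n t (stepAt n (s j))) *
      ch ν (fun j => snz n t (stepAt n (s j))) ∂lamT n =
      ∫ t, ch μ (fun j => snx n t (stepAt n (s j))) *
        (labPhi (2 * n) t.C (fun j => stepAt n (s j)) (fun j => ν j * cn n) : ℝ) ∂lamT n := fun n => by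
    refine Eq.trans ?_ (sn_lab n _ _ fun C => ch μ fun j => (√(2 * n))⁻¹ * C (stepAt n (s j)))
    simp only [ch, snx, snz, mul_assoc]
  have hp := sn_pos hS
  have hb : ∀ {u : ℂ} {v : ℝ}, ‖u‖ = 1 → |v| ≤ 1 → ‖u * v‖ ≤ 1 := fun h1 h2 => by
    rwa [norm_mul, h1, one_mul, Complex.norm_real]
  simp only [e1, e2]
  refine tendsto_of_coupling S lamT _ ?_ (.of_forall fun n t => hb (norm_ch _ _) (sn_Phi ..))
    (hp.mono fun y hy => hb (norm_ch _ _) (gw_le_one (psd_mn y.1.continuous hy s ν)))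
    fun ε hε => ?_
  · have m1 := Snake.measurable_e
    have m2 := measurable_mn (Z := fun y : Snake => y.1) m1
    unfold ch gw
    fun_prop
  set A := ∑ j, |μ j| with hA
  set B := (∑ j, |ν j|) ^ 2 with hB
  have A0 : 0 ≤ A := Finset.sum_nonneg fun _ _ => abs_nonneg _
  have B0 : 0 ≤ B := sq_nonneg _
  set δ := ε / 2 / (A + 2 * B + 1) with hδ
  have δ0 : 0 < δ := by positivity
  have δ1 : δ * (A + 2 * B + 1) = ε / 2 := div_mul_cancel₀ _ (by positivity)
  obtain ⟨θ, hθ, m2⟩ := pathCpl_mod S (fun y => y.1) Snake.measurable_e δ0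
  have t0 := sn_cn.const_mul B
  rw [mul_zero] at t0
  have t2 : ∀ᶠ n : ℕ in atTop, 1 < θ * (2 * n : ℕ) :=
    ((tendsto_natCast_atTop_atTop.comp sn_two).const_mul_atTop hθ).eventually_gt_atTop 1
  filter_upwards [sn_exc he hm hS δ0, t0.eventually (ge_mem_nhds (lt_min (show (0 : ℝ) < 1 / 12 by
    norm_num) (show 0 < ε / 24 by positivity))), t2, eventually_ge_atTop 1]
    with n ⟨Θ, g1, g2, g3⟩ b1 b2 b3
  refine ⟨Θ, g1, g2, ?_⟩
  set M := {y : Snake | ¬ ∀ s u, dist s u < θ → dist (y.1 s) (y.1 u) ≤ δ}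
  have c1 : Θ (Prod.snd ⁻¹' M) ≤ ENNReal.ofReal δ :=
    (Measure.le_map_apply measurable_snd.aemeasurable M).trans (by rwa [← g2] at m2)
  have a2 : ∀ᵐ p ∂Θ, ∀ u, 0 ≤ p.2.1 u :=
    ae_of_ae_map measurable_snd.aemeasurable (by rwa [← g2] at hp)
  refine (measure_mono_ae ?_).trans (((measure_union_le _ _).trans (add_le_add g3 c1)).trans ?_)
  · filter_upwards [a2] with p hp hc
    by_contra hn
    obtain ⟨n1, n2⟩ := not_or.1 hn
    replace n1 := not_not.1 n1
    replace n2 := not_not.1 n2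
    have ha : ∀ j, stepAt n (s j) ≤ 2 * n := fun j => stepAt_le _ _
    have d1 := ch_sub μ fun j => n1 _ (ha j) (s j) (sn_time' _ _)
    have d2 := sn_gw b3 p.1 ha (b1.trans (min_le_left _ _))
    have d3 := gw_sub (psd_dmn (x := snx n p.1) (fun i hi => mul_nonneg (by positivity)
      (by exact_mod_cast sn_nonneg p.1 i hi)) ha ν) (psd_mn p.2.1.continuous hp s ν)
      (by positivity) fun i j => dmn_close (by omega) p.2.1.continuous n1 n2 (ha i) (ha j)
        (sn_time' _ _) (sn_time' _ _) b2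
    have d4 := sn_Phi (2 * n) p.1.C (fun j => stepAt n (s j)) fun j => ν j * cn n
    have d5 := (abs_sub_le _ _ _).trans (add_le_add d2 d3)
    refine hc ?_
    have key : ∀ {u u' : ℂ} {v v' : ℝ}, ‖u'‖ = 1 → |v| ≤ 1 →
        ‖u * v - u' * v'‖ ≤ ‖u - u'‖ + |v - v'| := fun {u u' v v'} h1 h2 => by
      rw [show u * v - u' * v' = (u - u') * v + u' * (v - v' : ℝ) by push_cast; ring]
      refine (norm_add_le _ _).trans ?_
      rw [norm_mul, norm_mul, h1, one_mul, Complex.norm_real, Complex.norm_real]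
      exact add_le_add (mul_le_of_le_one_right (norm_nonneg _) h2) le_rfl
    refine (key (norm_ch _ _) d4).trans ((add_le_add d1 d5).trans ?_)
    have := b1.trans (min_le_right _ _)
    rw [← hA, ← hB]
    nlinarith
  · rw [← ENNReal.ofReal_add δ0.le δ0.le]
    refine ENNReal.ofReal_le_ofReal ?_
    nlinarith [mul_nonneg δ0.le A0, mul_nonneg δ0.le B0]

theorem snake (he : ExcStmt) (hm : ModStmt) : SnakeStmt := fun S hS η hη => by
  have := hS.prob
  have h := path_coupling S (fun y => y.1.prodMk y.2)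
    (fun s => (Snake.measurable_e s).prodMk (Snake.measurable_Z s)) lamT sn_probs _ sn_two
    (fun n t i => (snx n t i, snz n t i))
    (fun k s _ _ => ⟨fun n j => stepAt n (s j), .of_forall fun n j => stepAt_le _ _,
      fun j => sn_time _, sn_levy S lamT sn_probs _ _ (fun j => Snake.measurable_e _)
        (fun j => Snake.measurable_Z _) (sn_char he hm hS s)⟩) (sn_md hm) hη
  filter_upwards [h, eventually_ge_atTop 1] with n ⟨Θ, g1, g2, g3⟩ hn
  refine ⟨Θ, g1, g2, le_trans (measure_mono ?_) g3⟩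
  intro p hp hc
  refine hp fun i hi => ?_
  have h0 : (0 : ℝ) < 2 * n := by positivity
  have h1 : (i : ℝ) / (2 * n) ∈ Icc (0 : ℝ) 1 :=
    ⟨by positivity, (div_le_one h0).2 (by exact_mod_cast hi)⟩
  refine max_le_iff.1 (hc i hi (gp n i) ?_)
  rw [gp, projIcc_of_mem _ h1]
  push_cast
  rw [mul_div_cancel₀ _ h0.ne']
  simp

end Pool.Agent.QL.BM
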