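import Pool.Agent.P.MP_7a6434d8_pr.QL.BM.ExcCnt

/-! Labelled plane trees as Dyck words with one label increment for every step. -/

open MeasureTheory ProbabilityTheory

namespace Pool.Agent.QL.BM

/-- the step `k` of the height sequence `C` goes up and is not yet closed at time `i` -/
def Opn (C : ℕ → ℤ) (i k : ℕ) : Prop := k < i ∧ ∀ j, k < j → j ≤ i → C k < C j

open Classical in
/-- label at time `i`: the sum of the increments `d k - 1` over the open steps -/
noncomputable def lbl (C : ℕ → ℤ) {m : ℕ} (d : Fin m → Fin 3) (i : ℕ) : ℤ :=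
  ∑ k : Fin m, if Opn C i k then ((d k : ℕ) : ℤ) - 1 else 0

/-- Dyck words of length `2 n`, for `n ≥ 1` -/
abbrev DyW (n : ℕ) : Type := {w : List Bool // w ∈ (Exc.Dy n).filter fun _ => 1 ≤ n}

/-- codes: a sign, a Dyck word, an increment for every step -/
def TT (n : ℕ) : Type := Bool × DyW n × (Fin (2 * n) → Fin 3)

instance (n : ℕ) : Fintype (TT n) :=
  inferInstanceAs (Fintype (Bool × DyW n × (Fin (2 * n) → Fin 3)))

instance (n : ℕ) : MeasurableSpace (TT n) := ⊤

instance (n : ℕ) : DiscreteMeasurableSpace (TT n) := ⟨fun _ => trivial⟩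

/-- the uniform law on codes -/
noncomputable def lamT (n : ℕ) : Measure (TT n) := uniformOn Set.univ

/-- contour function of a code -/
def TT.C {n : ℕ} (t : TT n) : ℕ → ℤ := Exc.ht t.2.1.1

/-- labels of a code -/
noncomputable def TT.l {n : ℕ} (t : TT n) : ℕ → ℤ := lbl t.C t.2.2

end Pool.Agent.QL.BM
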