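import Pool.Agent.P.MP_7a6434d8_pr.QL.Stmt2
import Pool.Agent.P.MP_7a6434d8_pr.QL.W.Base
import Pool.Agent.P.MP_7a6434d8_pr.QL.BM.TDefs
import Pool.Agent.P.MP_7a6434d8_pr.QL.BM.Cpl
import Pool.Agent.P.MP_7a6434d8_pr.QL.BM.LimDefs

/-! Interfaces of the convergence of quadrangulations to the Brownian map. -/

open MeasureTheory ProbabilityTheory Set Filter Topology Metric
open scoped ENNReal NNReal unitInterval BoundedContinuousFunction

namespace Pool.Agent.QL

instance : BorelSpace Snake := ⟨rfl⟩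
instance : PolishSpace Snake := inferInstanceAs (PolishSpace (C(I, ℝ) × C(I, ℝ)))
instance : Nonempty Snake := ⟨(0, 0)⟩

theorem Snake.continuous_fst : Continuous fun y : Snake => y.1 := _root_.continuous_fst

theorem Snake.continuous_snd : Continuous fun y : Snake => y.2 := _root_.continuous_snd

theorem Snake.measurable_e (t : I) : Measurable fun y : Snake => y.1 t :=
  ((continuous_eval_const t).comp Snake.continuous_fst).measurable

theorem Snake.measurable_Z (t : I) : Measurable fun y : Snake => y.2 t :=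
  ((continuous_eval_const t).comp Snake.continuous_snd).measurable

namespace BM

open Pool.Agent.P.MP_7a6434d8_pr

/-- Block CVS. -/
def CvsStmt : Prop :=
  ∃ (q : ∀ n, TT n → Quad n) (c : ∀ n t, ℕ → (q n t).Vertex) (v : ∀ n t, (q n t).Vertex),
    ∀ n, 1 ≤ n → (lamT n).map (fun t => rooted (q n t)) = uniformOn univ ∧
      (∀ t, Nat.card (q n t).Vertex = n + 2 ∧
        IsCoded n t.C t.l (c n t) (q n t).graph.dist (v n t)) ∧
      ∀ F : ℕ → ℝ, ((n : ℝ) + 2) * ∫ t, ∑ x, F ((q n t).graph.dist (v n t) x) ∂lamT n =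
        ∫ t, ∑ u, ∑ x, F ((q n t).graph.dist u x) ∂lamT n

/-- Block EXC: finite-dimensional convergence of the contour. -/
def ExcStmt : Prop :=
  ∀ S, IsSnake S → ∀ (k : ℕ) (t : Fin (k + 1) → I), StrictMono t → (∀ i, 0 < t i ∧ t i < 1) →
    ∀ F : (Fin (k + 1) → ℝ) →ᵇ ℝ,
      Tendsto (fun n => ∫ x, F fun j => (√(2 * n))⁻¹ * x.C (stepAt n (t j)) ∂lamT n)
        atTop (𝓝 (∫ y, F fun j => y.1 (t j) ∂S))

/-- Block MOD: modulus of continuity of the contour and of the labels. -/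
def ModStmt : Prop :=
  ∀ ε : ℝ, 0 < ε → ∃ θ : ℝ, 0 < θ ∧ ∀ᶠ n in atTop,
    lamT n {x | ∃ i ≤ 2 * n, ∃ j ≤ 2 * n, |(i : ℝ) - j| ≤ θ * (2 * n) ∧
      (ε * √(2 * n) < |(x.C i : ℝ) - x.C j| ∨ ε < cn n * |(x.l i : ℝ) - x.l j|)} ≤ ENNReal.ofReal ε

/-- Block SNAKE: contour and labels are coupled with the snake. -/
def SnakeStmt : Prop :=
  ∀ S, IsSnake S → ∀ η : ℝ, 0 < η → ∀ᶠ n in atTop, ∃ Θ : Measure (TT n × Snake),
    Θ.fst = lamT n ∧ Θ.snd = S ∧
    Θ {p | ¬ SnClose n (√(2 * n))⁻¹ (cn n) p.1.C p.1.l p.2.1 p.2.2 η} ≤ ENNReal.ofReal η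

end BM

end Pool.Agent.QL
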